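import Mathlib
import Pool.Agent.CH.Stmts
import Pool.Agent.GBQ.Stmts
import Pool.Agent.GBQ.Bad
import Pool.Agent.MT.Wt

set_option autoImplicit false

/-!
# CH / Fin

Fix a weight eta (MT.exists_wt), eps with A0 (log 3/4 - log 6/8 - cB/8) > 4 eps (log 3/4 - log 6/8 = log(3/2)/4.. precisely (2 log 3 - log 6)/8 = log(3/2)/8 > .0506, cB/8 <= .05), delta = min of the delta_1, 1/20.  Given m, n: r from St_Red, n' = n - r, N = n'/m, Sit holds (m <= (log n)^A_0 <= (log N)^(A_0+1)).  Consider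
S = sum over q <= N with q % l not in OmA l (l <= z) of lam(n'-mq) eta(q/N) (1 - (1/2) #{p <= y : p | q} - (1/2) bt z y q) >= SA - (1/2) SP - (1/2) sum bt lam eta.  For such q with x = n'-mq prime (x >= N/8 > y): l | q or (l <= w and l | q^2-2) for l <= z would give q % l in OmA l unless m q = n' mod l, i.e. l | x, impossible; so q is z-rough and q^2-2 is w-rough.
Switched sum: for x prime and bt = 1: lam(x) <= log n' <= (1+eps) log N and q % l is not in OmB l for all l <= y (c = q%l: c <> 0 as q = p1p2p3 with p1 > z .. [l = p_i possible for l in (z,y]! then c = 0, not in OmB either], c^2 = 2 excluded for l <= w, m q = n' would give l | x), so sum bt lam eta over x prime <= (1+eps) log N * St_SB.  Prime powers x: at most sqrt n' log n' values, each contributes <= 8 log n'.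
q with p^2 | q, z < p <= y: at most sum N/p^2 + 1 <= N/z + y, contribution <= log n' * that (weight is between -10 and 1).  Total S' >= eps UU - N^(0.9) > 0 (St_VLow for VV gB, St_Dens), so some q with x prime, weight > 0, squarefree part ok: St_Wt gives Omega(q) <= 2 (q <= 7N/8 < N <= y^3); q^2 - 2 >= 2 has all prime factors > w = floor(N^delta), Omega(q^2-2) <= 2/delta + 1 =: R.
p := x: p < n, (n - x)/m = (r + m q)/m = q.
-/

namespace Pool.Agent.CH

open Finset Filter Pool.Agent.MT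

/-- powers of the logarithm are small -/
theorem fin_log_pow (C : ℝ) (k : ℕ) {s : ℝ} (hs : 0 < s) :
    ∀ᶠ N : ℕ in atTop, C * Real.log N ^ k < (N : ℝ) ^ s := by
  have h1 := (isLittleO_log_rpow_rpow_atTop (k : ℝ) hs).def
    (show (0 : ℝ) < 1 / (2 * (|C| + 1)) by positivity)
  have h2 := tendsto_natCast_atTop_atTop.eventually h1
  filter_upwards [h2, eventually_ge_atTop 3] with N hN hN3
  have hN0 : (0 : ℝ) < N := by
    have : (3 : ℝ) ≤ N := by exact_mod_cast hN3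
    linarith
  have hlog : 0 ≤ Real.log N := Real.log_natCast_nonneg N
  rw [Real.rpow_natCast, Real.norm_of_nonneg (pow_nonneg hlog k),
    Real.norm_of_nonneg (Real.rpow_nonneg hN0.le s)] at hN
  have hpos : 0 < (N : ℝ) ^ s := Real.rpow_pos_of_pos hN0 s
  have hl : 0 ≤ Real.log N ^ k := pow_nonneg hlog k
  have h3 : |C| * Real.log N ^ k ≤ (|C| + 1) * (1 / (2 * (|C| + 1)) * (N : ℝ) ^ s) :=
    mul_le_mul (by linarith) hN hl (by positivity)
  have h4 : (|C| + 1) * (1 / (2 * (|C| + 1)) * (N : ℝ) ^ s) = (N : ℝ) ^ s / 2 := by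
    field_simp
  have h5 : C * Real.log N ^ k ≤ |C| * Real.log N ^ k :=
    mul_le_mul_of_nonneg_right (le_abs_self C) hl
  linarith

/-- number of `q ≤ N` such that `x = n' - m q` is a proper prime power -/
theorem fin_card_pp {N m n' : ℕ} (hm : 1 ≤ m) (hn : m * N ≤ n') (hn1 : 1 ≤ n') :
    (((range (N + 1)).filter (fun q => lam (n' - m * q) ≠ 0 ∧ ¬ (n' - m * q).Prime)).card : ℝ) ≤
      3 * (Real.sqrt n' * Real.log n') := by
  refine le_trans ?_ (GBQ.bad_card_pp hn1)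
  norm_cast
  have hle : ∀ q ∈ range (N + 1), m * q ≤ n' := fun q hq =>
    (Nat.mul_le_mul_left m (Nat.lt_succ_iff.1 (mem_range.1 hq))).trans hn
  apply card_le_card_of_injOn (fun q => n' - m * q)
  · intro q hq
    obtain ⟨hq1, hq2, hq3⟩ := mem_filter.1 hq
    unfold GBQ.badPP
    rw [mem_coe, mem_filter, mem_Ioc]
    refine ⟨⟨?_, Nat.sub_le _ _⟩, hq3, hq2⟩
    rcases Nat.eq_zero_or_pos (n' - m * q) with h | h
    · exfalso
      apply hq2
      rw [h]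
      simp [lam]
    · exact h
  · intro a ha b hb hab
    have ha1 := hle a (mem_filter.1 ha).1
    have hb1 := hle b (mem_filter.1 hb).1
    have hab' : n' - m * a = n' - m * b := hab
    have h : m * a = m * b := by omega
    exact Nat.eq_of_mul_eq_mul_left (by omega) h

/-- number of `q ≤ N` divisible by the square of a prime `> z` -/
theorem fin_card_sq {N z y : ℕ} (hz : 1 ≤ z) :
    (((Ioc 0 N).filter (fun q => ∃ p ∈ (pr y).filter (fun p => z < p), p ^ 2 ∣ q)).card : ℝ) ≤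
      (N : ℝ) / z := by
  have hsub : (Ioc 0 N).filter (fun q => ∃ p ∈ (pr y).filter (fun p => z < p), p ^ 2 ∣ q) ⊆
      ((pr y).filter (fun p => z < p)).biUnion (fun p => (Ioc 0 N).filter (fun q => p ^ 2 ∣ q)) := by
    intro q hq
    obtain ⟨hq1, p, hp, hq2⟩ := mem_filter.1 hq
    exact mem_biUnion.2 ⟨p, hp, mem_filter.2 ⟨hq1, hq2⟩⟩
  have h1 : (((Ioc 0 N).filter (fun q => ∃ p ∈ (pr y).filter (fun p => z < p), p ^ 2 ∣ q)).card : ℝ)
      ≤ ∑ p ∈ (pr y).filter (fun p => z < p), (((Ioc 0 N).filter (fun q => p ^ 2 ∣ q)).card : ℝ) := by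
    exact_mod_cast (card_le_card hsub).trans card_biUnion_le
  have h2 : ∑ p ∈ (pr y).filter (fun p => z < p), (((Ioc 0 N).filter (fun q => p ^ 2 ∣ q)).card : ℝ)
      ≤ ∑ p ∈ (pr y).filter (fun p => z < p), (N : ℝ) * ((p : ℝ) ^ 2)⁻¹ := by
    apply sum_le_sum
    intro p hp
    rw [Nat.Ioc_filter_dvd_card_eq_div]
    have := @Nat.cast_div_le ℝ _ _ _ N (p ^ 2)
    rw [← div_eq_mul_inv]
    push_cast at this
    exact this
  have h3 : ∑ p ∈ (pr y).filter (fun p => z < p), (N : ℝ) * ((p : ℝ) ^ 2)⁻¹ ≤ (N : ℝ) / z := by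
    rw [← mul_sum, div_eq_mul_inv]
    apply mul_le_mul_of_nonneg_left _ (Nat.cast_nonneg N)
    rcases le_total z y with hzy | hzy
    · have h4 : ∑ p ∈ (pr y).filter (fun p => z < p), ((p : ℝ) ^ 2)⁻¹ ≤
          ∑ p ∈ Ioc z y, ((p : ℝ) ^ 2)⁻¹ := by
        apply sum_le_sum_of_subset_of_nonneg
        · intro p hp
          obtain ⟨hp1, hp2⟩ := mem_filter.1 hp
          unfold pr at hp1
          rw [mem_filter, mem_range] at hp1
          rw [mem_Ioc]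
          omega
        · intro p _ _
          positivity
      have h5 := @sum_Ioc_inv_sq_le_sub ℝ _ _ _ z y (by omega) hzy
      have h6 : (0 : ℝ) ≤ (y : ℝ)⁻¹ := by positivity
      linarith
    · have h4 : (pr y).filter (fun p => z < p) = ∅ := by
        rw [filter_eq_empty_iff]
        intro p hp
        unfold pr at hp
        rw [mem_filter, mem_range] at hp
        omega
      rw [h4, sum_empty]
      positivity
  exact h1.trans (h2.trans h3)

/-- `x` has no small prime factor -/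
theorem fin_ndvd {m n' q l : ℕ} (hmq : m * q ≤ n') (hx : (n' - m * q).Prime) (hl : l.Prime)
    (hlx : l < n' - m * q) : (m * (q % l)) % l ≠ n' % l := by
  intro h
  have h1 : (m * q) % l = n' % l := by
    rw [← h, Nat.mul_mod_mod]
  have hd : l ∣ n' - m * q := (Nat.modEq_iff_dvd' hmq).1 h1
  rcases (Nat.dvd_prime hx).1 hd with h2 | h2
  · exact hl.one_lt.ne' h2
  · omega

theorem fin_mem_pr {z l : ℕ} : l ∈ pr z ↔ l ≤ z ∧ l.Prime := by
  unfold pr
  rw [mem_filter, mem_range]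
  constructor
  · rintro ⟨h1, h2⟩
    exact ⟨by omega, h2⟩
  · rintro ⟨h1, h2⟩
    exact ⟨by omega, h2⟩

/-- the switched sifting conditions -/
theorem fin_OmB {m n' w z y q : ℕ} (hwz : w ≤ z) (hmq : m * q ≤ n') (hx : (n' - m * q).Prime)
    (hyx : y < n' - m * q) (hzx : z < n' - m * q)
    (hA : ∀ l ∈ pr z, q % l ∉ OmA w m n' l) : ∀ l ∈ pr y, q % l ∉ OmB w m n' l := by
  intro l hl hc
  obtain ⟨hl1, hl2⟩ := fin_mem_pr.1 hl
  unfold OmB at hc
  rw [mem_filter] at hc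
  obtain ⟨hc1, hc2, hc3⟩ := hc
  rcases hc3 with ⟨h3, h4⟩ | h3
  · apply hA l (fin_mem_pr.2 ⟨h3.trans hwz, hl2⟩)
    unfold OmA
    rw [mem_filter]
    exact ⟨hc1, Or.inr ⟨h3, h4⟩, fin_ndvd hmq hx hl2 (by omega)⟩
  · exact fin_ndvd hmq hx hl2 (by omega) h3

/-- `q` is free of small prime factors -/
theorem fin_rough {m n' w z q : ℕ} (hmq : m * q ≤ n') (hx : (n' - m * q).Prime)
    (hzx : z < n' - m * q) (hA : ∀ l ∈ pr z, q % l ∉ OmA w m n' l) :
    ∀ l ∈ pr z, ¬ l ∣ q := by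
  intro l hl hd
  obtain ⟨hl1, hl2⟩ := fin_mem_pr.1 hl
  apply hA l hl
  unfold OmA
  rw [mem_filter, mem_range]
  exact ⟨Nat.mod_lt _ hl2.pos, Or.inl (Nat.mod_eq_zero_of_dvd hd),
    fin_ndvd hmq hx hl2 (by omega)⟩

/-- `q^2 - 2` is free of small prime factors -/
theorem fin_rough2 {m n' w z q : ℕ} (hwz : w ≤ z) (hmq : m * q ≤ n') (hx : (n' - m * q).Prime)
    (hzx : z < n' - m * q) (hq : 2 ≤ q) (hA : ∀ l ∈ pr z, q % l ∉ OmA w m n' l) :
    ∀ l ∈ pr w, ¬ l ∣ q ^ 2 - 2 := by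
  intro l hl hd
  obtain ⟨hl1, hl2⟩ := fin_mem_pr.1 hl
  apply hA l (fin_mem_pr.2 ⟨hl1.trans hwz, hl2⟩)
  unfold OmA
  rw [mem_filter, mem_range]
  have h4 : 2 ≤ q ^ 2 := by nlinarith
  refine ⟨Nat.mod_lt _ hl2.pos, Or.inr ⟨hl1, ?_⟩, fin_ndvd hmq hx hl2 (by omega)⟩
  rw [← Nat.pow_mod]
  exact ((Nat.modEq_iff_dvd' h4).2 hd).symm

/-- number of prime factors of a rough number -/
theorem fin_Omega {n w R : ℕ} {N δ : ℝ} (hN : 1 < N) (hδ : 0 < δ) (hn : n ≠ 0)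
    (hn2 : (n : ℝ) ≤ N ^ (2 : ℝ)) (hw : N ^ δ ≤ (w : ℝ) + 1) (hR : 2 / δ ≤ R)
    (h : ∀ l ∈ pr w, ¬ l ∣ n) : Nat.IsAtMostAlmostPrime R n := by
  refine ⟨hn, ?_⟩
  rw [ArithmeticFunction.cardFactors_apply]
  have h1 : (w + 1) ^ n.primeFactorsList.length ≤ n.primeFactorsList.prod := by
    apply List.pow_card_le_prod
    intro p hp
    have hp1 := Nat.prime_of_mem_primeFactorsList hp
    have hp2 := Nat.dvd_of_mem_primeFactorsList hp
    by_contra hcon
    exact h p (fin_mem_pr.2 ⟨by omega, hp1⟩) hp2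
  rw [Nat.prod_primeFactorsList hn] at h1
  have h2 : ((w : ℝ) + 1) ^ n.primeFactorsList.length ≤ N ^ (2 : ℝ) := by
    refine le_trans ?_ hn2
    exact_mod_cast h1
  have h3 : (N ^ δ) ^ n.primeFactorsList.length ≤ N ^ (2 : ℝ) :=
    (pow_le_pow_left₀ (Real.rpow_nonneg (by linarith) δ) hw _).trans h2
  rw [← Real.rpow_natCast, ← Real.rpow_mul (by linarith)] at h3
  have h4 := (Real.rpow_le_rpow_left_iff hN).1 h3
  have h5 : (n.primeFactorsList.length : ℝ) ≤ R := by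
    refine le_trans ?_ hR
    rw [le_div_iff₀ hδ]
    linarith
  exact_mod_cast h5

theorem fin_lam_nonneg (x : ℕ) : 0 ≤ lam x := ArithmeticFunction.vonMangoldt_nonneg

theorem fin_lam_le {x n : ℕ} (h : x ≤ n) : lam x ≤ Real.log n := by
  rcases Nat.eq_zero_or_pos x with h0 | h0
  · rw [h0]
    simp only [lam, ArithmeticFunction.map_zero]
    exact Real.log_natCast_nonneg n
  · exact ArithmeticFunction.vonMangoldt_le_log.trans
      (Real.log_le_log (by exact_mod_cast h0) (by exact_mod_cast h))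

theorem fin_bt_nonneg (z y q : ℕ) : 0 ≤ bt z y q := by
  unfold bt
  split_ifs <;> norm_num

theorem fin_bt_le_one (z y q : ℕ) : bt z y q ≤ 1 := by
  unfold bt
  split_ifs <;> norm_num

/-- double counting -/
theorem fin_double {N : ℕ} (A : ℕ → Prop) [DecidablePred A] (P : Finset ℕ) (f : ℕ → ℝ) :
    ∑ p ∈ P, ∑ q ∈ (range (N + 1)).filter (fun q => A q ∧ p ∣ q), f q =
      ∑ q ∈ (range (N + 1)).filter A, f q * ((P.filter (fun p => p ∣ q)).card : ℝ) := by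
  have h1 : ∀ p ∈ P, ∑ q ∈ (range (N + 1)).filter (fun q => A q ∧ p ∣ q), f q =
      ∑ q ∈ (range (N + 1)).filter A, if p ∣ q then f q else 0 := by
    intro p _
    rw [← filter_filter, sum_filter]
  rw [sum_congr rfl h1, sum_comm]
  apply sum_congr rfl
  intro q _
  rw [← sum_filter, sum_const, nsmul_eq_mul, mul_comm]

/-- the inequality between the three sums if there is no good `q` -/
theorem fin_ineq {η : ℝ → ℝ} (hη : IsWt η) {N m n' w z y : ℕ} (hm : 1 ≤ m) (hn : m * N ≤ n')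
    (hz : 1 ≤ z) (hwz : w ≤ z) (hzy : z ≤ y) (hy : 8 * (y + 1) < N)
    (hno : ∀ q ∈ range (N + 1), (∀ l ∈ pr z, q % l ∉ OmA w m n' l) → η ((q : ℝ) / N) ≠ 0 →
      (n' - m * q).Prime → (∀ p ∈ (pr y).filter (fun p => z < p), ¬ p ^ 2 ∣ q) →
      1 - (1 / 2) * ((((pr y).filter (fun p => z < p)).filter (fun p => p ∣ q)).card : ℝ) -
        (1 / 2) * bt z y q ≤ 0) :
    ∑ q ∈ (range (N + 1)).filter (fun q => ∀ l ∈ pr z, q % l ∉ OmA w m n' l),
        lam (n' - m * q) * η ((q : ℝ) / N) -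
      (1 / 2) * ∑ p ∈ (pr y).filter (fun p => z < p), ∑ q ∈ (range (N + 1)).filter
        (fun q => (∀ l ∈ pr z, q % l ∉ OmA w m n' l) ∧ p ∣ q),
          lam (n' - m * q) * η ((q : ℝ) / N) ≤
      (1 / 2) * (Real.log n' * ∑ q ∈ (range (N + 1)).filter
        (fun q => ∀ l ∈ pr y, q % l ∉ OmB w m n' l), bt z y q * η ((q : ℝ) / N)) +
      (3 / 2) * (Real.log n' * ((N : ℝ) / z + 3 * (Real.sqrt n' * Real.log n'))) := by
  have hN0 : 0 < N := by omega
  have hn1 : 1 ≤ n' := by nlinarith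
  have hL : 0 ≤ Real.log n' := Real.log_natCast_nonneg n'
  set Q := (range (N + 1)).filter (fun q => ∀ l ∈ pr z, q % l ∉ OmA w m n' l) with hQ
  set f : ℕ → ℝ := fun q => lam (n' - m * q) * η ((q : ℝ) / N) with hf
  set P := (pr y).filter (fun p => z < p) with hP
  set SQ := (Ioc 0 N).filter (fun q => ∃ p ∈ P, p ^ 2 ∣ q) with hSQ
  set PP := (range (N + 1)).filter (fun q => lam (n' - m * q) ≠ 0 ∧ ¬ (n' - m * q).Prime) with hPP
  rw [fin_double (fun q => ∀ l ∈ pr z, q % l ∉ OmA w m n' l) P f, ← hQ]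
  have hmq : ∀ q ∈ range (N + 1), m * q ≤ n' := fun q hq =>
    (Nat.mul_le_mul_left m (Nat.lt_succ_iff.1 (mem_range.1 hq))).trans hn
  have hf0 : ∀ q, 0 ≤ f q := fun q => mul_nonneg (fin_lam_nonneg _) (hη.nonneg _)
  have hfL : ∀ q, f q ≤ Real.log n' := fun q => by
    have h1 := fin_lam_le (Nat.sub_le n' (m * q))
    have h2 := hη.le_one ((q : ℝ) / N)
    have h3 := hη.nonneg ((q : ℝ) / N)
    have h4 := fin_lam_nonneg (n' - m * q)
    calc f q = lam (n' - m * q) * η ((q : ℝ) / N) := rfl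
      _ ≤ Real.log n' * 1 := mul_le_mul h1 h2 h3 hL
      _ = Real.log n' := mul_one _
  have hbig : ∀ q ∈ range (N + 1), η ((q : ℝ) / N) ≠ 0 → y < n' - m * q := by
    intro q hq hq2
    have h1 := (hη.supp _ hq2).2
    have hNr : (0 : ℝ) < N := by exact_mod_cast hN0
    rw [div_lt_iff₀ hNr] at h1
    have h2 : 8 * q < 7 * N := by
      have : (8 : ℝ) * q < 7 * N := by linarith
      exact_mod_cast this
    have h3 : m * (N - q) ≤ n' - m * q := by
      rw [Nat.mul_sub]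
      omega
    have h4 : N - q ≤ m * (N - q) := Nat.le_mul_of_pos_left _ (by omega)
    omega
  -- the weights
  have hW : ∀ q ∈ Q, f q * (1 - (1 / 2) * ((P.filter (fun p => p ∣ q)).card : ℝ) -
      (1 / 2) * bt z y q) ≤ Real.log n' * ((if q ∈ SQ then (1 : ℝ) else 0) +
        (if q ∈ PP then (1 : ℝ) else 0)) := by
    intro q hq
    obtain ⟨hq1, hq2⟩ := mem_filter.1 hq
    have hrhs : 0 ≤ Real.log n' * ((if q ∈ SQ then (1 : ℝ) else 0) +
        (if q ∈ PP then (1 : ℝ) else 0)) := by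
      apply mul_nonneg hL
      split_ifs <;> norm_num
    have hW1 : (1 - (1 / 2) * ((P.filter (fun p => p ∣ q)).card : ℝ) -
      (1 / 2) * bt z y q) ≤ 1 := by
      have := fin_bt_nonneg z y q
      have h2 : (0 : ℝ) ≤ ((P.filter (fun p => p ∣ q)).card : ℝ) := Nat.cast_nonneg _
      linarith
    have hfull : f q * (1 - (1 / 2) * ((P.filter (fun p => p ∣ q)).card : ℝ) -
      (1 / 2) * bt z y q) ≤ Real.log n' := by
      calc f q * (1 - (1 / 2) * ((P.filter (fun p => p ∣ q)).card : ℝ) - (1 / 2) * bt z y q)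
          ≤ f q * 1 := mul_le_mul_of_nonneg_left hW1 (hf0 q)
        _ ≤ Real.log n' := by rw [mul_one]; exact hfL q
    by_cases h0 : f q = 0
    · rw [h0, zero_mul]
      exact hrhs
    have hη0 : η ((q : ℝ) / N) ≠ 0 := by
      intro h
      apply h0
      simp only [hf, h, mul_zero]
    have hlam0 : lam (n' - m * q) ≠ 0 := by
      intro h
      apply h0
      simp only [hf, h, zero_mul]
    by_cases h1 : q ∈ SQ
    · refine hfull.trans ?_
      rw [if_pos h1]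
      have : (0 : ℝ) ≤ (if q ∈ PP then (1 : ℝ) else 0) := by split_ifs <;> norm_num
      nlinarith
    by_cases h2 : q ∈ PP
    · refine hfull.trans ?_
      rw [if_pos h2, if_neg h1]
      linarith
    have hpr : (n' - m * q).Prime := by
      by_contra hcon
      exact h2 (mem_filter.2 ⟨hq1, hlam0, hcon⟩)
    have hqpos : 0 < q := by
      rcases Nat.eq_zero_or_pos q with h | h
      · exfalso
        apply hη0
        rw [h]
        apply wt_zero_of_small η hη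
        norm_num
      · exact h
    have hsq : ∀ p ∈ P, ¬ p ^ 2 ∣ q := by
      intro p hp hd
      apply h1
      rw [hSQ, mem_filter, mem_Ioc]
      exact ⟨⟨hqpos, Nat.lt_succ_iff.1 (mem_range.1 hq1)⟩, p, hp, hd⟩
    have h3 := hno q hq1 hq2 hη0 hpr hsq
    exact (mul_nonpos_of_nonneg_of_nonpos (hf0 q) h3).trans hrhs
  -- the switched part
  have hB : ∀ q ∈ Q, f q * bt z y q ≤ Real.log n' *
      (if ∀ l ∈ pr y, q % l ∉ OmB w m n' l then bt z y q * η ((q : ℝ) / N) else 0) +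
      Real.log n' * (if q ∈ PP then (1 : ℝ) else 0) := by
    intro q hq
    obtain ⟨hq1, hq2⟩ := mem_filter.1 hq
    have hb0 := fin_bt_nonneg z y q
    have hη1 := hη.nonneg ((q : ℝ) / N)
    have hr1 : 0 ≤ Real.log n' *
      (if ∀ l ∈ pr y, q % l ∉ OmB w m n' l then bt z y q * η ((q : ℝ) / N) else 0) := by
      apply mul_nonneg hL
      split_ifs
      · exact mul_nonneg hb0 hη1
      · exact le_refl 0
    have hr2 : 0 ≤ Real.log n' * (if q ∈ PP then (1 : ℝ) else 0) := by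
      apply mul_nonneg hL
      split_ifs <;> norm_num
    by_cases h0 : f q = 0
    · rw [h0, zero_mul]
      linarith
    have hη0 : η ((q : ℝ) / N) ≠ 0 := by
      intro h
      apply h0
      simp only [hf, h, mul_zero]
    have hlam0 : lam (n' - m * q) ≠ 0 := by
      intro h
      apply h0
      simp only [hf, h, zero_mul]
    by_cases h2 : q ∈ PP
    · rw [if_pos h2, mul_one]
      have h3 : f q * bt z y q ≤ Real.log n' * 1 :=
        mul_le_mul (hfL q) (fin_bt_le_one z y q) hb0 hL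
      linarith
    have hpr : (n' - m * q).Prime := by
      by_contra hcon
      exact h2 (mem_filter.2 ⟨hq1, hlam0, hcon⟩)
    have hyx := hbig q hq1 hη0
    rw [if_pos (fin_OmB hwz (hmq q hq1) hpr hyx (by omega) hq2)]
    have h3 : f q * bt z y q ≤ Real.log n' * (bt z y q * η ((q : ℝ) / N)) := by
      have h4 := fin_lam_le (Nat.sub_le n' (m * q))
      calc f q * bt z y q = lam (n' - m * q) * (bt z y q * η ((q : ℝ) / N)) := by
            simp only [hf]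
            ring
        _ ≤ Real.log n' * (bt z y q * η ((q : ℝ) / N)) :=
            mul_le_mul_of_nonneg_right h4 (mul_nonneg hb0 hη1)
    linarith
  have hsumSQ : ∑ q ∈ Q, (if q ∈ SQ then (1 : ℝ) else 0) ≤ (N : ℝ) / z := by
    refine le_trans ?_ (fin_card_sq (N := N) (z := z) (y := y) hz)
    rw [← sum_filter, sum_const, nsmul_eq_mul, mul_one]
    exact_mod_cast card_le_card (fun q hq => (mem_filter.1 hq).2)
  have hsumPP : ∑ q ∈ Q, (if q ∈ PP then (1 : ℝ) else 0) ≤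
      3 * (Real.sqrt n' * Real.log n') := by
    refine le_trans ?_ (fin_card_pp hm hn hn1)
    rw [← sum_filter, sum_const, nsmul_eq_mul, mul_one]
    exact_mod_cast card_le_card (fun q hq => (mem_filter.1 hq).2)
  have hBsum : ∑ q ∈ Q, (if ∀ l ∈ pr y, q % l ∉ OmB w m n' l then bt z y q * η ((q : ℝ) / N)
      else 0) ≤ ∑ q ∈ (range (N + 1)).filter (fun q => ∀ l ∈ pr y, q % l ∉ OmB w m n' l),
        bt z y q * η ((q : ℝ) / N) := by
    rw [← sum_filter]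
    apply sum_le_sum_of_subset_of_nonneg
    · intro q hq
      obtain ⟨hq1, hq2⟩ := mem_filter.1 hq
      exact mem_filter.2 ⟨(mem_filter.1 hq1).1, hq2⟩
    · intro q _ _
      exact mul_nonneg (fin_bt_nonneg z y q) (hη.nonneg _)
  have hS1 := sum_le_sum hW
  have hS2 := sum_le_sum hB
  rw [← mul_sum, sum_add_distrib] at hS1
  rw [sum_add_distrib, ← mul_sum, ← mul_sum] at hS2
  have hS3 : ∑ q ∈ Q, f q * (1 - (1 / 2) * ((P.filter (fun p => p ∣ q)).card : ℝ) -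
      (1 / 2) * bt z y q) = ∑ q ∈ Q, f q -
        (1 / 2) * ∑ q ∈ Q, f q * ((P.filter (fun p => p ∣ q)).card : ℝ) -
        (1 / 2) * ∑ q ∈ Q, f q * bt z y q := by
    rw [mul_sum, mul_sum, ← sum_sub_distrib, ← sum_sub_distrib]
    apply sum_congr rfl
    intro q _
    ring
  rw [hS3] at hS1
  have hm1 := mul_le_mul_of_nonneg_left hsumSQ hL
  have hm2 := mul_le_mul_of_nonneg_left hsumPP hL
  have hm3 := mul_le_mul_of_nonneg_left hBsum hL
  have hnn : 0 ≤ Real.log n' * ((N : ℝ) / z) := by positivity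
  nlinarith [hS1, hS2, hm1, hm2, hm3, hnn]

theorem fin_int {η : ℝ → ℝ} (hη : IsWt η) : 1 / 2 ≤ ∫ t in (0 : ℝ)..1, η t := by
  have hc : Continuous η := hη.smooth.continuous
  have hi : ∀ a b : ℝ, IntervalIntegrable η MeasureTheory.volume a b :=
    fun a b => hc.intervalIntegrable a b
  have h1 : ∫ t in (0 : ℝ)..1, η t = (∫ t in (0 : ℝ)..(1 / 4), η t) +
      (∫ t in (1 / 4 : ℝ)..(3 / 4), η t) + ∫ t in (3 / 4 : ℝ)..1, η t := by
    rw [intervalIntegral.integral_add_adjacent_intervals (hi _ _) (hi _ _),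
      intervalIntegral.integral_add_adjacent_intervals (hi _ _) (hi _ _)]
  have h2 : ∫ t in (1 / 4 : ℝ)..(3 / 4), η t = 1 / 2 := by
    have h3 : ∫ t in (1 / 4 : ℝ)..(3 / 4), η t = ∫ t in (1 / 4 : ℝ)..(3 / 4), (1 : ℝ) := by
      apply intervalIntegral.integral_congr
      intro t ht
      rw [Set.uIcc_of_le (by norm_num)] at ht
      exact hη.one t ht.1 ht.2
    rw [h3]
    simp
    norm_num
  have h3 : 0 ≤ ∫ t in (0 : ℝ)..(1 / 4), η t :=
    intervalIntegral.integral_nonneg (by norm_num) (fun t _ => hη.nonneg t)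
  have h4 : 0 ≤ ∫ t in (3 / 4 : ℝ)..1, η t :=
    intervalIntegral.integral_nonneg (by norm_num) (fun t _ => hη.nonneg t)
  linarith

/-- the constant is positive -/
theorem fin_kappa {A0 : ℝ} (hA0 : 0 < A0) (h1 : St_cB) :
    0 < A0 * (Real.log 3 / 4) - A0 * (Real.log 6 / 4) / 2 - A0 * (cB / 4) / 2 := by
  have h2 : (2 / 5 : ℝ) < Real.log 3 + Real.log 3 - Real.log 6 := by
    have h3 : Real.log 3 + Real.log 3 - Real.log 6 = Real.log (3 / 2) := by
      rw [← Real.log_mul (by norm_num) (by norm_num), ← Real.log_div (by norm_num) (by norm_num)]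
      norm_num
    rw [h3]
    have h4 := Real.lt_log_one_add_of_pos (x := 1 / 2) (by norm_num)
    norm_num at h4 ⊢
    linarith
  unfold St_cB at h1
  have h5 : 0 < Real.log 3 + Real.log 3 - Real.log 6 - cB := by linarith
  nlinarith [mul_pos hA0 h5]

/-- the numerical end of the argument -/
theorem fin_num {κ c : ℝ} {k : ℕ} {N L Lg U T sq z : ℝ} (hκ : 0 < κ) (hc : 0 < c) (hN : 0 < N)
    (hLg : 1 ≤ Lg) (hL0 : 0 ≤ L) (hL : L ≤ 2 * Lg) (hT : 0 < T) (hTz : T ≤ 2 * z)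
    (hTN : T * sq = N) (hU : (1 / 2) * N * (c / Lg ^ k) ≤ U) {sn : ℝ} (hsn0 : 0 ≤ sn)
    (hsn : sn ≤ sq) (hfin : 96 / (κ * c) * Lg ^ (k + 2) < T)
    (h : κ / 2 * U ≤ (3 / 2) * (L * (N / z + 3 * (sn * L)))) : False := by
  have hz : 0 < z := by linarith
  have hsq : 0 < sq := by
    by_contra hcon
    have : T * sq ≤ 0 := mul_nonpos_of_nonneg_of_nonpos hT.le (not_lt.1 hcon)
    linarith
  have hNz : N / z ≤ 2 * sq := by
    rw [div_le_iff₀ hz, ← hTN]
    nlinarith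
  have h1 : sn * L ≤ sq * (2 * Lg) := mul_le_mul hsn hL hL0 hsq.le
  have h2 : N / z + 3 * (sn * L) ≤ 8 * (sq * Lg) := by nlinarith
  have h3 : L * (N / z + 3 * (sn * L)) ≤ (2 * Lg) * (8 * (sq * Lg)) := by
    apply mul_le_mul hL h2 _ (by linarith)
    have : 0 ≤ N / z := by positivity
    have : 0 ≤ sn * L := mul_nonneg hsn0 hL0
    linarith
  have h4 : κ / 2 * ((1 / 2) * N * (c / Lg ^ k)) ≤ κ / 2 * U :=
    mul_le_mul_of_nonneg_left hU (by linarith)
  have h5 : κ / 2 * ((1 / 2) * N * (c / Lg ^ k)) ≤ 24 * sq * Lg ^ 2 := by nlinarith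
  have hLk : 0 < Lg ^ k := by positivity
  have h6 : κ * c * N ≤ 96 * sq * Lg ^ (k + 2) := by
    have h7 : κ / 2 * ((1 / 2) * N * (c / Lg ^ k)) * (4 * Lg ^ k) = κ * c * N := by
      field_simp
      ring
    have h8 : 24 * sq * Lg ^ 2 * (4 * Lg ^ k) = 96 * sq * Lg ^ (k + 2) := by ring
    rw [← h7, ← h8]
    exact mul_le_mul_of_nonneg_right h5 (by positivity)
  have h9 : 96 * Lg ^ (k + 2) < κ * c * T := by
    have hkc : 0 < κ * c := mul_pos hκ hc
    have h10 := mul_lt_mul_of_pos_left hfin hkc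
    have h11 : κ * c * (96 / (κ * c) * Lg ^ (k + 2)) = 96 * Lg ^ (k + 2) := by
      field_simp
    rw [h11] at h10
    exact h10
  have h10 : 96 * Lg ^ (k + 2) * sq < κ * c * T * sq := mul_lt_mul_of_pos_right h9 hsq
  have h11 : κ * c * T * sq = κ * c * N := by
    rw [← hTN]
    ring
  rw [h11] at h10
  linarith

/-- a `q` of positive weight is good -/
theorem fin_good (h2 : St_Wt) {η : ℝ → ℝ} (hη : IsWt η) {N m n' w z y : ℕ} {δ : ℝ} (hm : 1 ≤ m)
    (hmN : m * N ≤ n') (hN100 : 100 ≤ N) (hwz : w ≤ z) (hzy : z ≤ y) (hy8 : 8 * (y + 1) < N)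
    (hy3 : N ≤ y ^ 3) (hδ : 0 < δ) (hwδ : (N : ℝ) ^ δ ≤ (w : ℝ) + 1) (hN1 : (1 : ℝ) < N)
    (hcon : ∀ q : ℕ, 1 ≤ q → q ≤ N → (n' - m * q).Prime → Nat.IsAtMostAlmostPrime 2 q →
      ¬ Nat.IsAtMostAlmostPrime ⌈2 / δ⌉₊ (q ^ 2 - 2)) :
    ∀ q ∈ range (N + 1), (∀ l ∈ pr z, q % l ∉ OmA w m n' l) →
      η ((q : ℝ) / N) ≠ 0 → (n' - m * q).Prime →
      (∀ p ∈ (pr y).filter (fun p => z < p), ¬ p ^ 2 ∣ q) →
      1 - (1 / 2) * ((((pr y).filter (fun p => z < p)).filter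
        (fun p => p ∣ q)).card : ℝ) - (1 / 2) * bt z y q ≤ 0 := by
  intro q hq hA hη0 hpr hsq
  by_contra hW
  have hN0 : (0 : ℝ) < N := by linarith
  have hq1 : q ≤ N := Nat.lt_succ_iff.1 (mem_range.1 hq)
  have hmq : m * q ≤ n' := (Nat.mul_le_mul_left m hq1).trans hmN
  obtain ⟨hs1, hs2⟩ := hη.supp _ hη0
  rw [lt_div_iff₀ hN0] at hs1
  rw [div_lt_iff₀ hN0] at hs2
  have hq2 : 8 * q < 7 * N := by
    have : (8 : ℝ) * q < 7 * N := by linarith
    exact_mod_cast this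
  have hq3 : N < 8 * q := by
    have : (N : ℝ) < 8 * q := by linarith
    exact_mod_cast this
  have hx : y < n' - m * q := by
    have h5 : m * (N - q) ≤ n' - m * q := by
      rw [Nat.mul_sub]
      omega
    have h6 : N - q ≤ m * (N - q) := Nat.le_mul_of_pos_left _ (by omega)
    omega
  have hzx : z < n' - m * q := by omega
  have hr := fin_rough hmq hpr hzx hA
  have hr2 := fin_rough2 hwz hmq hpr hzx (by omega) hA
  have hpz : ∀ p : ℕ, p.Prime → p ∣ q → z < p := by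
    intro p hp hd
    by_contra h5
    exact hr p (fin_mem_pr.2 ⟨by omega, hp⟩) hd
  have hfe : ((pr y).filter (fun p => z < p)).filter (fun p => p ∣ q) =
      (pr y).filter (fun p => p ∣ q) := by
    rw [filter_filter]
    apply filter_congr
    intro p hp
    constructor
    · rintro ⟨-, h5⟩
      exact h5
    · intro h5
      exact ⟨hpz p (fin_mem_pr.1 hp).2 h5, h5⟩
  rw [hfe, not_le] at hW
  have hO := h2 z y q (by omega) (by omega) hpz ?_ hW
  · refine hcon q (by omega) hq1 hpr hO ?_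
    have h4q : 4 ≤ q := by omega
    have h5 : 2 < q ^ 2 := by nlinarith
    have h6 : q ^ 2 - 2 ≤ N ^ 2 := (Nat.sub_le _ _).trans (Nat.pow_le_pow_left hq1 2)
    have h7 : ((q ^ 2 - 2 : ℕ) : ℝ) ≤ (N : ℝ) ^ (2 : ℝ) := by
      rw [Real.rpow_two]
      exact_mod_cast h6
    exact fin_Omega hN1 hδ (by omega) h7 hwδ (Nat.le_ceil _) hr2
  · intro p hp hpy hd
    exact hsq p (mem_filter.2 ⟨fin_mem_pr.2 ⟨hpy, hp⟩, hpz p hp ((dvd_pow_self p
      (by norm_num)).trans hd)⟩) hd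

theorem fin_SB_nonneg {η : ℝ → ℝ} (hη : IsWt η) (N z y w m n' : ℕ) :
    0 ≤ ∑ q ∈ (range (N + 1)).filter (fun q => ∀ l ∈ pr y, q % l ∉ OmB w m n' l),
      bt z y q * η ((q : ℝ) / N) :=
  sum_nonneg (fun q _ => mul_nonneg (fin_bt_nonneg _ _ q) (hη.nonneg _))

/-- the main inequality, only real numbers -/
theorem fin_alg {A0 l3 l6 cb κ ε U L Lg SA SP SB E : ℝ} (hA0 : 0 < A0)
    (hκ : κ = A0 * (l3 / 4) - A0 * (l6 / 4) / 2 - A0 * (cb / 4) / 2) (hε : 0 < ε)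
    (hε2 : ε * (3 + A0) ≤ κ / 2) (hcb : cb ≤ 2 / 5) (hLg : 0 < Lg) (hL : L ≤ (1 + ε) * Lg)
    (hU0 : 0 ≤ U) (hSB0 : 0 ≤ SB) (hSA : (A0 * (l3 / 4) - ε) * U ≤ SA)
    (hSP : SP ≤ (A0 * (l6 / 4) + ε) * U) (hSB : SB ≤ (A0 * (cb / 4) + ε) * U / Lg)
    (hmain : SA - (1 / 2) * SP ≤ (1 / 2) * (L * SB) + (3 / 2) * E) (hε1 : ε ≤ 1 / 10) :
    κ / 2 * U ≤ (3 / 2) * E := by
  have hLSB : L * SB ≤ (1 + ε) * ((A0 * (cb / 4) + ε) * U) := by
    have h5 : L * SB ≤ ((1 + ε) * Lg) * SB := mul_le_mul_of_nonneg_right hL hSB0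
    have h6 : ((1 + ε) * Lg) * SB ≤ ((1 + ε) * Lg) * ((A0 * (cb / 4) + ε) * U / Lg) :=
      mul_le_mul_of_nonneg_left hSB (by positivity)
    have h7 : ((1 + ε) * Lg) * ((A0 * (cb / 4) + ε) * U / Lg) =
        (1 + ε) * ((A0 * (cb / 4) + ε) * U) := by
      have : Lg ≠ 0 := hLg.ne'
      field_simp
    rw [h7] at h6
    exact h5.trans h6
  have hA0cB : A0 * (cb / 4) ≤ A0 * (1 / 10) := mul_le_mul_of_nonneg_left (by linarith) hA0.le
  have h5 : ε * (2 + A0 * (cb / 4) / 2 + ε / 2) ≤ κ / 2 := by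
    refine le_trans (mul_le_mul_of_nonneg_left ?_ hε.le) hε2
    linarith
  have h6 : κ / 2 * U ≤ (κ - ε * (2 + A0 * (cb / 4) / 2 + ε / 2)) * U :=
    mul_le_mul_of_nonneg_right (by linarith) hU0
  have h7 : (κ - ε * (2 + A0 * (cb / 4) / 2 + ε / 2)) * U =
      (A0 * (l3 / 4) - ε) * U - (1 / 2) * ((A0 * (l6 / 4) + ε) * U) -
      (1 / 2) * ((1 + ε) * ((A0 * (cb / 4) + ε) * U)) := by
    rw [hκ]
    ring
  rw [h7] at h6
  linarith

theorem fin_core (h0 : ∃ A0 : ℝ, 0 < A0 ∧ St_SA A0 ∧ St_SP A0 ∧ St_SB A0) (h1 : St_cB)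
    (h2 : St_Wt) (h3 : St_VLow) (h4 : St_Dens) : ∃ R : ℕ, ∀ A₀ : ℕ, ∀ᶠ N : ℕ in atTop,
    ∀ m n' : ℕ, Sit N m n' A₀ → ∃ q : ℕ, 1 ≤ q ∧ q ≤ N ∧ (n' - m * q).Prime ∧
      Nat.IsAtMostAlmostPrime 2 q ∧ Nat.IsAtMostAlmostPrime R (q ^ 2 - 2) := by
  obtain ⟨A0, hA0, hSA, hSP, hSB⟩ := h0
  obtain ⟨η, hη⟩ := exists_wt
  obtain ⟨κ, hκdef⟩ : ∃ κ : ℝ, κ = A0 * (Real.log 3 / 4) - A0 * (Real.log 6 / 4) / 2 -
    A0 * (cB / 4) / 2 := ⟨_, rfl⟩
  have hκ : 0 < κ := hκdef ▸ fin_kappa hA0 h1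
  obtain ⟨ε, hεdef⟩ : ∃ ε : ℝ, ε = min (1 / 10) (κ / (2 * (3 + A0))) := ⟨_, rfl⟩
  have hε : 0 < ε := hεdef ▸ lt_min (by norm_num) (by positivity)
  have hε1 : ε ≤ 1 / 10 := hεdef ▸ min_le_left _ _
  have hε2 : ε * (3 + A0) ≤ κ / 2 := by
    have h5 : ε ≤ κ / (2 * (3 + A0)) := hεdef ▸ min_le_right _ _
    rw [le_div_iff₀ (by positivity)] at h5
    linarith
  obtain ⟨δa, hδa, hSA⟩ := hSA η hη ε hε
  obtain ⟨δp, hδp, hSP⟩ := hSP η hη ε hε
  obtain ⟨δb, hδb, hSB⟩ := hSB η hη ε hε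
  obtain ⟨δ, hδ, hδ1, hδ2, hδ3, hδ4⟩ : ∃ δ : ℝ, 0 < δ ∧ δ ≤ δa ∧ δ ≤ δp ∧ δ ≤ δb ∧
      δ ≤ 1 / 20 := ⟨min (min δa δp) (min δb (1 / 20)),
    lt_min (lt_min hδa hδp) (lt_min hδb (by norm_num)),
    (min_le_left _ _).trans (min_le_left _ _), (min_le_left _ _).trans (min_le_right _ _),
    (min_le_right _ _).trans (min_le_left _ _), (min_le_right _ _).trans (min_le_right _ _)⟩
  obtain ⟨c, k, hc, hVL⟩ := h3
  refine ⟨⌈2 / δ⌉₊, fun A₀ => ?_⟩
  filter_upwards [hSA δ hδ hδ1 A₀, hSP δ hδ hδ2 A₀, hSB δ hδ hδ3 A₀, fin_log_pow 2 A₀ hε,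
    fin_log_pow 2 0 (show (0 : ℝ) < 1 / 8 by norm_num),
    fin_log_pow 24 0 (show (0 : ℝ) < 2 / 3 by norm_num),
    fin_log_pow (96 / (κ * c)) (k + 2) (show (0 : ℝ) < 1 / 8 by norm_num),
    eventually_ge_atTop 100] with N hSA hSP hSB hE1 hE2 hE3 hE4 hN100 m n' hSit
  have hSA := hSA m n' hSit
  have hSP := hSP m n' hSit
  have hSB := hSB m n' hSit
  obtain ⟨hm, hmlog, hcop, hpar, hmN, hmN1⟩ := hSit
  have hNr : (100 : ℝ) ≤ N := by exact_mod_cast hN100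
  have hN0 : (0 : ℝ) < N := by linarith
  have hN1 : (1 : ℝ) ≤ N := by linarith
  rw [pow_zero, mul_one] at hE2 hE3
  have hLg : 1 ≤ Real.log N := by
    rw [Real.le_log_iff_exp_le hN0]
    have := Real.exp_one_lt_d9
    linarith
  -- the parameters
  have hz2 : 2 ≤ zN N := by
    unfold zN
    apply Nat.le_floor
    exact_mod_cast hE2.le
  have hzT : (N : ℝ) ^ (1 / 8 : ℝ) ≤ 2 * (zN N : ℝ) := by
    have h5 : (N : ℝ) ^ (1 / 8 : ℝ) < (zN N : ℝ) + 1 := Nat.lt_floor_add_one _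
    have h6 : (2 : ℝ) ≤ zN N := by exact_mod_cast hz2
    linarith
  have hzN : (zN N : ℝ) ≤ (N : ℝ) ^ (1 / 8 : ℝ) := Nat.floor_le (Real.rpow_nonneg hN0.le _)
  have hyge : (N : ℝ) ^ (1 / 3 : ℝ) ≤ yN N := Nat.le_ceil _
  have hylt : (yN N : ℝ) < (N : ℝ) ^ (1 / 3 : ℝ) + 1 := Nat.ceil_lt_add_one (Real.rpow_nonneg hN0.le _)
  have hT1 : 1 ≤ (N : ℝ) ^ (1 / 3 : ℝ) := Real.one_le_rpow hN1 (by norm_num)
  have hy8 : 8 * (yN N + 1) < N := by
    have h5 : (N : ℝ) ^ (1 / 3 : ℝ) * (N : ℝ) ^ (2 / 3 : ℝ) = N := by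
      rw [← Real.rpow_add hN0]
      norm_num
    have h6 : (8 : ℝ) * (yN N + 1) < N := by nlinarith
    exact_mod_cast h6
  have hzy : zN N ≤ yN N := by
    have h5 : (N : ℝ) ^ (1 / 8 : ℝ) ≤ (N : ℝ) ^ (1 / 3 : ℝ) :=
      Real.rpow_le_rpow_of_exponent_le hN1 (by norm_num)
    have h6 : (zN N : ℝ) ≤ yN N := by linarith
    exact_mod_cast h6
  have hwz : wN δ N ≤ zN N := by
    unfold wN zN
    exact Nat.floor_le_floor (Real.rpow_le_rpow_of_exponent_le hN1 (by linarith))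
  have hwδ : (N : ℝ) ^ δ ≤ (wN δ N : ℝ) + 1 := (Nat.lt_floor_add_one _).le
  have hy3 : N ≤ yN N ^ 3 := by
    have h5 : ((N : ℝ) ^ (1 / 3 : ℝ)) ^ 3 = N := by
      rw [← Real.rpow_natCast, ← Real.rpow_mul hN0.le]
      norm_num
    have h6 : ((N : ℝ) ^ (1 / 3 : ℝ)) ^ 3 ≤ (yN N : ℝ) ^ 3 :=
      pow_le_pow_left₀ (by linarith) hyge 3
    rw [h5] at h6
    exact_mod_cast h6
  -- size of n'
  have hn'1 : 1 ≤ n' := by nlinarith
  have hn'r : (n' : ℝ) ≤ (N : ℝ) ^ (1 + ε) := by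
    have h5 : (n' : ℝ) ≤ m * (N + 1) := by exact_mod_cast hmN1.le
    have h6 : (m : ℝ) * (N + 1) ≤ Real.log N ^ A₀ * (2 * N) :=
      mul_le_mul hmlog (by linarith) (by linarith) (by positivity)
    have h7 : Real.log N ^ A₀ * (2 * N) = (2 * Real.log N ^ A₀) * N := by ring
    have h8 : (2 * Real.log N ^ A₀) * N ≤ (N : ℝ) ^ ε * N :=
      mul_le_mul_of_nonneg_right hE1.le hN0.le
    have h9 : (N : ℝ) ^ (1 + ε) = (N : ℝ) ^ ε * N := by
      rw [add_comm, Real.rpow_add hN0, Real.rpow_one]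
    rw [h9]
    linarith
  have hL0 : 0 ≤ Real.log n' := Real.log_natCast_nonneg n'
  have hn'0 : (0 : ℝ) < n' := by exact_mod_cast hn'1
  have hL : Real.log n' ≤ (1 + ε) * Real.log N := by
    rw [← Real.log_rpow hN0]
    exact Real.log_le_log hn'0 hn'r
  have hsn : Real.sqrt n' ≤ (N : ℝ) ^ (7 / 8 : ℝ) := by
    rw [Real.sqrt_le_left (Real.rpow_nonneg hN0.le _), ← Real.rpow_natCast,
      ← Real.rpow_mul hN0.le]
    refine hn'r.trans (Real.rpow_le_rpow_of_exponent_le hN1 ?_)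
    push_cast
    linarith
  -- the unit
  have hI := fin_int hη
  have hV : c / Real.log N ^ k ≤ VV (gB (wN δ N) m n') (zN N) := by
    refine le_trans ?_ (hVL (zN N) (gB (wN δ N) m n') hz2 ?_)
    · have h5 : 0 < Real.log (zN N) := Real.log_pos (by exact_mod_cast hz2)
      have h6 : (zN N : ℝ) ≤ N := hzN.trans (by
        calc (N : ℝ) ^ (1 / 8 : ℝ) ≤ (N : ℝ) ^ (1 : ℝ) :=
              Real.rpow_le_rpow_of_exponent_le hN1 (by norm_num)
          _ = N := Real.rpow_one _)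
      have h7 : Real.log (zN N) ≤ Real.log N :=
        Real.log_le_log (by exact_mod_cast (by omega : 0 < zN N)) h6
      exact div_le_div_of_nonneg_left hc.le (pow_pos h5 k) (pow_le_pow_left₀ h5.le h7 k)
    · intro l hl
      obtain ⟨hD, -, -⟩ := h4 (wN δ N) m n' hm hcop hpar
      obtain ⟨-, -, -, -, -, h5, h6, h7⟩ := hD l hl
      exact ⟨h5, h6, h7⟩
  have hcl : 0 ≤ c / Real.log N ^ k := by positivity
  have hU : (1 / 2) * N * (c / Real.log N ^ k) ≤ UU η δ N m n' := by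
    unfold UU
    apply mul_le_mul _ hV hcl (by positivity)
    exact mul_le_mul_of_nonneg_right hI hN0.le
  have hU0 : 0 ≤ UU η δ N m n' := le_trans (by positivity) hU
  by_contra hcon
  push Not at hcon
  have hno := fin_good h2 hη hm hmN (by omega) hwz hzy hy8 hy3 hδ hwδ (by linarith) hcon
  have hmain := fin_ineq hη hm hmN (by omega : 1 ≤ zN N) hwz hzy hy8 hno
  have hSB0 := fin_SB_nonneg hη N (zN N) (yN N) (wN δ N) m n'
  have hcB : cB ≤ 2 / 5 := h1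
  have hkey := fin_alg hA0 hκdef hε hε2 hcB (by linarith : 0 < Real.log N) hL hU0 hSB0 hSA hSP hSB
    hmain hε1
  refine fin_num (k := k) (N := N) (T := (N : ℝ) ^ (1 / 8 : ℝ)) (sq := (N : ℝ) ^ (7 / 8 : ℝ))
    hκ hc hN0 hLg hL0 ?_ (Real.rpow_pos_of_pos hN0 _) hzT ?_ hU (Real.sqrt_nonneg _) hsn hE4 hkey
  · refine hL.trans (mul_le_mul_of_nonneg_right (by linarith) (by linarith))
  · rw [← Real.rpow_add hN0]
    norm_num

/-- keep this signature -/
theorem thm_Fin (h0 : ∃ A0 : ℝ, 0 < A0 ∧ St_SA A0 ∧ St_SP A0 ∧ St_SB A0) (h1 : St_cB) (h2 : St_Wt) (h3 : St_VLow) (h4 : St_Dens) (h5 : Pool.Agent.GBQ.St_Red) : St_Chen := by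
  obtain ⟨R, hR⟩ := fin_core h0 h1 h2 h3 h4
  refine ⟨R, fun A₀ => ?_⟩
  obtain ⟨N₀, hN₀⟩ := eventually_atTop.1 (hR (A₀ + 1))
  filter_upwards [fin_log_pow 2 A₀ (show (0 : ℝ) < 1 / 4 by norm_num),
    fin_log_pow ((N₀ : ℝ) + 6) 0 (show (0 : ℝ) < 1 / 4 by norm_num),
    fin_log_pow (2 * Real.exp (2 ^ A₀)) 0 (show (0 : ℝ) < 1 / 4 by norm_num),
    eventually_ge_atTop 100] with n hE1 hE2 hE3 hn100 m hadm hmlog
  rw [pow_zero, mul_one] at hE2 hE3
  have hnr : (100 : ℝ) ≤ n := by exact_mod_cast hn100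
  have hn0 : (0 : ℝ) < n := by linarith
  have hn1 : (1 : ℝ) ≤ n := by linarith
  obtain ⟨r, hrm, hrn, hcop, hpar⟩ := h5 m n hadm
  have hm1 : 1 ≤ m := hadm.1
  set n' := n - r with hn'
  set N := n' / m with hN
  have hmN : m * N ≤ n' := Nat.mul_div_le n' m
  have hmN1 : n' < m * (N + 1) := Nat.lt_mul_div_succ n' (by omega)
  -- size of N
  have hmr : (m : ℝ) ≤ (n : ℝ) ^ (1 / 4 : ℝ) := by
    have : 0 ≤ Real.log n ^ A₀ := pow_nonneg (Real.log_natCast_nonneg n) _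
    linarith
  have hr0 : (1 : ℝ) ≤ (n : ℝ) ^ (1 / 4 : ℝ) := Real.one_le_rpow hn1 (by norm_num)
  have hnp : (n : ℝ) - m ≤ n' := by
    have h6 : n ≤ n' + m := by omega
    have h7 : (n : ℝ) ≤ n' + m := by exact_mod_cast h6
    linarith
  have hN2 : (n : ℝ) ≤ m * ((N : ℝ) + 2) := by
    have h6 : (n' : ℝ) < m * ((N : ℝ) + 1) := by exact_mod_cast hmN1
    linarith
  have hsplit : (n : ℝ) = (n : ℝ) ^ (1 / 4 : ℝ) * (n : ℝ) ^ (3 / 4 : ℝ) := by
    rw [← Real.rpow_add hn0]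
    norm_num
  have hN3 : (n : ℝ) ^ (3 / 4 : ℝ) ≤ (N : ℝ) + 2 := by
    have h6 : (m : ℝ) * ((N : ℝ) + 2) ≤ (n : ℝ) ^ (1 / 4 : ℝ) * ((N : ℝ) + 2) :=
      mul_le_mul_of_nonneg_right hmr (by positivity)
    have h7 : (n : ℝ) ^ (1 / 4 : ℝ) * (n : ℝ) ^ (3 / 4 : ℝ) ≤
        (n : ℝ) ^ (1 / 4 : ℝ) * ((N : ℝ) + 2) := by
      rw [← hsplit]
      linarith
    exact le_of_mul_le_mul_left h7 (by linarith)
  have hs34 : (n : ℝ) ^ (3 / 4 : ℝ) = (n : ℝ) ^ (1 / 4 : ℝ) * (n : ℝ) ^ (1 / 2 : ℝ) := by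
    rw [← Real.rpow_add hn0]
    norm_num
  have hh0 : (1 : ℝ) ≤ (n : ℝ) ^ (1 / 2 : ℝ) := Real.one_le_rpow hn1 (by norm_num)
  have hNhalf : (n : ℝ) ^ (1 / 2 : ℝ) ≤ N := by
    have hN06 : (6 : ℝ) < (n : ℝ) ^ (1 / 4 : ℝ) := by
      have : (0 : ℝ) ≤ N₀ := Nat.cast_nonneg _
      linarith
    rw [hs34] at hN3
    nlinarith
  have hNN0 : N₀ ≤ N := by
    have h6 : (N₀ : ℝ) ≤ N := by
      have h7 : (n : ℝ) ^ (1 / 4 : ℝ) ≤ (n : ℝ) ^ (1 / 2 : ℝ) :=
        Real.rpow_le_rpow_of_exponent_le hn1 (by norm_num)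
      linarith
    exact_mod_cast h6
  have hlogN : Real.log n ≤ 2 * Real.log N := by
    have h6 : Real.log ((n : ℝ) ^ (1 / 2 : ℝ)) ≤ Real.log N :=
      Real.log_le_log (by linarith) hNhalf
    rw [Real.log_rpow hn0] at h6
    linarith
  have hlogN2 : (2 : ℝ) ^ A₀ ≤ Real.log N := by
    have h6 : Real.exp (2 ^ A₀) ≤ N := by
      have h7 : (n : ℝ) ^ (1 / 4 : ℝ) ≤ (n : ℝ) ^ (1 / 2 : ℝ) :=
        Real.rpow_le_rpow_of_exponent_le hn1 (by norm_num)
      have h8 : 0 < Real.exp (2 ^ A₀) := Real.exp_pos _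
      linarith
    rw [Real.le_log_iff_exp_le (by linarith)]
    exact h6
  have hlog0 : 0 ≤ Real.log n := Real.log_natCast_nonneg n
  have hlogN0 : 0 ≤ Real.log N := Real.log_natCast_nonneg N
  have hmlogN : (m : ℝ) ≤ Real.log N ^ (A₀ + 1) := by
    calc (m : ℝ) ≤ Real.log n ^ A₀ := hmlog
      _ ≤ (2 * Real.log N) ^ A₀ := pow_le_pow_left₀ hlog0 hlogN A₀
      _ = 2 ^ A₀ * Real.log N ^ A₀ := mul_pow _ _ _
      _ ≤ Real.log N * Real.log N ^ A₀ :=
          mul_le_mul_of_nonneg_right hlogN2 (pow_nonneg hlogN0 _)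
      _ = Real.log N ^ (A₀ + 1) := by ring
  obtain ⟨q, hq1, hqN, hpr, hO2, hOR⟩ := hN₀ N hNN0 m n' ⟨hm1, hmlogN, hcop, hpar, hmN, hmN1⟩
  have hmq : m * q ≤ n' := (Nat.mul_le_mul_left m hqN).trans hmN
  have hmq1 : 1 ≤ m * q := Nat.one_le_iff_ne_zero.2 (Nat.mul_ne_zero (by omega) (by omega))
  have hdiv : (n - (n' - m * q)) / m = q := by
    have h6 : n - (n' - m * q) = r + m * q := by omega
    rw [h6, Nat.add_mul_div_left _ _ (by omega), Nat.div_eq_of_lt hrm, zero_add]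
  refine ⟨n' - m * q, hpr, by omega, ?_, ?_⟩
  · rw [hdiv]
    exact hO2
  · rw [hdiv]
    exact hOR

end Pool.Agent.CH
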