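import Mathlib
import Pool.Agent.CH.Stmts
import Pool.Agent.GV.Asm
import Pool.Agent.MT.Wt

set_option autoImplicit false

/-!
# CH / ABV

Bombieri-Vinogradov for `x = n' - m q` prime in terms of `q`: `GV.bvw` for the reflected weight at
`m N`.
-/

namespace Pool.Agent.CH

open Finset Filter Pool.Agent.MT

theorem abv_wt (η : ℝ → ℝ) (hη : IsWt η) : IsWt (etaR η) where
  smooth := by
    unfold etaR
    exact hη.smooth.comp (contDiff_const.sub contDiff_id)
  nonneg := fun x => hη.nonneg _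
  le_one := fun x => hη.le_one _
  supp := by
    intro x hx
    have h := hη.supp (1 - x) hx
    constructor <;> linarith [h.1, h.2]
  one := by
    intro x h1 h2
    exact hη.one (1 - x) (by linarith) (by linarith)

/-- change of variable `x = n' - m q` -/
theorem abv_bij (η : ℝ → ℝ) (hη : IsWt η) (N m n' d c : ℕ) (hN : 1 ≤ N) (hm : 1 ≤ m)
    (h1 : m * N ≤ n') (h2 : n' < m * (N + 1)) (hc : c ≤ N) :
    psiAP (etaR η) (m * N) (m * d) (n' - m * c) =
      ∑ q ∈ (range (N + 1)).filter (fun q => q % d = c % d),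
        lam (n' - m * q) * etaR η (((n' - m * q : ℕ) : ℝ) / ((m * N : ℕ) : ℝ)) := by
  classical
  have hmc : m * c ≤ n' := (Nat.mul_le_mul_left m hc).trans h1
  have hpos : (0 : ℝ) < ((m * N : ℕ) : ℝ) := by
    have : 0 < m * N := Nat.mul_pos hm hN
    exact_mod_cast this
  unfold psiAP
  symm
  have hfil : ∑ q ∈ (range (N + 1)).filter (fun q => q % d = c % d),
        lam (n' - m * q) * etaR η (((n' - m * q : ℕ) : ℝ) / ((m * N : ℕ) : ℝ)) =
      ∑ q ∈ ((range (N + 1)).filter (fun q => q % d = c % d)).filter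
          (fun q => n' - m * q ≤ m * N),
        lam (n' - m * q) * etaR η (((n' - m * q : ℕ) : ℝ) / ((m * N : ℕ) : ℝ)) := by
    symm
    apply Finset.sum_subset (Finset.filter_subset _ _)
    intro q hq hq'
    have hgt : m * N < n' - m * q := by
      by_contra hcon
      exact hq' (Finset.mem_filter.2 ⟨hq, not_lt.1 hcon⟩)
    have h3 : (1 : ℝ) ≤ ((n' - m * q : ℕ) : ℝ) / ((m * N : ℕ) : ℝ) := by
      rw [le_div_iff₀ hpos, one_mul]
      exact_mod_cast hgt.le
    have h4 : etaR η (((n' - m * q : ℕ) : ℝ) / ((m * N : ℕ) : ℝ)) = 0 := by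
      unfold etaR
      apply wt_zero_of_small η hη
      linarith
    rw [h4, mul_zero]
  rw [hfil]
  have hcast : ∀ q : ℕ, q ≤ N → ((n' - m * q : ℕ) : ℤ) = (n' : ℤ) - m * q := by
    intro q hq
    rw [Nat.cast_sub ((Nat.mul_le_mul_left m hq).trans h1)]
    push_cast
    ring
  refine Finset.sum_bij (fun q _ => n' - m * q) ?_ ?_ ?_ ?_
  · intro q hq
    rw [Finset.mem_filter, Finset.mem_filter, Finset.mem_range] at hq
    obtain ⟨⟨hq1, hq2⟩, hq3⟩ := hq
    rw [Finset.mem_filter, Finset.mem_range]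
    refine ⟨by omega, ?_⟩
    have h5 : q ≡ c [MOD d] := hq2
    have h6 := Nat.modEq_iff_dvd.1 h5
    obtain ⟨t, ht⟩ := h6
    have h7 : n' - m * q ≡ n' - m * c [MOD (m * d)] := by
      rw [Nat.modEq_iff_dvd, hcast q (by omega), hcast c hc]
      refine ⟨-t, ?_⟩
      push_cast
      linear_combination (-(m : ℤ)) * ht
    exact h7
  · intro a ha b hb hab
    rw [Finset.mem_filter, Finset.mem_filter, Finset.mem_range] at ha hb
    have ha1 : a ≤ N := by omega
    have hb1 : b ≤ N := by omega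
    have h5 : ((n' - m * a : ℕ) : ℤ) = ((n' - m * b : ℕ) : ℤ) := by exact_mod_cast hab
    rw [hcast a ha1, hcast b hb1] at h5
    have hm0 : (m : ℤ) ≠ 0 := by exact_mod_cast (by omega : m ≠ 0)
    have h6 : (m : ℤ) * a = m * b := by linarith
    have h7 := mul_left_cancel₀ hm0 h6
    exact_mod_cast h7
  · intro x hx
    rw [Finset.mem_filter, Finset.mem_range] at hx
    obtain ⟨hx1, hx2⟩ := hx
    have h5 : x ≡ n' - m * c [MOD (m * d)] := hx2
    have h6 := Nat.modEq_iff_dvd.1 h5
    obtain ⟨t, ht⟩ := h6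
    rw [hcast c hc] at ht
    have hxn : x ≤ n' := by omega
    have h7 : ((n' - x : ℕ) : ℤ) = m * (c + d * t) := by
      rw [Nat.cast_sub hxn]
      push_cast at ht
      linear_combination ht
    have hdvd : m ∣ n' - x := by
      have : (m : ℤ) ∣ ((n' - x : ℕ) : ℤ) := ⟨_, h7⟩
      exact_mod_cast this
    obtain ⟨q, hq⟩ := hdvd
    have hqc : (q : ℤ) = c + d * t := by
      rw [hq] at h7
      push_cast at h7
      have hm0 : (m : ℤ) ≠ 0 := by exact_mod_cast (by omega : m ≠ 0)
      exact mul_left_cancel₀ hm0 h7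
    have hqN : q < N + 1 := by
      have : m * q < m * (N + 1) := by omega
      exact Nat.lt_of_mul_lt_mul_left this
    have hx3 : n' - m * q = x := by omega
    refine ⟨q, ?_, hx3⟩
    rw [Finset.mem_filter, Finset.mem_filter, Finset.mem_range]
    refine ⟨⟨hqN, ?_⟩, by omega⟩
    have h8 : q ≡ c [MOD d] := by
      rw [Nat.modEq_iff_dvd, hqc]
      exact ⟨-t, by ring⟩
    exact h8
  · intro q _
    rfl

/-- the difference of the two weights -/
theorem abv_diff (η : ℝ → ℝ) (C : ℝ) (hC : ∀ x y : ℝ, |η x - η y| ≤ C * |x - y|)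
    (hC0 : 0 ≤ C) (N m n' q : ℕ) (hN : 1 ≤ N) (hm : 1 ≤ m)
    (h1 : m * N ≤ n') (h2 : n' < m * (N + 1)) (hq : q ≤ N) :
    |η ((q : ℝ) / N) - etaR η (((n' - m * q : ℕ) : ℝ) / ((m * N : ℕ) : ℝ))| ≤ C / N := by
  have hmR : (0 : ℝ) < m := by exact_mod_cast hm
  have hNR : (0 : ℝ) < N := by exact_mod_cast hN
  have hmq : m * q ≤ n' := (Nat.mul_le_mul_left m hq).trans h1
  unfold etaR
  refine (hC _ _).trans ?_
  have h3 : (q : ℝ) / N - (1 - ((n' - m * q : ℕ) : ℝ) / ((m * N : ℕ) : ℝ)) =
      ((n' : ℝ) - m * N) / (m * N) := by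
    rw [Nat.cast_sub hmq]
    push_cast
    field_simp
    ring
  rw [h3]
  have h4 : 0 ≤ ((n' : ℝ) - m * N) := by
    have : ((m * N : ℕ) : ℝ) ≤ (n' : ℝ) := by exact_mod_cast h1
    push_cast at this
    linarith
  have h5 : ((n' : ℝ) - m * N) ≤ m := by
    have : (n' : ℝ) < ((m * (N + 1) : ℕ) : ℝ) := by exact_mod_cast h2
    push_cast at this
    linarith
  rw [abs_of_nonneg (by positivity)]
  rw [mul_div_assoc', div_le_div_iff₀ (by positivity) hNR]
  calc C * ((n' : ℝ) - m * N) * N ≤ C * m * N := by gcongr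
    _ = C * (m * N) := by ring

theorem abv_near (η : ℝ → ℝ) (hη : IsWt η) (C : ℝ) (hC : ∀ x y : ℝ, |η x - η y| ≤ C * |x - y|)
    (hC0 : 0 ≤ C) (N m n' d c : ℕ) (hN : 1 ≤ N) (hm : 1 ≤ m)
    (h1 : m * N ≤ n') (h2 : n' < m * (N + 1)) (hd : 1 ≤ d) (hdN : d ≤ N) (hc : c ≤ N) :
    |AAP η N m n' d c - psiAP (etaR η) (m * N) (m * d) (n' - m * c)| ≤
      2 * C * Real.log n' / d := by
  classical
  have hNR : (0 : ℝ) < N := by exact_mod_cast hN
  have hdR : (0 : ℝ) < d := by exact_mod_cast hd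
  have hn' : 1 ≤ n' := by
    have : 0 < m * N := Nat.mul_pos hm hN
    omega
  have hlog : 0 ≤ Real.log n' := Real.log_nonneg (by exact_mod_cast hn')
  rw [abv_bij η hη N m n' d c hN hm h1 h2 hc]
  unfold AAP
  rw [← Finset.sum_sub_distrib]
  refine (Finset.abs_sum_le_sum_abs _ _).trans ?_
  have hterm : ∀ q ∈ (range (N + 1)).filter (fun q => q % d = c % d),
      |lam (n' - m * q) * η ((q : ℝ) / N) -
        lam (n' - m * q) * etaR η (((n' - m * q : ℕ) : ℝ) / ((m * N : ℕ) : ℝ))| ≤
      Real.log n' * (C / N) := by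
    intro q hq
    rw [Finset.mem_filter, Finset.mem_range] at hq
    rw [← mul_sub, abs_mul]
    have hl0 : 0 ≤ lam (n' - m * q) := ArithmeticFunction.vonMangoldt_nonneg
    have hl1 : lam (n' - m * q) ≤ Real.log n' := by
      refine (ArithmeticFunction.vonMangoldt_le_log).trans ?_
      rcases Nat.eq_zero_or_pos (n' - m * q) with h0 | h0
      · rw [h0, Nat.cast_zero, Real.log_zero]
        exact hlog
      · apply Real.log_le_log (by exact_mod_cast h0)
        have : n' - m * q ≤ n' := Nat.sub_le _ _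
        exact_mod_cast this
    rw [abs_of_nonneg hl0]
    exact mul_le_mul hl1 (abv_diff η C hC hC0 N m n' q hN hm h1 h2 (by omega)) (abs_nonneg _) hlog
  refine (Finset.sum_le_sum hterm).trans ?_
  rw [Finset.sum_const, nsmul_eq_mul]
  have hcard := Pool.Agent.GV.bvw_count N d c hd hdN
  calc ((((range (N + 1)).filter (fun n => n % d = c % d)).card : ℕ) : ℝ) *
        (Real.log n' * (C / N)) ≤ (2 * N / d) * (Real.log n' * (C / N)) := by
        exact mul_le_mul_of_nonneg_right hcard (by positivity)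
    _ = 2 * C * Real.log n' / d := by
        field_simp

theorem abv_coprime (N m n' c : ℕ) (h1 : m * N ≤ n') (hc : c ≤ N) (h : n'.Coprime m) :
    (n' - m * c).Coprime m := by
  have hmc : m * c ≤ n' := (Nat.mul_le_mul_left m hc).trans h1
  have h2 : n' = (n' - m * c) + m * c := by omega
  rw [h2] at h
  exact (Nat.coprime_add_mul_left_left _ _ _).1 h

/-- powers of the logarithm -/
theorem abv_log_pow (k : ℕ) (ε M : ℝ) (hε : 0 < ε) (hM : 0 < M) :
    ∀ᶠ N : ℕ in atTop, M * Real.log N ^ k ≤ (N : ℝ) ^ ε := by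
  have h := isLittleO_log_rpow_rpow_atTop (k : ℝ) hε
  have h2 := h.def (c := M⁻¹) (by positivity)
  have h3 := tendsto_natCast_atTop_atTop (R := ℝ) |>.eventually h2
  filter_upwards [h3, eventually_ge_atTop 3] with N hN hN3
  have hN3' : (3 : ℝ) ≤ N := by exact_mod_cast hN3
  have hlog : 0 ≤ Real.log N := Real.log_nonneg (by linarith)
  rw [Real.norm_of_nonneg (Real.rpow_nonneg hlog _), Real.norm_of_nonneg (by positivity),
    Real.rpow_natCast] at hN
  calc M * Real.log N ^ k ≤ M * (M⁻¹ * (N : ℝ) ^ ε) := by gcongr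
    _ = (N : ℝ) ^ ε := by field_simp

/-- keep this signature -/
theorem thm_ABV : St_ABV := by
  intro η hη θ hθ0 hθ1 A A₀ K
  classical
  obtain ⟨C, hC0, hC⟩ := wt_lipschitz η hη
  have hev := Pool.Agent.GV.bvw (etaR η) (abv_wt η hη) ((θ + 1 / 2) / 2) (by linarith)
    (by linarith) (A + A₀ + 1) (K + 1)
  rw [eventually_atTop] at hev
  obtain ⟨N0, hN0⟩ := hev
  filter_upwards [eventually_ge_atTop (max N0 9), abv_log_pow A₀ ((1 / 2 - θ) / 2) 1 (by linarith)
    one_pos, abv_log_pow (K + 2 + A) 1 (8 * C * 2 ^ (K + 1)) one_pos (by positivity)] with N hN hN2 hN3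
  have hNN0 : N0 ≤ N := (le_max_left _ _).trans hN
  have hN9 : 9 ≤ N := (le_max_right _ _).trans hN
  have hN1 : 1 ≤ N := by omega
  have hN9R : (9 : ℝ) ≤ N := by exact_mod_cast hN9
  have hNR : (0 : ℝ) < N := by linarith
  have hL2 : 2 ≤ Real.log N := by
    rw [Real.le_log_iff_exp_le hNR]
    have h1 := Real.exp_one_lt_d9
    have h2 : Real.exp 2 = Real.exp 1 * Real.exp 1 := by
      rw [← Real.exp_add]
      norm_num
    rw [h2]
    have h3 := Real.exp_pos 1
    nlinarith
  set L := Real.log N with hLdef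
  have hL0 : 0 < L := by linarith
  rw [Real.rpow_one] at hN3
  intro m n' hm hmL hcop h1 h2
  have hmR : (0 : ℝ) < m := by exact_mod_cast hm
  have hmN : N ≤ m * N := Nat.le_mul_of_pos_left N hm
  obtain ⟨E', hE0, hE1, hE2⟩ := hN0 (m * N) (hNN0.trans hmN)
  have hm_small : (m : ℝ) ≤ (N : ℝ) ^ ((1 / 2 - θ) / 2) := by
    rw [one_mul] at hN2
    exact hmL.trans hN2
  have hn'1 : 1 ≤ n' := by omega
  have hlogn : Real.log n' ≤ 2 * L := by
    have h3 : (n' : ℝ) ≤ (N : ℝ) ^ (2 : ℕ) := by
      have h4 : (n' : ℝ) ≤ m * (N + 1) := by exact_mod_cast h2.le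
      have h5 : (N : ℝ) ^ ((1 / 2 - θ) / 2) ≤ (N : ℝ) ^ (1 / 4 : ℝ) :=
        Real.rpow_le_rpow_of_exponent_le (by linarith) (by linarith)
      have h6 : ((N : ℝ) ^ (1 / 4 : ℝ)) ^ (4 : ℕ) = N := by
        rw [← Real.rpow_natCast, ← Real.rpow_mul hNR.le]
        norm_num
      set r := (N : ℝ) ^ (1 / 4 : ℝ) with hr
      have hr0 : 0 ≤ r := Real.rpow_nonneg hNR.le _
      have hr1 : 1 ≤ r := by
        by_contra hcon
        push Not at hcon
        have h7 : r ^ 4 ≤ 1 := pow_le_one₀ hr0 hcon.le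
        linarith
      have h8 : (m : ℝ) ≤ r := hm_small.trans h5
      have h9 : r * (N + 1) ≤ (N : ℝ) ^ 2 := by
        have h10 : r ^ 2 * r ^ 2 = N := by rw [← h6]; ring
        have h11 : r ^ 2 ≤ N / 3 := by
          have h12 : 3 ≤ r ^ 2 := by nlinarith
          nlinarith
        have h12 : r ≤ r ^ 2 := by nlinarith
        nlinarith
      calc (n' : ℝ) ≤ m * (N + 1) := h4
        _ ≤ r * (N + 1) := by gcongr
        _ ≤ (N : ℝ) ^ 2 := h9
    calc Real.log n' ≤ Real.log ((N : ℝ) ^ (2 : ℕ)) :=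
          Real.log_le_log (by exact_mod_cast hn'1) h3
      _ = 2 * L := by
          rw [Real.log_pow]
          push_cast
          ring
  refine ⟨fun d => E' (m * d) + 4 * C * L / d, ?_, ?_, ?_⟩
  · intro d
    have := hE0 (m * d)
    positivity
  · intro d c hd hdN hc hcd
    have hdN' : d ≤ N := by
      have h3 : (N : ℝ) ^ θ ≤ (N : ℝ) ^ (1 : ℝ) :=
        Real.rpow_le_rpow_of_exponent_le (by linarith) (by linarith)
      rw [Real.rpow_one] at h3
      have h4 : (d : ℝ) ≤ N := hdN.trans h3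
      exact_mod_cast h4
    have hdR : (0 : ℝ) < d := by exact_mod_cast hd
    have hcN : c ≤ N := by omega
    have hA := abv_near η hη C hC hC0.le N m n' d c hN1 hm h1 h2 hd hdN' hcN
    have hmd : ((m * d : ℕ) : ℝ) ≤ ((m * N : ℕ) : ℝ) ^ ((θ + 1 / 2) / 2) := by
      push_cast
      calc (m : ℝ) * d ≤ (N : ℝ) ^ ((1 / 2 - θ) / 2) * (N : ℝ) ^ θ := by gcongr
        _ = (N : ℝ) ^ ((θ + 1 / 2) / 2) := by
            rw [← Real.rpow_add hNR]
            congr 1
            ring
        _ ≤ ((m : ℝ) * N) ^ ((θ + 1 / 2) / 2) := by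
            apply Real.rpow_le_rpow hNR.le _ (by linarith)
            have : ((N : ℕ) : ℝ) ≤ ((m * N : ℕ) : ℝ) := by exact_mod_cast hmN
            push_cast at this
            exact this
    have hB := hE1 (m * d) (n' - m * c) (Nat.mul_pos hm hd) hmd
      (Nat.Coprime.mul_right (abv_coprime N m n' c h1 hcN hcop) hcd)
    have hD : 2 * C * Real.log n' / d ≤ 4 * C * L / d := by
      apply div_le_div_of_nonneg_right _ hdR.le
      nlinarith
    calc |AAP η N m n' d c - psi0 (etaR η) (m * N) / ((m * d).totient : ℝ)| ≤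
          |AAP η N m n' d c - psiAP (etaR η) (m * N) (m * d) (n' - m * c)| +
          |psiAP (etaR η) (m * N) (m * d) (n' - m * c) -
            psi0 (etaR η) (m * N) / ((m * d).totient : ℝ)| := abs_sub_le _ _ _
      _ ≤ 2 * C * Real.log n' / d + E' (m * d) := add_le_add hA hB
      _ ≤ E' (m * d) + 4 * C * L / d := by linarith
  · set F := (Icc 1 N).filter (fun d : ℕ => (d : ℝ) ≤ (N : ℝ) ^ θ) with hF
    have hK : ∀ j : ℕ, (K : ℝ) ^ j ≤ ((K + 1 : ℕ) : ℝ) ^ j := by
      intro j
      apply pow_le_pow_left₀ (by positivity)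
      push_cast
      linarith
    have hK1 : (1 : ℝ) ≤ ((K + 1 : ℕ) : ℝ) := by
      push_cast
      have : (0 : ℝ) ≤ K := by positivity
      linarith
    have hsplit : ∑ d ∈ F, (K : ℝ) ^ d.primeFactors.card * (E' (m * d) + 4 * C * L / d) ≤
        ∑ d ∈ F, ((K + 1 : ℕ) : ℝ) ^ (m * d).primeFactors.card * E' (m * d) +
        4 * C * L * ∑ d ∈ F, ((K + 1 : ℕ) : ℝ) ^ d.primeFactors.card / d := by
      rw [Finset.mul_sum, ← Finset.sum_add_distrib]
      apply Finset.sum_le_sum
      intro d hd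
      rw [hF, Finset.mem_filter, Finset.mem_Icc] at hd
      have hd0 : d ≠ 0 := by omega
      have hdR : (0 : ℝ) < d := by exact_mod_cast hd.1.1
      have h3 : (K : ℝ) ^ d.primeFactors.card ≤
          ((K + 1 : ℕ) : ℝ) ^ (m * d).primeFactors.card := by
        refine (hK _).trans ?_
        apply pow_le_pow_right₀ hK1
        apply Finset.card_le_card
        exact Nat.primeFactors_mono (Dvd.intro_left m rfl) (Nat.mul_ne_zero (by omega) hd0)
      have h4 := hE0 (m * d)
      have h5 := hK d.primeFactors.card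
      calc (K : ℝ) ^ d.primeFactors.card * (E' (m * d) + 4 * C * L / d) =
            (K : ℝ) ^ d.primeFactors.card * E' (m * d) +
            4 * C * L * ((K : ℝ) ^ d.primeFactors.card / d) := by
              field_simp
        _ ≤ ((K + 1 : ℕ) : ℝ) ^ (m * d).primeFactors.card * E' (m * d) +
            4 * C * L * (((K + 1 : ℕ) : ℝ) ^ d.primeFactors.card / d) := by
              gcongr
    have hfirst : ∑ d ∈ F, ((K + 1 : ℕ) : ℝ) ^ (m * d).primeFactors.card * E' (m * d) ≤
        ((m * N : ℕ) : ℝ) / Real.log ((m * N : ℕ) : ℝ) ^ (A + A₀ + 1) := by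
      refine le_trans ?_ hE2
      have hinj : Set.InjOn (fun d => m * d) (F : Set ℕ) := by
        intro a _ b _ hab
        exact Nat.eq_of_mul_eq_mul_left hm hab
      have himg : ∑ d ∈ F, ((K + 1 : ℕ) : ℝ) ^ (m * d).primeFactors.card * E' (m * d) =
          ∑ q ∈ F.image (fun d => m * d), ((K + 1 : ℕ) : ℝ) ^ q.primeFactors.card * E' q := by
        rw [Finset.sum_image hinj]
      rw [himg]
      apply Finset.sum_le_sum_of_subset_of_nonneg
      · intro q hq
        rw [Finset.mem_image] at hq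
        obtain ⟨d, hd, rfl⟩ := hq
        rw [hF, Finset.mem_filter, Finset.mem_Icc] at hd
        obtain ⟨⟨hd1, hd2⟩, hd3⟩ := hd
        rw [Finset.mem_filter, Finset.mem_Icc]
        refine ⟨⟨Nat.mul_pos hm hd1, Nat.mul_le_mul_left m hd2⟩, ?_⟩
        push_cast
        calc (m : ℝ) * d ≤ (N : ℝ) ^ ((1 / 2 - θ) / 2) * (N : ℝ) ^ θ := by gcongr
          _ = (N : ℝ) ^ ((θ + 1 / 2) / 2) := by
              rw [← Real.rpow_add hNR]
              congr 1
              ring
          _ ≤ ((m : ℝ) * N) ^ ((θ + 1 / 2) / 2) := by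
              apply Real.rpow_le_rpow hNR.le _ (by linarith)
              have : ((N : ℕ) : ℝ) ≤ ((m * N : ℕ) : ℝ) := by exact_mod_cast hmN
              push_cast at this
              exact this
      · intro q _ _
        have := hE0 q
        positivity
    have hfirst2 : ((m * N : ℕ) : ℝ) / Real.log ((m * N : ℕ) : ℝ) ^ (A + A₀ + 1) ≤
        N / (2 * L ^ A) := by
      have h3 : L ≤ Real.log ((m * N : ℕ) : ℝ) := by
        apply Real.log_le_log hNR
        exact_mod_cast hmN
      have h4 : L ^ (A + A₀ + 1) ≤ Real.log ((m * N : ℕ) : ℝ) ^ (A + A₀ + 1) :=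
        pow_le_pow_left₀ hL0.le h3 _
      calc ((m * N : ℕ) : ℝ) / Real.log ((m * N : ℕ) : ℝ) ^ (A + A₀ + 1) ≤
            (L ^ A₀ * N) / L ^ (A + A₀ + 1) := by
              push_cast at h4 ⊢
              apply div_le_div₀ (by positivity) _ (by positivity) h4
              gcongr
        _ = N / (L ^ A * L) := by
              rw [pow_succ, pow_add]
              field_simp
        _ ≤ N / (2 * L ^ A) := by
              apply div_le_div_of_nonneg_left hNR.le (by positivity)
              have : 0 < L ^ A := by positivity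
              nlinarith
    have hsecond : 4 * C * L * ∑ d ∈ F, ((K + 1 : ℕ) : ℝ) ^ d.primeFactors.card / d ≤
        N / (2 * L ^ A) := by
      have h3 : ∑ d ∈ F, ((K + 1 : ℕ) : ℝ) ^ d.primeFactors.card / d ≤ (1 + L) ^ (K + 1) := by
        refine le_trans ?_ (Pool.Agent.GV.bvw_omega_sum N hN1 (K + 1))
        apply Finset.sum_le_sum_of_subset_of_nonneg (Finset.filter_subset _ _)
        intro q _ _
        positivity
      have h4 : (1 + L) ^ (K + 1) ≤ (2 * L) ^ (K + 1) :=
        pow_le_pow_left₀ (by linarith) (by linarith) _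
      have h5 : 0 < L ^ A := by positivity
      rw [le_div_iff₀ (by positivity)]
      calc 4 * C * L * (∑ d ∈ F, ((K + 1 : ℕ) : ℝ) ^ d.primeFactors.card / d) * (2 * L ^ A) ≤
            4 * C * L * (2 * L) ^ (K + 1) * (2 * L ^ A) := by
              gcongr
              exact h3.trans h4
        _ = 8 * C * 2 ^ (K + 1) * L ^ (K + 2 + A) := by
              rw [mul_pow]
              ring
        _ ≤ N := hN3
    have hhalf : (N : ℝ) / (2 * L ^ A) + N / (2 * L ^ A) = N / L ^ A := by
      field_simp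
      ring
    calc _ ≤ _ := hsplit
      _ ≤ N / (2 * L ^ A) + N / (2 * L ^ A) := add_le_add (hfirst.trans hfirst2) hsecond
      _ = N / L ^ A := hhalf

end Pool.Agent.CH
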