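import Pool.Agent.CH.Stmts

set_option autoImplicit false

/-!
# CH / ASum: the sum over `p₁`
-/

namespace Pool.Agent.CH

open Finset Filter Pool.Agent.MT

/-- the value of the integral -/
noncomputable def ASumPhi (x : ℝ × ℝ) : ℝ :=
  1 / (8 * (1 / 2 - x.1)) *
    Real.log ((1 / 3 + x.2) * (3 / 8 - x.1) * 8 / (1 / 6 - x.1 - x.2))

theorem ASum_phi0 : ASumPhi (0, 0) = Real.log 6 / 4 := by
  unfold ASumPhi
  norm_num
  ring

theorem ASum_phic : ContinuousAt ASumPhi (0, 0) := by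
  unfold ASumPhi
  apply ContinuousAt.mul
  · apply ContinuousAt.div continuousAt_const
    · fun_prop
    · norm_num
  · apply ContinuousAt.log
    · apply ContinuousAt.div
      · fun_prop
      · fun_prop
      · norm_num
    · norm_num

theorem ASum_frac (A B : ℝ) (hA : A ≠ 0) (hB : B ≠ 0) :
    1 / (8 * A) - 1 / (8 * B) = (B - A) / (8 * (A * B)) := by
  field_simp

theorem ASum_near (ε : ℝ) (hε : 0 < ε) : ∃ δ : ℝ, 0 < δ ∧ ∀ τ η : ℝ, 0 ≤ τ → τ ≤ δ → 0 ≤ η →
    η ≤ δ → ASumPhi (τ, η) ≤ Real.log 6 / 4 + ε := by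
  obtain ⟨δ, hδ, h⟩ := Metric.continuousAt_iff.1 ASum_phic ε hε
  refine ⟨δ / 2, by linarith, fun τ η h1 h2 h3 h4 => ?_⟩
  have h5 : dist ((τ, η) : ℝ × ℝ) (0, 0) < δ := by
    rw [Prod.dist_eq, Real.dist_eq, Real.dist_eq, sub_zero, sub_zero, abs_of_nonneg h1,
      abs_of_nonneg h3]
    exact max_lt (by linarith) (by linarith)
  have h6 := h h5
  rw [Real.dist_eq, ASum_phi0] at h6
  have h7 := (abs_lt.1 h6).2
  linarith

theorem ASum_int (τ η : ℝ) (h1 : 0 ≤ τ) (h2 : τ ≤ 1 / 24) (h3 : 0 ≤ η) (h4 : η ≤ 1 / 24) :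
    ∫ x in (1 / 8 : ℝ)..(1 / 3 + η), 1 / (8 * (1 / 2 - τ - x)) / x = ASumPhi (τ, η) := by
  set c : ℝ := 1 / 2 - τ with hc
  set b : ℝ := 1 / 3 + η with hb
  have hcb : 0 < c - b := by rw [hc, hb]; linarith
  have hc0 : 0 < c := by linarith
  have hx : ∀ x ∈ Set.uIcc (1 / 8 : ℝ) b, 0 < x ∧ 0 < c - x := by
    intro x hx
    rw [Set.uIcc_of_le (by rw [hb]; linarith), Set.mem_Icc] at hx
    exact ⟨by linarith [hx.1], by linarith [hx.2]⟩
  have hder : ∀ x ∈ Set.uIcc (1 / 8 : ℝ) b, HasDerivAt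
      (fun x => 1 / (8 * c) * (Real.log x - Real.log (c - x))) (1 / (8 * (c - x)) / x) x := by
    intro x hx'
    obtain ⟨k1, k2⟩ := hx x hx'
    have d1 : HasDerivAt (fun x : ℝ => c - x) (-1) x := by
      simpa using (hasDerivAt_id x).const_sub c
    have d2 := ((Real.hasDerivAt_log k1.ne').sub (d1.log k2.ne')).const_mul (1 / (8 * c))
    have e : 1 / (8 * c) * (x⁻¹ - -1 / (c - x)) = 1 / (8 * (c - x)) / x := by
      field_simp
      ring
    rw [← e]
    exact d2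
  have hint : IntervalIntegrable (fun x => 1 / (8 * (c - x)) / x) MeasureTheory.volume (1 / 8) b := by
    apply ContinuousOn.intervalIntegrable
    intro x hx'
    obtain ⟨k1, k2⟩ := hx x hx'
    apply ContinuousAt.continuousWithinAt
    apply ContinuousAt.div
    · apply ContinuousAt.div continuousAt_const
      · fun_prop
      · positivity
    · fun_prop
    · exact k1.ne'
  rw [intervalIntegral.integral_eq_sub_of_hasDerivAt hder hint, ← mul_sub]
  unfold ASumPhi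
  congr 1
  have e1 : (1 / 6 - τ - η : ℝ) = c - b := by rw [hc, hb]; ring
  have e2 : (3 / 8 - τ : ℝ) = c - 1 / 8 := by rw [hc]; ring
  simp only
  rw [e1, e2, Real.log_div (by
      have : 0 < c - 1 / 8 := by linarith [hb]
      positivity) hcb.ne', Real.log_mul (by
      have : 0 < c - 1 / 8 := by linarith [hb]
      positivity) (by norm_num), Real.log_mul (by positivity) (by linarith [hb])]
  have e3 : Real.log (1 / 8 : ℝ) = - Real.log 8 := by
    rw [one_div, Real.log_inv]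
  rw [e3]
  ring

theorem thm_ASum (h : St_MR) : St_ASum := by
  intro ε hε
  obtain ⟨δ, hδ, hΦ⟩ := ASum_near (ε / 3) (by linarith)
  refine ⟨min δ (1 / 24), by positivity, ?_⟩
  intro τ hτ0 hτ1
  set η : ℝ := min δ (1 / 24) with hη
  have hη0 : 0 < η := by rw [hη]; positivity
  have hη1 : η ≤ δ := min_le_left _ _
  have hη2 : η ≤ 1 / 24 := min_le_right _ _
  have hτ2 : τ ≤ δ := hτ1.trans hη1
  have hτ3 : τ ≤ 1 / 24 := hτ1.trans hη2
  set b : ℝ := 1 / 3 + η with hb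
  have hlog6 : 0 < Real.log 6 := Real.log_pos (by norm_num)
  set r : ℝ := (ε / 3) / (Real.log 6 / 4 + 2 * (ε / 3)) with hr
  have hr0 : 0 < r := by rw [hr]; positivity
  have hMR := h (1 / 8) b 18 (ε / 3) (by norm_num) (by rw [hb]; linarith) (by linarith)
  have hz : Tendsto (fun N : ℕ => (N : ℝ) ^ (1 / 8 : ℝ)) atTop atTop :=
    (tendsto_rpow_atTop (by norm_num)).comp tendsto_natCast_atTop_atTop
  have hz2 : Tendsto (fun N : ℕ => (N : ℝ) ^ η) atTop atTop :=
    (tendsto_rpow_atTop hη0).comp tendsto_natCast_atTop_atTop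
  filter_upwards [hMR, hz.eventually_ge_atTop ((1 + r) / r), hz2.eventually_ge_atTop 2,
    eventually_ge_atTop 3] with N hN hN1 hN2 hN3
  have hNr : (3 : ℝ) ≤ N := by exact_mod_cast hN3
  have hN0 : (0 : ℝ) < N := by linarith
  have hlog : 0 < Real.log N := Real.log_pos (by linarith)
  have hg1 : ∀ x : ℝ, 1 / 8 ≤ x → x ≤ b → 1 / 12 ≤ 1 / 2 - τ - x := by
    intro x _ hx2
    rw [hb] at hx2
    linarith
  have hgpos : ∀ x : ℝ, 1 / 8 ≤ x → x ≤ b → 0 ≤ 1 / (8 * (1 / 2 - τ - x)) := by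
    intro x hx1 hx2
    have := hg1 x hx1 hx2
    positivity
  have key := hN (1 / 8) b le_rfl (by rw [hb]; linarith) le_rfl
    (fun x => 1 / (8 * (1 / 2 - τ - x))) (by
      intro x hx1 hx2
      have k1 := hg1 x hx1 hx2
      rw [abs_of_nonneg (hgpos x hx1 hx2), div_le_iff₀ (by linarith)]
      linarith) (by
      intro x x' hx1 hx2 hx1' hx2'
      have k1 := hg1 x hx1 hx2
      have k2 := hg1 x' hx1' hx2'
      have e : 1 / (8 * (1 / 2 - τ - x)) - 1 / (8 * (1 / 2 - τ - x')) =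
          (x - x') / (8 * ((1 / 2 - τ - x) * (1 / 2 - τ - x'))) := by
        have k3 : (1 / 2 - τ - x) ≠ 0 := by linarith
        have k4 : (1 / 2 - τ - x') ≠ 0 := by linarith
        rw [ASum_frac _ _ k3 k4]
        congr 1
        ring
      have k5 : (1 / 12 : ℝ) * (1 / 12) ≤ (1 / 2 - τ - x) * (1 / 2 - τ - x') :=
        mul_le_mul k1 k2 (by norm_num) (by linarith)
      rw [e, abs_div, abs_of_pos (show 0 < 8 * ((1 / 2 - τ - x) * (1 / 2 - τ - x')) by
        linarith), div_le_iff₀ (by linarith)]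
      have k6 := abs_nonneg (x - x')
      nlinarith)
  rw [ASum_int τ η hτ0 hτ3 hη0.le hη2] at key
  have hΦ' := hΦ τ η hτ0 hτ2 hη0.le hη1
  have hkey := (abs_le.1 key).2
  set Q := (range (⌊(N : ℝ) ^ b⌋₊ + 1)).filter (fun p : ℕ => p.Prime ∧ (N : ℝ) ^ (1 / 8 : ℝ) < p ∧
      (p : ℝ) ≤ (N : ℝ) ^ b) with hQ
  -- the range
  have hyN : ((yN N : ℕ) : ℝ) ≤ (N : ℝ) ^ b := by
    have k1 : ((yN N : ℕ) : ℝ) ≤ (N : ℝ) ^ (1 / 3 : ℝ) + 1 := by
      unfold yN
      exact (Nat.ceil_lt_add_one (by positivity)).le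
    have k2 : (1 : ℝ) ≤ (N : ℝ) ^ (1 / 3 : ℝ) := Real.one_le_rpow (by linarith) (by norm_num)
    have k3 : (N : ℝ) ^ b = (N : ℝ) ^ (1 / 3 : ℝ) * (N : ℝ) ^ η := by
      rw [hb, Real.rpow_add hN0]
    rw [k3]
    nlinarith
  have hsub : (pr (yN N)).filter (fun p => zN N < p) ⊆ Q := by
    intro p hp
    rw [mem_filter, pr, mem_filter, mem_range] at hp
    obtain ⟨⟨hp1, hp2⟩, hp3⟩ := hp
    have k1 : (p : ℝ) ≤ (N : ℝ) ^ b := by
      refine le_trans ?_ hyN
      exact_mod_cast (by omega : p ≤ yN N)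
    have k2 : (N : ℝ) ^ (1 / 8 : ℝ) < p := by
      unfold zN at hp3
      exact (Nat.floor_lt (by positivity)).1 hp3
    rw [hQ, mem_filter, mem_range]
    refine ⟨?_, hp2, k2, k1⟩
    have := Nat.le_floor k1
    omega
  have hQx : ∀ p ∈ Q, 1 / 8 ≤ Real.log p / Real.log N ∧ Real.log p / Real.log N ≤ b ∧
      (1 + r) / r ≤ (p : ℝ) := by
    intro p hp
    rw [hQ, mem_filter] at hp
    obtain ⟨-, -, k1, k2⟩ := hp
    have k3 : (0 : ℝ) < (N : ℝ) ^ (1 / 8 : ℝ) := by positivity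
    have k4 : (0 : ℝ) < p := k3.trans k1
    refine ⟨?_, ?_, hN1.trans k1.le⟩
    · rw [le_div_iff₀ hlog, ← Real.log_rpow hN0]
      exact Real.log_le_log k3 k1.le
    · rw [div_le_iff₀ hlog, ← Real.log_rpow hN0]
      exact Real.log_le_log k4 k2
  have hterm : ∀ p ∈ Q, 1 / (((p : ℝ) - 1) * (8 * (1 / 2 - τ - Real.log p / Real.log N))) ≤
      (1 + r) * (1 / (8 * (1 / 2 - τ - Real.log p / Real.log N)) / p) := by
    intro p hp
    obtain ⟨k1, k2, k3⟩ := hQx p hp
    have k4 := hgpos _ k1 k2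
    have k5 : (1 + r) / r = 1 + 1 / r := by field_simp; ring
    have k6 : 0 < 1 / r := by positivity
    have k7 : 1 < (p : ℝ) := by rw [k5] at k3; linarith
    have k8 : 1 / ((p : ℝ) - 1) ≤ (1 + r) / p := by
      rw [div_le_div_iff₀ (by linarith) (by linarith)]
      rw [div_le_iff₀ hr0] at k3
      nlinarith
    have e1 : 1 / (((p : ℝ) - 1) * (8 * (1 / 2 - τ - Real.log p / Real.log N))) =
        1 / ((p : ℝ) - 1) * (1 / (8 * (1 / 2 - τ - Real.log p / Real.log N))) := by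
      rw [one_div_mul_one_div]
    have e2 : (1 + r) * (1 / (8 * (1 / 2 - τ - Real.log p / Real.log N)) / p) =
        (1 + r) / p * (1 / (8 * (1 / 2 - τ - Real.log p / Real.log N))) := by
      ring
    rw [e1, e2]
    exact mul_le_mul_of_nonneg_right k8 k4
  have hnn : ∀ p ∈ Q, 0 ≤ (1 + r) * (1 / (8 * (1 / 2 - τ - Real.log p / Real.log N)) / p) := by
    intro p hp
    obtain ⟨k1, k2, k3⟩ := hQx p hp
    have k4 := hgpos _ k1 k2
    positivity
  calc ∑ p ∈ (pr (yN N)).filter (fun p => zN N < p), 1 / (((p : ℝ) - 1) *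
        (8 * (1 / 2 - τ - Real.log p / Real.log N)))
      ≤ ∑ p ∈ (pr (yN N)).filter (fun p => zN N < p),
          (1 + r) * (1 / (8 * (1 / 2 - τ - Real.log p / Real.log N)) / p) :=
        Finset.sum_le_sum fun p hp => hterm p (hsub hp)
    _ ≤ ∑ p ∈ Q, (1 + r) * (1 / (8 * (1 / 2 - τ - Real.log p / Real.log N)) / p) :=
        Finset.sum_le_sum_of_subset_of_nonneg hsub fun p hp _ => hnn p hp
    _ = (1 + r) * ∑ p ∈ Q, 1 / (8 * (1 / 2 - τ - Real.log p / Real.log N)) / p := by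
        rw [Finset.mul_sum]
    _ ≤ (1 + r) * (Real.log 6 / 4 + 2 * (ε / 3)) := by
        apply mul_le_mul_of_nonneg_left _ (by linarith)
        linarith
    _ = Real.log 6 / 4 + ε := by
        rw [add_mul, one_mul, hr, div_mul_cancel₀]
        · ring
        · positivity

end Pool.Agent.CH
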