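import Mathlib
import Pool.Agent.CH.Stmts

set_option autoImplicit false

/-!
# CH / BMass

B0 = sum over p1 in (z,y], p2 > y, p3 >= p2 of eta(p1p2p3/N) <= sum over p1, p2 with p1 p2^2 <= N of sum_{p3} eta(p3/Y), Y = N/(p1p2) >= N^(3/10): St_P2: <= (1+eps) (int eta) N/log N * sum_{p1} sum_{p2} 1/(p1 p2 (1 - b1 - b2)), b_i = log p_i/log N.
Inner sum: p2 from N^(1/3) to N^((1-b1)/2): St_MR with a = 1/3, b = 9/20, g(x) = 1/(1 - b1 - x) (bounded by 4, Lipschitz 16 on x <= 9/20, b1 <= 7/20): <= int_{1/3}^{(1-b1)/2} dx/(x(1-b1-x)) + eps = log(2-3 b1)/(1-b1) + eps.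
Outer sum over p1 in (N^(1/8), N^(1/3)] (p1 > floor(N^(1/8)) means p1 > N^(1/8)); primes in (N^(1/3), ceil(N^(1/3))]: at most one, and for it p2 > y >= p1 .. contributes o(1).  St_MR with g(x) = log(2-3x)/(1-x) on [1/8,1/3].
-/

namespace Pool.Agent.CH

open Finset Filter Pool.Agent.MT

/-- range of `p₁` -/
noncomputable def bmP1 (z y : ℕ) : Finset ℕ := (pr y).filter (fun p => z < p)

/-- range of `p₂` -/
noncomputable def bmP2 (N y p₁ : ℕ) : Finset ℕ := (pr N).filter (fun p => y < p ∧ p₁ * p ^ 2 ≤ N)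

theorem bm_mem_pr {z p : ℕ} : p ∈ pr z ↔ p ≤ z ∧ p.Prime := by
  unfold pr
  rw [mem_filter, mem_range]
  constructor
  · rintro ⟨h1, h2⟩
    exact ⟨by omega, h2⟩
  · rintro ⟨h1, h2⟩
    exact ⟨by omega, h2⟩

theorem bm_B0_le {η : ℝ → ℝ} (hη : IsWt η) (N z y : ℕ) (hN : 1 ≤ N) :
    B0 η N z y ≤ ∑ p₁ ∈ bmP1 z y, ∑ p₂ ∈ bmP2 N y p₁,
      ∑ p₃ ∈ pr ⌊(N : ℝ) / (p₁ * p₂)⌋₊, η ((p₃ : ℝ) / ((N : ℝ) / (p₁ * p₂))) := by
  classical
  have key : ∀ q ∈ range (N + 1), bt z y q * η ((q : ℝ) / N) ≤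
      ∑ p₁ ∈ bmP1 z y, ∑ p₂ ∈ bmP2 N y p₁, ∑ p₃ ∈ pr ⌊(N : ℝ) / (p₁ * p₂)⌋₊,
        if q = p₁ * p₂ * p₃ then η ((q : ℝ) / N) else 0 := by
    intro q hq
    have hnn : ∀ p₁ p₂ p₃ : ℕ, 0 ≤ (if q = p₁ * p₂ * p₃ then η ((q : ℝ) / N) else 0) := by
      intro p₁ p₂ p₃
      split_ifs
      · exact hη.nonneg _
      · exact le_rfl
    unfold bt
    split_ifs with h
    · obtain ⟨p₁, p₂, p₃, h1, h2, h3, hz, hy, hy2, h23, hq3⟩ := h
      have hqN : p₁ * p₂ * p₃ ≤ N := by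
        have := mem_range.1 hq
        omega
      have m1 : p₁ ∈ bmP1 z y := by
        unfold bmP1
        rw [mem_filter, bm_mem_pr]
        exact ⟨⟨hy, h1⟩, hz⟩
      have m2 : p₂ ∈ bmP2 N y p₁ := by
        unfold bmP2
        rw [mem_filter, bm_mem_pr]
        have e1 : p₁ * p₂ ^ 2 ≤ N := by
          calc p₁ * p₂ ^ 2 = p₁ * p₂ * p₂ := by ring
            _ ≤ p₁ * p₂ * p₃ := Nat.mul_le_mul_left _ h23
            _ ≤ N := hqN
        have e2 : p₂ ≤ N := by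
          calc p₂ = 1 * p₂ ^ 1 := by ring
            _ ≤ p₁ * p₂ ^ 2 := Nat.mul_le_mul h1.one_le (Nat.pow_le_pow_right h2.pos (by norm_num))
            _ ≤ N := e1
        exact ⟨⟨e2, h2⟩, hy2, e1⟩
      have m3 : p₃ ∈ pr ⌊(N : ℝ) / (p₁ * p₂)⌋₊ := by
        rw [bm_mem_pr]
        refine ⟨Nat.le_floor ?_, h3⟩
        have hp1 : (0 : ℝ) < p₁ := by exact_mod_cast h1.pos
        have hp2 : (0 : ℝ) < p₂ := by exact_mod_cast h2.pos
        rw [le_div_iff₀ (by positivity)]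
        have : ((p₁ * p₂ * p₃ : ℕ) : ℝ) ≤ N := by exact_mod_cast hqN
        push_cast at this
        linarith [this, mul_comm (p₃ : ℝ) ((p₁ : ℝ) * p₂)]
      calc 1 * η ((q : ℝ) / N) = (if q = p₁ * p₂ * p₃ then η ((q : ℝ) / N) else 0) := by
            rw [if_pos hq3, one_mul]
        _ ≤ ∑ p₃' ∈ pr ⌊(N : ℝ) / (p₁ * p₂)⌋₊,
              (if q = p₁ * p₂ * p₃' then η ((q : ℝ) / N) else 0) :=
            single_le_sum (f := fun p₃' => if q = p₁ * p₂ * p₃' then η ((q : ℝ) / N) else 0)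
              (fun i _ => hnn _ _ _) m3
        _ ≤ ∑ p₂' ∈ bmP2 N y p₁, ∑ p₃' ∈ pr ⌊(N : ℝ) / (p₁ * p₂')⌋₊,
              (if q = p₁ * p₂' * p₃' then η ((q : ℝ) / N) else 0) :=
            single_le_sum (f := fun p₂' : ℕ => ∑ p₃' ∈ pr ⌊(N : ℝ) / (p₁ * p₂')⌋₊,
              (if q = p₁ * p₂' * p₃' then η ((q : ℝ) / N) else 0))
              (fun i _ => sum_nonneg (fun _ _ => hnn _ _ _)) m2
        _ ≤ _ :=
            single_le_sum (f := fun p₁' : ℕ => ∑ p₂' ∈ bmP2 N y p₁',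
              ∑ p₃' ∈ pr ⌊(N : ℝ) / (p₁' * p₂')⌋₊,
              (if q = p₁' * p₂' * p₃' then η ((q : ℝ) / N) else 0))
              (fun i _ => sum_nonneg (fun _ _ => sum_nonneg (fun _ _ => hnn _ _ _))) m1
    · rw [zero_mul]
      exact sum_nonneg (fun _ _ => sum_nonneg (fun _ _ => sum_nonneg (fun _ _ => hnn _ _ _)))
  unfold B0
  refine (sum_le_sum key).trans ?_
  rw [sum_comm]
  refine sum_le_sum (fun p₁ hp₁ => ?_)
  rw [sum_comm]
  refine sum_le_sum (fun p₂ hp₂ => ?_)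
  rw [sum_comm]
  refine sum_le_sum (fun p₃ hp₃ => ?_)
  have hN' : (N : ℝ) ≠ 0 := by
    have : (1 : ℝ) ≤ N := by exact_mod_cast hN
    linarith
  have hp1 : (0 : ℝ) < p₁ := by
    have := (bm_mem_pr.1 (mem_filter.1 hp₁).1).2.pos
    exact_mod_cast this
  have hp2 : (0 : ℝ) < p₂ := by
    have := (bm_mem_pr.1 (mem_filter.1 hp₂).1).2.pos
    exact_mod_cast this
  have e : (p₃ : ℝ) / ((N : ℝ) / (p₁ * p₂)) = ((p₁ * p₂ * p₃ : ℕ) : ℝ) / N := by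
    push_cast
    field_simp
  rw [e]
  rw [Finset.sum_ite_eq']
  split_ifs
  · exact le_rfl
  · exact hη.nonneg _

/-- Lipschitz bound for `1/(1-b-x)` -/
theorem bm_g_bd (b x : ℝ) (hb : b ≤ 1 / 3) (hx : x ≤ 9 / 20) :
    |1 / (1 - b - x)| ≤ 25 := by
  have h : (1 : ℝ) / 5 ≤ 1 - b - x := by linarith
  rw [abs_of_nonneg (by positivity)]
  rw [div_le_iff₀ (by linarith)]
  linarith

theorem bm_g_lip (b x x' : ℝ) (hb : b ≤ 1 / 3) (hx : x ≤ 9 / 20) (hx' : x' ≤ 9 / 20) :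
    |1 / (1 - b - x) - 1 / (1 - b - x')| ≤ 25 * |x - x'| := by
  have h : (1 : ℝ) / 5 ≤ 1 - b - x := by linarith
  have h' : (1 : ℝ) / 5 ≤ 1 - b - x' := by linarith
  have hp : (0 : ℝ) < 1 - b - x := by linarith
  have hp' : (0 : ℝ) < 1 - b - x' := by linarith
  have e : 1 / (1 - b - x) - 1 / (1 - b - x') = (x - x') / ((1 - b - x) * (1 - b - x')) := by
    field_simp
    ring
  rw [e, abs_div, abs_of_pos (mul_pos hp hp'), div_le_iff₀ (mul_pos hp hp')]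
  have h1 : (1 : ℝ) / 25 ≤ (1 - b - x) * (1 - b - x') := by nlinarith
  nlinarith [abs_nonneg (x - x')]

/-- the inner integral -/
theorem bm_int (b : ℝ) (hb : b ≤ 1 / 3) :
    ∫ x in (1 / 3 : ℝ)..((1 - b) / 2), (1 / (1 - b - x)) / x = Real.log (2 - 3 * b) / (1 - b) := by
  have h1b : (0 : ℝ) < 1 - b := by linarith
  have hle : (1 / 3 : ℝ) ≤ (1 - b) / 2 := by linarith
  have hd : ∀ x ∈ Set.uIcc (1 / 3 : ℝ) ((1 - b) / 2),
      HasDerivAt (fun x : ℝ => (Real.log x - Real.log (1 - b - x)) / (1 - b))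
        ((1 / (1 - b - x)) / x) x := by
    intro x hx
    rw [Set.uIcc_of_le hle] at hx
    have hx0 : (0 : ℝ) < x := by linarith [hx.1]
    have hx1 : (0 : ℝ) < 1 - b - x := by linarith [hx.2]
    have d1 : HasDerivAt (fun x : ℝ => Real.log x) x⁻¹ x := Real.hasDerivAt_log hx0.ne'
    have d2 : HasDerivAt (fun x : ℝ => Real.log (1 - b - x)) ((-1) / (1 - b - x)) x := by
      have d3 : HasDerivAt (fun x : ℝ => 1 - b - x) (-1) x := by
        simpa using (hasDerivAt_id x).const_sub (1 - b)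
      exact d3.log hx1.ne'
    have d4 := (d1.sub d2).div_const (1 - b)
    refine d4.congr_deriv ?_
    field_simp
    ring
  have hc : ContinuousOn (fun x : ℝ => (1 / (1 - b - x)) / x)
      (Set.uIcc (1 / 3 : ℝ) ((1 - b) / 2)) := by
    rw [Set.uIcc_of_le hle]
    apply ContinuousOn.div
    · apply ContinuousOn.div continuousOn_const
      · fun_prop
      · intro x hx
        have : (0 : ℝ) < 1 - b - x := by linarith [hx.2]
        exact this.ne'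
    · exact continuousOn_id
    · intro x hx
      have : (0 : ℝ) < x := by linarith [hx.1]
      exact this.ne'
  rw [intervalIntegral.integral_eq_sub_of_hasDerivAt hd (hc.intervalIntegrable)]
  have e1 : (1 - b - (1 - b) / 2) = (1 - b) / 2 := by ring
  have e2 : Real.log (2 - 3 * b) = Real.log (1 - b - 1 / 3) - Real.log (1 / 3) := by
    have h23 : (0 : ℝ) < 1 - b - 1 / 3 := by linarith
    rw [← Real.log_div h23.ne' (by norm_num)]
    congr 1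
    ring
  rw [e1, e2]
  ring

/-- the function of the outer sum -/
noncomputable def bmh (x : ℝ) : ℝ := Real.log (2 - 3 * x) / (1 - x)

theorem bm_h_nonneg (x : ℝ) (hx : x ≤ 1 / 3) : 0 ≤ bmh x := by
  unfold bmh
  apply div_nonneg
  · exact Real.log_nonneg (by linarith)
  · linarith

theorem bm_log_le (x : ℝ) (hx0 : 0 ≤ x) (hx : x ≤ 1 / 3) : Real.log (2 - 3 * x) ≤ 1 := by
  have := Real.log_le_sub_one_of_pos (x := 2 - 3 * x) (by linarith)
  linarith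

theorem bm_h_bd (x : ℝ) (hx0 : 0 ≤ x) (hx : x ≤ 1 / 3) : bmh x ≤ 2 := by
  unfold bmh
  rw [div_le_iff₀ (by linarith)]
  have := bm_log_le x hx0 hx
  linarith

theorem bm_log_lip (s t : ℝ) (hs : 1 ≤ s) (ht : 1 ≤ t) : |Real.log s - Real.log t| ≤ |s - t| := by
  have key : ∀ s t : ℝ, 1 ≤ s → 1 ≤ t → Real.log s - Real.log t ≤ |s - t| := by
    intro s t hs ht
    have hs0 : 0 < s := by linarith
    have ht0 : 0 < t := by linarith
    rw [← Real.log_div hs0.ne' ht0.ne']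
    have h1 := Real.log_le_sub_one_of_pos (x := s / t) (by positivity)
    have h2 : s / t - 1 = (s - t) / t := by
      field_simp
    have h3 : (s - t) / t ≤ |s - t| / t := by
      gcongr
      exact le_abs_self _
    have h4 : |s - t| / t ≤ |s - t| := div_le_self (abs_nonneg _) ht
    linarith
  rw [abs_le]
  constructor
  · have := key t s ht hs
    rw [abs_sub_comm] at this
    linarith
  · exact key s t hs ht

theorem bm_h_lip (x x' : ℝ) (hx : x ≤ 1 / 3) (hx0' : 0 ≤ x') (hx' : x' ≤ 1 / 3) :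
    |bmh x - bmh x'| ≤ 10 * |x - x'| := by
  unfold bmh
  have h1 : (0 : ℝ) < 1 - x := by linarith
  have h1' : (0 : ℝ) < 1 - x' := by linarith
  have hL : |Real.log (2 - 3 * x) - Real.log (2 - 3 * x')| ≤ 3 * |x - x'| := by
    refine (bm_log_lip _ _ (by linarith) (by linarith)).trans ?_
    have : (2 - 3 * x - (2 - 3 * x')) = (-3) * (x - x') := by ring
    rw [this, abs_mul]
    norm_num
  have hl0 : 0 ≤ Real.log (2 - 3 * x') := Real.log_nonneg (by linarith)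
  have hl1 := bm_log_le x' hx0' hx'
  have e : Real.log (2 - 3 * x) / (1 - x) - Real.log (2 - 3 * x') / (1 - x') =
      (Real.log (2 - 3 * x) - Real.log (2 - 3 * x')) / (1 - x) +
      Real.log (2 - 3 * x') * ((x - x') / ((1 - x) * (1 - x'))) := by
    field_simp
    ring
  rw [e]
  refine (abs_add_le _ _).trans ?_
  have a1 : |(Real.log (2 - 3 * x) - Real.log (2 - 3 * x')) / (1 - x)| ≤ 5 * |x - x'| := by
    rw [abs_div, abs_of_pos h1, div_le_iff₀ h1]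
    have : 2 / 3 ≤ 1 - x := by linarith
    nlinarith [abs_nonneg (x - x')]
  have a2 : |Real.log (2 - 3 * x') * ((x - x') / ((1 - x) * (1 - x')))| ≤ 5 * |x - x'| := by
    rw [abs_mul, abs_of_nonneg hl0, abs_div, abs_of_pos (mul_pos h1 h1')]
    have b1 : |x - x'| / ((1 - x) * (1 - x')) ≤ 5 * |x - x'| := by
      rw [div_le_iff₀ (mul_pos h1 h1')]
      have : 4 / 9 ≤ (1 - x) * (1 - x') := by nlinarith
      nlinarith [abs_nonneg (x - x')]
    have b0 : 0 ≤ |x - x'| / ((1 - x) * (1 - x')) := by positivity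
    calc Real.log (2 - 3 * x') * (|x - x'| / ((1 - x) * (1 - x')))
        ≤ 1 * (|x - x'| / ((1 - x) * (1 - x'))) := by gcongr
      _ ≤ _ := by linarith
  linarith

theorem bm_cB : cB = ∫ x in (1 / 8 : ℝ)..(1 / 3 : ℝ), bmh x / x := by
  unfold cB bmh
  congr 1
  funext x
  rw [div_div, mul_comm x]

theorem bm_facts {N p₁ p₂ : ℕ} (hN : 2 ≤ N) (h₁ : p₁ ∈ bmP1 (zN N) (yN N))
    (h₂ : p₂ ∈ bmP2 N (yN N) p₁) :
    (N : ℝ) ^ (1 / 3 : ℝ) < p₂ ∧ (p₁ : ℝ) ≤ (N : ℝ) ^ (1 / 3 : ℝ) ∧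
      Real.log p₁ / Real.log N + 2 * (Real.log p₂ / Real.log N) ≤ 1 ∧
      (p₂ : ℝ) ≤ N / (p₁ * p₂) := by
  have hN2 : (2 : ℝ) ≤ N := by exact_mod_cast hN
  have hN0 : (0 : ℝ) < N := by linarith
  have hL : 0 < Real.log N := Real.log_pos (by linarith)
  have m1 := mem_filter.1 h₁
  have m1' := bm_mem_pr.1 m1.1
  have m2 := mem_filter.1 h₂
  have m2' := bm_mem_pr.1 m2.1
  have hp1 : (0 : ℝ) < p₁ := by exact_mod_cast m1'.2.pos
  have hp2 : (0 : ℝ) < p₂ := by exact_mod_cast m2'.2.pos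
  have hle : (p₁ : ℝ) * (p₂ : ℝ) ^ 2 ≤ N := by exact_mod_cast m2.2.2
  have hy : (N : ℝ) ^ (1 / 3 : ℝ) < p₂ := by
    have a1 : (N : ℝ) ^ (1 / 3 : ℝ) ≤ yN N := Nat.le_ceil _
    have a2 : ((yN N : ℕ) : ℝ) < p₂ := by exact_mod_cast m2.2.1
    linarith
  refine ⟨hy, ?_, ?_, ?_⟩
  · by_contra hcon
    push Not at hcon
    have hc0 : 0 < (N : ℝ) ^ (1 / 3 : ℝ) := Real.rpow_pos_of_pos hN0 _
    have hc3 : ((N : ℝ) ^ (1 / 3 : ℝ)) ^ 3 = N := by
      rw [← Real.rpow_natCast, ← Real.rpow_mul hN0.le]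
      norm_num
    have : ((N : ℝ) ^ (1 / 3 : ℝ)) ^ 3 < p₁ * (p₂ : ℝ) ^ 2 := by
      calc ((N : ℝ) ^ (1 / 3 : ℝ)) ^ 3 = (N : ℝ) ^ (1 / 3 : ℝ) * ((N : ℝ) ^ (1 / 3 : ℝ)) ^ 2 := by ring
        _ < p₁ * (p₂ : ℝ) ^ 2 := by gcongr
    linarith
  · have h : Real.log p₁ + 2 * Real.log p₂ ≤ Real.log N := by
      have h' := Real.log_le_log (by positivity) hle
      rw [Real.log_mul hp1.ne' (by positivity), Real.log_pow] at h'
      push_cast at h'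
      linarith
    rw [← mul_div_assoc, ← add_div, div_le_one hL]
    exact h
  · rw [le_div_iff₀ (by positivity)]
    nlinarith

theorem bm_beta {N p₁ : ℕ} (hN : 2 ≤ N) (h₁ : p₁ ∈ bmP1 (zN N) (yN N)) :
    (N : ℝ) ^ (1 / 8 : ℝ) < p₁ ∧ 1 / 8 ≤ Real.log p₁ / Real.log N ∧
      ((p₁ : ℝ) ≤ (N : ℝ) ^ (1 / 3 : ℝ) → Real.log p₁ / Real.log N ≤ 1 / 3) := by
  have hN2 : (2 : ℝ) ≤ N := by exact_mod_cast hN
  have hN0 : (0 : ℝ) < N := by linarith
  have hL : 0 < Real.log N := Real.log_pos (by linarith)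
  have m1 := mem_filter.1 h₁
  have m1' := bm_mem_pr.1 m1.1
  have hp1 : (0 : ℝ) < p₁ := by exact_mod_cast m1'.2.pos
  have hz : (N : ℝ) ^ (1 / 8 : ℝ) < p₁ := Nat.lt_of_floor_lt m1.2
  refine ⟨hz, ?_, fun h => ?_⟩
  · rw [le_div_iff₀ hL, ← Real.log_rpow hN0]
    exact Real.log_le_log (by positivity) hz.le
  · rw [div_le_iff₀ hL, ← Real.log_rpow hN0]
    exact Real.log_le_log hp1 h

theorem bm_inner {e : ℝ} {N : ℕ} (hN : 2 ≤ N)
    (k1 : ∀ u v : ℝ, 1 / 3 ≤ u → u ≤ v → v ≤ 9 / 20 → ∀ g : ℝ → ℝ,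
      (∀ x, 1 / 3 ≤ x → x ≤ 9 / 20 → |g x| ≤ 25) →
      (∀ x x', 1 / 3 ≤ x → x ≤ 9 / 20 → 1 / 3 ≤ x' → x' ≤ 9 / 20 →
        |g x - g x'| ≤ 25 * |x - x'|) →
      |∑ p ∈ (range (⌊(N : ℝ) ^ (9 / 20 : ℝ)⌋₊ + 1)).filter (fun p : ℕ => p.Prime ∧
        (N : ℝ) ^ u < p ∧ (p : ℝ) ≤ (N : ℝ) ^ v), g (Real.log p / Real.log N) / p -
        ∫ x in u..v, g x / x| ≤ e)
    {p₁ : ℕ} (h₁ : p₁ ∈ bmP1 (zN N) (yN N)) (hp : (p₁ : ℝ) ≤ (N : ℝ) ^ (1 / 3 : ℝ)) :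
    ∑ p₂ ∈ bmP2 N (yN N) p₁,
      1 / (1 - Real.log p₁ / Real.log N - Real.log p₂ / Real.log N) / p₂ ≤
      bmh (Real.log p₁ / Real.log N) + e := by
  have hN2 : (2 : ℝ) ≤ N := by exact_mod_cast hN
  have hN0 : (0 : ℝ) < N := by linarith
  have hL : 0 < Real.log N := Real.log_pos (by linarith)
  obtain ⟨-, hb8, hb3⟩ := bm_beta hN h₁
  have hb := hb3 hp
  set b : ℝ := Real.log p₁ / Real.log N with hbdef
  have k := k1 (1 / 3) ((1 - b) / 2) le_rfl (by linarith) (by linarith)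
    (fun x => 1 / (1 - b - x)) (fun x _ hx => bm_g_bd b x hb hx)
    (fun x x' _ hx _ hx' => bm_g_lip b x x' hb hx hx')
  have k' := (abs_le.1 k).2
  have hint : (∫ x in (1 / 3 : ℝ)..((1 - b) / 2), (fun x => 1 / (1 - b - x)) x / x) = bmh b :=
    bm_int b hb
  rw [hint] at k'
  have hsub : bmP2 N (yN N) p₁ ⊆ (range (⌊(N : ℝ) ^ (9 / 20 : ℝ)⌋₊ + 1)).filter
      (fun p : ℕ => p.Prime ∧ (N : ℝ) ^ (1 / 3 : ℝ) < p ∧ (p : ℝ) ≤ (N : ℝ) ^ ((1 - b) / 2)) := by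
    intro p₂ h₂
    obtain ⟨f1, f2, f3, f4⟩ := bm_facts hN h₁ h₂
    have m2 := mem_filter.1 h₂
    have m2' := bm_mem_pr.1 m2.1
    have hp2 : (0 : ℝ) < p₂ := by exact_mod_cast m2'.2.pos
    rw [← hbdef] at f3
    have hv : (p₂ : ℝ) ≤ (N : ℝ) ^ ((1 - b) / 2) := by
      rw [← Real.log_le_log_iff hp2 (Real.rpow_pos_of_pos hN0 _), Real.log_rpow hN0,
        ← div_le_iff₀ hL]
      linarith
    have hv' : (p₂ : ℝ) ≤ (N : ℝ) ^ (9 / 20 : ℝ) :=
      hv.trans (Real.rpow_le_rpow_of_exponent_le (by linarith) (by linarith))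
    rw [mem_filter, mem_range]
    exact ⟨Nat.lt_succ_of_le (Nat.le_floor hv'), m2'.2, f1, hv⟩
  have hnn : ∀ p ∈ (range (⌊(N : ℝ) ^ (9 / 20 : ℝ)⌋₊ + 1)).filter
      (fun p : ℕ => p.Prime ∧ (N : ℝ) ^ (1 / 3 : ℝ) < p ∧ (p : ℝ) ≤ (N : ℝ) ^ ((1 - b) / 2)),
      p ∉ bmP2 N (yN N) p₁ → 0 ≤ 1 / (1 - b - Real.log p / Real.log N) / p := by
    intro p hp' _
    have hm := (mem_filter.1 hp').2
    have hpp : (0 : ℝ) < p := by exact_mod_cast hm.1.pos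
    have hlog : Real.log p / Real.log N ≤ (1 - b) / 2 := by
      rw [div_le_iff₀ hL, ← Real.log_rpow hN0]
      exact Real.log_le_log hpp hm.2.2
    have : 0 < 1 - b - Real.log p / Real.log N := by linarith
    positivity
  have hs := sum_le_sum_of_subset_of_nonneg hsub hnn
  have k'' : ∑ p ∈ (range (⌊(N : ℝ) ^ (9 / 20 : ℝ)⌋₊ + 1)).filter
      (fun p : ℕ => p.Prime ∧ (N : ℝ) ^ (1 / 3 : ℝ) < p ∧ (p : ℝ) ≤ (N : ℝ) ^ ((1 - b) / 2)),
      1 / (1 - b - Real.log p / Real.log N) / p - bmh b ≤ e := k'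
  linarith

theorem bm_outer {e : ℝ} (he0 : 0 ≤ e) (he1 : e ≤ 1) {N : ℕ} (hN : 2 ≤ N)
    (k2 : ∀ u v : ℝ, 1 / 8 ≤ u → u ≤ v → v ≤ 1 / 3 → ∀ g : ℝ → ℝ,
      (∀ x, 1 / 8 ≤ x → x ≤ 1 / 3 → |g x| ≤ 10) →
      (∀ x x', 1 / 8 ≤ x → x ≤ 1 / 3 → 1 / 8 ≤ x' → x' ≤ 1 / 3 →
        |g x - g x'| ≤ 10 * |x - x'|) →
      |∑ p ∈ (range (⌊(N : ℝ) ^ (1 / 3 : ℝ)⌋₊ + 1)).filter (fun p : ℕ => p.Prime ∧
        (N : ℝ) ^ u < p ∧ (p : ℝ) ≤ (N : ℝ) ^ v), g (Real.log p / Real.log N) / p -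
        ∫ x in u..v, g x / x| ≤ e)
    (T : ℕ → ℝ) (hT : ∀ p₁ ∈ bmP1 (zN N) (yN N), (p₁ : ℝ) ≤ (N : ℝ) ^ (1 / 3 : ℝ) →
      T p₁ ≤ bmh (Real.log p₁ / Real.log N) + e)
    (hT' : ∀ p₁ ∈ bmP1 (zN N) (yN N), ¬ (p₁ : ℝ) ≤ (N : ℝ) ^ (1 / 3 : ℝ) → T p₁ ≤ 0) :
    ∑ p₁ ∈ bmP1 (zN N) (yN N), T p₁ / p₁ ≤ cB + 4 * e := by
  classical
  have hN2 : (2 : ℝ) ≤ N := by exact_mod_cast hN
  have hN0 : (0 : ℝ) < N := by linarith
  have hL : 0 < Real.log N := Real.log_pos (by linarith)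
  have a1 := (abs_le.1 (k2 (1 / 8) (1 / 3) le_rfl (by norm_num) le_rfl bmh
    (fun x hx0 hx => by
      rw [abs_of_nonneg (bm_h_nonneg x hx)]
      linarith [bm_h_bd x (by linarith) hx])
    (fun x x' _ hx hx0' hx' => bm_h_lip x x' hx (by linarith) hx'))).2
  have a2 := (abs_le.1 (k2 (1 / 8) (1 / 3) le_rfl (by norm_num) le_rfl (fun _ => 1)
    (fun x _ _ => by norm_num)
    (fun x x' _ _ _ _ => by
      rw [sub_self, abs_zero]
      positivity))).2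
  rw [← bm_cB] at a1
  have hi : (∫ x in (1 / 8 : ℝ)..(1 / 3 : ℝ), (fun _ : ℝ => (1 : ℝ)) x / x) ≤ 5 / 3 := by
    have : (∫ x in (1 / 8 : ℝ)..(1 / 3 : ℝ), (fun _ : ℝ => (1 : ℝ)) x / x) =
        Real.log ((1 / 3) / (1 / 8)) := integral_one_div_of_pos (by norm_num) (by norm_num)
    rw [this]
    have := Real.log_le_sub_one_of_pos (x := (1 / 3 : ℝ) / (1 / 8)) (by norm_num)
    linarith
  set F : Finset ℕ := (range (⌊(N : ℝ) ^ (1 / 3 : ℝ)⌋₊ + 1)).filter (fun p : ℕ => p.Prime ∧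
        (N : ℝ) ^ (1 / 8 : ℝ) < p ∧ (p : ℝ) ≤ (N : ℝ) ^ (1 / 3 : ℝ)) with hF
  have hbeta : ∀ p ∈ F, Real.log p / Real.log N ≤ 1 / 3 := by
    intro p hp
    have hm := (mem_filter.1 hp).2
    have hpp : (0 : ℝ) < p := by exact_mod_cast hm.1.pos
    rw [div_le_iff₀ hL, ← Real.log_rpow hN0]
    exact Real.log_le_log hpp hm.2.2
  calc ∑ p₁ ∈ bmP1 (zN N) (yN N), T p₁ / p₁
      ≤ ∑ p₁ ∈ bmP1 (zN N) (yN N), (if (p₁ : ℝ) ≤ (N : ℝ) ^ (1 / 3 : ℝ) then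
          (bmh (Real.log p₁ / Real.log N) + e) / p₁ else 0) := by
        refine sum_le_sum (fun p hp => ?_)
        split_ifs with h
        · exact div_le_div_of_nonneg_right (hT p hp h) (Nat.cast_nonneg _)
        · exact div_nonpos_of_nonpos_of_nonneg (hT' p hp h) (Nat.cast_nonneg _)
    _ = ∑ p₁ ∈ (bmP1 (zN N) (yN N)).filter (fun p : ℕ => (p : ℝ) ≤ (N : ℝ) ^ (1 / 3 : ℝ)),
          (bmh (Real.log p₁ / Real.log N) + e) / p₁ := by
        rw [sum_filter]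
    _ ≤ ∑ p₁ ∈ F, (bmh (Real.log p₁ / Real.log N) + e) / p₁ := by
        apply sum_le_sum_of_subset_of_nonneg
        · intro p hp
          have hm := mem_filter.1 hp
          have hb := (bm_beta hN hm.1).1
          have hpp := (bm_mem_pr.1 (mem_filter.1 hm.1).1).2
          rw [hF, mem_filter, mem_range]
          exact ⟨Nat.lt_succ_of_le (Nat.le_floor hm.2), hpp, hb, hm.2⟩
        · intro p hp _
          have := bm_h_nonneg _ (hbeta p hp)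
          positivity
    _ = ∑ p ∈ F, bmh (Real.log p / Real.log N) / p + e * ∑ p ∈ F, (1 : ℝ) / p := by
        rw [mul_sum, ← sum_add_distrib]
        refine sum_congr rfl (fun p _ => ?_)
        ring
    _ ≤ cB + 4 * e := by
        have b2 : ∑ p ∈ F, (1 : ℝ) / p ≤ 8 / 3 := by
          have : ∑ p ∈ F, (1 : ℝ) / p -
            (∫ x in (1 / 8 : ℝ)..(1 / 3 : ℝ), (fun _ : ℝ => (1 : ℝ)) x / x) ≤ e := a2
          linarith
        have b3 : e * ∑ p ∈ F, (1 : ℝ) / p ≤ e * (8 / 3) := by gcongr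
        linarith

/-- keep this signature -/
theorem thm_BMass (h1 : St_MR) (h2 : St_P2) : St_BMass := by
  intro η hη ε hε
  set I : ℝ := ∫ t in (0 : ℝ)..1, η t with hI
  have hI0 : 0 ≤ I := intervalIntegral.integral_nonneg (by norm_num) (fun t _ => hη.nonneg t)
  have hcB8 : 0 < |cB| + 8 := by positivity
  obtain ⟨e, he0, he1, he2⟩ : ∃ e : ℝ, 0 < e ∧ e ≤ 1 ∧ e * (|cB| + 8) ≤ ε := by
    refine ⟨min 1 (ε / (|cB| + 8)), lt_min one_pos (div_pos hε hcB8), min_le_left _ _, ?_⟩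
    calc min 1 (ε / (|cB| + 8)) * (|cB| + 8) ≤ ε / (|cB| + 8) * (|cB| + 8) := by
          gcongr
          exact min_le_right _ _
      _ = ε := by field_simp
  obtain ⟨Y₀, hY₀⟩ := h2 η hη e he0
  have hN1 := h1 (1 / 3) (9 / 20) 25 e (by norm_num) (by norm_num) he0
  have hN2 := h1 (1 / 8) (1 / 3) 10 e (by norm_num) (by norm_num) he0
  have hN4 : ∀ᶠ N : ℕ in atTop, Y₀ ≤ (N : ℝ) ^ (1 / 3 : ℝ) :=
    ((tendsto_rpow_atTop (by norm_num)).comp tendsto_natCast_atTop_atTop).eventually_ge_atTop Y₀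
  filter_upwards [hN1, hN2, hN4, eventually_ge_atTop 2] with N k1 k2 k4 k5
  have hNr : (2 : ℝ) ≤ N := by exact_mod_cast k5
  have hN0 : (0 : ℝ) < N := by linarith
  have hL : 0 < Real.log N := Real.log_pos (by linarith)
  have step1 := bm_B0_le hη N (zN N) (yN N) (by omega)
  have step2 : ∑ p₁ ∈ bmP1 (zN N) (yN N), ∑ p₂ ∈ bmP2 N (yN N) p₁,
      ∑ p₃ ∈ pr ⌊(N : ℝ) / (p₁ * p₂)⌋₊, η ((p₃ : ℝ) / ((N : ℝ) / (p₁ * p₂))) ≤
      ∑ p₁ ∈ bmP1 (zN N) (yN N), (1 + e) * I * (N / Real.log N) *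
        ((∑ p₂ ∈ bmP2 N (yN N) p₁,
          1 / (1 - Real.log p₁ / Real.log N - Real.log p₂ / Real.log N) / p₂) / p₁) := by
    refine sum_le_sum (fun p₁ h₁ => ?_)
    rw [sum_div, mul_sum]
    refine sum_le_sum (fun p₂ h₂ => ?_)
    obtain ⟨f1, f2, f3, f4⟩ := bm_facts k5 h₁ h₂
    have hp1 : (0 : ℝ) < p₁ := by
      have := (bm_mem_pr.1 (mem_filter.1 h₁).1).2.pos
      exact_mod_cast this
    have hp2 : (0 : ℝ) < p₂ := by
      have := (bm_mem_pr.1 (mem_filter.1 h₂).1).2.pos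
      exact_mod_cast this
    refine (hY₀ ((N : ℝ) / (p₁ * p₂)) (by linarith)).trans (le_of_eq ?_)
    have hlog : Real.log ((N : ℝ) / (p₁ * p₂)) =
        Real.log N * (1 - Real.log p₁ / Real.log N - Real.log p₂ / Real.log N) := by
      rw [Real.log_div hN0.ne' (by positivity), Real.log_mul hp1.ne' hp2.ne']
      field_simp
      ring
    obtain ⟨-, hb8, hb3⟩ := bm_beta k5 h₁
    have hb := hb3 f2
    have hpos : 0 < 1 - Real.log p₁ / Real.log N - Real.log p₂ / Real.log N := by linarith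
    rw [hlog, ← hI]
    generalize (1 - Real.log p₁ / Real.log N - Real.log p₂ / Real.log N) = c at hpos
    field_simp
  rw [← mul_sum] at step2
  have step3 := bm_outer he0.le he1 k5 k2
    (fun p₁ => ∑ p₂ ∈ bmP2 N (yN N) p₁,
      1 / (1 - Real.log p₁ / Real.log N - Real.log p₂ / Real.log N) / p₂)
    (fun p₁ h₁ hp => bm_inner k5 k1 h₁ hp)
    (fun p₁ h₁ hp => by
      refine le_of_eq (sum_eq_zero (fun p₂ h₂ => ?_))
      exact absurd (bm_facts k5 h₁ h₂).2.1 hp)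
  have hfac : 0 ≤ (1 + e) * I * (N / Real.log N) := by positivity
  calc B0 η N (zN N) (yN N) ≤ (1 + e) * I * (N / Real.log N) * (cB + 4 * e) :=
        step1.trans (step2.trans (mul_le_mul_of_nonneg_left step3 hfac))
    _ = ((1 + e) * (cB + 4 * e)) * (I * (N / Real.log N)) := by ring
    _ ≤ (cB + ε) * (I * (N / Real.log N)) := by
        apply mul_le_mul_of_nonneg_right _ (by positivity)
        have : e * cB ≤ e * |cB| := mul_le_mul_of_nonneg_left (le_abs_self _) he0.le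
        nlinarith
    _ = (cB + ε) * I * N / Real.log N := by ring

end Pool.Agent.CH
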