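import Mathlib
import Pool.Agent.CH.Stmts

set_option autoImplicit false

/-!
# CH / Dens

Local densities of the two sieve problems.  For a prime `l` not dividing `m` let `a` be the class
with `m a = n'` modulo `l` and `U = {0, a} ∪ {c : c ^ 2 = 2}`; then `OmA = U \ {a}` and
`OmB = U \ {0}`.  For `l ∣ m` we have `OmA = OmB ∪ {0}`.
-/

namespace Pool.Agent.CH

open Finset Filter Pool.Agent.MT

/-- nonzero square roots of two -/
def densR (l : ℕ) : Finset ℕ := (range l).filter (fun c => c ≠ 0 ∧ c ^ 2 % l = 2 % l)

theorem dens_R_card (l : ℕ) (hl : l.Prime) : (densR l).card ≤ 2 := by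
  rcases (densR l).eq_empty_or_nonempty with h | ⟨r, hr⟩
  · rw [h]; simp
  · have hsub : densR l ⊆ {r, l - r} := by
      intro c hc
      unfold densR at hc hr
      rw [mem_filter, mem_range] at hc hr
      obtain ⟨hcl, hc0, hc2⟩ := hc
      obtain ⟨hrl, hr0, hr2⟩ := hr
      have h1 : c ^ 2 ≡ r ^ 2 [MOD l] := by
        unfold Nat.ModEq
        rw [hc2, hr2]
      have h2 := Nat.modEq_iff_dvd.1 h1
      have h3 : (l : ℤ) ∣ ((r : ℤ) - c) * ((r : ℤ) + c) := by
        have : ((r : ℤ) - c) * ((r : ℤ) + c) = ((r ^ 2 : ℕ) : ℤ) - ((c ^ 2 : ℕ) : ℤ) := by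
          push_cast
          ring
        rw [this]
        exact h2
      have hp : Prime (l : ℤ) := Nat.prime_iff_prime_int.1 hl
      rw [mem_insert, mem_singleton]
      rcases hp.dvd_or_dvd h3 with h | h
      · left
        obtain ⟨k, hk⟩ := h
        have hk0 : k = 0 := by
          by_contra hne
          rcases lt_or_gt_of_ne hne with h' | h'
          · have : (l : ℤ) * k ≤ -(l : ℤ) := by nlinarith
            omega
          · have : (l : ℤ) ≤ (l : ℤ) * k := by nlinarith
            omega
        rw [hk0, mul_zero] at hk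
        omega
      · right
        obtain ⟨k, hk⟩ := h
        have hk1 : k = 1 := by
          by_contra hne
          rcases lt_or_gt_of_ne hne with h' | h'
          · have : (l : ℤ) * k ≤ 0 := by nlinarith
            omega
          · have : 2 * (l : ℤ) ≤ (l : ℤ) * k := by nlinarith
            omega
        rw [hk1, mul_one] at hk
        omega
    exact (card_le_card hsub).trans card_le_two

theorem dens_R_small (l : ℕ) (hl : l.Prime) (h5 : l < 7) : densR l = ∅ := by
  interval_cases l
  · exact absurd hl (by decide)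
  · exact absurd hl (by decide)
  · decide
  · decide
  · exact absurd hl (by decide)
  · decide
  · exact absurd hl (by decide)

/-- the class `a` -/
theorem dens_exists_a (m n' l : ℕ) (hl : l.Prime) (hm : ¬ l ∣ m) :
    ∃ a < l, ∀ c < l, (m * c) % l = n' % l ↔ c = a := by
  have : Fact l.Prime := ⟨hl⟩
  have hm0 : (m : ZMod l) ≠ 0 := by
    rw [Ne, ZMod.natCast_eq_zero_iff]
    exact hm
  refine ⟨((n' : ZMod l) * (m : ZMod l)⁻¹).val, ZMod.val_lt _, ?_⟩
  intro c hc
  rw [← Nat.ModEq.eq_1 l (m * c) n', ← ZMod.natCast_eq_natCast_iff]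
  constructor
  · intro h
    have h1 : (c : ZMod l) = (n' : ZMod l) * (m : ZMod l)⁻¹ := by
      rw [← h]
      push_cast
      field_simp
    rw [← h1, ZMod.val_natCast, Nat.mod_eq_of_lt hc]
  · intro h
    have h1 : (c : ZMod l) = (n' : ZMod l) * (m : ZMod l)⁻¹ := by
      rw [h, ZMod.natCast_zmod_val]
    push_cast
    rw [h1]
    field_simp

/-- primes dividing `m` -/
theorem dens_dvd (w m n' l : ℕ) (hl : l.Prime) (hm : l ∣ m) (hc : n'.Coprime m) :
    (OmA w m n' l).card = (OmB w m n' l).card + 1 ∧ OmB w m n' l ⊆ densR l := by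
  have hn : ∀ c : ℕ, (m * c) % l ≠ n' % l := by
    intro c h
    rw [Nat.mod_eq_zero_of_dvd (hm.mul_right c)] at h
    have h1 : l ∣ n' := Nat.dvd_of_mod_eq_zero h.symm
    have h2 := Nat.dvd_gcd h1 hm
    rw [hc] at h2
    exact hl.one_lt.ne' (Nat.dvd_one.1 h2)
  have hA : OmA w m n' l = insert 0 (OmB w m n' l) := by
    ext c
    unfold OmA OmB
    rw [mem_insert, mem_filter, mem_filter, mem_range]
    constructor
    · rintro ⟨h1, h2, h3⟩
      by_cases h0 : c = 0
      · exact Or.inl h0
      · refine Or.inr ⟨h1, h0, Or.inl ?_⟩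
        exact h2.resolve_left h0
    · rintro (h | ⟨h1, h2, h3⟩)
      · subst h
        exact ⟨hl.pos, Or.inl rfl, hn 0⟩
      · refine ⟨h1, Or.inr ?_, hn c⟩
        exact h3.resolve_right (hn c)
  have h0 : 0 ∉ OmB w m n' l := by
    unfold OmB
    rw [mem_filter]
    rintro ⟨-, h, -⟩
    exact h rfl
  refine ⟨?_, ?_⟩
  · rw [hA, card_insert_of_notMem h0]
  · intro c hc'
    unfold OmB at hc'
    unfold densR
    rw [mem_filter] at hc' ⊢
    exact ⟨hc'.1, hc'.2.1, (hc'.2.2.resolve_right (hn c)).2⟩

/-- primes not dividing `m` -/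
theorem dens_ndvd (w m n' l : ℕ) (hl : l.Prime) (hm : ¬ l ∣ m) :
    (OmA w m n' l).card = (OmB w m n' l).card ∧ (OmB w m n' l).card ≤ (densR l).card + 1 ∧
      (w < l → l ∣ n' → (OmA w m n' l).card = 0) ∧
      (w < l → ¬ l ∣ n' → (OmA w m n' l).card = 1) := by
  obtain ⟨a, hal, ha⟩ := dens_exists_a m n' l hl hm
  set U : Finset ℕ := insert 0 (insert a ((range l).filter (fun c => l ≤ w ∧ c ^ 2 % l = 2 % l)))
    with hU
  have hA : OmA w m n' l = U.erase a := by
    ext c
    unfold OmA
    rw [hU, mem_erase, mem_insert, mem_insert, mem_filter, mem_filter, mem_range]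
    constructor
    · rintro ⟨h1, h2, h3⟩
      have h4 : c ≠ a := fun h => h3 ((ha c h1).2 h)
      refine ⟨h4, ?_⟩
      rcases h2 with h2 | h2
      · exact Or.inl h2
      · exact Or.inr (Or.inr ⟨h1, h2⟩)
    · rintro ⟨h1, h2⟩
      have hcl : c < l := by
        rcases h2 with h2 | h2 | h2
        · rw [h2]; exact hl.pos
        · exact absurd h2 h1
        · exact h2.1
      refine ⟨hcl, ?_, fun h => h1 ((ha c hcl).1 h)⟩
      rcases h2 with h2 | h2 | h2
      · exact Or.inl h2
      · exact absurd h2 h1
      · exact Or.inr h2.2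
  have hB : OmB w m n' l = U.erase 0 := by
    ext c
    unfold OmB
    rw [hU, mem_erase, mem_insert, mem_insert, mem_filter, mem_filter, mem_range]
    constructor
    · rintro ⟨h1, h2, h3⟩
      refine ⟨h2, ?_⟩
      rcases h3 with h3 | h3
      · exact Or.inr (Or.inr ⟨h1, h3⟩)
      · exact Or.inr (Or.inl ((ha c h1).1 h3))
    · rintro ⟨h1, h2⟩
      rcases h2 with h2 | h2 | h2
      · exact absurd h2 h1
      · refine ⟨by rw [h2]; exact hal, h1, Or.inr ?_⟩
        rw [h2]
        exact (ha a hal).2 rfl
      · exact ⟨h2.1, h1, Or.inl h2.2⟩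
  have haU : a ∈ U := by rw [hU]; simp
  have h0U : 0 ∈ U := by rw [hU]; simp
  have hcA : (OmA w m n' l).card = U.card - 1 := by rw [hA, card_erase_of_mem haU]
  have hcB : (OmB w m n' l).card = U.card - 1 := by rw [hB, card_erase_of_mem h0U]
  refine ⟨by rw [hcA, hcB], ?_, ?_, ?_⟩
  · have hsub : OmB w m n' l ⊆ insert a (densR l) := by
      rw [hB]
      intro c hc
      rw [hU, mem_erase, mem_insert, mem_insert, mem_filter] at hc
      rw [mem_insert]
      unfold densR
      rw [mem_filter]
      rcases hc.2 with h | h | h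
      · exact absurd h hc.1
      · exact Or.inl h
      · exact Or.inr ⟨h.1, hc.1, h.2.2⟩
    exact (card_le_card hsub).trans (card_insert_le _ _)
  · intro hw hn
    have ha0 : a = 0 := by
      have := (ha 0 hl.pos).1 (by rw [mul_zero, Nat.zero_mod, Nat.mod_eq_zero_of_dvd hn])
      exact this.symm
    have hUe : U = {0} := by
      rw [hU, ha0]
      ext c
      rw [mem_insert, mem_insert, mem_filter, mem_singleton]
      constructor
      · rintro (h | h | h)
        · exact h
        · exact h
        · exact absurd h.2.1 (by omega)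
      · intro h
        exact Or.inl h
    rw [hcA, hUe]
    simp
  · intro hw hn
    have ha0 : a ≠ 0 := by
      intro h
      have h1 := (ha 0 hl.pos).2 h.symm
      rw [mul_zero, Nat.zero_mod] at h1
      exact hn (Nat.dvd_of_mod_eq_zero h1.symm)
    have hUe : U = {0, a} := by
      rw [hU]
      ext c
      rw [mem_insert, mem_insert, mem_filter, mem_insert, mem_singleton]
      constructor
      · rintro (h | h | h)
        · exact Or.inl h
        · exact Or.inr h
        · exact absurd h.2.1 (by omega)
      · rintro (h | h)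
        · exact Or.inl h
        · exact Or.inr (Or.inl h)
    rw [hcA, hUe, card_pair (Ne.symm ha0)]

/-- the prime `2` when `m` is odd and `n'` is even -/
theorem dens_two (w m n' : ℕ) (hn : n' % 2 = 0) : (OmA w m n' 2).card = 0 := by
  rw [card_eq_zero]
  unfold OmA
  rw [filter_eq_empty_iff]
  intro c hc
  rw [mem_range] at hc
  rintro ⟨h1, h2⟩
  interval_cases c
  · apply h2
    rw [mul_zero, Nat.zero_mod, hn]
  · rcases h1 with h1 | h1
    · exact absurd h1 (by norm_num)
    · exact absurd h1.2 (by norm_num)

/-- keep this signature -/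
theorem thm_Dens : St_Dens := by
  intro w m n' hm hc hpar
  refine ⟨?_, ?_, ?_⟩
  · intro l hl
    have hl2 : (2 : ℝ) ≤ l := by exact_mod_cast hl.two_le
    have hl0 : (0 : ℝ) < l := by linarith
    have hl1 : (0 : ℝ) < (l : ℝ) - 1 := by linarith
    have hR := dens_R_card l hl
    by_cases hd : l ∣ m
    · obtain ⟨h1, h2⟩ := dens_dvd w m n' l hl hd hc
      have h3 := card_le_card h2
      have gAe : gA w m n' l = ((OmB w m n' l).card + 1 : ℝ) / l := by
        unfold gA
        rw [if_pos hd, h1]
        push_cast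
        rfl
      have gBe : gB w m n' l = ((OmB w m n' l).card : ℝ) / ((l : ℝ) - 1) := rfl
      have hb0 : (0 : ℝ) ≤ ((OmB w m n' l).card : ℝ) := Nat.cast_nonneg _
      have hb2 : ((OmB w m n' l).card : ℝ) ≤ 2 := by exact_mod_cast (by omega)
      refine ⟨by omega, by omega, ?_, ?_, ?_, ?_, ?_, ?_⟩
      · rw [gAe]; positivity
      · rw [gAe, div_le_div_iff₀ hl0 (by norm_num)]
        by_cases h7 : l < 7
        · rw [dens_R_small l hl h7] at h3
          have : (OmB w m n' l).card = 0 := by simpa using h3
          rw [this]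
          push_cast
          linarith
        · have : (7 : ℝ) ≤ l := by exact_mod_cast (by omega)
          linarith
      · rw [gAe]
        gcongr
        linarith
      · rw [gBe]; positivity
      · rw [gBe, div_le_div_iff₀ hl1 (by norm_num)]
        by_cases h7 : l < 7
        · rw [dens_R_small l hl h7] at h3
          have : (OmB w m n' l).card = 0 := by simpa using h3
          rw [this]
          push_cast
          linarith
        · have : (7 : ℝ) ≤ l := by exact_mod_cast (by omega)
          linarith
      · rw [gBe, div_le_div_iff₀ hl1 hl0]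
        by_cases h7 : l < 7
        · rw [dens_R_small l hl h7] at h3
          have : (OmB w m n' l).card = 0 := by simpa using h3
          rw [this]
          push_cast
          linarith
        · have : (7 : ℝ) ≤ l := by exact_mod_cast (by omega)
          nlinarith
    · obtain ⟨h1, h2, -, -⟩ := dens_ndvd w m n' l hl hd
      have gAe : gA w m n' l = ((OmB w m n' l).card : ℝ) / ((l : ℝ) - 1) := by
        unfold gA
        rw [if_neg hd, h1]
      have gBe : gB w m n' l = ((OmB w m n' l).card : ℝ) / ((l : ℝ) - 1) := rfl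
      have hb0 : (0 : ℝ) ≤ ((OmB w m n' l).card : ℝ) := Nat.cast_nonneg _
      have hkey : ((OmB w m n' l).card : ℝ) * 2 ≤ (l : ℝ) - 1 ∧
          ((OmB w m n' l).card : ℝ) * l ≤ 4 * ((l : ℝ) - 1) := by
        by_cases h7 : l < 7
        · rw [dens_R_small l hl h7] at h2
          rw [card_empty, zero_add] at h2
          by_cases h22 : l = 2
          · subst h22
            have hne : n' % 2 = 0 := by omega
            have h3 := dens_two w m n' hne
            rw [h1] at h3
            rw [h3]
            push_cast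
            norm_num
          · have h3 : (3 : ℝ) ≤ l := by
              have := hl.two_le
              exact_mod_cast (by omega)
            have h4 : ((OmB w m n' l).card : ℝ) ≤ 1 := by exact_mod_cast h2
            constructor
            · linarith
            · nlinarith
        · have h3 : (7 : ℝ) ≤ l := by exact_mod_cast (by omega)
          have h4 : ((OmB w m n' l).card : ℝ) ≤ 3 := by exact_mod_cast (by omega)
          constructor
          · linarith
          · nlinarith
      have hg0 : 0 ≤ ((OmB w m n' l).card : ℝ) / ((l : ℝ) - 1) := by positivity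
      have hg1 : ((OmB w m n' l).card : ℝ) / ((l : ℝ) - 1) ≤ 1 / 2 := by
        rw [div_le_div_iff₀ hl1 (by norm_num)]
        linarith [hkey.1]
      have hg2 : ((OmB w m n' l).card : ℝ) / ((l : ℝ) - 1) ≤ 4 / (l : ℝ) := by
        rw [div_le_div_iff₀ hl1 hl0]
        exact hkey.2
      rw [gAe, gBe]
      exact ⟨by omega, by omega, hg0, hg1, hg2, hg0, hg1, hg2⟩
  · intro l hl hw hd
    obtain ⟨h1, -, h3, h4⟩ := dens_ndvd w m n' l hl hd
    refine ⟨?_, ?_, ?_⟩
    · unfold gA gB
      rw [if_neg hd, h1]
    · intro hn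
      unfold gA
      rw [if_neg hd, h3 hw hn]
      simp
    · intro hn
      unfold gA
      rw [if_neg hd, h4 hw hn]
      simp
  · intro z hmw hwz
    unfold VV
    have hfac : ∀ l ∈ pr z, 1 - gA w m n' l =
        (if l ∣ m then (1 - (l : ℝ)⁻¹) else 1) * (1 - gB w m n' l) := by
      intro l hl
      unfold pr at hl
      rw [mem_filter] at hl
      have hlp := hl.2
      have hl2 : (2 : ℝ) ≤ l := by exact_mod_cast hlp.two_le
      have hl0 : (l : ℝ) ≠ 0 := by linarith
      have hl1 : (l : ℝ) - 1 ≠ 0 := by linarith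
      by_cases hd : l ∣ m
      · obtain ⟨h1, -⟩ := dens_dvd w m n' l hlp hd hc
        unfold gA gB
        rw [if_pos hd, if_pos hd, h1]
        push_cast
        field_simp
        ring
      · obtain ⟨h1, -, -, -⟩ := dens_ndvd w m n' l hlp hd
        unfold gA gB
        rw [if_neg hd, if_neg hd, h1, one_mul]
    rw [prod_congr rfl hfac, prod_mul_distrib]
    congr 1
    have h1 : ∏ l ∈ pr z, (if l ∣ m then (1 - (l : ℝ)⁻¹) else 1) =
        ∏ l ∈ m.primeFactors, (1 - (l : ℝ)⁻¹) := by
      rw [← prod_filter]
      apply prod_congr _ (fun _ _ => rfl)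
      ext l
      unfold pr
      rw [mem_filter, mem_filter, mem_range, Nat.mem_primeFactors]
      constructor
      · rintro ⟨⟨-, h⟩, h'⟩
        exact ⟨h, h', by omega⟩
      · rintro ⟨h, h', -⟩
        have := Nat.le_of_dvd (by omega) h'
        exact ⟨⟨by omega, h⟩, h'⟩
    rw [h1]
    have h2 := Nat.totient_eq_mul_prod_factors m
    have h3 : ((m.totient : ℚ) : ℝ) = ((m * ∏ p ∈ m.primeFactors, (1 - (p : ℚ)⁻¹) : ℚ) : ℝ) := by
      rw [h2]
    push_cast at h3
    have hm0 : (m : ℝ) ≠ 0 := by
      have : (1 : ℝ) ≤ m := by exact_mod_cast hm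
      linarith
    rw [h3]
    field_simp

end Pool.Agent.CH
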