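import Mathlib
import Pool.Agent.CH.Stmts
import Pool.Agent.GBQ.Crt

set_option autoImplicit false

/-!
# CH / Gen: evaluation of a sieve sum by the residue classes modulo the squarefree numbers `d`
-/

namespace Pool.Agent.CH

open Finset Filter Pool.Agent.MT

/-- the classes modulo `d` -/
private def gen_Cl (Om : ℕ → Finset ℕ) (d : ℕ) : Finset ℕ :=
  (range d).filter (fun a => ∀ l ∈ d.primeFactors, a % l ∈ Om l)

private lemma gen_card_Cl {Om : ℕ → Finset ℕ} {d : ℕ} (hd : Squarefree d)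
    (hOm : ∀ l ∈ d.primeFactors, Om l ⊆ range l) :
    ((gen_Cl Om d).card : ℝ) = ∏ l ∈ d.primeFactors, ((Om l).card : ℝ) := by
  have h := Pool.Agent.GBQ.thm_Crt d.primeFactors Om (fun p hp => Nat.prime_of_mem_primeFactors hp)
    hOm
  rw [Nat.prod_primeFactors_of_squarefree hd] at h
  unfold gen_Cl
  rw [h]
  push_cast
  rfl

/-- powerset sum as a sum over squarefree numbers -/
private lemma gen_powerset {c : ℕ → ℝ} {P S : Finset ℕ} {D : ℕ} (hP : ∀ l ∈ P, l.Prime)
    (hS : S ⊆ P) (hc : ∀ d, c d ≠ 0 → Squarefree d ∧ d.primeFactors ⊆ P ∧ d ≤ D) :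
    ∑ T ∈ S.powerset, c (∏ l ∈ T, l) =
      ∑ d ∈ (Icc 1 D).filter (fun d => d.primeFactors ⊆ S), c d := by
  have hprimes : ∀ T ∈ S.powerset, ∀ l ∈ T, l.Prime := fun T hT l hl =>
    hP l (hS (mem_powerset.1 hT hl))
  refine Finset.sum_bij_ne_zero (fun T _ _ => ∏ l ∈ T, l) ?_ ?_ ?_ ?_
  · intro T hT hne
    obtain ⟨h1, h2, h3⟩ := hc _ hne
    rw [mem_filter, mem_Icc]
    refine ⟨⟨Nat.one_le_iff_ne_zero.2 h1.ne_zero, h3⟩, ?_⟩
    rw [Nat.primeFactors_prod (hprimes T hT)]
    exact mem_powerset.1 hT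
  · intro T hT _ T' hT' _ hEq
    have := congrArg Nat.primeFactors hEq
    rwa [Nat.primeFactors_prod (hprimes T hT), Nat.primeFactors_prod (hprimes T' hT')] at this
  · intro d hd hne
    rw [mem_filter] at hd
    obtain ⟨h1, h2, h3⟩ := hc _ hne
    refine ⟨d.primeFactors, mem_powerset.2 hd.2, ?_, Nat.prod_primeFactors_of_squarefree h1⟩
    rwa [Nat.prod_primeFactors_of_squarefree h1]
  · intro T _ _
    rfl

/-- the sum over the `q` in the classes, split by the class modulo `d` -/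
private lemma gen_split (ϖ : ℕ → ℝ) (Om : ℕ → Finset ℕ) (N : ℕ) {d : ℕ} (hd : d ≠ 0) :
    ∑ q ∈ (range (N + 1)).filter (fun q => ∀ l ∈ d.primeFactors, q % l ∈ Om l), ϖ q =
      ∑ a ∈ gen_Cl Om d, ∑ q ∈ (range (N + 1)).filter (fun q => q % d = a), ϖ q := by
  have hmod : ∀ q : ℕ, ∀ l ∈ d.primeFactors, (q % d) % l = q % l := fun q l hl =>
    Nat.mod_mod_of_dvd q (Nat.dvd_of_mem_primeFactors hl)
  have hmaps : ∀ q ∈ (range (N + 1)).filter (fun q => ∀ l ∈ d.primeFactors, q % l ∈ Om l),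
      q % d ∈ gen_Cl Om d := by
    intro q hq
    rw [mem_filter] at hq
    unfold gen_Cl
    rw [mem_filter, mem_range]
    refine ⟨Nat.mod_lt q (Nat.pos_of_ne_zero hd), fun l hl => ?_⟩
    rw [hmod q l hl]
    exact hq.2 l hl
  rw [← Finset.sum_fiberwise_of_maps_to hmaps]
  refine Finset.sum_congr rfl fun a ha => ?_
  refine Finset.sum_congr ?_ fun _ _ => rfl
  ext q
  simp only [mem_filter]
  constructor
  · rintro ⟨⟨h1, _⟩, h3⟩
    exact ⟨h1, h3⟩
  · rintro ⟨h1, h3⟩
    refine ⟨⟨h1, fun l hl => ?_⟩, h3⟩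
    unfold gen_Cl at ha
    rw [mem_filter] at ha
    rw [← hmod q l hl, h3]
    exact ha.2 l hl

/-- keep this signature -/
theorem thm_Gen : St_Gen := by
  intro ϖ c h E Om P N D κ M hP hOm hc hE0 hE
  -- exchange
  have h1 : ∑ q ∈ range (N + 1), ϖ q *
      ∑ T ∈ (P.filter (fun l => q % l ∈ Om l)).powerset, c (∏ l ∈ T, l) =
      ∑ d ∈ Icc 1 D, c d *
        ∑ q ∈ (range (N + 1)).filter (fun q => ∀ l ∈ d.primeFactors, q % l ∈ Om l), ϖ q := by
    have e1 : ∀ q ∈ range (N + 1), ϖ q *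
        ∑ T ∈ (P.filter (fun l => q % l ∈ Om l)).powerset, c (∏ l ∈ T, l) =
        ∑ d ∈ Icc 1 D, if (∀ l ∈ d.primeFactors, q % l ∈ Om l) then c d * ϖ q else 0 := by
      intro q _
      rw [gen_powerset hP (filter_subset _ _) hc, mul_sum, sum_filter]
      refine sum_congr rfl fun d _ => ?_
      by_cases hcd : c d = 0
      · rw [hcd]
        simp
      · obtain ⟨_, h2, _⟩ := hc d hcd
        have : d.primeFactors ⊆ P.filter (fun l => q % l ∈ Om l) ↔
            ∀ l ∈ d.primeFactors, q % l ∈ Om l := by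
          constructor
          · intro h l hl
            exact (mem_filter.1 (h hl)).2
          · intro h l hl
            exact mem_filter.2 ⟨h2 hl, h l hl⟩
        simp only [this]
        split_ifs
        · ring
        · rfl
    rw [sum_congr rfl e1, sum_comm]
    refine sum_congr rfl fun d _ => ?_
    rw [← sum_filter, mul_sum]
  rw [h1, mul_sum, ← sum_sub_distrib]
  refine (abs_sum_le_sum_abs _ _).trans (sum_le_sum fun d hd => ?_)
  by_cases hcd : c d = 0
  · rw [hcd]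
    simp
  obtain ⟨hsq, hdP, _⟩ := hc d hcd
  have hd0 : d ≠ 0 := hsq.ne_zero
  have hcard := gen_card_Cl (Om := Om) hsq (fun l hl => (hOm l (hdP hl)).1)
  rw [gen_split ϖ Om N hd0, ← hcard]
  have e2 : c d * ∑ a ∈ gen_Cl Om d, ∑ q ∈ (range (N + 1)).filter (fun q => q % d = a), ϖ q -
      M * (c d * (h d * ((gen_Cl Om d).card : ℝ))) =
      c d * ∑ a ∈ gen_Cl Om d, (∑ q ∈ (range (N + 1)).filter (fun q => q % d = a), ϖ q -
        M * h d) := by
    rw [sum_sub_distrib, sum_const, nsmul_eq_mul]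
    ring
  rw [e2, abs_mul]
  refine mul_le_mul_of_nonneg_left ?_ (abs_nonneg _)
  calc |∑ a ∈ gen_Cl Om d, (∑ q ∈ (range (N + 1)).filter (fun q => q % d = a), ϖ q - M * h d)|
      ≤ ∑ a ∈ gen_Cl Om d,
        |∑ q ∈ (range (N + 1)).filter (fun q => q % d = a), ϖ q - M * h d| :=
        abs_sum_le_sum_abs _ _
    _ ≤ ∑ _a ∈ gen_Cl Om d, E d := by
        refine sum_le_sum fun a ha => ?_
        unfold gen_Cl at ha
        rw [mem_filter, mem_range] at ha
        exact hE d hcd a ha.1 ha.2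
    _ = ((gen_Cl Om d).card : ℝ) * E d := by rw [sum_const, nsmul_eq_mul]
    _ ≤ (κ : ℝ) ^ d.primeFactors.card * E d := by
        refine mul_le_mul_of_nonneg_right ?_ (hE0 d)
        rw [hcard, ← prod_const]
        refine prod_le_prod (fun l _ => by positivity) fun l hl => ?_
        exact_mod_cast (hOm l (hdP hl)).2

end Pool.Agent.CH
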