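import Mathlib
import Pool.Agent.CH.Stmts
import Pool.Agent.GV.Asm
import Pool.Agent.MT.Wt

set_option autoImplicit false

/-!
# CH / P1

GV.swz (Pool/Agent/GV/Asm.lean) with b = 0 (wt eta N 0 n = eta(n/N)): |psi0 eta N - sum_n eta(n/N)| <= N/log N.  |sum_{n<=N} eta(n/N) - N int_0^1 eta| <= Lipschitz constant + 1 (Riemann sum; MT/Wt.lean wt_lipschitz, wt_zero_of_large).
-/

namespace Pool.Agent.CH

open Finset Filter Pool.Agent.MT

/-- Riemann sum of the weight -/
theorem p1_riemann (η : ℝ → ℝ) (hη : IsWt η) : ∃ C : ℝ, 0 < C ∧ ∀ N : ℕ, 1 ≤ N →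
    |Z1 η N - N * ∫ t in (0 : ℝ)..1, η t| ≤ C := by
  obtain ⟨C, hC, hL⟩ := wt_lipschitz η hη
  refine ⟨C, hC, fun N hN => ?_⟩
  have hNR : (0 : ℝ) < N := by exact_mod_cast hN
  have hcont : Continuous fun x : ℝ => η (x / N) :=
    hη.smooth.continuous.comp (continuous_id.div_const _)
  have h1 : (N : ℝ) * ∫ t in (0 : ℝ)..1, η t = ∫ x in (0 : ℝ)..N, η (x / N) := by
    rw [intervalIntegral.integral_comp_div (fun x => η x) hNR.ne']
    rw [smul_eq_mul, zero_div, div_self hNR.ne']
  have h2 : ∫ x in (0 : ℝ)..N, η (x / N) =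
      ∑ n ∈ range N, ∫ x in (n : ℝ)..((n + 1 : ℕ) : ℝ), η (x / N) := by
    have := intervalIntegral.sum_integral_adjacent_intervals (f := fun x : ℝ => η (x / N))
      (a := fun n : ℕ => (n : ℝ)) (n := N) (μ := MeasureTheory.volume)
      (fun k _ => hcont.intervalIntegrable _ _)
    rw [this]
    simp
  have h3 : Z1 η N = ∑ n ∈ range N, η ((n : ℝ) / N) := by
    unfold Z1
    rw [Finset.sum_range_succ, div_self hNR.ne', wt_zero_of_large η hη 1 (by norm_num), add_zero]
  rw [h1, h2, h3, ← Finset.sum_sub_distrib]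
  refine (Finset.abs_sum_le_sum_abs _ _).trans ?_
  have h4 : ∀ n ∈ range N, |η ((n : ℝ) / N) - ∫ x in (n : ℝ)..((n + 1 : ℕ) : ℝ), η (x / N)| ≤
      C / N := by
    intro n _
    have h5 : η ((n : ℝ) / N) = ∫ _x in (n : ℝ)..((n + 1 : ℕ) : ℝ), η ((n : ℝ) / N) := by
      rw [intervalIntegral.integral_const]
      push_cast
      simp
    rw [h5, ← intervalIntegral.integral_sub (by simp) (hcont.intervalIntegrable _ _)]
    have h6 := intervalIntegral.norm_integral_le_of_norm_le_const (a := (n : ℝ))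
      (b := ((n + 1 : ℕ) : ℝ)) (C := C / N)
      (f := fun x => η ((n : ℝ) / N) - η (x / N)) (fun x hx => by
        rw [Set.uIoc_of_le (by push_cast; linarith)] at hx
        obtain ⟨hx1, hx2⟩ := hx
        push_cast at hx2
        rw [Real.norm_eq_abs]
        refine (hL _ _).trans ?_
        rw [← sub_div, abs_div, abs_of_pos hNR, mul_div_assoc']
        gcongr
        have : |(n : ℝ) - x| ≤ 1 := by
          rw [abs_le]
          constructor <;> linarith
        nlinarith)
    rw [Real.norm_eq_abs] at h6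
    refine h6.trans (le_of_eq ?_)
    push_cast
    simp
  refine (Finset.sum_le_sum h4).trans (le_of_eq ?_)
  rw [Finset.sum_const, card_range, nsmul_eq_mul]
  field_simp

/-- the smooth prime number theorem in terms of `Z1` -/
theorem p1_psi0 (η : ℝ → ℝ) (hη : IsWt η) : ∀ᶠ N : ℕ in atTop,
    |psi0 η N - Z1 η N| ≤ N / Real.log N := by
  filter_upwards [Pool.Agent.GV.swz η hη 1 0] with N hN
  have h1 := hN 0 (by simp)
  have h2 : ∑ n ∈ range (N + 1), (((ArithmeticFunction.vonMangoldt n : ℝ) : ℂ) - 1) *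
      Pool.Agent.GV.wt η N 0 n = ((psi0 η N - Z1 η N : ℝ) : ℂ) := by
    unfold psi0 Z1
    rw [← Finset.sum_sub_distrib, Complex.ofReal_sum]
    refine Finset.sum_congr rfl fun n _ => ?_
    unfold Pool.Agent.GV.wt
    have : Pool.Agent.GV.ee (0 * n / N) = 1 := by
      simp [Pool.Agent.GV.ee]
    rw [this]
    push_cast
    ring
  rw [h2, Complex.norm_real, Real.norm_eq_abs, pow_one] at h1
  exact h1

/-- keep this signature -/
theorem thm_P1 : St_P1 := by
  intro η hη ε hε
  obtain ⟨C, hC, hR⟩ := p1_riemann η hη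
  have hlog : Tendsto (fun N : ℕ => Real.log (N : ℝ)) atTop atTop :=
    Real.tendsto_log_atTop.comp tendsto_natCast_atTop_atTop
  filter_upwards [p1_psi0 η hη, eventually_ge_atTop 1,
    hlog.eventually_ge_atTop (2 / ε),
    tendsto_natCast_atTop_atTop.eventually_ge_atTop (2 * C / ε)] with N h1 h2 h3 h4
  have h5 := hR N h2
  have hNR : (0 : ℝ) < N := by exact_mod_cast h2
  have hlp : 0 < Real.log N := lt_of_lt_of_le (by positivity) h3
  have h6 : (N : ℝ) / Real.log N ≤ ε / 2 * N := by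
    rw [div_le_iff₀ hlp]
    have : 1 ≤ ε / 2 * Real.log N := by
      have := mul_le_mul_of_nonneg_left h3 (by positivity : 0 ≤ ε / 2)
      have h8 : ε / 2 * (2 / ε) = 1 := by field_simp
      linarith
    nlinarith
  have h7 : C ≤ ε / 2 * N := by
    have := mul_le_mul_of_nonneg_left h4 (by positivity : 0 ≤ ε / 2)
    have h8 : ε / 2 * (2 * C / ε) = C := by field_simp
    linarith
  have h8 := abs_sub_le (psi0 η N) (Z1 η N) (N * ∫ t in (0 : ℝ)..1, η t)
  linarith

end Pool.Agent.CH
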