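import Mathlib
import Pool.Agent.CH.Stmts
import Pool.Agent.MT.Wt
import Pool.Agent.PC.PNTAP

set_option autoImplicit false

/-!
# CH / P2

The number of primes with a smooth weight, from the prime number theorem `θ(x) ~ x`.
-/

namespace Pool.Agent.CH

open Finset Filter Pool.Agent.MT

/-- logarithms of primes -/
noncomputable def p2a (n : ℕ) : ℝ := if n.Prime then Real.log n else 0

lemma p2a_nonneg (n : ℕ) : 0 ≤ p2a n := by
  unfold p2a
  split_ifs
  · exact Real.log_natCast_nonneg n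
  · exact le_rfl

lemma p2_th (N : ℕ) : ∑ i ∈ range N, p2a i = Pool.Agent.PC.PNT.th 1 0 N := by
  unfold Pool.Agent.PC.PNT.th p2a
  rw [← sum_filter]
  refine sum_congr ?_ fun _ _ => rfl
  ext p
  simp [Nat.mod_one]

lemma p2_bound {δ : ℝ} (hδ : 0 < δ) : ∃ C : ℝ, 0 ≤ C ∧ ∀ N : ℕ,
    |∑ i ∈ range N, p2a i - N| ≤ δ * N + C := by
  have h0 := Pool.Agent.PC.PNT.th_tendsto 1 0 one_pos (by norm_num)
  have h0' : Tendsto (fun N : ℕ => Pool.Agent.PC.PNT.th 1 0 N / N) atTop (nhds 1) := by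
    simpa using h0
  have h1 := h0'.eventually (Ioo_mem_nhds (a := 1 - δ) (b := 1 + δ) (by linarith) (by linarith))
  obtain ⟨Y, hY⟩ := eventually_atTop.1 (h1.and (eventually_ge_atTop 1))
  have hth : ∀ N : ℕ, 0 ≤ ∑ i ∈ range N, p2a i := fun N => sum_nonneg fun i _ => p2a_nonneg i
  refine ⟨∑ i ∈ range Y, p2a i + Y, add_nonneg (hth Y) (Nat.cast_nonneg _), fun N => ?_⟩
  rcases le_total Y N with h | h
  · obtain ⟨h2, h3⟩ := hY N h
    have hN : (0 : ℝ) < N := by exact_mod_cast h3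
    have h4 : 1 - δ < Pool.Agent.PC.PNT.th 1 0 N / N := h2.1
    have h5 : Pool.Agent.PC.PNT.th 1 0 N / N < 1 + δ := h2.2
    rw [lt_div_iff₀ hN] at h4
    rw [div_lt_iff₀ hN] at h5
    rw [p2_th N, abs_le]
    have h6 := hth Y
    have h7 : (0 : ℝ) ≤ Y := Nat.cast_nonneg _
    constructor <;> nlinarith
  · have h2 : ∑ i ∈ range N, p2a i ≤ ∑ i ∈ range Y, p2a i :=
      sum_le_sum_of_subset_of_nonneg (range_subset_range.2 h) fun i _ _ => p2a_nonneg i
    have h3 : (N : ℝ) ≤ Y := by exact_mod_cast h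
    have h4 : (0 : ℝ) ≤ N := Nat.cast_nonneg _
    have h5 := hth N
    rw [abs_le]
    constructor <;> nlinarith

lemma p2_riemann {η : ℝ → ℝ} (hη : IsWt η) {L : ℝ} (hL : 0 < L)
    (hLip : ∀ x y : ℝ, |η x - η y| ≤ L * |x - y|) {Y : ℝ} (hY : 1 ≤ Y) :
    ∑ i ∈ range (⌊Y⌋₊ + 1), η ((i : ℝ) / Y) ≤ Y * (∫ t in (0 : ℝ)..1, η t) + L := by
  have hY0 : 0 < Y := by linarith
  have hc : Continuous η := hη.smooth.continuous
  have hint : ∀ a b : ℝ, IntervalIntegrable η MeasureTheory.volume a b :=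
    fun a b => hc.intervalIntegrable a b
  rw [sum_range_succ']
  have h0 : η (((0 : ℕ) : ℝ) / Y) = 0 := by
    apply wt_zero_of_small η hη
    simp
  rw [h0, add_zero]
  have h1 : ∀ i ∈ range ⌊Y⌋₊, η (((i + 1 : ℕ) : ℝ) / Y) ≤
      Y * (∫ t in ((i : ℝ) / Y)..(((i + 1 : ℕ) : ℝ) / Y), η t) + L / Y := by
    intro i _
    have hlen : (((i + 1 : ℕ) : ℝ) / Y) - (i : ℝ) / Y = 1 / Y := by
      push_cast
      ring
    have hle : (i : ℝ) / Y ≤ ((i + 1 : ℕ) : ℝ) / Y := by
      rw [← sub_nonneg, hlen]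
      positivity
    have h2 : ∫ _t in ((i : ℝ) / Y)..(((i + 1 : ℕ) : ℝ) / Y),
        (η (((i + 1 : ℕ) : ℝ) / Y) - L / Y) ≤ ∫ t in ((i : ℝ) / Y)..(((i + 1 : ℕ) : ℝ) / Y), η t := by
      refine intervalIntegral.integral_mono_on hle intervalIntegrable_const (hint _ _) ?_
      intro t ht
      have h3 := hLip (((i + 1 : ℕ) : ℝ) / Y) t
      have h4 : |((i + 1 : ℕ) : ℝ) / Y - t| ≤ 1 / Y := by
        rw [abs_of_nonneg (by linarith [ht.2])]
        linarith [ht.1, hlen]
      have h5 := (abs_le.1 h3).2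
      have h6 : L * |((i + 1 : ℕ) : ℝ) / Y - t| ≤ L * (1 / Y) := mul_le_mul_of_nonneg_left h4 hL.le
      have h7 : L * (1 / Y) = L / Y := by ring
      linarith
    rw [intervalIntegral.integral_const, hlen, smul_eq_mul] at h2
    have h3 := mul_le_mul_of_nonneg_left h2 hY0.le
    have h4 : Y * (1 / Y * (η (((i + 1 : ℕ) : ℝ) / Y) - L / Y)) =
        η (((i + 1 : ℕ) : ℝ) / Y) - L / Y := by
      field_simp
    linarith
  have hfl : (⌊Y⌋₊ : ℝ) ≤ Y := Nat.floor_le hY0.le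
  calc ∑ i ∈ range ⌊Y⌋₊, η (((i + 1 : ℕ) : ℝ) / Y)
      ≤ ∑ i ∈ range ⌊Y⌋₊, (Y * (∫ t in ((i : ℝ) / Y)..(((i + 1 : ℕ) : ℝ) / Y), η t) + L / Y) :=
        sum_le_sum h1
    _ = Y * (∫ t in (((0 : ℕ) : ℝ) / Y)..((⌊Y⌋₊ : ℝ) / Y), η t) + ⌊Y⌋₊ * (L / Y) := by
        rw [sum_add_distrib, ← mul_sum, sum_const, card_range, nsmul_eq_mul]
        rw [intervalIntegral.sum_integral_adjacent_intervals (a := fun i : ℕ => (i : ℝ) / Y)
          fun i _ => hint _ _]
    _ ≤ Y * (∫ t in (0 : ℝ)..1, η t) + L := by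
        refine add_le_add (mul_le_mul_of_nonneg_left ?_ hY0.le) ?_
        · rw [Nat.cast_zero, zero_div]
          have h2 : (⌊Y⌋₊ : ℝ) / Y ≤ 1 := by
            rw [div_le_one hY0]
            exact hfl
          have h3 := intervalIntegral.integral_add_adjacent_intervals (hint 0 ((⌊Y⌋₊ : ℝ) / Y))
            (hint ((⌊Y⌋₊ : ℝ) / Y) 1)
          have h4 : 0 ≤ ∫ t in ((⌊Y⌋₊ : ℝ) / Y)..1, η t :=
            intervalIntegral.integral_nonneg h2 fun t _ => hη.nonneg t
          linarith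
        · calc (⌊Y⌋₊ : ℝ) * (L / Y) ≤ Y * (L / Y) := by gcongr
            _ = L := by field_simp

lemma p2_parts (f a : ℕ → ℝ) (M : ℕ) :
    ∑ i ∈ range (M + 1), f i * a i = f M * (∑ i ∈ range (M + 1), a i) -
      ∑ i ∈ range M, (f (i + 1) - f i) * ∑ j ∈ range (i + 1), a j := by
  induction M with
  | zero => simp
  | succ M ih =>
    rw [sum_range_succ, ih, sum_range_succ (fun i => (f (i + 1) - f i) * _) M,
      sum_range_succ a (M + 1)]
    ring

lemma p2_half {η : ℝ → ℝ} (hη : IsWt η) : 1 / 2 ≤ ∫ t in (0 : ℝ)..1, η t := by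
  have hc : Continuous η := hη.smooth.continuous
  have hint : ∀ a b : ℝ, IntervalIntegrable η MeasureTheory.volume a b :=
    fun a b => hc.intervalIntegrable a b
  have h1 := intervalIntegral.integral_add_adjacent_intervals (hint 0 (1 / 4)) (hint (1 / 4) 1)
  have h2 := intervalIntegral.integral_add_adjacent_intervals (hint (1 / 4) (3 / 4))
    (hint (3 / 4) 1)
  have h3 : 0 ≤ ∫ t in (0 : ℝ)..(1 / 4), η t :=
    intervalIntegral.integral_nonneg (by norm_num) fun t _ => hη.nonneg t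
  have h4 : 0 ≤ ∫ t in (3 / 4 : ℝ)..1, η t :=
    intervalIntegral.integral_nonneg (by norm_num) fun t _ => hη.nonneg t
  have h5 : ∫ t in (1 / 4 : ℝ)..(3 / 4), η t = ∫ _t in (1 / 4 : ℝ)..(3 / 4), (1 : ℝ) := by
    refine intervalIntegral.integral_congr fun t ht => ?_
    rw [Set.uIcc_of_le (by norm_num)] at ht
    exact hη.one t ht.1 ht.2
  rw [intervalIntegral.integral_const, smul_eq_mul] at h5
  linarith

/-- keep this signature -/
theorem thm_P2 : St_P2 := by
  intro η hη ε hε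
  obtain ⟨L, hL, hLip⟩ := wt_lipschitz η hη
  set I : ℝ := ∫ t in (0 : ℝ)..1, η t with hI
  have hI2 : 1 / 2 ≤ I := p2_half hη
  obtain ⟨e, he0, he1, heε⟩ : ∃ e : ℝ, 0 < e ∧ e ≤ 1 ∧ e ≤ ε :=
    ⟨min ε 1, lt_min hε one_pos, min_le_right _ _, min_le_left _ _⟩
  obtain ⟨C, hC0, hC⟩ := p2_bound (δ := e / 32 / (1 + L)) (by positivity)
  have hlog : Tendsto Real.log atTop atTop := Real.tendsto_log_atTop
  have e1 : ∀ᶠ Y : ℝ in atTop, 16 / e * (L + (C + 1) * (1 + L)) + 32 ≤ Y :=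
    eventually_ge_atTop _
  have e2 : ∀ᶠ Y : ℝ in atTop, Real.log 8 * (1 + 4 / e) ≤ Real.log Y :=
    hlog.eventually (eventually_ge_atTop _)
  obtain ⟨Y₀, hY₀⟩ := eventually_atTop.1 (e1.and e2)
  refine ⟨Y₀, fun Y hY => ?_⟩
  obtain ⟨g1, g2⟩ := hY₀ Y hY
  have hbig : 32 ≤ Y := by
    have : 0 ≤ 16 / e * (L + (C + 1) * (1 + L)) := by positivity
    linarith
  have hY0 : 0 < Y := by linarith
  set M := ⌊Y⌋₊ with hM
  have hMY : (M : ℝ) ≤ Y := Nat.floor_le hY0.le
  have hlog8 : 0 < Real.log 8 := Real.log_pos (by norm_num)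
  have hl : Real.log (Y / 8) = Real.log Y - Real.log 8 := Real.log_div (by linarith) (by norm_num)
  have hl0 : 0 < Real.log (Y / 8) := Real.log_pos (by linarith)
  -- the weighted sum
  set f : ℕ → ℝ := fun i => η ((i : ℝ) / Y) with hf
  have hparts : ∑ i ∈ range (M + 1), f i * p2a i - ∑ i ∈ range (M + 1), f i =
      f M * (∑ i ∈ range (M + 1), p2a i - (M + 1 : ℕ)) -
        ∑ i ∈ range M, (f (i + 1) - f i) * (∑ j ∈ range (i + 1), p2a j - (i + 1 : ℕ)) := by
    have h1 := p2_parts f p2a M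
    have h2 := p2_parts f (fun _ => 1) M
    simp only [mul_one, sum_const, card_range, nsmul_eq_mul] at h2
    rw [h1, h2]
    simp only [mul_sub, sum_sub_distrib]
    ring
  set δ : ℝ := e / 32 / (1 + L) with hδ
  have hδ0 : 0 < δ := by positivity
  have hbd : ∀ i : ℕ, i ≤ M → |∑ j ∈ range (i + 1), p2a j - (i + 1 : ℕ)| ≤ δ * (Y + 1) + C := by
    intro i hi
    refine (hC (i + 1)).trans ?_
    have : (((i + 1 : ℕ) : ℝ)) ≤ Y + 1 := by
      push_cast
      have : (i : ℝ) ≤ M := by exact_mod_cast hi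
      linarith
    have := mul_le_mul_of_nonneg_left this hδ0.le
    linarith
  have hB0 : 0 ≤ δ * (Y + 1) + C := by positivity
  have herr : ∑ i ∈ range (M + 1), f i * p2a i ≤
      ∑ i ∈ range (M + 1), f i + (δ * (Y + 1) + C) * (1 + L) := by
    have h1 : f M * (∑ i ∈ range (M + 1), p2a i - (M + 1 : ℕ)) ≤ δ * (Y + 1) + C := by
      have h2 := (abs_le.1 (hbd M le_rfl)).2
      have h3 : 0 ≤ f M := hη.nonneg _
      have h4 : f M ≤ 1 := hη.le_one _
      nlinarith
    have h2 : -(∑ i ∈ range M, (f (i + 1) - f i) * (∑ j ∈ range (i + 1), p2a j - (i + 1 : ℕ))) ≤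
        (δ * (Y + 1) + C) * L := by
      rw [← sum_neg_distrib]
      calc ∑ i ∈ range M, -((f (i + 1) - f i) * (∑ j ∈ range (i + 1), p2a j - (i + 1 : ℕ)))
          ≤ ∑ _i ∈ range M, (L / Y) * (δ * (Y + 1) + C) := by
            refine sum_le_sum fun i hi => ?_
            have h3 : |f (i + 1) - f i| ≤ L / Y := by
              rw [hf]
              refine (hLip _ _).trans (le_of_eq ?_)
              have : (((i + 1 : ℕ) : ℝ) / Y - (i : ℝ) / Y) = 1 / Y := by
                push_cast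
                ring
              rw [this, abs_of_pos (by positivity)]
              ring
            have h4 := hbd i (mem_range.1 hi).le
            calc -((f (i + 1) - f i) * (∑ j ∈ range (i + 1), p2a j - (i + 1 : ℕ)))
                ≤ |(f (i + 1) - f i) * (∑ j ∈ range (i + 1), p2a j - (i + 1 : ℕ))| := neg_le_abs _
              _ = |f (i + 1) - f i| * |∑ j ∈ range (i + 1), p2a j - (i + 1 : ℕ)| := abs_mul _ _
              _ ≤ (L / Y) * (δ * (Y + 1) + C) :=
                  mul_le_mul h3 h4 (abs_nonneg _) (by positivity)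
        _ = (M : ℝ) * ((L / Y) * (δ * (Y + 1) + C)) := by
            rw [sum_const, card_range, nsmul_eq_mul]
        _ ≤ Y * ((L / Y) * (δ * (Y + 1) + C)) := by gcongr
        _ = (δ * (Y + 1) + C) * L := by field_simp
    linarith
  have hR : ∑ i ∈ range (M + 1), f i ≤ Y * I + L := p2_riemann hη hL hLip (by linarith)
  -- compare with the number of primes
  have hcount : ∑ p ∈ pr M, η ((p : ℝ) / Y) * Real.log (Y / 8) ≤
      ∑ i ∈ range (M + 1), f i * p2a i := by
    unfold pr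
    rw [sum_filter]
    refine sum_le_sum fun i _ => ?_
    unfold p2a
    split_ifs with hp
    · rw [hf]
      by_cases h0 : η ((i : ℝ) / Y) = 0
      · simp [h0]
      · refine mul_le_mul_of_nonneg_left ?_ (hη.nonneg _)
        have h1 := (hη.supp _ h0).1
        rw [lt_div_iff₀ hY0] at h1
        exact Real.log_le_log (by positivity) (by linarith)
    · simp
  have hkey : (∑ p ∈ pr M, η ((p : ℝ) / Y)) * Real.log (Y / 8) ≤ Y * (I + e / 8) := by
    rw [sum_mul]
    refine hcount.trans (herr.trans ?_)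
    have h1 : δ * (1 + L) = e / 32 := by
      rw [hδ]
      field_simp
    have h2 : 16 / e * (L + (C + 1) * (1 + L)) ≤ Y := by linarith
    have h3 : L + (C + 1) * (1 + L) ≤ e / 16 * Y := by
      have h4 : L + (C + 1) * (1 + L) = e / 16 * (16 / e * (L + (C + 1) * (1 + L))) := by
        field_simp
      rw [h4]
      gcongr
    have h5 : (δ * (Y + 1) + C) * (1 + L) = e / 32 * (Y + 1) + C * (1 + L) := by
      rw [add_mul, mul_right_comm, h1]
    rw [h5]
    nlinarith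
  have hlogs : Real.log Y ≤ (1 + e / 4) * Real.log (Y / 8) := by
    rw [hl]
    have h1 : e / 4 * (Real.log 8 * (1 + 4 / e)) ≤ e / 4 * Real.log Y := by gcongr
    have h2 : e / 4 * (Real.log 8 * (1 + 4 / e)) = (1 + e / 4) * Real.log 8 := by
      field_simp
      ring
    nlinarith
  have hlogY : 0 < Real.log Y := Real.log_pos (by linarith)
  have hfin : (∑ p ∈ pr M, η ((p : ℝ) / Y)) * Real.log Y ≤ (1 + ε) * (Y * I) := by
    have hS0 : 0 ≤ ∑ p ∈ pr M, η ((p : ℝ) / Y) := sum_nonneg fun p _ => hη.nonneg _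
    calc (∑ p ∈ pr M, η ((p : ℝ) / Y)) * Real.log Y
        ≤ (∑ p ∈ pr M, η ((p : ℝ) / Y)) * ((1 + e / 4) * Real.log (Y / 8)) := by gcongr
      _ = (1 + e / 4) * ((∑ p ∈ pr M, η ((p : ℝ) / Y)) * Real.log (Y / 8)) := by ring
      _ ≤ (1 + e / 4) * (Y * (I + e / 8)) := by gcongr
      _ ≤ (1 + e / 4) * (Y * (I * (1 + e / 4))) := by
          gcongr
          nlinarith
      _ = (1 + e / 4) ^ 2 * (Y * I) := by ring
      _ ≤ (1 + ε) * (Y * I) := by
          refine mul_le_mul_of_nonneg_right ?_ (by positivity)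
          nlinarith
  calc ∑ p ∈ pr M, η ((p : ℝ) / Y)
      = ((∑ p ∈ pr M, η ((p : ℝ) / Y)) * Real.log Y) / Real.log Y := by field_simp
    _ ≤ ((1 + ε) * (Y * I)) / Real.log Y := by gcongr
    _ = (1 + ε) * (Y / Real.log Y) * I := by ring

end Pool.Agent.CH
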