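import Mathlib
import Pool.Agent.CH.Stmts
import Pool.Agent.BVX.TypeII2

set_option autoImplicit false

/-!
# CH / PLC

Large conductors: bilinear decomposition `q = p₁ (p₂ p₃)`, dyadic blocks for `p₁`, large sieve.
-/

namespace Pool.Agent.CH

open Finset Filter Pool.Agent.MT

open Classical in
/-- indicator of the primes `z < l ≤ y` prime to `e` -/
noncomputable def PLC_a (z y e l : ℕ) : ℂ :=
  if l.Prime ∧ z < l ∧ l ≤ y ∧ l.Coprime e then 1 else 0

/-- `k = p₂ p₃` with `y < p₂ ≤ p₃` -/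
def PLC_S (y k : ℕ) : Prop := ∃ p₂ p₃ : ℕ, p₂.Prime ∧ p₃.Prime ∧ y < p₂ ∧ p₂ ≤ p₃ ∧ k = p₂ * p₃

open Classical in
/-- indicator of `PLC_S` and prime to `e` -/
noncomputable def PLC_b (y e k : ℕ) : ℂ := if PLC_S y k ∧ k.Coprime e then 1 else 0

theorem PLC_a_norm (z y e l : ℕ) : ‖PLC_a z y e l‖ ^ 2 ≤ 1 := by
  unfold PLC_a
  split_ifs <;> simp

theorem PLC_b_norm (y e k : ℕ) : ‖PLC_b y e k‖ ^ 2 ≤ 1 := by
  unfold PLC_b
  split_ifs <;> simp

theorem PLC_decomp (N z y e : ℕ) (F : ℕ → ℂ) :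
    ∑ q ∈ (range (N + 1)).filter (fun q => q.Coprime e), ((bt z y q : ℝ) : ℂ) * F q =
      ∑ l ∈ Ioc z y, ∑ k ∈ Icc 1 (N / l), PLC_a z y e l * PLC_b y e k * F (l * k) := by
  classical
  have h1 : ∑ q ∈ (range (N + 1)).filter (fun q => q.Coprime e), ((bt z y q : ℝ) : ℂ) * F q =
      ∑ q ∈ (range (N + 1)).filter (fun q => q.Coprime e ∧ Tri z y q), F q := by
    rw [← Finset.filter_filter, Finset.sum_filter (fun q => Tri z y q)]
    apply Finset.sum_congr rfl
    intro q _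
    unfold bt
    split_ifs <;> simp
  have h2 : ∑ l ∈ Ioc z y, ∑ k ∈ Icc 1 (N / l), PLC_a z y e l * PLC_b y e k * F (l * k) =
      ∑ x ∈ ((Ioc z y).sigma (fun l => Icc 1 (N / l))).filter
        (fun x => (x.1.Prime ∧ x.1.Coprime e) ∧ (PLC_S y x.2 ∧ x.2.Coprime e)), F (x.1 * x.2) := by
    rw [Finset.sum_sigma', Finset.sum_filter]
    apply Finset.sum_congr rfl
    rintro ⟨l, k⟩ hx
    rw [Finset.mem_sigma, Finset.mem_Ioc, Finset.mem_Icc] at hx
    simp only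
    unfold PLC_a PLC_b
    by_cases ha : l.Prime ∧ l.Coprime e
    · by_cases hb : PLC_S y k ∧ k.Coprime e
      · rw [if_pos ⟨ha.1, hx.1.1, hx.1.2, ha.2⟩, if_pos hb, if_pos ⟨ha, hb⟩]
        ring
      · rw [if_neg hb, mul_zero, zero_mul, if_neg (fun h => hb h.2)]
    · rw [if_neg (fun h => ha ⟨h.1, h.2.2.2⟩), zero_mul, zero_mul, if_neg (fun h => ha h.1)]
  rw [h1, h2]
  symm
  apply Finset.sum_bij (fun (x : (_ : ℕ) × ℕ) _ => x.1 * x.2)
  · rintro ⟨l, k⟩ hx
    rw [Finset.mem_filter, Finset.mem_sigma, Finset.mem_Ioc, Finset.mem_Icc] at hx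
    obtain ⟨⟨⟨h3, h4⟩, h5, h6⟩, ⟨h7, h8⟩, ⟨p₂, p₃, h9, h10, h11, h12, h13⟩, h14⟩ := hx
    simp only at *
    rw [Finset.mem_filter, Finset.mem_range]
    refine ⟨?_, Nat.Coprime.mul_left h8 h14, l, p₂, p₃, h7, h9, h10, h3, h4, h11, h12, ?_⟩
    · have : l * k ≤ N := by
        rw [mul_comm]
        exact (Nat.le_div_iff_mul_le h7.pos).1 h6
      omega
    · rw [h13, mul_assoc]
  · rintro ⟨l, k⟩ hx ⟨l', k'⟩ hx' heq
    rw [Finset.mem_filter, Finset.mem_sigma, Finset.mem_Ioc, Finset.mem_Icc] at hx hx'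
    obtain ⟨⟨⟨h3, h4⟩, h5, h6⟩, ⟨h7, h8⟩, ⟨p₂, p₃, h9, h10, h11, h12, h13⟩, h14⟩ := hx
    obtain ⟨⟨⟨g3, g4⟩, g5, g6⟩, ⟨g7, g8⟩, ⟨q₂, q₃, g9, g10, g11, g12, g13⟩, g14⟩ := hx'
    simp only at *
    have hll : l = l' := by
      have hd : l ∣ l' * (q₂ * q₃) := by
        rw [← g13, ← heq]
        exact dvd_mul_right _ _
      rcases (Nat.Prime.dvd_mul h7).1 hd with hd | hd
      · exact (Nat.prime_dvd_prime_iff_eq h7 g7).1 hd
      · rcases (Nat.Prime.dvd_mul h7).1 hd with hd | hd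
        · have := (Nat.prime_dvd_prime_iff_eq h7 g9).1 hd
          omega
        · have := (Nat.prime_dvd_prime_iff_eq h7 g10).1 hd
          omega
    subst hll
    have hkk : k = k' := Nat.eq_of_mul_eq_mul_left h7.pos heq
    rw [hkk]
  · intro q hq
    rw [Finset.mem_filter, Finset.mem_range] at hq
    obtain ⟨h3, h4, p₁, p₂, p₃, h5, h6, h7, h8, h9, h10, h11, h12⟩ := hq
    have h13 : q = p₁ * (p₂ * p₃) := by rw [h12, mul_assoc]
    refine ⟨⟨p₁, p₂ * p₃⟩, ?_, ?_⟩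
    · rw [Finset.mem_filter, Finset.mem_sigma, Finset.mem_Ioc, Finset.mem_Icc]
      simp only
      rw [h13] at h4
      refine ⟨⟨⟨h8, h9⟩, ?_, ?_⟩, ⟨h5, Nat.Coprime.coprime_mul_right h4⟩,
        ⟨p₂, p₃, h6, h7, h10, h11, rfl⟩, Nat.Coprime.coprime_mul_left h4⟩
      · exact Nat.mul_pos h6.pos h7.pos
      · rw [Nat.le_div_iff_mul_le h5.pos, mul_comm, ← h13]
        omega
    · simp only
      rw [h13]
  · rintro ⟨l, k⟩ _
    rfl

theorem PLC_dyadic (z : ℕ) (G : ℕ → ℂ) : ∀ J : ℕ,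
    ∑ l ∈ Ioc z (2 ^ J * z), G l = ∑ i ∈ range J, ∑ l ∈ Ioc (2 ^ i * z) (2 * (2 ^ i * z)), G l
  | 0 => by simp
  | (J + 1) => by
      rw [Finset.sum_range_succ, ← PLC_dyadic z G J]
      have h1 : z ≤ 2 ^ J * z := Nat.le_mul_of_pos_left z (by positivity)
      have h2 : 2 ^ J * z ≤ 2 * (2 ^ J * z) := by omega
      have h3 : 2 ^ (J + 1) * z = 2 * (2 ^ J * z) := by ring
      rw [h3, Finset.sum_Ioc_consecutive G h1 h2]

/-- the estimate of one block -/
theorem PLC_block {N M R : ℝ} (hN : 1 ≤ N) (hM : 1 ≤ M) (hR : 1 ≤ R) :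
    Real.sqrt ((M + (2 * R) ^ 2) * M) * Real.sqrt ((N / M + (2 * R) ^ 2) * (N / M)) ≤
      4 * (N + R * Real.sqrt (N * M) + R * (N / Real.sqrt M) + R ^ 2 * Real.sqrt N) := by
  have hM0 : 0 < M := by linarith
  have hN0 : 0 < N := by linarith
  have hsM : 0 < Real.sqrt M := Real.sqrt_pos.2 hM0
  rw [← Real.sqrt_mul (by positivity)]
  apply Real.sqrt_le_iff.2
  constructor
  · positivity
  have h1 : (M + (2 * R) ^ 2) * M * ((N / M + (2 * R) ^ 2) * (N / M)) =
      N ^ 2 + 4 * (R ^ 2 * (N * M)) + 4 * (R ^ 2 * (N ^ 2 / M)) + 16 * (R ^ 4 * N) := by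
    field_simp
    ring
  have h2 : Real.sqrt (N * M) ^ 2 = N * M := Real.sq_sqrt (by positivity)
  have h3 : (N / Real.sqrt M) ^ 2 = N ^ 2 / M := by
    rw [div_pow, Real.sq_sqrt hM0.le]
  have h4 : Real.sqrt N ^ 2 = N := Real.sq_sqrt hN0.le
  rw [h1]
  set A := Real.sqrt (N * M) with hA
  set B := N / Real.sqrt M with hB
  set S := Real.sqrt N with hS
  have hA0 : 0 ≤ A := Real.sqrt_nonneg _
  have hB0 : 0 ≤ B := by positivity
  have hS0 : 0 ≤ S := Real.sqrt_nonneg _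
  have e1 : (4 * (N + R * A + R * B + R ^ 2 * S)) ^ 2 ≥
      16 * (N ^ 2 + (R * A) ^ 2 + (R * B) ^ 2 + (R ^ 2 * S) ^ 2) := by
    have p1 : 0 ≤ R * A := by positivity
    have p2 : 0 ≤ R * B := by positivity
    have p3 : 0 ≤ R ^ 2 * S := by positivity
    nlinarith [mul_nonneg hN0.le p1, mul_nonneg hN0.le p2, mul_nonneg hN0.le p3,
      mul_nonneg p1 p2, mul_nonneg p1 p3, mul_nonneg p2 p3]
  have e2 : (R * A) ^ 2 = R ^ 2 * (N * M) := by rw [mul_pow, h2]
  have e3 : (R * B) ^ 2 = R ^ 2 * (N ^ 2 / M) := by rw [mul_pow, h3]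
  have e4 : (R ^ 2 * S) ^ 2 = R ^ 4 * N := by rw [mul_pow, h4]; ring
  rw [e2, e3, e4] at e1
  have q1 : 0 ≤ R ^ 2 * (N * M) := by positivity
  have q2 : 0 ≤ R ^ 2 * (N ^ 2 / M) := by positivity
  have q3 : 0 ≤ R ^ 4 * N := by positivity
  nlinarith [sq_nonneg N]

/-- keep this signature -/
theorem thm_PLC : St_PLC := by
  classical
  intro η hη θ hθ0 hθ
  obtain ⟨C, hC0, hC⟩ := Pool.Agent.BVX.typeII2 η hη
  set δ : ℝ := min (1 / 20) (1 / 2 - θ) with hδ
  have hδ0 : 0 < δ := lt_min (by norm_num) (by linarith)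
  have hδ1 : δ ≤ 1 / 20 := min_le_left _ _
  have hδ2 : δ ≤ 1 / 2 - θ := min_le_right _ _
  obtain ⟨C', hC'⟩ := exists_nat_ge (C * 12 * 4)
  refine ⟨δ, C' + 1, hδ0, fun N R z y e hN hR hRN hpar => ?_⟩
  obtain ⟨hz, hy⟩ := hpar
  have hN0 : (0 : ℝ) < N := by exact_mod_cast (by omega : 0 < N)
  have hN1 : (1 : ℝ) ≤ N := by exact_mod_cast (by omega : 1 ≤ N)
  have hR1 : (1 : ℝ) ≤ R := by exact_mod_cast hR
  have hL : 1 ≤ Real.log N := by
    rw [Real.le_log_iff_exp_le hN0]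
    have h1 := Real.exp_one_lt_d9
    have h2 : (3 : ℝ) ≤ N := by exact_mod_cast hN
    linarith
  have hz1 : (1 : ℝ) ≤ z := (Real.one_le_rpow hN1 (by norm_num)).trans hz
  have hz1' : 1 ≤ z := by exact_mod_cast hz1
  set J : ℕ := Nat.log 2 N + 1 with hJ
  have hJN : N < 2 ^ J := Nat.lt_pow_succ_log_self (by norm_num) N
  have hyN : y ≤ N := by
    have : (y : ℝ) ≤ N := by
      refine hy.trans ?_
      calc (N : ℝ) ^ (2 / 5 : ℝ) ≤ (N : ℝ) ^ (1 : ℝ) :=
            Real.rpow_le_rpow_of_exponent_le hN1 (by norm_num)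
        _ = N := Real.rpow_one _
    exact_mod_cast this
  have hyJ : y ≤ 2 ^ J * z := by
    have : 2 ^ J ≤ 2 ^ J * z := Nat.le_mul_of_pos_right _ (by omega)
    omega
  -- number of blocks
  have hJL : (J : ℝ) ≤ 3 * Real.log N := by
    have h1 : (2 : ℝ) ^ (Nat.log 2 N) ≤ N := by
      exact_mod_cast Nat.pow_log_le_self 2 (by omega : N ≠ 0)
    have h2 : (Nat.log 2 N : ℝ) * Real.log 2 ≤ Real.log N := by
      have := Real.log_le_log (by positivity) h1
      rwa [Real.log_pow] at this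
    have h3 : (1 / 2 : ℝ) ≤ Real.log 2 := by
      have := Real.log_two_gt_d9
      linarith
    have h4 : (Nat.log 2 N : ℝ) * (1 / 2) ≤ Real.log N := by
      refine le_trans ?_ h2
      exact mul_le_mul_of_nonneg_left h3 (by positivity)
    rw [hJ]
    push_cast
    linarith
  -- decomposition of the character sum
  have hdec : ∀ (r : ℕ) (χ : DirichletCharacter ℂ r), psiB η N z y e χ =
      ∑ i ∈ range J, ∑ l ∈ Ioc (2 ^ i * z) (2 * (2 ^ i * z)), ∑ k ∈ Icc 1 (N / l),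
        PLC_a z y e l * PLC_b y e k *
          (χ ((l * k : ℕ) : ZMod r) * ((η (((l * k : ℕ) : ℝ) / N) : ℝ) : ℂ)) := by
    intro r χ
    rw [← PLC_dyadic z (fun l => ∑ k ∈ Icc 1 (N / l), PLC_a z y e l * PLC_b y e k *
          (χ ((l * k : ℕ) : ZMod r) * ((η (((l * k : ℕ) : ℝ) / N) : ℝ) : ℂ))) J]
    have h1 : psiB η N z y e χ = ∑ q ∈ (range (N + 1)).filter (fun q => q.Coprime e),
        ((bt z y q : ℝ) : ℂ) * (χ (q : ZMod r) * ((η ((q : ℝ) / N) : ℝ) : ℂ)) := by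
      unfold psiB
      apply Finset.sum_congr rfl
      intro q _
      push_cast
      ring
    rw [h1, PLC_decomp N z y e (fun q => χ (q : ZMod r) * ((η ((q : ℝ) / N) : ℝ) : ℂ))]
    have hsub : Ioc z y ⊆ Ioc z (2 ^ J * z) := Finset.Ioc_subset_Ioc_right hyJ
    apply Finset.sum_subset hsub
    intro l hl hl'
    rw [Finset.mem_Ioc] at hl hl'
    apply Finset.sum_eq_zero
    intro k _
    have : PLC_a z y e l = 0 := by
      unfold PLC_a
      rw [if_neg]
      rintro ⟨-, h2, h3, -⟩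
      exact hl' ⟨h2, h3⟩
    rw [this]
    ring
  -- bound of the blocks
  have hblock : ∀ i ∈ range J, ∑ q ∈ Icc 1 (2 * R), ∑ χ ∈ prim q,
      ‖∑ l ∈ Ioc (2 ^ i * z) (2 * (2 ^ i * z)), ∑ k ∈ Icc 1 (N / l),
        PLC_a z y e l * PLC_b y e k *
          (χ ((l * k : ℕ) : ZMod q) * ((η (((l * k : ℕ) : ℝ) / N) : ℝ) : ℂ))‖ ≤
      C * (16 * ((N : ℝ) + R * (N : ℝ) ^ (1 - δ))) := by
    intro i _
    set M : ℕ := 2 ^ i * z with hM
    have hzM : z ≤ M := Nat.le_mul_of_pos_left z (by positivity)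
    have hM1 : 1 ≤ M := hz1'.trans hzM
    by_cases hMy : M ≤ y
    · refine (hC N (2 * R) M (by omega) hM1 (PLC_a z y e) (PLC_b y e)).trans ?_
      have hM1r : (1 : ℝ) ≤ M := by exact_mod_cast hM1
      have hM0r : (0 : ℝ) < M := by linarith
      have ha : ∑ l ∈ Ioc M (2 * M), ‖PLC_a z y e l‖ ^ 2 ≤ M := by
        calc ∑ l ∈ Ioc M (2 * M), ‖PLC_a z y e l‖ ^ 2 ≤ ∑ l ∈ Ioc M (2 * M), (1 : ℝ) :=
              Finset.sum_le_sum fun l _ => PLC_a_norm z y e l
          _ = M := by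
              rw [Finset.sum_const, Nat.card_Ioc, nsmul_eq_mul, mul_one]
              have : 2 * M - M = M := by omega
              rw [this]
      have hb : ∑ k ∈ Icc 1 (N / M), ‖PLC_b y e k‖ ^ 2 ≤ (N : ℝ) / M := by
        calc ∑ k ∈ Icc 1 (N / M), ‖PLC_b y e k‖ ^ 2 ≤ ∑ k ∈ Icc 1 (N / M), (1 : ℝ) :=
              Finset.sum_le_sum fun l _ => PLC_b_norm y e l
          _ = ((N / M : ℕ) : ℝ) := by
              rw [Finset.sum_const, Nat.card_Icc, nsmul_eq_mul, mul_one]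
              simp
          _ ≤ (N : ℝ) / M := Nat.cast_div_le
      have h1 : Real.sqrt (((M : ℝ) + ((2 * R : ℕ) : ℝ) ^ 2) *
            ∑ l ∈ Ioc M (2 * M), ‖PLC_a z y e l‖ ^ 2) ≤
          Real.sqrt (((M : ℝ) + (2 * (R : ℝ)) ^ 2) * M) := by
        apply Real.sqrt_le_sqrt
        push_cast
        exact mul_le_mul_of_nonneg_left ha (by positivity)
      have h2 : Real.sqrt (((N : ℝ) / M + ((2 * R : ℕ) : ℝ) ^ 2) *
            ∑ k ∈ Icc 1 (N / M), ‖PLC_b y e k‖ ^ 2) ≤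
          Real.sqrt (((N : ℝ) / M + (2 * (R : ℝ)) ^ 2) * (N / M)) := by
        apply Real.sqrt_le_sqrt
        push_cast
        exact mul_le_mul_of_nonneg_left hb (by positivity)
      rw [mul_assoc]
      apply mul_le_mul_of_nonneg_left _ hC0.le
      refine (mul_le_mul h1 h2 (Real.sqrt_nonneg _) (Real.sqrt_nonneg _)).trans ?_
      refine (PLC_block hN1 hM1r hR1).trans ?_
      -- the three terms
      have hNp : ∀ s t : ℝ, s ≤ t → (N : ℝ) ^ s ≤ (N : ℝ) ^ t := fun s t h =>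
        Real.rpow_le_rpow_of_exponent_le hN1 h
      have hMle : (M : ℝ) ≤ (N : ℝ) ^ (2 / 5 : ℝ) := by
        have : (M : ℝ) ≤ y := by exact_mod_cast hMy
        linarith
      have hMge : (N : ℝ) ^ (1 / 10 : ℝ) ≤ M := by
        have : (z : ℝ) ≤ M := by exact_mod_cast hzM
        linarith
      have t1 : Real.sqrt ((N : ℝ) * M) ≤ (N : ℝ) ^ (1 - δ) := by
        calc Real.sqrt ((N : ℝ) * M) ≤ Real.sqrt ((N : ℝ) ^ (7 / 5 : ℝ)) := by
              apply Real.sqrt_le_sqrt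
              calc (N : ℝ) * M ≤ (N : ℝ) * (N : ℝ) ^ (2 / 5 : ℝ) :=
                    mul_le_mul_of_nonneg_left hMle hN0.le
                _ = (N : ℝ) ^ (7 / 5 : ℝ) := by
                    nth_rewrite 1 [← Real.rpow_one (N : ℝ)]
                    rw [← Real.rpow_add hN0]
                    norm_num
          _ = (N : ℝ) ^ (7 / 10 : ℝ) := by
              rw [Real.sqrt_eq_rpow, ← Real.rpow_mul hN0.le]
              norm_num
          _ ≤ _ := hNp _ _ (by linarith)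
      have t2 : (N : ℝ) / Real.sqrt M ≤ (N : ℝ) ^ (1 - δ) := by
        have h3 : (N : ℝ) ^ (1 / 20 : ℝ) ≤ Real.sqrt M := by
          calc (N : ℝ) ^ (1 / 20 : ℝ) = Real.sqrt ((N : ℝ) ^ (1 / 10 : ℝ)) := by
                rw [Real.sqrt_eq_rpow, ← Real.rpow_mul hN0.le]
                norm_num
            _ ≤ _ := Real.sqrt_le_sqrt hMge
        calc (N : ℝ) / Real.sqrt M ≤ (N : ℝ) / (N : ℝ) ^ (1 / 20 : ℝ) :=
              div_le_div_of_nonneg_left hN0.le (by positivity) h3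
          _ = (N : ℝ) ^ (1 - 1 / 20 : ℝ) := by
              rw [Real.rpow_sub hN0, Real.rpow_one]
          _ ≤ _ := hNp _ _ (by linarith)
      have t3 : (R : ℝ) * Real.sqrt N ≤ (N : ℝ) ^ (1 - δ) := by
        calc (R : ℝ) * Real.sqrt N ≤ (N : ℝ) ^ θ * (N : ℝ) ^ (1 / 2 : ℝ) := by
              rw [Real.sqrt_eq_rpow]
              exact mul_le_mul_of_nonneg_right hRN (by positivity)
          _ = (N : ℝ) ^ (θ + 1 / 2) := (Real.rpow_add hN0 _ _).symm
          _ ≤ _ := hNp _ _ (by linarith)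
      set W : ℝ := (N : ℝ) ^ (1 - δ) with hW
      have hW0 : 0 ≤ W := by positivity
      have u1 : (R : ℝ) * Real.sqrt ((N : ℝ) * M) ≤ R * W :=
        mul_le_mul_of_nonneg_left t1 (by positivity)
      have u2 : (R : ℝ) * ((N : ℝ) / Real.sqrt M) ≤ R * W :=
        mul_le_mul_of_nonneg_left t2 (by positivity)
      have u3 : (R : ℝ) ^ 2 * Real.sqrt N ≤ R * W := by
        rw [sq, mul_assoc]
        exact mul_le_mul_of_nonneg_left t3 (by positivity)
      have u4 : 0 ≤ (R : ℝ) * W := by positivity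
      linarith
    · -- empty block
      have hzero : ∑ q ∈ Icc 1 (2 * R), ∑ χ ∈ prim q,
          ‖∑ l ∈ Ioc M (2 * M), ∑ k ∈ Icc 1 (N / l),
            PLC_a z y e l * PLC_b y e k *
              (χ ((l * k : ℕ) : ZMod q) * ((η (((l * k : ℕ) : ℝ) / N) : ℝ) : ℂ))‖ = 0 := by
        apply Finset.sum_eq_zero
        intro q _
        apply Finset.sum_eq_zero
        intro χ _
        rw [norm_eq_zero]
        apply Finset.sum_eq_zero
        intro l hl
        rw [Finset.mem_Ioc] at hl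
        apply Finset.sum_eq_zero
        intro k _
        have : PLC_a z y e l = 0 := by
          unfold PLC_a
          rw [if_neg]
          rintro ⟨-, h2, h3, -⟩
          omega
        rw [this]
        ring
      rw [hzero]
      positivity
  -- sum over the blocks
  have hsum : ∑ q ∈ Ioc R (2 * R), ∑ χ ∈ prim q, ‖psiB η N z y e χ‖ ≤
      ∑ i ∈ range J, (C * (16 * ((N : ℝ) + R * (N : ℝ) ^ (1 - δ)))) := by
    calc ∑ q ∈ Ioc R (2 * R), ∑ χ ∈ prim q, ‖psiB η N z y e χ‖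
        ≤ ∑ q ∈ Icc 1 (2 * R), ∑ χ ∈ prim q, ‖psiB η N z y e χ‖ := by
          apply Finset.sum_le_sum_of_subset_of_nonneg
          · intro q hq
            rw [Finset.mem_Ioc] at hq
            rw [Finset.mem_Icc]
            omega
          · intro q _ _
            exact Finset.sum_nonneg fun χ _ => norm_nonneg _
      _ ≤ ∑ q ∈ Icc 1 (2 * R), ∑ χ ∈ prim q, ∑ i ∈ range J,
          ‖∑ l ∈ Ioc (2 ^ i * z) (2 * (2 ^ i * z)), ∑ k ∈ Icc 1 (N / l),
            PLC_a z y e l * PLC_b y e k *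
              (χ ((l * k : ℕ) : ZMod q) * ((η (((l * k : ℕ) : ℝ) / N) : ℝ) : ℂ))‖ := by
          apply Finset.sum_le_sum
          intro q _
          apply Finset.sum_le_sum
          intro χ _
          rw [hdec q χ]
          exact norm_sum_le _ _
      _ = ∑ i ∈ range J, ∑ q ∈ Icc 1 (2 * R), ∑ χ ∈ prim q,
          ‖∑ l ∈ Ioc (2 ^ i * z) (2 * (2 ^ i * z)), ∑ k ∈ Icc 1 (N / l),
            PLC_a z y e l * PLC_b y e k *
              (χ ((l * k : ℕ) : ZMod q) * ((η (((l * k : ℕ) : ℝ) / N) : ℝ) : ℂ))‖ := by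
          rw [Finset.sum_comm' (s := range J) (t := fun _ => Icc 1 (2 * R))
            (t' := Icc 1 (2 * R)) (s' := fun _ => range J) (by
              intro x y
              exact and_comm |>.trans and_comm |>.trans Iff.rfl)]
          apply Finset.sum_congr rfl
          intro q _
          exact Finset.sum_comm
      _ ≤ _ := Finset.sum_le_sum hblock
  refine hsum.trans ?_
  rw [Finset.sum_const, Finset.card_range, nsmul_eq_mul]
  have hT : 0 ≤ (N : ℝ) + R * (N : ℝ) ^ (1 - δ) := by positivity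
  set T : ℝ := (N : ℝ) + R * (N : ℝ) ^ (1 - δ) with hTdef
  have hLp : Real.log N ≤ Real.log N ^ (C' + 1) := le_self_pow₀ hL (by omega)
  calc (J : ℝ) * (C * (16 * T)) ≤ (3 * Real.log N) * (C * (16 * T)) :=
        mul_le_mul_of_nonneg_right hJL (by positivity)
    _ = (C * 12 * 4) * T * Real.log N := by ring
    _ ≤ ((C' + 1 : ℕ) : ℝ) * T * Real.log N ^ (C' + 1) := by
        push_cast
        have h5 : C * 12 * 4 * T ≤ ((C' : ℝ) + 1) * T :=
          mul_le_mul_of_nonneg_right (by linarith) hT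
        have h6 : 0 ≤ ((C' : ℝ) + 1) * T := by positivity
        calc C * 12 * 4 * T * Real.log N ≤ ((C' : ℝ) + 1) * T * Real.log N :=
              mul_le_mul_of_nonneg_right h5 (by linarith)
          _ ≤ _ := mul_le_mul_of_nonneg_left hLp h6

end Pool.Agent.CH
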