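import Mathlib
import Pool.Agent.CH.Stmts
import Pool.Agent.MT.Reduce

set_option autoImplicit false

/-!
# CH / PRed

Orthogonality of characters mod q (b coprime to q): BAP = (1/phi(q)) sum_chi conj chi(b) sum_n bt(n) eta(n/N) chi(n); principal character: sum over n coprime to q = B0 - sum_{(n,q)>1},
and 0 <= sum_{(n,q)>1} bt eta <= sum over primes p | q with p > z of #{n <= N : p | n} <= omega(q) N/z (a Tri number has all prime factors > z; p <= z contributes nothing; n = 0 is not Tri).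
chi <> 1: chi*(n) = chi(n) for (n,q)=1, where chi* primitive mod r = conductor | q, r <> 1, so the sum over n is psiB eta N z y q chi* (the filter Coprime q is in psiB); different chi give different (r, chi*).
Copy of MT/Reduce.lean (orth, prim_sum, reduce); there is no log^2 term here because psiB keeps the condition (n,q)=1.
-/

namespace Pool.Agent.CH

open Finset Filter Pool.Agent.MT

private theorem PRed_tri {z y n p : ℕ} (h : Tri z y n) (hp : p.Prime) (hpn : p ∣ n) : z < p := by
  obtain ⟨p₁, p₂, p₃, h1, h2, h3, hz, hy, hy2, h23, rfl⟩ := h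
  rcases (Nat.Prime.dvd_mul hp).1 hpn with h4 | h4
  · rcases (Nat.Prime.dvd_mul hp).1 h4 with h5 | h5
    · rw [(Nat.prime_dvd_prime_iff_eq hp h1).1 h5]
      exact hz
    · rw [(Nat.prime_dvd_prime_iff_eq hp h2).1 h5]
      omega
  · rw [(Nat.prime_dvd_prime_iff_eq hp h3).1 h4]
    omega

private theorem PRed_tri_zero {z y : ℕ} : ¬ Tri z y 0 := by
  rintro ⟨p₁, p₂, p₃, h1, h2, h3, -, -, -, -, h⟩
  have := Nat.mul_pos (Nat.mul_pos h1.pos h2.pos) h3.pos
  omega

private theorem PRed_bt_nonneg (z y n : ℕ) : 0 ≤ bt z y n := by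
  unfold bt
  split_ifs
  · exact zero_le_one
  · exact le_refl _

private theorem PRed_bt_le (z y n : ℕ) : bt z y n ≤ 1 := by
  unfold bt
  split_ifs
  · exact le_refl _
  · exact zero_le_one

private theorem PRed_bt_zero {z y n : ℕ} (h : ¬ Tri z y n) : bt z y n = 0 := by
  unfold bt
  rw [if_neg h]

private theorem PRed_w_nonneg {η : ℝ → ℝ} (hη : IsWt η) (z y n : ℕ) (x : ℝ) :
    0 ≤ bt z y n * η x := mul_nonneg (PRed_bt_nonneg z y n) (hη.nonneg x)

private theorem PRed_w_le {η : ℝ → ℝ} (hη : IsWt η) (z y n : ℕ) (x : ℝ) :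
    bt z y n * η x ≤ 1 :=
  mul_le_one₀ (PRed_bt_le z y n) (hη.nonneg x) (hη.le_one x)

/-- multiples of a prime -/
private theorem PRed_mult {η : ℝ → ℝ} (hη : IsWt η) (N z y p : ℕ) (hz : 1 ≤ z) (hp : p.Prime) :
    ∑ n ∈ range (N + 1), (if p ∣ n then bt z y n * η ((n : ℝ) / N) else 0) ≤ (N : ℝ) / z := by
  have hz0 : (0 : ℝ) < z := by exact_mod_cast hz
  by_cases hpz : z < p
  · have h1 : ∑ n ∈ range (N + 1), (if p ∣ n then bt z y n * η ((n : ℝ) / N) else 0) ≤
        ∑ n ∈ range (N + 1), (if p ∣ n ∧ 0 < n then (1 : ℝ) else 0) := by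
      refine sum_le_sum fun n _ => ?_
      by_cases hn : p ∣ n
      · rw [if_pos hn]
        by_cases h0 : 0 < n
        · rw [if_pos ⟨hn, h0⟩]
          exact PRed_w_le hη z y n _
        · have h00 : n = 0 := by omega
          subst h00
          rw [PRed_bt_zero PRed_tri_zero, zero_mul]
          split_ifs
          · exact zero_le_one
          · exact le_refl _
      · rw [if_neg hn]
        split_ifs
        · exact zero_le_one
        · exact le_refl _
    refine h1.trans ?_
    rw [← sum_filter, sum_const, nsmul_eq_mul, mul_one]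
    have h2 : (range (N + 1)).filter (fun n => p ∣ n ∧ 0 < n) =
        (Ioc 0 N).filter (fun n => p ∣ n) := by
      ext n
      simp only [mem_filter, mem_range, mem_Ioc]
      constructor
      · rintro ⟨h3, h4, h5⟩
        exact ⟨⟨h5, by omega⟩, h4⟩
      · rintro ⟨⟨h3, h4⟩, h5⟩
        exact ⟨by omega, h5, h3⟩
    rw [h2, Nat.Ioc_filter_dvd_card_eq_div]
    refine (Nat.cast_div_le).trans ?_
    apply div_le_div_of_nonneg_left (Nat.cast_nonneg N) hz0
    exact_mod_cast hpz.le
  · have h1 : ∑ n ∈ range (N + 1), (if p ∣ n then bt z y n * η ((n : ℝ) / N) else 0) = 0 := by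
      refine sum_eq_zero fun n _ => ?_
      by_cases hn : p ∣ n
      · rw [if_pos hn, PRed_bt_zero fun h => hpz (PRed_tri h hp hn), zero_mul]
      · rw [if_neg hn]
    rw [h1]
    positivity

private theorem PRed_noncop {η : ℝ → ℝ} (hη : IsWt η) (N z y q : ℕ) (hz : 1 ≤ z) (hq : 1 ≤ q) :
    ∑ n ∈ (range (N + 1)).filter (fun n => ¬ n.Coprime q), bt z y n * η ((n : ℝ) / N) ≤
      q.primeFactors.card * ((N : ℝ) / z) := by
  have h1 : ∀ n ∈ (range (N + 1)).filter (fun n => ¬ n.Coprime q),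
      bt z y n * η ((n : ℝ) / N) ≤
        ∑ p ∈ q.primeFactors, (if p ∣ n then bt z y n * η ((n : ℝ) / N) else 0) := by
    intro n hn
    obtain ⟨p, hp, hpn, hpq⟩ := Nat.Prime.not_coprime_iff_dvd.1 (mem_filter.1 hn).2
    have hmem : p ∈ q.primeFactors := Nat.mem_primeFactors.2 ⟨hp, hpq, by omega⟩
    have h2 := single_le_sum (f := fun p => if p ∣ n then bt z y n * η ((n : ℝ) / N) else 0)
      (fun i _ => by
        split_ifs
        · exact PRed_w_nonneg hη z y n _
        · exact le_refl _) hmem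
    rwa [if_pos hpn] at h2
  refine (sum_le_sum h1).trans ?_
  rw [sum_comm]
  have h3 : ∀ p ∈ q.primeFactors, ∑ n ∈ (range (N + 1)).filter (fun n => ¬ n.Coprime q),
      (if p ∣ n then bt z y n * η ((n : ℝ) / N) else 0) ≤ (N : ℝ) / z := by
    intro p hp
    refine le_trans ?_ (PRed_mult hη N z y p hz (Nat.prime_of_mem_primeFactors hp))
    apply sum_le_sum_of_subset_of_nonneg (filter_subset _ _)
    intro n _ _
    split_ifs
    · exact PRed_w_nonneg hη z y n _
    · exact le_refl _
  refine (sum_le_sum h3).trans ?_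
  rw [sum_const, nsmul_eq_mul]

/-- the sum with a character modulo `q` -/
private noncomputable def PRedS (η : ℝ → ℝ) (N z y : ℕ) {q : ℕ} (χ : DirichletCharacter ℂ q) : ℂ :=
  ∑ n ∈ range (N + 1), ((bt z y n * η ((n : ℝ) / N) : ℝ) : ℂ) * χ (n : ZMod q)

private theorem PRed_orth (η : ℝ → ℝ) (N z y q b : ℕ) (hq : 1 ≤ q) (hb : b.Coprime q) :
    (q.totient : ℂ) * ((BAP η N z y q b : ℝ) : ℂ) =
      ∑ χ : DirichletCharacter ℂ q, χ ((b : ZMod q)⁻¹) * PRedS η N z y χ := by
  have : NeZero q := ⟨by omega⟩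
  have hu : IsUnit (b : ZMod q) := (ZMod.isUnit_iff_coprime b q).mpr hb
  have e1 : ∀ χ : DirichletCharacter ℂ q, χ ((b : ZMod q)⁻¹) * PRedS η N z y χ =
      ∑ n ∈ range (N + 1), (χ ((b : ZMod q)⁻¹) * χ (n : ZMod q)) *
        ((bt z y n * η ((n : ℝ) / N) : ℝ) : ℂ) := by
    intro χ
    rw [PRedS, mul_sum]
    refine sum_congr rfl fun n _ => ?_
    ring
  rw [sum_congr rfl fun χ _ => e1 χ, sum_comm, BAP, Complex.ofReal_sum, mul_sum, sum_filter]
  refine sum_congr rfl fun n _ => ?_
  rw [← sum_mul, DirichletCharacter.sum_char_inv_mul_char_eq ℂ hu]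
  by_cases hn : n % q = b % q
  · rw [if_pos hn, if_pos ((ZMod.natCast_eq_natCast_iff' b n q).mpr hn.symm)]
  · rw [if_neg hn, if_neg (fun h => hn ((ZMod.natCast_eq_natCast_iff' b n q).mp h).symm), zero_mul]

/-- the sum with `χ` is the sum with the primitive character over `n` coprime to `q` -/
private theorem PRed_prim (η : ℝ → ℝ) (N z y q : ℕ) (χ : DirichletCharacter ℂ q) :
    PRedS η N z y χ = psiB η N z y q χ.primitiveCharacter := by
  unfold PRedS psiB
  rw [sum_filter]
  refine sum_congr rfl fun n _ => ?_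
  by_cases hn : n.Coprime q
  · rw [if_pos hn]
    have h1 := χ.primitiveCharacter_apply_of_isCoprime (a := (n : ℤ))
      (by exact_mod_cast Nat.isCoprime_iff_coprime.mpr hn)
    have h2 : χ.primitiveCharacter (n : ZMod χ.conductor) = χ (n : ZMod q) := by
      simpa using h1
    rw [h2]
  · rw [if_neg hn, MulChar.map_nonunit χ fun h => hn ((ZMod.isUnit_iff_coprime n q).mp h),
      mul_zero]

/-- passing to primitive characters -/
private theorem PRed_prim_sum (η : ℝ → ℝ) (N z y q : ℕ) (hq : 1 ≤ q) [NeZero q]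
    [DecidableEq (DirichletCharacter ℂ q)] :
    ∑ χ ∈ (univ : Finset (DirichletCharacter ℂ q)).erase 1,
      ‖psiB η N z y q χ.primitiveCharacter‖ ≤
      ∑ r ∈ q.divisors.erase 1, ∑ χ ∈ prim r, ‖psiB η N z y q χ‖ := by
  classical
  set f : DirichletCharacter ℂ q → (Σ r : ℕ, DirichletCharacter ℂ r) :=
    fun χ => ⟨χ.conductor, χ.primitiveCharacter⟩ with hf
  have hinj : Function.Injective f := by
    have hl : Function.LeftInverse
        (fun x : (Σ r : ℕ, DirichletCharacter ℂ r) =>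
          if h : x.1 ∣ q then DirichletCharacter.changeLevel h x.2 else 1) f := by
      intro χ
      have h0 : (f χ).1 ∣ q := χ.conductor_dvd_level
      simp only
      rw [dif_pos h0]
      exact χ.changeLevel_primitiveCharacter
    exact hl.injective
  have e1 : ∑ r ∈ q.divisors.erase 1, ∑ χ ∈ prim r, ‖psiB η N z y q χ‖ =
      ∑ x ∈ (q.divisors.erase 1).sigma prim, ‖psiB η N z y q x.2‖ := by
    rw [sum_sigma]
  rw [e1]
  have e2 : ∑ χ ∈ (univ : Finset (DirichletCharacter ℂ q)).erase 1,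
      ‖psiB η N z y q χ.primitiveCharacter‖ =
      ∑ x ∈ ((univ : Finset (DirichletCharacter ℂ q)).erase 1).image f,
        ‖psiB η N z y q x.2‖ := by
    rw [sum_image fun x _ y _ h => hinj h]
  rw [e2]
  refine sum_le_sum_of_subset_of_nonneg ?_ fun _ _ _ => norm_nonneg _
  intro x hx
  rw [mem_image] at hx
  obtain ⟨χ, hχ, rfl⟩ := hx
  rw [mem_erase] at hχ
  rw [mem_sigma, mem_erase, Nat.mem_divisors, mem_prim]
  refine ⟨⟨fun h => hχ.1 (DirichletCharacter.eq_one_iff_conductor_eq_one.mpr h),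
    χ.conductor_dvd_level, by omega⟩, χ.primitiveCharacter_isPrimitive, fun h => hχ.1 ?_⟩
  rw [← χ.changeLevel_primitiveCharacter]
  have h' : χ.primitiveCharacter = 1 := h
  rw [h', DirichletCharacter.changeLevel_one]

/-- the principal character -/
private theorem PRed_one {η : ℝ → ℝ} (hη : IsWt η) (N z y q : ℕ) (hz : 1 ≤ z) (hq : 1 ≤ q) :
    ‖PRedS η N z y (1 : DirichletCharacter ℂ q) - ((B0 η N z y : ℝ) : ℂ)‖ ≤
      q.primeFactors.card * ((N : ℝ) / z) := by
  have e : PRedS η N z y (1 : DirichletCharacter ℂ q) - ((B0 η N z y : ℝ) : ℂ) =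
      ((-∑ n ∈ (range (N + 1)).filter (fun n => ¬ n.Coprime q),
        bt z y n * η ((n : ℝ) / N) : ℝ) : ℂ) := by
    rw [PRedS, B0, Complex.ofReal_sum, ← sum_sub_distrib, sum_filter, ← sum_neg_distrib,
      Complex.ofReal_sum]
    refine sum_congr rfl fun n _ => ?_
    by_cases hn : n.Coprime q
    · rw [if_neg (not_not.2 hn), MulChar.one_apply ((ZMod.isUnit_iff_coprime n q).mpr hn),
        mul_one, sub_self, neg_zero, Complex.ofReal_zero]
    · rw [if_pos hn, MulChar.map_nonunit _ fun h => hn ((ZMod.isUnit_iff_coprime n q).mp h),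
        mul_zero, zero_sub, Complex.ofReal_neg]
  have h0 : 0 ≤ ∑ n ∈ (range (N + 1)).filter (fun n => ¬ n.Coprime q),
      bt z y n * η ((n : ℝ) / N) := sum_nonneg fun n _ => PRed_w_nonneg hη z y n _
  rw [e, Complex.norm_real, norm_neg, Real.norm_of_nonneg h0]
  exact PRed_noncop hη N z y q hz hq

/-- keep this signature -/
theorem thm_PRed : St_PRed := by
  classical
  intro η hη N z y q b hN hz hq hb
  have : NeZero q := ⟨by omega⟩
  have hφ : 0 < (q.totient : ℝ) := by
    exact_mod_cast Nat.totient_pos.mpr (by omega)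
  have horth := PRed_orth η N z y q b hq hb
  have hsplit : (q.totient : ℂ) * ((BAP η N z y q b - B0 η N z y / (q.totient : ℝ) : ℝ) : ℂ) =
      (PRedS η N z y (1 : DirichletCharacter ℂ q) - ((B0 η N z y : ℝ) : ℂ)) +
        ∑ χ ∈ (univ : Finset (DirichletCharacter ℂ q)).erase 1,
          χ ((b : ZMod q)⁻¹) * PRedS η N z y χ := by
    have hφc : (q.totient : ℂ) ≠ 0 := by
      exact_mod_cast hφ.ne'
    have hu : IsUnit (b : ZMod q) := (ZMod.isUnit_iff_coprime b q).mpr hb
    have h1 : (1 : DirichletCharacter ℂ q) ((b : ZMod q)⁻¹) = 1 := by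
      refine MulChar.one_apply ?_
      exact IsUnit.of_mul_eq_one _ (ZMod.inv_mul_of_unit _ hu)
    have h2 : ∑ χ : DirichletCharacter ℂ q, χ ((b : ZMod q)⁻¹) * PRedS η N z y χ =
        PRedS η N z y (1 : DirichletCharacter ℂ q) +
          ∑ χ ∈ (univ : Finset (DirichletCharacter ℂ q)).erase 1,
            χ ((b : ZMod q)⁻¹) * PRedS η N z y χ := by
      rw [← add_sum_erase univ _ (mem_univ (1 : DirichletCharacter ℂ q)), h1, one_mul]
    rw [Complex.ofReal_sub, mul_sub, horth, h2]
    push_cast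
    field_simp
    ring
  have hnorm : (q.totient : ℝ) * |BAP η N z y q b - B0 η N z y / (q.totient : ℝ)| ≤
      q.primeFactors.card * ((N : ℝ) / z) +
        ∑ r ∈ q.divisors.erase 1, ∑ χ ∈ prim r, ‖psiB η N z y q χ‖ := by
    have e1 : (q.totient : ℝ) * |BAP η N z y q b - B0 η N z y / (q.totient : ℝ)| =
        ‖(q.totient : ℂ) * ((BAP η N z y q b - B0 η N z y / (q.totient : ℝ) : ℝ) : ℂ)‖ := by
      rw [norm_mul, Complex.norm_real, Real.norm_eq_abs, Complex.norm_natCast]
    have e2 : ∀ χ : DirichletCharacter ℂ q, ‖χ ((b : ZMod q)⁻¹) * PRedS η N z y χ‖ ≤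
        ‖psiB η N z y q χ.primitiveCharacter‖ := by
      intro χ
      rw [norm_mul, PRed_prim]
      exact mul_le_of_le_one_left (norm_nonneg _) (χ.norm_le_one _)
    calc (q.totient : ℝ) * |BAP η N z y q b - B0 η N z y / (q.totient : ℝ)|
        = _ := e1
      _ = ‖(PRedS η N z y (1 : DirichletCharacter ℂ q) - ((B0 η N z y : ℝ) : ℂ)) +
        ∑ χ ∈ (univ : Finset (DirichletCharacter ℂ q)).erase 1,
          χ ((b : ZMod q)⁻¹) * PRedS η N z y χ‖ := by rw [hsplit]
      _ ≤ q.primeFactors.card * ((N : ℝ) / z) +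
          ∑ χ ∈ (univ : Finset (DirichletCharacter ℂ q)).erase 1,
            ‖psiB η N z y q χ.primitiveCharacter‖ :=
        (norm_add_le _ _).trans (add_le_add (PRed_one hη N z y q hz hq)
          ((norm_sum_le _ _).trans (sum_le_sum fun χ _ => e2 χ)))
      _ ≤ _ := by
        have := PRed_prim_sum η N z y q hq
        linarith
  rw [← mul_le_mul_iff_right₀ hφ]
  refine hnorm.trans (le_of_eq ?_)
  field_simp

end Pool.Agent.CH
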