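import Mathlib
import Pool.Agent.CH.Stmts
import Pool.Agent.BVX.A8
import Pool.Agent.MT.Wt

set_option autoImplicit false

/-!
# CH / PSW

Siegel-Walfisz for the products of three primes, small conductors.
-/

namespace Pool.Agent.CH

open Finset Filter Pool.Agent.MT

lemma psw_abel_id (f : ℕ → ℂ) (g : ℕ → ℝ) (m : ℕ) :
    ∑ n ∈ range (m + 1), (g n : ℂ) * f n = (g m : ℂ) * ∑ n ∈ range (m + 1), f n -
      ∑ n ∈ range m, ((g (n + 1) - g n : ℝ) : ℂ) * ∑ k ∈ range (n + 1), f k := by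
  induction m with
  | zero => simp
  | succ m ih =>
    rw [sum_range_succ, ih, sum_range_succ (fun n => ((g (n + 1) - g n : ℝ) : ℂ) *
      ∑ k ∈ range (n + 1), f k), sum_range_succ f (m + 1)]
    push_cast
    ring

/-- Abel summation -/
lemma psw_abel (f : ℕ → ℂ) (g : ℕ → ℝ) (D G V : ℝ) (M : ℕ) (hD0 : 0 ≤ D) (hG : ∀ n, |g n| ≤ G)
    (hV : ∑ n ∈ range M, |g (n + 1) - g n| ≤ V)
    (hD : ∀ m ≤ M, ‖∑ n ∈ range (m + 1), f n‖ ≤ D) (m : ℕ) (hm : m ≤ M) :
    ‖∑ n ∈ range (m + 1), (g n : ℂ) * f n‖ ≤ D * (G + V) := by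
  rw [psw_abel_id]
  have h1 : ‖(g m : ℂ) * ∑ n ∈ range (m + 1), f n‖ ≤ D * G := by
    rw [norm_mul, Complex.norm_real, Real.norm_eq_abs, mul_comm D G]
    exact mul_le_mul (hG m) (hD m hm) (norm_nonneg _) ((abs_nonneg _).trans (hG m))
  have h2 : ‖∑ n ∈ range m, ((g (n + 1) - g n : ℝ) : ℂ) * ∑ k ∈ range (n + 1), f k‖ ≤ D * V := by
    calc ‖∑ n ∈ range m, ((g (n + 1) - g n : ℝ) : ℂ) * ∑ k ∈ range (n + 1), f k‖
        ≤ ∑ n ∈ range m, ‖((g (n + 1) - g n : ℝ) : ℂ) * ∑ k ∈ range (n + 1), f k‖ :=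
          norm_sum_le _ _
      _ ≤ ∑ n ∈ range m, |g (n + 1) - g n| * D := by
          apply sum_le_sum
          intro n hn
          rw [mem_range] at hn
          rw [norm_mul, Complex.norm_real, Real.norm_eq_abs]
          exact mul_le_mul_of_nonneg_left (hD n (by omega)) (abs_nonneg _)
      _ ≤ ∑ n ∈ range M, |g (n + 1) - g n| * D := by
          apply sum_le_sum_of_subset_of_nonneg
          · intro n hn
            rw [mem_range] at hn ⊢
            omega
          · intro n _ _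
            positivity
      _ = (∑ n ∈ range M, |g (n + 1) - g n|) * D := by rw [sum_mul]
      _ ≤ V * D := mul_le_mul_of_nonneg_right hV hD0
      _ = D * V := mul_comm _ _
  calc _ ≤ _ := norm_sub_le _ _
    _ ≤ D * G + D * V := add_le_add h1 h2
    _ = _ := by ring

lemma psw_cut (f : ℕ → ℂ) (D : ℝ) (M P : ℕ) (hP : 1 ≤ P) (hD0 : 0 ≤ D)
    (hD : ∀ m ≤ M, ‖∑ n ∈ range (m + 1), f n‖ ≤ D) (m : ℕ) (hm : m ≤ M) :
    ‖∑ n ∈ range (m + 1), (if P ≤ n then f n else 0)‖ ≤ 2 * D := by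
  rcases Nat.lt_or_ge m P with h | h
  · have h1 : ∑ n ∈ range (m + 1), (if P ≤ n then f n else 0) = 0 := by
      apply sum_eq_zero
      intro n hn
      rw [mem_range] at hn
      rw [if_neg (by omega)]
    rw [h1, norm_zero]
    positivity
  · have h1 : ∑ n ∈ range (m + 1), (if P ≤ n then f n else 0) =
        ∑ n ∈ range (m + 1), f n - ∑ n ∈ range (P - 1 + 1), f n := by
      rw [Nat.sub_add_cancel hP, ← Finset.sum_filter, eq_sub_iff_add_eq]
      rw [← sum_filter_add_sum_filter_not (range (m + 1)) (fun n => P ≤ n) f]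
      congr 1
      apply sum_congr _ (fun _ _ => rfl)
      ext n
      simp only [mem_range, mem_filter, not_le]
      omega
    rw [h1]
    calc _ ≤ _ := norm_sub_le _ _
      _ ≤ D + D := add_le_add (hD m hm) (hD (P - 1) (by omega))
      _ = _ := by ring

lemma psw_log2 : (1 : ℝ) / 2 ≤ Real.log 2 := by
  have := Real.log_two_gt_d9
  linarith

/-- the weight `1/log n` -/
noncomputable def pswG (n : ℕ) : ℝ := 1 / Real.log ((max n 2 : ℕ) : ℝ)

lemma psw_logmax (n : ℕ) : (1 : ℝ) / 2 ≤ Real.log ((max n 2 : ℕ) : ℝ) := by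
  refine psw_log2.trans (Real.log_le_log (by norm_num) ?_)
  exact_mod_cast le_max_right n 2

lemma pswG_nonneg (n : ℕ) : 0 ≤ pswG n := by
  unfold pswG
  have := psw_logmax n
  positivity

lemma pswG_le (n : ℕ) : pswG n ≤ 2 := by
  unfold pswG
  have := psw_logmax n
  rw [div_le_iff₀ (by linarith)]
  linarith

lemma pswG_anti (n : ℕ) : pswG (n + 1) ≤ pswG n := by
  unfold pswG
  have h1 := psw_logmax n
  apply one_div_le_one_div_of_le (by linarith)
  apply Real.log_le_log
  · have : 2 ≤ max n 2 := le_max_right _ _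
    have : (2 : ℝ) ≤ ((max n 2 : ℕ) : ℝ) := by exact_mod_cast this
    linarith
  · exact_mod_cast max_le_max_right 2 (Nat.le_succ n)

lemma pswG_var (M : ℕ) : ∑ n ∈ range M, |pswG (n + 1) - pswG n| ≤ 2 := by
  have h1 : ∑ n ∈ range M, |pswG (n + 1) - pswG n| = ∑ n ∈ range M, (pswG n - pswG (n + 1)) := by
    apply sum_congr rfl
    intro n _
    rw [abs_sub_comm, abs_of_nonneg]
    linarith [pswG_anti n]
  rw [h1, sum_range_sub']
  linarith [pswG_le 0, pswG_nonneg M]

/-- prime sums from sums of `Λ` -/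
lemma psw_primes {η : ℝ → ℝ} (hη : IsWt η) {C : ℝ} (hC0 : 0 < C)
    (hC : ∀ x y : ℝ, |η x - η y| ≤ C * |x - y|) (Y P : ℕ) (hY : 1 ≤ Y) (hP : 1 ≤ P) (t D : ℝ)
    (ht : 0 ≤ t) (htY : t * Y ≤ 1) (hD0 : 0 ≤ D) {r : ℕ} (χ : DirichletCharacter ℂ r)
    (hD : ∀ m ≤ Y, ‖∑ n ∈ range (m + 1),
      ((ArithmeticFunction.vonMangoldt n : ℝ) : ℂ) * χ (n : ZMod r)‖ ≤ D) :
    ‖∑ p ∈ range (Y + 1), (if p.Prime ∧ P ≤ p then ((η (t * p) : ℝ) : ℂ) * χ (p : ZMod r) else 0)‖
      ≤ 8 * D * (1 + C) + 4 * (Real.sqrt Y * Real.log Y) := by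
  set f1 : ℕ → ℂ := fun n => ((ArithmeticFunction.vonMangoldt n : ℝ) : ℂ) * χ (n : ZMod r) with hf1
  set f2 : ℕ → ℂ := fun n => if P ≤ n then f1 n else 0 with hf2
  set f3 : ℕ → ℂ := fun n => (pswG n : ℂ) * f2 n with hf3
  set f4 : ℕ → ℂ := fun n => ((η (t * n) : ℝ) : ℂ) * f3 n with hf4
  have b2 : ∀ m ≤ Y, ‖∑ n ∈ range (m + 1), f2 n‖ ≤ 2 * D := psw_cut f1 D Y P hP hD0 hD
  have b3 : ∀ m ≤ Y, ‖∑ n ∈ range (m + 1), f3 n‖ ≤ 8 * D := by
    intro m hm
    have := psw_abel f2 pswG (2 * D) 2 2 Y (by positivity)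
      (fun n => by rw [abs_of_nonneg (pswG_nonneg n)]; exact pswG_le n) (pswG_var Y) b2 m hm
    refine this.trans (le_of_eq (by ring))
  have b4 : ‖∑ n ∈ range (Y + 1), f4 n‖ ≤ 8 * D * (1 + C) := by
    refine psw_abel f3 (fun n => η (t * n)) (8 * D) 1 C Y (by positivity) ?_ ?_ b3 Y le_rfl
    · intro n
      rw [abs_of_nonneg (hη.nonneg _)]
      exact hη.le_one _
    · calc ∑ n ∈ range Y, |η (t * ((n + 1 : ℕ) : ℝ)) - η (t * n)| ≤ ∑ n ∈ range Y, C * t := by
            apply sum_le_sum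
            intro n _
            refine (hC _ _).trans (le_of_eq ?_)
            push_cast
            have : t * ((n : ℝ) + 1) - t * n = t := by ring
            rw [this, abs_of_nonneg ht]
        _ = C * (t * Y) := by
            rw [sum_const, card_range, nsmul_eq_mul]
            ring
        _ ≤ C * 1 := mul_le_mul_of_nonneg_left htY hC0.le
        _ = C := mul_one _
  have e1 : ∑ p ∈ range (Y + 1),
      (if p.Prime ∧ P ≤ p then ((η (t * p) : ℝ) : ℂ) * χ (p : ZMod r) else 0) =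
      ∑ n ∈ range (Y + 1), f4 n - ∑ n ∈ (range (Y + 1)).filter (fun n => ¬ n.Prime), f4 n := by
    rw [eq_sub_iff_add_eq, ← sum_filter_add_sum_filter_not (range (Y + 1)) Nat.Prime f4,
      sum_filter (s := range (Y + 1)) (p := Nat.Prime)]
    congr 1
    apply sum_congr rfl
    intro p _
    by_cases hp : p.Prime
    · rw [if_pos hp]
      by_cases hPp : P ≤ p
      · rw [if_pos ⟨hp, hPp⟩]
        simp only [hf4, hf3, hf2, hf1, if_pos hPp]
        rw [ArithmeticFunction.vonMangoldt_apply_prime hp]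
        have h2 : max p 2 = p := max_eq_left hp.two_le
        have hl : Real.log (p : ℝ) ≠ 0 := by
          have := psw_logmax p
          rw [h2] at this
          linarith
        unfold pswG
        rw [h2]
        have hl' : ((Real.log (p : ℝ) : ℝ) : ℂ) ≠ 0 := by exact_mod_cast hl
        have h3 : (((1 / Real.log (p : ℝ) : ℝ)) : ℂ) * ((Real.log (p : ℝ) : ℝ) : ℂ) = 1 := by
          rw [← Complex.ofReal_mul, one_div, inv_mul_cancel₀ hl, Complex.ofReal_one]
        rw [← mul_assoc ((((1 / Real.log (p : ℝ) : ℝ)) : ℂ)), h3, one_mul]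
      · rw [if_neg (fun h => hPp h.2)]
        simp only [hf4, hf3, hf2, if_neg hPp, mul_zero]
    · rw [if_neg hp, if_neg (fun h => hp h.1)]
  have b5 : ‖∑ n ∈ (range (Y + 1)).filter (fun n => ¬ n.Prime), f4 n‖ ≤
      4 * (Real.sqrt Y * Real.log Y) := by
    have h1 : ∀ n : ℕ, ‖f4 n‖ ≤ 2 * ArithmeticFunction.vonMangoldt n := by
      intro n
      have hv : 0 ≤ ArithmeticFunction.vonMangoldt n := ArithmeticFunction.vonMangoldt_nonneg
      simp only [hf4, hf3, hf2, hf1]
      by_cases hPn : P ≤ n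
      · rw [if_pos hPn, norm_mul, norm_mul, norm_mul, Complex.norm_real, Complex.norm_real,
          Complex.norm_real, Real.norm_eq_abs, Real.norm_eq_abs, Real.norm_eq_abs,
          abs_of_nonneg (hη.nonneg _), abs_of_nonneg (pswG_nonneg n), abs_of_nonneg hv]
        calc η (t * n) * (pswG n * (ArithmeticFunction.vonMangoldt n * ‖χ (n : ZMod r)‖))
            ≤ 1 * (2 * (ArithmeticFunction.vonMangoldt n * 1)) := by
              have hc := DirichletCharacter.norm_le_one χ (n : ZMod r)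
              have hg := pswG_nonneg n
              refine mul_le_mul (hη.le_one _) ?_ (by positivity) zero_le_one
              refine mul_le_mul (pswG_le n) ?_ (by positivity) (by norm_num)
              exact mul_le_mul_of_nonneg_left hc hv
          _ = _ := by ring
      · rw [if_neg hPn]
        simp only [mul_zero, norm_zero]
        positivity
    have h2 : ∑ n ∈ (range (Y + 1)).filter (fun n => ¬ n.Prime),
        (ArithmeticFunction.vonMangoldt n : ℝ) = Chebyshev.psi Y - Chebyshev.theta Y := by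
      rw [Chebyshev.psi_sub_theta_eq_sum_not_prime, Nat.floor_natCast]
      symm
      apply sum_subset
      · intro n hn
        simp only [mem_filter, mem_Ioc, mem_range] at hn ⊢
        exact ⟨by omega, hn.2⟩
      · intro n hn hn'
        simp only [mem_filter, mem_Ioc, mem_range, not_and, not_not] at hn hn'
        have : n = 0 := by
          by_contra h0
          exact hn.2 (hn' ⟨by omega, by omega⟩)
        rw [this]
        simp
    calc ‖∑ n ∈ (range (Y + 1)).filter (fun n => ¬ n.Prime), f4 n‖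
        ≤ ∑ n ∈ (range (Y + 1)).filter (fun n => ¬ n.Prime), ‖f4 n‖ := norm_sum_le _ _
      _ ≤ ∑ n ∈ (range (Y + 1)).filter (fun n => ¬ n.Prime),
          2 * (ArithmeticFunction.vonMangoldt n : ℝ) := sum_le_sum fun n _ => h1 n
      _ = 2 * (Chebyshev.psi Y - Chebyshev.theta Y) := by rw [← mul_sum, h2]
      _ ≤ 2 * (2 * Real.sqrt Y * Real.log Y) := by
          refine mul_le_mul_of_nonneg_left ?_ (by norm_num)
          exact Chebyshev.psi_sub_theta_le (by exact_mod_cast hY)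
      _ = _ := by ring
  rw [e1]
  exact (norm_sub_le _ _).trans (add_le_add b4 b5)

lemma psw_evrpow (k : ℕ) (c δ : ℝ) (hc : 0 < c) (hδ : 0 < δ) :
    ∀ᶠ N : ℕ in atTop, Real.log N ^ k ≤ c * (N : ℝ) ^ δ := by
  have h := (isLittleO_log_rpow_rpow_atTop (k : ℝ) hδ).bound hc
  have h' := (tendsto_natCast_atTop_atTop (R := ℝ)).eventually h
  filter_upwards [h', eventually_ge_atTop 1] with N hN h1
  have h2 : (1 : ℝ) ≤ N := by exact_mod_cast h1
  have h3 : 0 ≤ Real.log N := Real.log_nonneg h2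
  rw [Real.norm_eq_abs, Real.norm_eq_abs, Real.rpow_natCast, abs_of_nonneg (by positivity),
    abs_of_nonneg (by positivity)] at hN
  exact hN

lemma psw_T {η : ℝ → ℝ} (hη : IsWt η) (A B : ℕ) : ∃ K : ℝ, 0 < K ∧ ∃ Y0 : ℕ, ∀ Y ≥ Y0,
    ∀ r : ℕ, 1 ≤ r → (r : ℝ) ≤ Real.log Y ^ B → ∀ χ : DirichletCharacter ℂ r, χ ≠ 1 →
    ∀ P : ℕ, 1 ≤ P → ∀ t : ℝ, 0 ≤ t → t * Y ≤ 1 →
    ‖∑ p ∈ range (Y + 1), (if p.Prime ∧ P ≤ p then ((η (t * p) : ℝ) : ℂ) * χ (p : ZMod r) else 0)‖
      ≤ K * (Y / Real.log Y ^ A) := by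
  obtain ⟨C, hC0, hC⟩ := wt_lipschitz η hη
  refine ⟨8 * (1 + C) + 4, by positivity, ?_⟩
  have hev : ∀ᶠ Y : ℕ in atTop, ∀ r : ℕ, 1 ≤ r → (r : ℝ) ≤ Real.log Y ^ B →
    ∀ χ : DirichletCharacter ℂ r, χ ≠ 1 →
    ∀ P : ℕ, 1 ≤ P → ∀ t : ℝ, 0 ≤ t → t * Y ≤ 1 →
    ‖∑ p ∈ range (Y + 1), (if p.Prime ∧ P ≤ p then ((η (t * p) : ℝ) : ℂ) * χ (p : ZMod r) else 0)‖
      ≤ (8 * (1 + C) + 4) * (Y / Real.log Y ^ A) := by
    filter_upwards [BVX.sw_chi A B, psw_evrpow (A + 1) 1 (1 / 2) one_pos (by norm_num),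
      eventually_ge_atTop 3] with Y h1 h2 h3
    intro r hr hrB χ hχ P hP t ht htY
    have : NeZero r := ⟨by omega⟩
    have hY3 : (3 : ℝ) ≤ Y := by exact_mod_cast h3
    have hl : 0 < Real.log Y := Real.log_pos (by linarith)
    have hD0 : 0 ≤ (Y : ℝ) / Real.log Y ^ A := by positivity
    have h4 := psw_primes hη hC0 hC Y P (by omega) hP t ((Y : ℝ) / Real.log Y ^ A) ht htY hD0 χ
      (fun m hm => h1 r hrB χ hχ m hm)
    have h5 : Real.sqrt Y * Real.log Y ≤ (Y : ℝ) / Real.log Y ^ A := by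
      rw [le_div_iff₀ (by positivity), mul_assoc, ← pow_succ']
      rw [one_mul, ← Real.sqrt_eq_rpow] at h2
      calc Real.sqrt Y * Real.log Y ^ (A + 1) ≤ Real.sqrt Y * Real.sqrt Y :=
            mul_le_mul_of_nonneg_left h2 (Real.sqrt_nonneg _)
        _ = Y := Real.mul_self_sqrt (by positivity)
    calc _ ≤ _ := h4
      _ ≤ 8 * (Y / Real.log Y ^ A) * (1 + C) + 4 * (Y / Real.log Y ^ A) := by linarith
      _ = _ := by ring
  obtain ⟨Y0, hY0⟩ := eventually_atTop.1 hev
  exact ⟨Y0, hY0⟩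

lemma psw_T2 {η : ℝ → ℝ} (hη : IsWt η) (A B : ℕ) : ∃ K : ℝ, 0 < K ∧ ∀ᶠ N : ℕ in atTop,
    ∀ r : ℕ, 1 ≤ r → (r : ℝ) ≤ Real.log N ^ B → ∀ χ : DirichletCharacter ℂ r, χ ≠ 1 →
    ∀ a : ℕ, 1 ≤ a → (a : ℝ) ≤ (N : ℝ) ^ (7 / 10 : ℝ) → ∀ P : ℕ, 1 ≤ P →
    ‖∑ p ∈ range (N / a + 1), (if p.Prime ∧ P ≤ p then
      ((η (((a * p : ℕ) : ℝ) / N) : ℝ) : ℂ) * χ (p : ZMod r) else 0)‖
      ≤ K * ((N : ℝ) / Real.log N ^ A) * (1 / (a : ℝ)) := by
  obtain ⟨K0, hK0, Y0, hY0⟩ := psw_T hη A (B + 1)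
  refine ⟨K0 * 4 ^ A, by positivity, ?_⟩
  have e1 : ∀ᶠ N : ℕ in atTop, (Y0 : ℝ) + 1 ≤ (N : ℝ) ^ (1 / 20 : ℝ) := by
    exact ((tendsto_rpow_atTop (by norm_num : (0 : ℝ) < 1 / 20)).comp
      (tendsto_natCast_atTop_atTop (R := ℝ))).eventually_ge_atTop _
  have e2 : ∀ᶠ N : ℕ in atTop, (2 : ℝ) ≤ (N : ℝ) ^ (1 / 20 : ℝ) := by
    exact ((tendsto_rpow_atTop (by norm_num : (0 : ℝ) < 1 / 20)).comp
      (tendsto_natCast_atTop_atTop (R := ℝ))).eventually_ge_atTop _
  filter_upwards [e1, e2, BVX.a8_evlog (4 * 4 ^ B), eventually_ge_atTop 3] with N h1 h2 h3 h4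
  intro r hr hrB χ hχ a ha haN P hP
  have hN3 : (3 : ℝ) ≤ N := by exact_mod_cast h4
  have hN0 : (0 : ℝ) < N := by linarith
  have ha' : (1 : ℝ) ≤ a := by exact_mod_cast ha
  set Y : ℕ := N / a with hYd
  have f1 : (N : ℝ) / a < Y + 1 := by
    have := Nat.lt_floor_add_one ((N : ℝ) / a)
    rw [Nat.floor_div_eq_div] at this
    exact this
  have f2 : (Y : ℝ) ≤ (N : ℝ) / a := Nat.cast_div_le
  have f3 : (N : ℝ) ^ (3 / 10 : ℝ) ≤ (N : ℝ) / a := by
    rw [le_div_iff₀ (by linarith)]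
    calc (N : ℝ) ^ (3 / 10 : ℝ) * a ≤ (N : ℝ) ^ (3 / 10 : ℝ) * (N : ℝ) ^ (7 / 10 : ℝ) :=
          mul_le_mul_of_nonneg_left haN (by positivity)
      _ = N := by
          rw [← Real.rpow_add hN0]
          norm_num
  have hge1 : (1 : ℝ) ≤ (N : ℝ) ^ (1 / 4 : ℝ) := Real.one_le_rpow (by linarith) (by norm_num)
  have f4 : (N : ℝ) ^ (3 / 10 : ℝ) = (N : ℝ) ^ (1 / 4 : ℝ) * (N : ℝ) ^ (1 / 20 : ℝ) := by
    rw [← Real.rpow_add hN0]
    norm_num
  have f5 : (N : ℝ) ^ (1 / 4 : ℝ) ≤ Y := by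
    have : (N : ℝ) ^ (1 / 4 : ℝ) * 2 ≤ (N : ℝ) ^ (1 / 4 : ℝ) * (N : ℝ) ^ (1 / 20 : ℝ) :=
      mul_le_mul_of_nonneg_left h2 (by positivity)
    linarith
  have f6 : Y0 ≤ Y := by
    have : (Y0 : ℝ) ≤ (Y : ℝ) := by
      have h7 : (1 : ℝ) * ((Y0 : ℝ) + 1) ≤ (N : ℝ) ^ (1 / 4 : ℝ) * (N : ℝ) ^ (1 / 20 : ℝ) := by
        apply mul_le_mul hge1 h1 (by positivity) (by positivity)
      linarith
    exact_mod_cast this
  have hY1 : (1 : ℝ) ≤ Y := hge1.trans f5
  have f7 : Real.log N / 4 ≤ Real.log Y := by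
    have := Real.log_le_log (by positivity) f5
    rw [Real.log_rpow hN0] at this
    linarith
  have hp4 : (0 : ℝ) < 4 ^ B := by positivity
  have hlN : 0 < Real.log N := lt_of_lt_of_le (by positivity) h3
  have hlY : 0 < Real.log Y := lt_of_lt_of_le (by positivity) f7
  have f8 : (r : ℝ) ≤ Real.log Y ^ (B + 1) := by
    calc (r : ℝ) ≤ Real.log N ^ B := hrB
      _ ≤ (4 * Real.log Y) ^ B := by
          apply pow_le_pow_left₀ hlN.le
          linarith
      _ = 4 ^ B * Real.log Y ^ B := mul_pow _ _ _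
      _ ≤ Real.log Y * Real.log Y ^ B := by
          apply mul_le_mul_of_nonneg_right _ (by positivity)
          linarith
      _ = _ := by ring
  have f9 := hY0 Y f6 r hr f8 χ hχ P hP ((a : ℝ) / N) (by positivity) (by
    rw [div_mul_eq_mul_div, div_le_one hN0]
    calc (a : ℝ) * Y ≤ a * (N / a) := mul_le_mul_of_nonneg_left f2 (by linarith)
      _ = N := by field_simp)
  have f10 : ∑ p ∈ range (Y + 1), (if p.Prime ∧ P ≤ p then
      ((η (((a * p : ℕ) : ℝ) / N) : ℝ) : ℂ) * χ (p : ZMod r) else 0) =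
      ∑ p ∈ range (Y + 1), (if p.Prime ∧ P ≤ p then
      ((η ((a : ℝ) / N * p) : ℝ) : ℂ) * χ (p : ZMod r) else 0) := by
    apply sum_congr rfl
    intro p _
    have : ((a * p : ℕ) : ℝ) / N = (a : ℝ) / N * p := by
      push_cast
      ring
    rw [this]
  rw [f10]
  refine f9.trans ?_
  calc K0 * ((Y : ℝ) / Real.log Y ^ A) ≤ K0 * (((N : ℝ) / a) / (Real.log N / 4) ^ A) := by
        apply mul_le_mul_of_nonneg_left _ hK0.le
        apply div_le_div₀ (by positivity) f2 (by positivity)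
        exact pow_le_pow_left₀ (by positivity) f7 _
    _ = _ := by
        rw [div_pow]
        field_simp

/-- triples -/
def pswC (z y N : ℕ) (u : (ℕ × ℕ) × ℕ) : Prop := u.1.1.Prime ∧ u.1.2.Prime ∧ u.2.Prime ∧
  z < u.1.1 ∧ u.1.1 ≤ y ∧ y < u.1.2 ∧ u.1.2 ≤ u.2 ∧ u.1.1 * u.1.2 * u.2 ≤ N

lemma psw_inj {z y N : ℕ} {u v : (ℕ × ℕ) × ℕ} (hu : pswC z y N u) (hv : pswC z y N v)
    (h : u.1.1 * u.1.2 * u.2 = v.1.1 * v.1.2 * v.2) : u = v := by
  obtain ⟨⟨a, b⟩, c⟩ := u
  obtain ⟨⟨a', b'⟩, c'⟩ := v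
  obtain ⟨ha, hb, hc, -, hay, hyb, hbc, -⟩ := hu
  obtain ⟨ha', hb', hc', -, hay', hyb', hbc', -⟩ := hv
  simp only at *
  have e1 : a = a' := by
    have h1 : a ∣ a' * b' * c' := by
      rw [← h, mul_assoc]
      exact Dvd.intro _ rfl
    rcases ha.dvd_mul.1 h1 with h2 | h2
    · rcases ha.dvd_mul.1 h2 with h3 | h3
      · exact (Nat.prime_dvd_prime_iff_eq ha ha').1 h3
      · have := (Nat.prime_dvd_prime_iff_eq ha hb').1 h3
        omega
    · have := (Nat.prime_dvd_prime_iff_eq ha hc').1 h2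
      omega
  subst e1
  have h4 : b * c = b' * c' := by
    rw [mul_assoc, mul_assoc] at h
    exact Nat.eq_of_mul_eq_mul_left ha.pos h
  have h5 : b ∣ b' * c' := h4 ▸ Dvd.intro _ rfl
  have e2 : b = b' := by
    rcases hb.dvd_mul.1 h5 with h6 | h6
    · exact (Nat.prime_dvd_prime_iff_eq hb hb').1 h6
    · have h7 := (Nat.prime_dvd_prime_iff_eq hb hc').1 h6
      subst h7
      have h8 : c = b' := by
        have : b * c = b * b' := by rw [h4, mul_comm]
        exact Nat.eq_of_mul_eq_mul_left hb.pos this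
      omega
  subst e2
  have e3 : c = c' := Nat.eq_of_mul_eq_mul_left hb.pos h4
  rw [e3]

open Classical in
lemma psw_sum (z y N : ℕ) (F : ℕ → ℂ) :
    ∑ q ∈ range (N + 1), (bt z y q : ℂ) * F q =
      ∑ v ∈ range (N + 1) ×ˢ range (N + 1), ∑ p ∈ range (N + 1),
        if pswC z y N (v, p) then F (v.1 * v.2 * p) else 0 := by
  rw [← sum_product' (range (N + 1) ×ˢ range (N + 1)) (range (N + 1))
    (fun v p => if pswC z y N (v, p) then F (v.1 * v.2 * p) else 0), ← sum_filter]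
  have h1 : ∑ q ∈ range (N + 1), (bt z y q : ℂ) * F q =
      ∑ q ∈ (range (N + 1)).filter (fun q => Tri z y q), F q := by
    rw [sum_filter]
    apply sum_congr rfl
    intro q _
    unfold bt
    by_cases h : Tri z y q
    · rw [if_pos h, if_pos h]; simp
    · rw [if_neg h, if_neg h]; simp
  rw [h1]
  symm
  refine sum_bij (fun u _ => u.1.1 * u.1.2 * u.2) ?_ ?_ ?_ ?_
  · intro u hu
    rw [mem_filter] at hu
    obtain ⟨-, hC⟩ := hu
    obtain ⟨ha, hb, hc, hz, hay, hyb, hbc, hN⟩ := hC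
    rw [mem_filter, mem_range]
    exact ⟨Nat.lt_succ_of_le hN, u.1.1, u.1.2, u.2, ha, hb, hc, hz, hay, hyb, hbc, rfl⟩
  · intro u hu v hv huv
    rw [mem_filter] at hu hv
    exact psw_inj hu.2 hv.2 huv
  · intro q hq
    rw [mem_filter, mem_range] at hq
    obtain ⟨hqN, a, b, c, ha, hb, hc, hz, hay, hyb, hbc, rfl⟩ := hq
    refine ⟨((a, b), c), ?_, rfl⟩
    rw [mem_filter, mem_product, mem_product, mem_range, mem_range, mem_range]
    have h1 : 1 ≤ a := ha.one_lt.le
    have h2 : 1 ≤ b := hb.one_lt.le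
    have h3 : 1 ≤ c := hc.one_lt.le
    have h4 : a ≤ a * b * c := by
      rw [mul_assoc]; exact Nat.le_mul_of_pos_right _ (Nat.mul_pos h2 h3)
    have h5 : b ≤ a * b * c := by
      calc b ≤ a * b := Nat.le_mul_of_pos_left _ h1
        _ ≤ _ := Nat.le_mul_of_pos_right _ h3
    have h6 : c ≤ a * b * c := Nat.le_mul_of_pos_left _ (Nat.mul_pos h1 h2)
    refine ⟨⟨⟨?_, ?_⟩, ?_⟩, ha, hb, hc, hz, hay, hyb, hbc, by simp only; omega⟩ <;>
      simp only <;> omega
  · intro u _
    rfl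

lemma psw_harm (N : ℕ) :
    ∑ n ∈ range (N + 1), (1 / (n : ℝ)) ≤ 1 + Real.log N := by
  have h := harmonic_le_one_add_log N
  rw [sum_range_succ']
  unfold harmonic at h
  push_cast at h
  simp only [Nat.cast_zero, div_zero, add_zero, Nat.cast_add, Nat.cast_one, one_div]
  exact h

lemma psw_omega (m : ℕ) (hm : 1 ≤ m) :
    (m.primeFactors.card : ℝ) ≤ 2 * Real.log m := by
  have h1 : 2 ^ m.primeFactors.card ≤ m := by
    calc 2 ^ m.primeFactors.card ≤ ∏ p ∈ m.primeFactors, p := by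
          apply pow_card_le_prod
          intro p hp
          exact (Nat.prime_of_mem_primeFactors hp).two_le
      _ ≤ m := Nat.le_of_dvd hm (Nat.prod_primeFactors_dvd m)
  have h2 : ((2 : ℝ)) ^ m.primeFactors.card ≤ m := by exact_mod_cast h1
  have h3 := Real.log_le_log (by positivity) h2
  rw [Real.log_pow] at h3
  have h4 := mul_le_mul_of_nonneg_left psw_log2
    (Nat.cast_nonneg m.primeFactors.card : (0 : ℝ) ≤ _)
  linarith

open Classical in
lemma psw_noncop (N z y e : ℕ) (he : 1 ≤ e) (hz1 : 1 ≤ z) :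
    ∑ q ∈ (range (N + 1)).filter (fun q => ¬ q.Coprime e), bt z y q ≤
      (e.primeFactors.card : ℝ) * ((N : ℝ) / z) := by
  have h1 : ∀ q ∈ (range (N + 1)).filter (fun q => ¬ q.Coprime e), bt z y q ≤
      ∑ p ∈ e.primeFactors.filter (fun p => z < p), (if q ≠ 0 ∧ p ∣ q then (1 : ℝ) else 0) := by
    intro q hq
    rw [mem_filter] at hq
    have h0 : 0 ≤ ∑ p ∈ e.primeFactors.filter (fun p => z < p),
        (if q ≠ 0 ∧ p ∣ q then (1 : ℝ) else 0) := by
      apply sum_nonneg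
      intro p _
      split_ifs <;> norm_num
    unfold bt
    split_ifs with h
    · obtain ⟨a, b, c, ha, hb, hc, hz, hay, hyb, hbc, hqe⟩ := h
      obtain ⟨p, hp, hpq, hpe⟩ := Nat.Prime.not_coprime_iff_dvd.1 hq.2
      have hpz : z < p := by
        rw [hqe] at hpq
        rcases hp.dvd_mul.1 hpq with h2 | h2
        · rcases hp.dvd_mul.1 h2 with h3 | h3
          · have := (Nat.prime_dvd_prime_iff_eq hp ha).1 h3
            omega
          · have := (Nat.prime_dvd_prime_iff_eq hp hb).1 h3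
            omega
        · have := (Nat.prime_dvd_prime_iff_eq hp hc).1 h2
          omega
      have hq0 : q ≠ 0 := by
        rw [hqe]
        exact Nat.mul_ne_zero (Nat.mul_ne_zero ha.ne_zero hb.ne_zero) hc.ne_zero
      have hmem : p ∈ e.primeFactors.filter (fun p => z < p) := by
        rw [mem_filter, Nat.mem_primeFactors]
        exact ⟨⟨hp, hpe, by omega⟩, hpz⟩
      calc (1 : ℝ) = (if q ≠ 0 ∧ p ∣ q then (1 : ℝ) else 0) := by rw [if_pos ⟨hq0, hpq⟩]
        _ ≤ _ := single_le_sum (f := fun p => if q ≠ 0 ∧ p ∣ q then (1 : ℝ) else 0)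
            (fun p _ => by split_ifs <;> norm_num) hmem
    · exact h0
  calc ∑ q ∈ (range (N + 1)).filter (fun q => ¬ q.Coprime e), bt z y q
      ≤ ∑ q ∈ (range (N + 1)).filter (fun q => ¬ q.Coprime e),
        ∑ p ∈ e.primeFactors.filter (fun p => z < p), (if q ≠ 0 ∧ p ∣ q then (1 : ℝ) else 0) :=
        sum_le_sum h1
    _ ≤ ∑ q ∈ range (N + 1),
        ∑ p ∈ e.primeFactors.filter (fun p => z < p), (if q ≠ 0 ∧ p ∣ q then (1 : ℝ) else 0) := by
        apply sum_le_sum_of_subset_of_nonneg (filter_subset _ _)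
        intro q _ _
        apply sum_nonneg
        intro p _
        split_ifs <;> norm_num
    _ = ∑ p ∈ e.primeFactors.filter (fun p => z < p), ((N / p : ℕ) : ℝ) := by
        rw [sum_comm]
        apply sum_congr rfl
        intro p _
        rw [← Nat.card_multiples' N p, sum_boole]
    _ ≤ ∑ p ∈ e.primeFactors.filter (fun p => z < p), (N : ℝ) / z := by
        apply sum_le_sum
        intro p hp
        rw [mem_filter] at hp
        refine Nat.cast_div_le.trans ?_
        have hz : (0 : ℝ) < z := by exact_mod_cast hz1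
        apply div_le_div_of_nonneg_left (by positivity) hz
        exact_mod_cast hp.2.le
    _ ≤ _ := by
        rw [sum_const, nsmul_eq_mul]
        apply mul_le_mul_of_nonneg_right _ (by positivity)
        exact_mod_cast card_filter_le _ _

open Classical in
/-- keep this signature -/
theorem thm_PSW : St_PSW := by
  intro η hη A B
  obtain ⟨K, hK, hT⟩ := psw_T2 hη (A + 3) B
  filter_upwards [hT, psw_evrpow (A + 1) (1 / 4) (1 / 10) (by norm_num) (by norm_num),
    BVX.a8_evlog (8 * K + 1), eventually_ge_atTop 3] with N h1 h2 h3 h4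
  intro z y e hPar he heN r hr hrB χ hχ
  have hχ1 : χ ≠ 1 := ((mem_prim χ).1 hχ).2
  have hN3 : (3 : ℝ) ≤ N := by exact_mod_cast h4
  have hN0 : (0 : ℝ) < N := by linarith
  set L : ℝ := Real.log N with hL
  have hL1 : 1 ≤ L := by linarith
  have hL0 : 0 < L := by linarith
  have hz10 : (1 : ℝ) ≤ (N : ℝ) ^ (1 / 10 : ℝ) := Real.one_le_rpow (by linarith) (by norm_num)
  have hz1 : 1 ≤ z := by
    have : (1 : ℝ) ≤ z := hz10.trans hPar.1
    exact_mod_cast this
  set F : ℕ → ℂ := fun q => ((η ((q : ℝ) / N) : ℝ) : ℂ) * χ (q : ZMod r) with hF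
  have hF1 : ∀ q, ‖F q‖ ≤ 1 := by
    intro q
    rw [hF]
    simp only
    rw [norm_mul, Complex.norm_real, Real.norm_eq_abs, abs_of_nonneg (hη.nonneg _)]
    calc η ((q : ℝ) / N) * ‖χ (q : ZMod r)‖ ≤ 1 * 1 :=
          mul_le_mul (hη.le_one _) (DirichletCharacter.norm_le_one χ _) (norm_nonneg _) zero_le_one
      _ = 1 := one_mul 1
  have hsplit : psiB η N z y e χ = ∑ q ∈ range (N + 1), (bt z y q : ℂ) * F q -
      ∑ q ∈ (range (N + 1)).filter (fun q => ¬ q.Coprime e), (bt z y q : ℂ) * F q := by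
    rw [eq_sub_iff_add_eq, ← sum_filter_add_sum_filter_not (range (N + 1))
      (fun q => q.Coprime e) (fun q => (bt z y q : ℂ) * F q)]
    congr 1
    unfold psiB
    apply sum_congr rfl
    intro q _
    simp only [hF]
    push_cast
    ring
  -- the part with a common factor
  have hA : ‖∑ q ∈ (range (N + 1)).filter (fun q => ¬ q.Coprime e), (bt z y q : ℂ) * F q‖ ≤
      1 / 2 * (N / L ^ A) := by
    have hbt : ∀ q, 0 ≤ bt z y q := by
      intro q
      unfold bt
      split_ifs <;> norm_num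
    calc ‖∑ q ∈ (range (N + 1)).filter (fun q => ¬ q.Coprime e), (bt z y q : ℂ) * F q‖
        ≤ ∑ q ∈ (range (N + 1)).filter (fun q => ¬ q.Coprime e), ‖(bt z y q : ℂ) * F q‖ :=
          norm_sum_le _ _
      _ ≤ ∑ q ∈ (range (N + 1)).filter (fun q => ¬ q.Coprime e), bt z y q := by
          apply sum_le_sum
          intro q _
          rw [norm_mul, Complex.norm_real, Real.norm_eq_abs, abs_of_nonneg (hbt q)]
          calc bt z y q * ‖F q‖ ≤ bt z y q * 1 := mul_le_mul_of_nonneg_left (hF1 q) (hbt q)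
            _ = _ := mul_one _
      _ ≤ (e.primeFactors.card : ℝ) * ((N : ℝ) / z) := psw_noncop N z y e he hz1
      _ ≤ (2 * L) * ((N : ℝ) / (N : ℝ) ^ (1 / 10 : ℝ)) := by
          have e1 : (e.primeFactors.card : ℝ) ≤ 2 * L := by
            refine (psw_omega e he).trans ?_
            have : Real.log e ≤ L := Real.log_le_log (by exact_mod_cast he) (by exact_mod_cast heN)
            linarith
          apply mul_le_mul e1 _ (by positivity) (by positivity)
          exact div_le_div_of_nonneg_left (by positivity) (by positivity) hPar.1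
      _ ≤ 1 / 2 * (N / L ^ A) := by
          rw [mul_div_assoc', mul_div_assoc', div_le_div_iff₀ (by positivity) (by positivity)]
          have e2 : L ^ (A + 1) = L * L ^ A := by ring
          rw [e2] at h2
          have e3 := mul_le_mul_of_nonneg_left h2 (by positivity : (0 : ℝ) ≤ 2 * N)
          linarith
  -- the main part
  have hB : ‖∑ q ∈ range (N + 1), (bt z y q : ℂ) * F q‖ ≤ 1 / 2 * (N / L ^ A) := by
    rw [psw_sum z y N F]
    have hv : ∀ v ∈ range (N + 1) ×ˢ range (N + 1), ‖∑ p ∈ range (N + 1),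
        (if pswC z y N (v, p) then F (v.1 * v.2 * p) else 0)‖ ≤
        K * ((N : ℝ) / L ^ (A + 3)) * ((1 / (v.1 : ℝ)) * (1 / (v.2 : ℝ))) := by
      intro v _
      by_cases hc : v.1.Prime ∧ v.2.Prime ∧ z < v.1 ∧ v.1 ≤ y ∧ y < v.2 ∧ v.1 * v.2 * v.2 ≤ N
      · obtain ⟨hp1, hp2, hz, hy1, hy2, hN2⟩ := hc
        set a : ℕ := v.1 * v.2 with ha
        have ha1 : 1 ≤ a := Nat.mul_pos hp1.pos hp2.pos
        have haN : (a : ℝ) ≤ (N : ℝ) ^ (7 / 10 : ℝ) := by
          have g1 : a * a ≤ y * N := by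
            calc a * a = v.1 * (v.1 * v.2 * v.2) := by rw [ha]; ring
              _ ≤ y * N := Nat.mul_le_mul hy1 hN2
          have g2 : (a : ℝ) * a ≤ y * N := by exact_mod_cast g1
          have g3 : (a : ℝ) * a ≤ (N : ℝ) ^ (7 / 10 : ℝ) * (N : ℝ) ^ (7 / 10 : ℝ) := by
            calc (a : ℝ) * a ≤ y * N := g2
              _ ≤ (N : ℝ) ^ (2 / 5 : ℝ) * N := mul_le_mul_of_nonneg_right hPar.2 hN0.le
              _ = (N : ℝ) ^ (7 / 10 : ℝ) * (N : ℝ) ^ (7 / 10 : ℝ) := by
                  rw [← Real.rpow_add hN0]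
                  nth_rewrite 2 [← Real.rpow_one (N : ℝ)]
                  rw [← Real.rpow_add hN0]
                  norm_num
          exact abs_le_of_sq_le_sq' (by rw [sq, sq]; exact g3) (by positivity) |>.2
        have hin : ∑ p ∈ range (N + 1), (if pswC z y N (v, p) then F (a * p) else 0) =
            χ (a : ZMod r) * ∑ p ∈ range (N / a + 1), (if p.Prime ∧ v.2 ≤ p then
              ((η (((a * p : ℕ) : ℝ) / N) : ℝ) : ℂ) * χ (p : ZMod r) else 0) := by
          have g4 : range (N / a + 1) ⊆ range (N + 1) := by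
            intro p hp
            rw [mem_range] at hp ⊢
            have := Nat.div_le_self N a
            omega
          rw [mul_sum, ← sum_subset g4]
          · apply sum_congr rfl
            intro p hp
            rw [mem_range] at hp
            have hpN : a * p ≤ N := by
              have : p ≤ N / a := by omega
              have := (Nat.le_div_iff_mul_le ha1).1 this
              rwa [mul_comm] at this
            by_cases hq : p.Prime ∧ v.2 ≤ p
            · rw [if_pos hq, if_pos ⟨hp1, hp2, hq.1, hz, hy1, hy2, hq.2, hpN⟩]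
              simp only [hF]
              push_cast
              rw [map_mul]
              ring
            · rw [if_neg hq, mul_zero, if_neg]
              intro hC
              exact hq ⟨hC.2.2.1, hC.2.2.2.2.2.2.1⟩
          · intro p _ hp
            rw [if_neg]
            intro hC
            apply hp
            have h5 : a * p ≤ N := hC.2.2.2.2.2.2.2
            rw [mem_range]
            have : p ≤ N / a := (Nat.le_div_iff_mul_le ha1).2 (by rwa [mul_comm] at h5)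
            omega
        rw [hin, norm_mul]
        have g5 := h1 r hr hrB χ hχ1 a ha1 haN v.2 hp2.one_lt.le
        calc ‖χ (a : ZMod r)‖ * ‖∑ p ∈ range (N / a + 1), (if p.Prime ∧ v.2 ≤ p then
              ((η (((a * p : ℕ) : ℝ) / N) : ℝ) : ℂ) * χ (p : ZMod r) else 0)‖
            ≤ 1 * (K * ((N : ℝ) / L ^ (A + 3)) * (1 / (a : ℝ))) :=
              mul_le_mul (DirichletCharacter.norm_le_one χ _) g5 (norm_nonneg _) zero_le_one
          _ = _ := by
              rw [one_mul, ha]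
              push_cast
              rw [one_div_mul_one_div]
      · have hz0 : ∑ p ∈ range (N + 1), (if pswC z y N (v, p) then F (v.1 * v.2 * p) else 0) =
            0 := by
          apply sum_eq_zero
          intro p _
          rw [if_neg]
          intro hC
          apply hc
          obtain ⟨g1, g2, g3, g4, g5, g6, g7, g8⟩ := hC
          simp only at *
          refine ⟨g1, g2, g4, g5, g6, ?_⟩
          exact (Nat.mul_le_mul_left _ g7).trans g8
        rw [hz0, norm_zero]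
        positivity
    calc ‖∑ v ∈ range (N + 1) ×ˢ range (N + 1), ∑ p ∈ range (N + 1),
        (if pswC z y N (v, p) then F (v.1 * v.2 * p) else 0)‖
        ≤ ∑ v ∈ range (N + 1) ×ˢ range (N + 1), ‖∑ p ∈ range (N + 1),
        (if pswC z y N (v, p) then F (v.1 * v.2 * p) else 0)‖ := norm_sum_le _ _
      _ ≤ ∑ v ∈ range (N + 1) ×ˢ range (N + 1),
          K * ((N : ℝ) / L ^ (A + 3)) * ((1 / (v.1 : ℝ)) * (1 / (v.2 : ℝ))) := sum_le_sum hv
      _ = K * ((N : ℝ) / L ^ (A + 3)) * ((∑ n ∈ range (N + 1), (1 / (n : ℝ))) *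
          (∑ n ∈ range (N + 1), (1 / (n : ℝ)))) := by
          rw [← mul_sum, sum_product, sum_mul_sum]
      _ ≤ K * ((N : ℝ) / L ^ (A + 3)) * ((2 * L) * (2 * L)) := by
          apply mul_le_mul_of_nonneg_left _ (by positivity)
          have g1 : ∑ n ∈ range (N + 1), (1 / (n : ℝ)) ≤ 2 * L := by
            have := psw_harm N
            linarith
          have g0 : 0 ≤ ∑ n ∈ range (N + 1), (1 / (n : ℝ)) := sum_nonneg fun n _ => by positivity
          exact mul_le_mul g1 g1 g0 (by positivity)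
      _ = (4 * K) / L * (N / L ^ A) := by
          field_simp
          ring
      _ ≤ 1 / 2 * (N / L ^ A) := by
          apply mul_le_mul_of_nonneg_right _ (by positivity)
          rw [div_le_iff₀ hL0]
          linarith
  rw [hsplit]
  calc _ ≤ _ := norm_sub_le _ _
    _ ≤ 1 / 2 * (N / L ^ A) + 1 / 2 * (N / L ^ A) := add_le_add hB hA
    _ = _ := by ring

end Pool.Agent.CH
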