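import Mathlib
import Pool.Agent.CH.Stmts

set_option autoImplicit false

/-!
# CH / SB

St_LinU with z := yN N, D = N^(1/2-tau) (s = 3/2 - 3 tau in [1,3]), g = gB w m n'; St_Gen with P = pr (yN), w(q) = bt eta(q/N), M = B0, h(d) = 1/phi(d), E from St_PBVW (Par N (zN N) (yN N) holds for large N); 0 is not in OmB, so the classes are coprime to d; h(d) prod |OmB l| = prod gB l (d squarefree).
B0 VV gB(yN) (A0 log y/log D + eps') <= ((cB+eps')(int eta) N/log N) (3/8+eps') VV gB(zN) (A0 (2/3)(1+..) + eps') (St_BMass, St_VR) = (A0 cB/4 + eps) UU/log N.  cB <= 2/5 not needed, only finiteness.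
-/

namespace Pool.Agent.CH

open Finset Filter Pool.Agent.MT

private lemma sb_int (η : ℝ → ℝ) (hη : IsWt η) : 1 / 2 ≤ ∫ t in (0 : ℝ)..1, η t := by
  have hc : Continuous η := hη.smooth.continuous
  have h1 : ∫ t in (0 : ℝ)..1, η t = (∫ t in (0 : ℝ)..(1 / 4), η t) +
      (∫ t in (1 / 4 : ℝ)..(3 / 4), η t) + ∫ t in (3 / 4 : ℝ)..1, η t := by
    rw [intervalIntegral.integral_add_adjacent_intervals (hc.intervalIntegrable _ _)
      (hc.intervalIntegrable _ _), intervalIntegral.integral_add_adjacent_intervals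
      (hc.intervalIntegrable _ _) (hc.intervalIntegrable _ _)]
  have h2 : 0 ≤ ∫ t in (0 : ℝ)..(1 / 4), η t :=
    intervalIntegral.integral_nonneg (by norm_num) (fun x _ => hη.nonneg x)
  have h3 : 0 ≤ ∫ t in (3 / 4 : ℝ)..1, η t :=
    intervalIntegral.integral_nonneg (by norm_num) (fun x _ => hη.nonneg x)
  have h4 : ∫ t in (1 / 4 : ℝ)..(3 / 4), η t = 1 / 2 := by
    have : ∫ t in (1 / 4 : ℝ)..(3 / 4), η t = ∫ t in (1 / 4 : ℝ)..(3 / 4), (1 : ℝ) := by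
      apply intervalIntegral.integral_congr
      intro x hx
      rw [Set.uIcc_of_le (by norm_num)] at hx
      exact hη.one x hx.1 hx.2
    rw [this, intervalIntegral.integral_const]
    norm_num
  linarith

private lemma sb_tot (d : ℕ) (hd : Squarefree d) :
    (d.totient : ℝ) = ∏ l ∈ d.primeFactors, ((l : ℝ) - 1) := by
  have h1 := Nat.totient_mul_prod_primeFactors d
  have h2 := Nat.prod_primeFactors_of_squarefree hd
  rw [h2] at h1
  have hd0 : 0 < d := Nat.pos_of_ne_zero hd.ne_zero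
  have h3 : d.totient = ∏ p ∈ d.primeFactors, (p - 1) := by
    apply Nat.eq_of_mul_eq_mul_right hd0
    rw [h1, mul_comm]
  rw [h3]
  push_cast
  apply Finset.prod_congr rfl
  intro p hp
  have := (Nat.prime_of_mem_primeFactors hp).one_lt
  rw [Nat.cast_sub this.le, Nat.cast_one]

private lemma sb_h (w m n' d : ℕ) (hd : Squarefree d) :
    (1 / (d.totient : ℝ)) * ∏ l ∈ d.primeFactors, ((OmB w m n' l).card : ℝ) =
      ∏ l ∈ d.primeFactors, gB w m n' l := by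
  rw [sb_tot d hd]
  unfold gB
  rw [Finset.prod_div_distrib, one_div, div_eq_mul_inv, mul_comm]

private lemma sb_VV_pos (g : ℕ → ℝ) (z : ℕ) (h : ∀ l : ℕ, l.Prime → g l ≤ 1 / 2) : 0 < VV g z := by
  unfold VV
  apply Finset.prod_pos
  intro l hl
  have hp : l.Prime := (Finset.mem_filter.mp hl).2
  have := h l hp
  linarith

/-- number of large prime factors -/
private lemma sb_count (N n' : ℕ) (δ : ℝ) (hδ : 0 < δ) (hN : 2 ≤ N) (hn : 0 < n') (hn' : n' ≤ N ^ 2)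
    (S : Finset ℕ) (hS : ∀ l ∈ S, l.Prime ∧ ⌊(N : ℝ) ^ δ⌋₊ < l ∧ l ∣ n') :
    S.card ≤ ⌈2 / δ⌉₊ := by
  have hNR : (1 : ℝ) < N := by exact_mod_cast (by omega : 1 < N)
  have h1 : ∏ l ∈ S, l ∣ n' := by
    apply Finset.prod_primes_dvd
    · intro l hl
      exact (hS l hl).1.prime
    · intro l hl
      exact (hS l hl).2.2
  have h2 : ∏ l ∈ S, l ≤ N ^ 2 := (Nat.le_of_dvd hn h1).trans hn'
  have h3 : ((N : ℝ) ^ δ) ^ S.card ≤ ((∏ l ∈ S, l : ℕ) : ℝ) := by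
    push_cast
    rw [← Finset.prod_const]
    apply Finset.prod_le_prod
    · intro l _
      positivity
    · intro l hl
      exact ((Nat.floor_lt (by positivity)).mp (hS l hl).2.1).le
  have h4 : ((N : ℝ) ^ δ) ^ S.card ≤ (N : ℝ) ^ (2 : ℝ) := by
    refine h3.trans ?_
    rw [Real.rpow_ofNat]
    exact_mod_cast h2
  rw [← Real.rpow_natCast, ← Real.rpow_mul (by positivity)] at h4
  have h5 : δ * S.card ≤ 2 := (Real.rpow_le_rpow_left_iff hNR).mp h4
  have h6 : (S.card : ℝ) ≤ 2 / δ := by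
    rw [le_div_iff₀ hδ]
    linarith
  have h7 : (S.card : ℝ) ≤ (⌈2 / δ⌉₊ : ℝ) := h6.trans (Nat.le_ceil _)
  exact_mod_cast h7

private lemma sb_Dns (h4 : St_Dens) (N m n' : ℕ) (δ : ℝ) (hδ : 0 < δ) (hN : 2 ≤ N) (hm : 1 ≤ m)
    (hc : n'.Coprime m) (hpar : (n' + m) % 2 = 1) (hn : 0 < n') (hn' : n' ≤ N ^ 2)
    (hmw : m ≤ ⌊(N : ℝ) ^ δ⌋₊) :
    Dns ⌊(N : ℝ) ^ δ⌋₊ (yN N) ⌈2 / δ⌉₊ (gB (wN δ N) m n') := by
  obtain ⟨d1, d2, -⟩ := h4 (wN δ N) m n' hm hc hpar
  have hnd : ∀ l : ℕ, ⌊(N : ℝ) ^ δ⌋₊ < l → ¬ l ∣ m := by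
    intro l hl h
    have := Nat.le_of_dvd (by omega) h
    omega
  refine ⟨?_, ?_, ?_⟩
  · intro l hl
    obtain ⟨-, -, -, -, -, e1, e2, e3⟩ := d1 l hl
    exact ⟨e1, e2, e3⟩
  · intro l hl hwl _
    obtain ⟨e1, e2, e3⟩ := d2 l hl hwl (hnd l hwl)
    rw [e1]
    by_cases hln : l ∣ n'
    · exact Or.inl (e2 hln)
    · exact Or.inr (e3 hln)
  · apply sb_count N n' δ hδ hN hn hn'
    intro l hl
    rw [Finset.mem_filter] at hl
    have hlp : l.Prime := (Finset.mem_filter.mp hl.1).2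
    refine ⟨hlp, hl.2.1, ?_⟩
    by_contra hln
    obtain ⟨e1, e2, e3⟩ := d2 l hlp hl.2.1 (hnd l hl.2.1)
    have h0 := hl.2.2
    rw [e1, e3 hln] at h0
    have h1 : (1 : ℝ) < l := by exact_mod_cast hlp.one_lt
    have h2 : (0 : ℝ) < 1 / ((l : ℝ) - 1) := by
      apply one_div_pos.mpr
      linarith
    linarith

/-- the sieve with remainder -/
private lemma sb_sieve (h2 : St_Gen) (N z y D' C K : ℕ) (D θ V F T : ℝ) (η : ℝ → ℝ) (hη : IsWt η)
    (w m n' : ℕ) (c E : ℕ → ℝ) (hN : 1 ≤ N) (hθ : θ ≤ 1)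
    (hκ : ∀ l : ℕ, l.Prime → (OmB w m n' l).card ≤ 3)
    (hD' : D' = ⌊(N : ℝ) ^ θ⌋₊) (hDθ : D ≤ (N : ℝ) ^ θ) (hK : K = 3 * C)
    (c1 : ∀ d, c d ≠ 0 → Squarefree d ∧ (∀ p ∈ d.primeFactors, p ≤ y) ∧ (d : ℝ) ≤ D)
    (c2 : ∀ d, |c d| ≤ C * (C : ℝ) ^ d.primeFactors.card)
    (c3 : ∑ d ∈ Icc 1 (N ^ 2), c d * ∏ p ∈ d.primeFactors, gB w m n' p ≤ V * F)
    (c4 : ∀ S : Finset ℕ, S ⊆ pr y → (if S = ∅ then (1 : ℝ) else 0) ≤
      ∑ T ∈ S.powerset, c (∏ l ∈ T, l))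
    (E1 : ∀ q, 0 ≤ E q)
    (E2 : ∀ q b : ℕ, 1 ≤ q → (q : ℝ) ≤ (N : ℝ) ^ θ → b.Coprime q →
      |BAP η N z y q b - B0 η N z y / (q.totient : ℝ)| ≤ E q)
    (E3 : ∑ q ∈ (Icc 1 N).filter (fun q : ℕ => (q : ℝ) ≤ (N : ℝ) ^ θ),
      (K : ℝ) ^ q.primeFactors.card * E q ≤ T) :
    ∑ q ∈ (range (N + 1)).filter (fun q => ∀ l ∈ pr y, q % l ∉ OmB w m n' l),
      bt z y q * η ((q : ℝ) / N) ≤ B0 η N z y * (V * F) + C * T := by
  have hN1 : (1 : ℝ) ≤ N := by exact_mod_cast hN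
  have hbt : ∀ q, 0 ≤ bt z y q := by
    intro q
    unfold bt
    split_ifs <;> norm_num
  have hϖ : ∀ q : ℕ, 0 ≤ bt z y q * η ((q : ℝ) / N) := fun q => mul_nonneg (hbt q) (hη.nonneg _)
  have hD'N : D' ≤ N := by
    rw [hD']
    have : (N : ℝ) ^ θ ≤ N := by
      calc (N : ℝ) ^ θ ≤ (N : ℝ) ^ (1 : ℝ) := Real.rpow_le_rpow_of_exponent_le hN1 hθ
        _ = N := Real.rpow_one _
    exact Nat.floor_le_of_le this
  have hcD : ∀ d, c d ≠ 0 → d ≤ D' := by
    intro d hd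
    rw [hD']
    exact Nat.le_floor ((c1 d hd).2.2.trans hDθ)
  have hG := h2 (fun q => bt z y q * η ((q : ℝ) / N)) c (fun d => 1 / (d.totient : ℝ)) E
    (OmB w m n') (pr y) N D' 3 (B0 η N z y) (fun l hl => (Finset.mem_filter.mp hl).2)
    (fun l hl => ⟨Finset.filter_subset _ _, hκ l (Finset.mem_filter.mp hl).2⟩)
    (by
      intro d hd
      refine ⟨(c1 d hd).1, ?_, hcD d hd⟩
      intro p hp
      unfold pr
      rw [Finset.mem_filter, Finset.mem_range]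
      exact ⟨Nat.lt_succ_of_le ((c1 d hd).2.1 p hp), Nat.prime_of_mem_primeFactors hp⟩) E1
    (by
      intro d hd a had ha
      have hd1 : 1 ≤ d := Nat.pos_of_ne_zero (c1 d hd).1.ne_zero
      have hcop : a.Coprime d := by
        rw [Nat.coprime_iff_gcd_eq_one]
        by_contra hg
        obtain ⟨p, hp, hpg⟩ := Nat.exists_prime_and_dvd hg
        have hpa : p ∣ a := hpg.trans (Nat.gcd_dvd_left _ _)
        have hpd : p ∣ d := hpg.trans (Nat.gcd_dvd_right _ _)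
        have hmem := ha p (Nat.mem_primeFactors.mpr ⟨hp, hpd, by omega⟩)
        unfold OmB at hmem
        rw [Finset.mem_filter] at hmem
        exact hmem.2.1 (Nat.mod_eq_zero_of_dvd hpa)
      have hle : (d : ℝ) ≤ (N : ℝ) ^ θ := (c1 d hd).2.2.trans hDθ
      have := E2 d a hd1 hle hcop
      unfold BAP at this
      rw [Nat.mod_eq_of_lt had] at this
      have e : B0 η N z y / (d.totient : ℝ) = B0 η N z y * (1 / (d.totient : ℝ)) := by ring
      rw [e] at this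
      exact this)
  -- main term
  have hmain : ∑ d ∈ Icc 1 D', c d * ((1 / (d.totient : ℝ)) *
      ∏ l ∈ d.primeFactors, ((OmB w m n' l).card : ℝ)) =
      ∑ d ∈ Icc 1 (N ^ 2), c d * ∏ p ∈ d.primeFactors, gB w m n' p := by
    have s1 : ∑ d ∈ Icc 1 D', c d * ((1 / (d.totient : ℝ)) *
        ∏ l ∈ d.primeFactors, ((OmB w m n' l).card : ℝ)) =
        ∑ d ∈ Icc 1 D', c d * ∏ p ∈ d.primeFactors, gB w m n' p := by
      apply Finset.sum_congr rfl
      intro d _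
      by_cases hd : c d = 0
      · rw [hd, zero_mul, zero_mul]
      · rw [sb_h w m n' d (c1 d hd).1]
    rw [s1]
    apply Finset.sum_subset
    · apply Finset.Icc_subset_Icc_right
      nlinarith
    · intro d hd1 hd2
      have : c d = 0 := by
        by_contra hd
        apply hd2
        rw [Finset.mem_Icc] at hd1 ⊢
        exact ⟨hd1.1, hcD d hd⟩
      rw [this, zero_mul]
  -- error term
  have herr : ∑ d ∈ Icc 1 D', |c d| * (((3 : ℕ) : ℝ) ^ d.primeFactors.card * E d) ≤ C * T := by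
    have s1 : Icc 1 D' = (Icc 1 N).filter (fun q : ℕ => (q : ℝ) ≤ (N : ℝ) ^ θ) := by
      ext d
      rw [Finset.mem_Icc, Finset.mem_filter, Finset.mem_Icc, hD']
      constructor
      · rintro ⟨a1, a2⟩
        have a3 : (d : ℝ) ≤ (N : ℝ) ^ θ := (Nat.le_floor_iff (by positivity)).mp a2
        rw [← hD'] at a2
        exact ⟨⟨a1, a2.trans hD'N⟩, a3⟩
      · rintro ⟨⟨a1, -⟩, a3⟩
        exact ⟨a1, Nat.le_floor a3⟩
    calc ∑ d ∈ Icc 1 D', |c d| * (((3 : ℕ) : ℝ) ^ d.primeFactors.card * E d)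
        ≤ ∑ d ∈ Icc 1 D', C * ((K : ℝ) ^ d.primeFactors.card * E d) := by
          apply Finset.sum_le_sum
          intro d _
          have a1 : |c d| * (((3 : ℕ) : ℝ) ^ d.primeFactors.card * E d) ≤
              (C * (C : ℝ) ^ d.primeFactors.card) *
                (((3 : ℕ) : ℝ) ^ d.primeFactors.card * E d) :=
            mul_le_mul_of_nonneg_right (c2 d) (mul_nonneg (by positivity) (E1 d))
          refine a1.trans (le_of_eq ?_)
          rw [hK]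
          push_cast
          rw [mul_pow]
          ring
      _ = C * ∑ d ∈ (Icc 1 N).filter (fun q : ℕ => (q : ℝ) ≤ (N : ℝ) ^ θ),
            (K : ℝ) ^ d.primeFactors.card * E d := by
          rw [← Finset.mul_sum, s1]
      _ ≤ C * T := mul_le_mul_of_nonneg_left E3 (by positivity)
  -- upper bound for the indicator
  have hind : ∑ q ∈ (range (N + 1)).filter (fun q => ∀ l ∈ pr y, q % l ∉ OmB w m n' l),
      bt z y q * η ((q : ℝ) / N) ≤ ∑ q ∈ range (N + 1), bt z y q * η ((q : ℝ) / N) *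
        ∑ T ∈ ((pr y).filter (fun l => q % l ∈ OmB w m n' l)).powerset, c (∏ l ∈ T, l) := by
    rw [Finset.sum_filter]
    apply Finset.sum_le_sum
    intro q _
    have h5 := c4 ((pr y).filter (fun l => q % l ∈ OmB w m n' l)) (Finset.filter_subset _ _)
    split_ifs with hq
    · have he : (pr y).filter (fun l => q % l ∈ OmB w m n' l) = ∅ :=
        Finset.filter_eq_empty_iff.mpr (fun l hl => hq l hl)
      rw [if_pos he] at h5
      have := mul_le_mul_of_nonneg_left h5 (hϖ q)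
      rwa [mul_one] at this
    · have h6 : (0 : ℝ) ≤ ∑ T ∈ ((pr y).filter (fun l => q % l ∈ OmB w m n' l)).powerset,
          c (∏ l ∈ T, l) := by
        refine le_trans ?_ h5
        split_ifs <;> norm_num
      exact mul_nonneg (hϖ q) h6
  have hB0 : 0 ≤ B0 η N z y := Finset.sum_nonneg (fun q _ => hϖ q)
  have h6 := (abs_le.mp hG).2
  rw [hmain] at h6
  have h7 : B0 η N z y * ∑ d ∈ Icc 1 (N ^ 2), c d * ∏ p ∈ d.primeFactors, gB w m n' p ≤
      B0 η N z y * (V * F) := mul_le_mul_of_nonneg_left c3 hB0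
  refine hind.trans ((sub_le_iff_le_add.mp h6).trans ?_)
  rw [add_comm]
  exact add_le_add h7 herr

private lemma sb_choose (A0 ε : ℝ) (hε : 0 < ε) : ∃ t : ℝ, 0 < t ∧ t ≤ 1 ∧
    (cB + t) * (3 / 8 + t) * (A0 * (2 / 3 + t) + t) ≤ A0 * (cB / 4) + ε / 2 := by
  have hf : Continuous (fun t : ℝ => (cB + t) * (3 / 8 + t) * (A0 * (2 / 3 + t) + t)) := by
    fun_prop
  have h0 : (fun t : ℝ => (cB + t) * (3 / 8 + t) * (A0 * (2 / 3 + t) + t)) 0 <
      A0 * (cB / 4) + ε / 2 := by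
    show (cB + 0) * (3 / 8 + 0) * (A0 * (2 / 3 + 0) + 0) < A0 * (cB / 4) + ε / 2
    linarith
  have h1 : ∀ᶠ t in nhds (0 : ℝ), (fun t : ℝ => (cB + t) * (3 / 8 + t) *
      (A0 * (2 / 3 + t) + t)) t < A0 * (cB / 4) + ε / 2 :=
    hf.continuousAt.eventually_lt continuousAt_const h0
  have h2 : ∀ᶠ t in nhdsWithin (0 : ℝ) (Set.Ioi 0), 0 < t ∧ t < 1 :=
    Ioo_mem_nhdsGT (by norm_num)
  obtain ⟨t, ht1, ht2⟩ := ((h1.filter_mono nhdsWithin_le_nhds).and h2).exists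
  exact ⟨t, ht2.1, ht2.2.le, ht1.le⟩

private lemma sb_rpow_large (a c : ℝ) (ha : 0 < a) : ∀ᶠ N : ℕ in atTop, c ≤ (N : ℝ) ^ a :=
  tendsto_natCast_atTop_atTop.eventually ((tendsto_rpow_atTop ha).eventually_ge_atTop c)

private lemma sb_log_large (c : ℝ) : ∀ᶠ N : ℕ in atTop, c ≤ Real.log N :=
  tendsto_natCast_atTop_atTop.eventually (Real.tendsto_log_atTop.eventually_ge_atTop c)

private lemma sb_log_pow (A : ℕ) (δ : ℝ) (hδ : 0 < δ) :
    ∀ᶠ N : ℕ in atTop, Real.log (N : ℝ) ^ A ≤ (N : ℝ) ^ δ := by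
  have h1 : ∀ᶠ x : ℝ in atTop, Real.log x ^ A ≤ x ^ δ := by
    have := (isLittleO_log_rpow_rpow_atTop (A : ℝ) hδ).bound (by norm_num : (0 : ℝ) < 1)
    filter_upwards [this, eventually_ge_atTop (1 : ℝ)] with x hx hx1
    have hl : 0 ≤ Real.log x := Real.log_nonneg hx1
    rw [Real.rpow_natCast, Real.norm_of_nonneg (by positivity),
      Real.norm_of_nonneg (by positivity)] at hx
    linarith
  exact tendsto_natCast_atTop_atTop.eventually h1

private lemma sb_num : ∀ᶠ N : ℕ in atTop, Par N (zN N) (yN N) ∧ 2 ≤ zN N ∧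
    (yN N : ℝ) ≤ 2 * (N : ℝ) ^ (1 / 3 : ℝ) ∧ 16 ≤ N := by
  filter_upwards [sb_rpow_large (1 / 40) 2 (by norm_num), sb_rpow_large (1 / 15) 2 (by norm_num),
    sb_rpow_large (1 / 10) 2 (by norm_num), eventually_ge_atTop 16] with N e1 e2 e3 hN
  have hN0 : (0 : ℝ) < N := by exact_mod_cast (by omega : 0 < N)
  have hz : (N : ℝ) ^ (1 / 10 : ℝ) ≤ zN N := by
    have h1 : (N : ℝ) ^ (1 / 8 : ℝ) = (N : ℝ) ^ (1 / 40 : ℝ) * (N : ℝ) ^ (1 / 10 : ℝ) := by
      rw [← Real.rpow_add hN0]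
      norm_num
    have h2 : (N : ℝ) ^ (1 / 8 : ℝ) < zN N + 1 := Nat.lt_floor_add_one _
    nlinarith [mul_le_mul_of_nonneg_right e1 (by positivity : (0 : ℝ) ≤ (N : ℝ) ^ (1 / 10 : ℝ))]
  have hy1 : (yN N : ℝ) ≤ 2 * (N : ℝ) ^ (1 / 3 : ℝ) := by
    have h1 : (yN N : ℝ) < (N : ℝ) ^ (1 / 3 : ℝ) + 1 := Nat.ceil_lt_add_one (by positivity)
    have h2 : (1 : ℝ) ≤ (N : ℝ) ^ (1 / 3 : ℝ) :=
      Real.one_le_rpow (by exact_mod_cast (by omega : 1 ≤ N)) (by norm_num)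
    linarith
  refine ⟨⟨hz, ?_⟩, ?_, hy1, hN⟩
  · have h1 : (N : ℝ) ^ (2 / 5 : ℝ) = (N : ℝ) ^ (1 / 15 : ℝ) * (N : ℝ) ^ (1 / 3 : ℝ) := by
      rw [← Real.rpow_add hN0]
      norm_num
    rw [h1]
    refine hy1.trans ?_
    exact mul_le_mul_of_nonneg_right e2 (by positivity)
  · have : (2 : ℝ) ≤ zN N := e3.trans hz
    exact_mod_cast this

/-- keep this signature -/
theorem thm_SB (A0 : ℝ) (hA0 : 0 < A0) (h0 : St_LinU A0) (h1 : St_PBVW) (h2 : St_Gen) (h3 : St_VLow) (h4 : St_Dens) (h5 : St_BMass) (h6 : St_VR) : St_SB A0 := by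
  intro η hη ε hε
  obtain ⟨t, ht, ht1, hft⟩ := sb_choose A0 ε hε
  obtain ⟨δ₀, C, hδ₀, hL⟩ := h0 (t / 24) (by positivity)
  obtain ⟨c₀, k, hc₀, hV⟩ := h3
  refine ⟨min δ₀ (1 / 16), by positivity, ?_⟩
  intro δ hδ hδ1 A₀
  have hδa : δ ≤ δ₀ := hδ1.trans (min_le_left _ _)
  have hδb : δ ≤ 1 / 16 := hδ1.trans (min_le_right _ _)
  filter_upwards [hL δ hδ hδa ⌈2 / δ⌉₊, h1 η hη (1 / 2 - t / 24) (by linarith) (by linarith)
    (k + 2) (3 * C), h5 η hη t ht, h6 ⌈2 / δ⌉₊ δ t hδ (by linarith) ht, sb_num,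
    sb_log_pow A₀ δ hδ, sb_log_large (12 * Real.log 2 / t),
    sb_log_large (C / (ε * c₀ / 4)), sb_log_large 1] with N g1 g2 g3 g4 g5 g6 g7 g8 g9
  intro m n' hS
  obtain ⟨s1, s2, s3, s4, s5, s6⟩ := hS
  obtain ⟨hPar, hz2, hy1, hN16⟩ := g5
  have hN0 : (0 : ℝ) < N := by exact_mod_cast (by omega : 0 < N)
  have hN1 : (1 : ℝ) < N := by exact_mod_cast (by omega : 1 < N)
  have hlog : 0 < Real.log N := Real.log_pos hN1
  have hI := sb_int η hη
  -- the size of m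
  have hmδ : (m : ℝ) ≤ (N : ℝ) ^ δ := s2.trans g6
  have hmw : m ≤ ⌊(N : ℝ) ^ δ⌋₊ := Nat.le_floor hmδ
  have hm2 : 2 * m ≤ N := by
    have h7 : (N : ℝ) ^ δ ≤ (N : ℝ) ^ (1 / 2 : ℝ) :=
      Real.rpow_le_rpow_of_exponent_le hN1.le (by linarith)
    have h8 : (N : ℝ) ^ (1 / 2 : ℝ) * (N : ℝ) ^ (1 / 2 : ℝ) = N := by
      rw [← Real.rpow_add hN0]
      norm_num
    have h9 : (2 : ℝ) ≤ (N : ℝ) ^ (1 / 2 : ℝ) := by
      have h16 : (16 : ℝ) ≤ N := by exact_mod_cast hN16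
      by_contra hc
      push Not at hc
      have : 0 ≤ (N : ℝ) ^ (1 / 2 : ℝ) := by positivity
      nlinarith
    have h10 : (2 : ℝ) * m ≤ N := by nlinarith
    exact_mod_cast h10
  have hn0 : 0 < n' := by
    have : 0 < m * N := Nat.mul_pos (by omega) (by omega)
    omega
  have hn2 : n' ≤ N ^ 2 := by
    have h7 : m * (N + 1) ≤ 2 * m * N := by nlinarith
    have h8 : 2 * m * N ≤ N * N := Nat.mul_le_mul_right N hm2
    have h9 : N ^ 2 = N * N := sq N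
    omega
  have hDns := sb_Dns h4 N m n' δ hδ (by omega) s1 s3 s4 hn0 hn2 hmw
  obtain ⟨d1, -, -⟩ := h4 (wN δ N) m n' s1 s3 s4
  -- the linear sieve
  have hD1 : (yN N : ℝ) ≤ (N : ℝ) ^ (1 / 2 - t / 12 : ℝ) := by
    refine hPar.2.trans ?_
    exact Real.rpow_le_rpow_of_exponent_le hN1.le (by linarith)
  have hy3 : (N : ℝ) ^ (1 / 3 : ℝ) ≤ yN N := Nat.le_ceil _
  have hD2 : (N : ℝ) ^ (1 / 2 - t / 12 : ℝ) ≤ (N : ℝ) := by
    calc (N : ℝ) ^ (1 / 2 - t / 12 : ℝ) ≤ (N : ℝ) ^ (1 : ℝ) :=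
          Real.rpow_le_rpow_of_exponent_le hN1.le (by linarith)
      _ = N := Real.rpow_one _
  have hD3 : (N : ℝ) ^ (1 / 2 - t / 12 : ℝ) ≤ (yN N : ℝ) ^ 3 := by
    refine hD2.trans ?_
    calc (N : ℝ) = ((N : ℝ) ^ (1 / 3 : ℝ)) ^ 3 := by
          rw [← Real.rpow_natCast, ← Real.rpow_mul hN0.le]
          norm_num
      _ ≤ (yN N : ℝ) ^ 3 := pow_le_pow_left₀ (by positivity) hy3 3
  have hy10 : (N : ℝ) ^ (1 / 10 : ℝ) ≤ yN N := by
    refine le_trans ?_ hy3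
    exact Real.rpow_le_rpow_of_exponent_le hN1.le (by norm_num)
  obtain ⟨c, c1, c2, c3, c4⟩ := g1 (yN N) _ hy10 hD1 hD3 hD2 _ hDns
  obtain ⟨E, E1, E2, E3⟩ := g2 (zN N) (yN N) hPar
  have hDθ : (N : ℝ) ^ (1 / 2 - t / 12 : ℝ) * (N : ℝ) ^ (t / 24 : ℝ) ≤
      (N : ℝ) ^ (1 / 2 - t / 24 : ℝ) := by
    rw [← Real.rpow_add hN0]
    apply le_of_eq
    congr 1
    ring
  have key := sb_sieve h2 N (zN N) (yN N) ⌊(N : ℝ) ^ (1 / 2 - t / 24 : ℝ)⌋₊ C (3 * C)
    ((N : ℝ) ^ (1 / 2 - t / 12 : ℝ) * (N : ℝ) ^ (t / 24 : ℝ)) (1 / 2 - t / 24)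
    (VV (gB (wN δ N) m n') (yN N))
    (A0 * Real.log (yN N) / Real.log ((N : ℝ) ^ (1 / 2 - t / 12 : ℝ)) + t / 24)
    (N / Real.log N ^ (k + 2)) η hη (wN δ N) m n' c E (by omega) (by linarith)
    (fun l hl => (d1 l hl).2.1) rfl hDθ rfl c1 c2 c3 c4 E1 E2 E3
  refine key.trans ?_
  -- numerical estimates
  have hVz : 0 < VV (gB (wN δ N) m n') (zN N) :=
    sb_VV_pos _ _ (fun l hl => (d1 l hl).2.2.2.2.2.2.1)
  have hVy : 0 < VV (gB (wN δ N) m n') (yN N) :=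
    sb_VV_pos _ _ (fun l hl => (d1 l hl).2.2.2.2.2.2.1)
  have hyz := g4 _ hDns
  have hF : A0 * Real.log (yN N) / Real.log ((N : ℝ) ^ (1 / 2 - t / 12 : ℝ)) + t / 24 ≤
      A0 * (2 / 3 + t) + t := by
    have a1 : A0 * Real.log (yN N) / Real.log ((N : ℝ) ^ (1 / 2 - t / 12 : ℝ)) ≤
        A0 * (2 / 3 + t) := by
      rw [Real.log_rpow hN0]
      have hpos : 0 < (1 / 2 - t / 12) * Real.log N := mul_pos (by linarith) hlog
      rw [div_le_iff₀ hpos]
      have a2 : Real.log (yN N) ≤ Real.log 2 + (1 / 3) * Real.log N := by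
        have hyp : (0 : ℝ) < yN N := lt_of_lt_of_le (by positivity) hy3
        calc Real.log (yN N) ≤ Real.log (2 * (N : ℝ) ^ (1 / 3 : ℝ)) := Real.log_le_log hyp hy1
          _ = Real.log 2 + (1 / 3) * Real.log N := by
            rw [Real.log_mul (by norm_num) (by positivity), Real.log_rpow hN0]
      have a3 : 12 * Real.log 2 ≤ t * Real.log N := by
        rw [div_le_iff₀ ht] at g7
        linarith
      have a4 : Real.log (yN N) ≤ (2 / 3 + t) * ((1 / 2 - t / 12) * Real.log N) := by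
        nlinarith [mul_nonneg (mul_nonneg ht.le (by linarith : (0 : ℝ) ≤ 1 - t)) hlog.le,
          mul_pos ht hlog]
      calc A0 * Real.log (yN N) ≤ A0 * ((2 / 3 + t) * ((1 / 2 - t / 12) * Real.log N)) :=
            mul_le_mul_of_nonneg_left a4 hA0.le
        _ = A0 * (2 / 3 + t) * ((1 / 2 - t / 12) * Real.log N) := by ring
    linarith
  have hB0 : 0 ≤ B0 η N (zN N) (yN N) := by
    apply Finset.sum_nonneg
    intro q _
    refine mul_nonneg ?_ (hη.nonneg _)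
    unfold bt
    split_ifs <;> norm_num
  have hF' : 0 ≤ A0 * (2 / 3 + t) + t := by positivity
  set I := ∫ t in (0 : ℝ)..1, η t with hIdef
  have m1 : B0 η N (zN N) (yN N) * (VV (gB (wN δ N) m n') (yN N) *
      (A0 * Real.log (yN N) / Real.log ((N : ℝ) ^ (1 / 2 - t / 12 : ℝ)) + t / 24)) ≤
      (A0 * (cB / 4) + ε / 2) * (I * N * VV (gB (wN δ N) m n') (zN N)) / Real.log N := by
    have b1 : B0 η N (zN N) (yN N) * (VV (gB (wN δ N) m n') (yN N) *
        (A0 * Real.log (yN N) / Real.log ((N : ℝ) ^ (1 / 2 - t / 12 : ℝ)) + t / 24)) ≤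
        B0 η N (zN N) (yN N) * (VV (gB (wN δ N) m n') (yN N) * (A0 * (2 / 3 + t) + t)) :=
      mul_le_mul_of_nonneg_left (mul_le_mul_of_nonneg_left hF hVy.le) hB0
    have b2 : B0 η N (zN N) (yN N) * (VV (gB (wN δ N) m n') (yN N) * (A0 * (2 / 3 + t) + t)) ≤
        ((cB + t) * I * N / Real.log N) *
          (VV (gB (wN δ N) m n') (yN N) * (A0 * (2 / 3 + t) + t)) :=
      mul_le_mul_of_nonneg_right g3 (mul_nonneg hVy.le hF')
    have hX : 0 ≤ (cB + t) * I * N / Real.log N := hB0.trans g3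
    have b3 : ((cB + t) * I * N / Real.log N) *
        (VV (gB (wN δ N) m n') (yN N) * (A0 * (2 / 3 + t) + t)) ≤
        ((cB + t) * I * N / Real.log N) *
          (((3 / 8 + t) * VV (gB (wN δ N) m n') (zN N)) * (A0 * (2 / 3 + t) + t)) :=
      mul_le_mul_of_nonneg_left (mul_le_mul_of_nonneg_right hyz hF') hX
    have b4 : ((cB + t) * I * N / Real.log N) *
          (((3 / 8 + t) * VV (gB (wN δ N) m n') (zN N)) * (A0 * (2 / 3 + t) + t)) =
        ((cB + t) * (3 / 8 + t) * (A0 * (2 / 3 + t) + t)) *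
          ((I * N * VV (gB (wN δ N) m n') (zN N)) / Real.log N) := by ring
    have b5 : ((cB + t) * (3 / 8 + t) * (A0 * (2 / 3 + t) + t)) *
          ((I * N * VV (gB (wN δ N) m n') (zN N)) / Real.log N) ≤
        (A0 * (cB / 4) + ε / 2) * ((I * N * VV (gB (wN δ N) m n') (zN N)) / Real.log N) := by
      apply mul_le_mul_of_nonneg_right hft
      have : 0 ≤ I := by linarith
      positivity
    calc _ ≤ _ := b1
      _ ≤ _ := b2
      _ ≤ _ := b3
      _ = _ := b4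
      _ ≤ _ := b5
      _ = _ := by ring
  have m2 : (C : ℝ) * (N / Real.log N ^ (k + 2)) ≤
      (ε / 2) * (I * N * VV (gB (wN δ N) m n') (zN N)) / Real.log N := by
    have v1 : c₀ / Real.log N ^ k ≤ VV (gB (wN δ N) m n') (zN N) := by
      refine le_trans ?_ (hV (zN N) (gB (wN δ N) m n') hz2
        (fun l hl => ⟨(d1 l hl).2.2.2.2.2.1, (d1 l hl).2.2.2.2.2.2.1, (d1 l hl).2.2.2.2.2.2.2⟩))
      have hzp : (1 : ℝ) < zN N := by exact_mod_cast (by omega : 1 < zN N)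
      have hzl : 0 < Real.log (zN N) := Real.log_pos hzp
      apply div_le_div_of_nonneg_left hc₀.le (by positivity)
      apply pow_le_pow_left₀ hzl.le
      apply Real.log_le_log (by linarith)
      have : (zN N : ℝ) ≤ (N : ℝ) ^ (1 / 8 : ℝ) := Nat.floor_le (by positivity)
      refine this.trans ?_
      calc (N : ℝ) ^ (1 / 8 : ℝ) ≤ (N : ℝ) ^ (1 : ℝ) :=
            Real.rpow_le_rpow_of_exponent_le hN1.le (by norm_num)
        _ = N := Real.rpow_one _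
    have v2 : (ε * c₀ / 4) * N / (Real.log N ^ k * Real.log N) ≤
        (ε / 2) * (I * N * VV (gB (wN δ N) m n') (zN N)) / Real.log N := by
      have v3 : (ε / 2) * ((1 / 2) * N * (c₀ / Real.log N ^ k)) / Real.log N ≤
          (ε / 2) * (I * N * VV (gB (wN δ N) m n') (zN N)) / Real.log N := by
        apply div_le_div_of_nonneg_right _ hlog.le
        apply mul_le_mul_of_nonneg_left _ (by positivity)
        apply mul_le_mul _ v1 (by positivity) (by positivity)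
        exact mul_le_mul_of_nonneg_right hI hN0.le
      refine le_trans (le_of_eq ?_) v3
      field_simp
      ring
    refine le_trans ?_ v2
    have v4 : (C : ℝ) ≤ (ε * c₀ / 4) * Real.log N := by
      rw [div_le_iff₀ (by positivity)] at g8
      linarith
    rw [pow_add, mul_div_assoc', div_le_div_iff₀ (by positivity) (by positivity)]
    have hL2 : 0 < Real.log (N : ℝ) ^ k := by positivity
    nlinarith [mul_le_mul_of_nonneg_right v4 (by positivity :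
      (0 : ℝ) ≤ N * (Real.log (N : ℝ) ^ k * Real.log N))]
  unfold UU
  rw [← hIdef]
  have e : (A0 * (cB / 4) + ε) * (I * N * VV (gB (wN δ N) m n') (zN N)) / Real.log N =
      (A0 * (cB / 4) + ε / 2) * (I * N * VV (gB (wN δ N) m n') (zN N)) / Real.log N +
      (ε / 2) * (I * N * VV (gB (wN δ N) m n') (zN N)) / Real.log N := by ring
  rw [e]
  exact add_le_add m1 m2

end Pool.Agent.CH
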