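import Mathlib
import Pool.Agent.CH.Stmts

set_option autoImplicit false

/-!
# CH / SP

The upper bound for the sum over the primes `p` in `(zN, yN]` of the sifted sums over the `q`
divisible by `p`.
-/

namespace Pool.Agent.CH

open Finset Filter Pool.Agent.MT

/-- Euler's function of `m` times a product of distinct primes -/
theorem SP_totient (m : ℕ) (T : Finset ℕ) (hT : ∀ l ∈ T, l.Prime) :
    (m * ∏ l ∈ T, l).totient = m.totient * ∏ l ∈ T, (if l ∣ m then l else l - 1) := by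
  classical
  induction T using Finset.induction_on with
  | empty => simp
  | insert l T hl ih =>
    have hlp := hT l (mem_insert_self l T)
    have ih' := ih (fun x hx => hT x (mem_insert_of_mem hx))
    rw [prod_insert hl, prod_insert hl, show m * (l * ∏ x ∈ T, x) = l * (m * ∏ x ∈ T, x) by ring]
    have hdiv : l ∣ m * ∏ x ∈ T, x ↔ l ∣ m := by
      constructor
      · intro h
        rcases (Nat.Prime.dvd_mul hlp).1 h with h1 | h1
        · exact h1
        · exfalso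
          obtain ⟨x, hx, hx2⟩ := (Prime.dvd_finsetProd_iff hlp.prime _).1 h1
          have := (Nat.prime_dvd_prime_iff_eq hlp (hT x (mem_insert_of_mem hx))).1 hx2
          rw [this] at hl
          exact hl hx
      · exact fun h => Dvd.dvd.mul_right h _
    by_cases h : l ∣ m
    · rw [Nat.totient_mul_of_prime_of_dvd hlp (hdiv.2 h), ih', if_pos h]
      ring
    · rw [Nat.totient_mul_of_prime_of_not_dvd hlp (fun h1 => h (hdiv.1 h1)), ih', if_neg h]
      ring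

/-- the density of a squarefree modulus -/
theorem SP_density (w m n' d : ℕ) (hd : Squarefree d) :
    1 / ((m * d).totient : ℝ) * ∏ l ∈ d.primeFactors, ((OmA w m n' l).card : ℝ) =
      1 / (m.totient : ℝ) * ∏ l ∈ d.primeFactors, gA w m n' l := by
  have h1 : (m * d).totient = m.totient * ∏ l ∈ d.primeFactors, (if l ∣ m then l else l - 1) := by
    conv_lhs => rw [← Nat.prod_primeFactors_of_squarefree hd]
    exact SP_totient m _ fun l hl => Nat.prime_of_mem_primeFactors hl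
  have h2 : ∏ l ∈ d.primeFactors, gA w m n' l =
      (∏ l ∈ d.primeFactors, ((OmA w m n' l).card : ℝ)) /
        ∏ l ∈ d.primeFactors, (if l ∣ m then (l : ℝ) else (l : ℝ) - 1) := by
    rw [← prod_div_distrib]
    refine prod_congr rfl fun l _ => ?_
    unfold gA
    split_ifs <;> rfl
  have h3 : ((∏ l ∈ d.primeFactors, (if l ∣ m then l else l - 1) : ℕ) : ℝ) =
      ∏ l ∈ d.primeFactors, (if l ∣ m then (l : ℝ) else (l : ℝ) - 1) := by
    rw [Nat.cast_prod]
    refine prod_congr rfl fun l hl => ?_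
    have hlp := Nat.prime_of_mem_primeFactors hl
    split_ifs
    · rfl
    · rw [Nat.cast_sub hlp.one_le, Nat.cast_one]
  rw [h1, Nat.cast_mul, h3, h2]
  ring

/-- the Chinese remainder theorem for a prime and a coprime modulus -/
theorem SP_crt {p d a : ℕ} (hp : p.Prime) (hpd : p.Coprime d) (had : a < d) :
    ∃ c : ℕ, c < p * d ∧ c % d = a ∧ p ∣ c ∧
      ∀ q : ℕ, (q % d = a ∧ p ∣ q) ↔ q % (p * d) = c % (p * d) := by
  have hd0 : 0 < d := by omega
  obtain ⟨c, hc1, hc2⟩ := Nat.chineseRemainder hpd 0 a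
  have hp0 : 0 < p * d := Nat.mul_pos hp.pos hd0
  refine ⟨c % (p * d), Nat.mod_lt _ hp0, ?_, ?_, ?_⟩
  · rw [Nat.mod_mul_left_mod]
    exact Eq.trans hc2 (Nat.mod_eq_of_lt had)
  · rw [Nat.dvd_mod_iff (Dvd.intro d rfl)]
    exact (Nat.modEq_zero_iff_dvd).1 hc1
  · intro q
    rw [Nat.mod_mod]
    constructor
    · rintro ⟨h1, h2⟩
      have h3 : q ≡ c [MOD p] := ((Nat.modEq_zero_iff_dvd).2 h2).trans hc1.symm
      have h4 : q ≡ c [MOD d] := by
        have h5 : q ≡ a [MOD d] := by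
          unfold Nat.ModEq
          rw [h1, Nat.mod_eq_of_lt had]
        exact h5.trans hc2.symm
      exact (Nat.modEq_and_modEq_iff_modEq_mul hpd).1 ⟨h3, h4⟩
    · intro h
      have h1 : q ≡ c [MOD p * d] := h
      obtain ⟨h2, h3⟩ := (Nat.modEq_and_modEq_iff_modEq_mul hpd).2 h1
      refine ⟨?_, (Nat.modEq_zero_iff_dvd).1 (h2.trans hc1)⟩
      exact Eq.trans (Nat.ModEq.trans h3 hc2) (Nat.mod_eq_of_lt had)

theorem SP_lam_nonneg (n : ℕ) : 0 ≤ lam n := ArithmeticFunction.vonMangoldt_nonneg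

theorem SP_lam_le (n : ℕ) : lam n ≤ Real.log n := ArithmeticFunction.vonMangoldt_le_log

/-- the contribution of a prime factor of `n'` -/
theorem SP_bad {η : ℝ → ℝ} (hη : IsWt η) {N m n' p : ℕ} (hm : 1 ≤ m) (hp : p.Prime)
    (hpn : p ∣ n') (hmN : m * N ≤ n') (Q : ℕ → Prop) [DecidablePred Q] :
    ∑ q ∈ (range (N + 1)).filter (fun q => Q q ∧ p ∣ q), lam (n' - m * q) * η ((q : ℝ) / N) ≤
      2 * Real.log n' ^ 2 := by
  classical
  rcases Nat.eq_zero_or_pos n' with rfl | hn0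
  · have h1 : ∀ q ∈ (range (N + 1)).filter (fun q => Q q ∧ p ∣ q),
        lam (0 - m * q) * η ((q : ℝ) / N) = 0 := by
      intro q _
      have : lam (0 - m * q) = 0 := by
        rw [Nat.zero_sub]
        exact ArithmeticFunction.map_zero
      rw [this, zero_mul]
    rw [sum_eq_zero h1]
    positivity
  have hlog : 0 ≤ Real.log n' := Real.log_nonneg (by exact_mod_cast hn0)
  set S := (range (N + 1)).filter (fun q => (Q q ∧ p ∣ q) ∧ lam (n' - m * q) ≠ 0) with hS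
  have hle : ∀ q, q ∈ range (N + 1) → m * q ≤ n' := fun q hq =>
    (Nat.mul_le_mul_left m (Nat.lt_succ_iff.1 (mem_range.1 hq))).trans hmN
  have h1 : ∑ q ∈ (range (N + 1)).filter (fun q => Q q ∧ p ∣ q),
      lam (n' - m * q) * η ((q : ℝ) / N) ≤ ∑ q ∈ S, Real.log n' := by
    have h2 : ∑ q ∈ (range (N + 1)).filter (fun q => Q q ∧ p ∣ q),
        lam (n' - m * q) * η ((q : ℝ) / N) = ∑ q ∈ S, lam (n' - m * q) * η ((q : ℝ) / N) := by
      symm
      apply sum_subset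
      · intro q hq
        rw [hS, mem_filter] at hq
        exact mem_filter.2 ⟨hq.1, hq.2.1⟩
      · intro q hq hq2
        rw [mem_filter] at hq
        have : lam (n' - m * q) = 0 := by
          by_contra h
          exact hq2 (mem_filter.2 ⟨hq.1, hq.2, h⟩)
        rw [this, zero_mul]
    rw [h2]
    refine sum_le_sum fun q hq => ?_
    rw [hS, mem_filter] at hq
    have h3 : lam (n' - m * q) ≤ Real.log n' := by
      refine (SP_lam_le _).trans ?_
      rcases Nat.eq_zero_or_pos (n' - m * q) with h4 | h4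
      · rw [h4, Nat.cast_zero, Real.log_zero]
        exact hlog
      · exact Real.log_le_log (by exact_mod_cast h4) (by exact_mod_cast Nat.sub_le _ _)
    calc lam (n' - m * q) * η ((q : ℝ) / N) ≤ lam (n' - m * q) * 1 :=
          mul_le_mul_of_nonneg_left (hη.le_one _) (SP_lam_nonneg _)
      _ ≤ Real.log n' := by rw [mul_one]; exact h3
  have hcard : S.card ≤ Nat.log 2 n' := by
    have h2 : S.card ≤ ((Icc 1 (Nat.log 2 n')).image (fun k => p ^ k)).card := by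
      refine card_le_card_of_injOn (fun q => n' - m * q) ?_ ?_
      · intro q hq
        have hq' := hq
        rw [hS, mem_coe, mem_filter] at hq'
        obtain ⟨h3, ⟨-, h4⟩, h5⟩ := hq'
        have h6 : IsPrimePow (n' - m * q) := by
          by_contra h
          exact h5 (ArithmeticFunction.vonMangoldt_eq_zero_iff.2 h)
        obtain ⟨r, k, hr, hk, hrk⟩ := (isPrimePow_nat_iff _).1 h6
        have h7 : p ∣ n' - m * q := Nat.dvd_sub hpn (Dvd.dvd.mul_left h4 m)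
        rw [← hrk] at h7
        have h8 : p = r := (Nat.prime_dvd_prime_iff_eq hp hr).1 (hp.dvd_of_dvd_pow h7)
        rw [mem_coe, mem_image]
        refine ⟨k, mem_Icc.2 ⟨hk, ?_⟩, ?_⟩
        · refine Nat.le_log_of_pow_le one_lt_two ?_
          calc 2 ^ k ≤ r ^ k := Nat.pow_le_pow_left hr.two_le k
            _ = n' - m * q := hrk
            _ ≤ n' := Nat.sub_le _ _
        · rw [h8, hrk]
      · intro q hq q' hq' h
        rw [hS, mem_coe, mem_filter] at hq hq'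
        have h3 := hle q hq.1
        have h4 := hle q' hq'.1
        have h5 : n' - m * q = n' - m * q' := h
        have h6 : m * q = m * q' := by omega
        exact Nat.eq_of_mul_eq_mul_left (by omega) h6
    refine h2.trans (card_image_le.trans ?_)
    rw [Nat.card_Icc]
    omega
  have hlog2 : (Nat.log 2 n' : ℝ) ≤ 2 * Real.log n' := by
    have h3 : (2 : ℝ) ^ Nat.log 2 n' ≤ n' := by
      exact_mod_cast Nat.pow_log_le_self 2 hn0.ne'
    have h4 := Real.log_le_log (by positivity) h3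
    rw [Real.log_pow] at h4
    have h5 : (1 : ℝ) / 2 < Real.log 2 := by
      have := Real.log_two_gt_d9
      linarith
    nlinarith [Nat.cast_nonneg (α := ℝ) (Nat.log 2 n')]
  refine h1.trans ?_
  rw [sum_const, nsmul_eq_mul]
  have h3 : (S.card : ℝ) ≤ 2 * Real.log n' := le_trans (by exact_mod_cast hcard) hlog2
  calc (S.card : ℝ) * Real.log n' ≤ 2 * Real.log n' * Real.log n' :=
        mul_le_mul_of_nonneg_right h3 hlog
    _ = 2 * Real.log n' ^ 2 := by ring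

theorem SP_psi0_nonneg {η : ℝ → ℝ} (hη : IsWt η) (N : ℕ) : 0 ≤ psi0 (etaR η) N :=
  sum_nonneg fun _ _ => mul_nonneg ArithmeticFunction.vonMangoldt_nonneg (hη.nonneg _)

/-- the sieve bound for one prime `p` not dividing `n'` -/
theorem SP_one (h2 : St_Gen) {η : ℝ → ℝ} (hη : IsWt η) {w z N m n' p : ℕ} {θ : ℝ} (hN : 1 ≤ N)
    (hθ : θ ≤ 1) (hp : p.Prime) (hzp : z < p) (hpm : ¬ p ∣ m) (hpn : ¬ p ∣ n')
    (hmN : m * N ≤ n')
    (hcard : ∀ l : ℕ, l.Prime → (OmA w m n' l).card ≤ 3)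
    (E : ℕ → ℝ) (hE0 : ∀ d, 0 ≤ E d)
    (hE : ∀ d c : ℕ, 1 ≤ d → (d : ℝ) ≤ (N : ℝ) ^ θ → c < d → (n' - m * c).Coprime d →
      |AAP η N m n' d c - psi0 (etaR η) (m * N) / ((m * d).totient : ℝ)| ≤ E d)
    (c : ℕ → ℝ)
    (hc1 : ∀ d, c d ≠ 0 → Squarefree d ∧ (∀ l ∈ d.primeFactors, l ≤ z) ∧
      ((p * d : ℕ) : ℝ) ≤ (N : ℝ) ^ θ)
    (hc4 : ∀ S : Finset ℕ, S ⊆ pr z → (if S = ∅ then (1 : ℝ) else 0) ≤
      ∑ T ∈ S.powerset, c (∏ l ∈ T, l))
    {V : ℝ} (hc3 : ∑ d ∈ Icc 1 (N ^ 2), c d * ∏ l ∈ d.primeFactors, gA w m n' l ≤ V) :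
    ∑ q ∈ (range (N + 1)).filter (fun q => (∀ l ∈ pr z, q % l ∉ OmA w m n' l) ∧ p ∣ q),
      lam (n' - m * q) * η ((q : ℝ) / N) ≤
      psi0 (etaR η) (m * N) / ((m.totient : ℝ) * ((p : ℝ) - 1)) * V +
        ∑ d ∈ Icc 1 (N ^ 2), |c d| * ((3 : ℝ) ^ d.primeFactors.card * E (p * d)) := by
  classical
  have hN1 : (1 : ℝ) ≤ N := by exact_mod_cast hN
  have hNθ : (N : ℝ) ^ θ ≤ N := by
    calc (N : ℝ) ^ θ ≤ (N : ℝ) ^ (1 : ℝ) := Real.rpow_le_rpow_of_exponent_le hN1 hθ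
      _ = N := Real.rpow_one _
  have hpd : ∀ d, c d ≠ 0 → p * d ≤ N ∧ 1 ≤ d ∧ p.Coprime d := by
    intro d hd
    obtain ⟨h3, h4, h5⟩ := hc1 d hd
    refine ⟨by exact_mod_cast h5.trans hNθ, Nat.pos_of_ne_zero h3.ne_zero, ?_⟩
    rw [Nat.Prime.coprime_iff_not_dvd hp]
    intro h6
    have := h4 p (Nat.mem_primeFactors.2 ⟨hp, h6, h3.ne_zero⟩)
    omega
  set ϖ : ℕ → ℝ := fun q => if p ∣ q then lam (n' - m * q) * η ((q : ℝ) / N) else 0 with hϖ
  have hterm : ∀ q : ℕ, 0 ≤ lam (n' - m * q) * η ((q : ℝ) / N) := fun q =>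
    mul_nonneg (SP_lam_nonneg _) (hη.nonneg _)
  have hstep1 : ∑ q ∈ (range (N + 1)).filter
      (fun q => (∀ l ∈ pr z, q % l ∉ OmA w m n' l) ∧ p ∣ q),
      lam (n' - m * q) * η ((q : ℝ) / N) ≤ ∑ q ∈ range (N + 1), ϖ q *
        ∑ T ∈ ((pr z).filter (fun l => q % l ∈ OmA w m n' l)).powerset, c (∏ l ∈ T, l) := by
    rw [sum_filter]
    refine sum_le_sum fun q _ => ?_
    have hS := hc4 ((pr z).filter (fun l => q % l ∈ OmA w m n' l)) (filter_subset _ _)
    simp only [hϖ]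
    by_cases hpq : p ∣ q
    · rw [if_pos hpq]
      by_cases h3 : ∀ l ∈ pr z, q % l ∉ OmA w m n' l
      · rw [if_pos ⟨h3, hpq⟩]
        rw [if_pos (filter_eq_empty_iff.2 h3)] at hS
        exact le_mul_of_one_le_right (hterm q) hS
      · rw [if_neg (fun h => h3 h.1)]
        refine mul_nonneg (hterm q) (le_trans ?_ hS)
        split_ifs <;> norm_num
    · rw [if_neg hpq, zero_mul, if_neg (fun h => hpq h.2)]
  have hgen := h2 ϖ c (fun d => 1 / ((m * (p * d)).totient : ℝ)) (fun d => E (p * d))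
    (OmA w m n') (pr z) N (N ^ 2) 3 (psi0 (etaR η) (m * N))
    (fun l hl => (mem_filter.1 hl).2)
    (fun l hl => ⟨filter_subset _ _, hcard l (mem_filter.1 hl).2⟩)
    (by
      intro d hd
      obtain ⟨h3, h4, -⟩ := hc1 d hd
      obtain ⟨h6, h7, -⟩ := hpd d hd
      refine ⟨h3, ?_, ?_⟩
      · intro l hl
        exact mem_filter.2 ⟨mem_range.2 (Nat.lt_succ_of_le (h4 l hl)),
          Nat.prime_of_mem_primeFactors hl⟩
      · have h8 : d ≤ p * d := Nat.le_mul_of_pos_left d hp.pos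
        nlinarith)
    (fun d => hE0 _)
    (by
      intro d hd a had hal
      obtain ⟨h3, h4, h5⟩ := hc1 d hd
      obtain ⟨h6, h7, h8⟩ := hpd d hd
      obtain ⟨c', hc'1, hc'2, hc'3, hc'4⟩ := SP_crt hp h8 had
      have hsum : ∑ q ∈ (range (N + 1)).filter (fun q => q % d = a), ϖ q =
          AAP η N m n' (p * d) c' := by
        unfold AAP
        simp only [hϖ]
        rw [← sum_filter, filter_filter]
        refine sum_congr ?_ fun _ _ => rfl
        ext q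
        simp only [mem_filter]
        rw [hc'4 q]
      have hmc : m * c' ≤ n' :=
        (Nat.mul_le_mul_left m (le_trans hc'1.le h6)).trans hmN
      have hcop : (n' - m * c').Coprime (p * d) := by
        rw [Nat.coprime_mul_iff_right]
        constructor
        · rw [Nat.coprime_comm, Nat.Prime.coprime_iff_not_dvd hp]
          intro h
          apply hpn
          have h9 : p ∣ m * c' := Dvd.dvd.mul_left hc'3 m
          have h10 := Nat.dvd_add h h9
          rwa [Nat.sub_add_cancel hmc] at h10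
        · refine Nat.Coprime.symm (Nat.coprime_of_dvd fun l hl hld hl2 => ?_)
          have h9 := hal l (Nat.mem_primeFactors.2 ⟨hl, hld, h3.ne_zero⟩)
          have h10 := (mem_filter.1 h9).2.2
          apply h10
          have h11 : c' ≡ a % l [MOD l] := by
            have h12 : c' % d % l = a % l := by rw [hc'2]
            rw [Nat.mod_mod_of_dvd _ hld] at h12
            unfold Nat.ModEq
            rw [h12, Nat.mod_mod]
          have h12 : m * (a % l) ≡ m * c' [MOD l] := (h11.symm.mul_left m)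
          have h13 : n' ≡ m * c' [MOD l] := by
            have := (Nat.modEq_iff_dvd' hmc).2 hl2
            exact this.symm
          exact h12.trans h13.symm
      have hE' := hE (p * d) c' (Nat.mul_pos hp.pos h7) h5 hc'1 hcop
      rw [hsum]
      simp only [mul_one_div]
      exact hE')
  have hmain : ∑ d ∈ Icc 1 (N ^ 2), c d * (1 / ((m * (p * d)).totient : ℝ) *
      ∏ l ∈ d.primeFactors, ((OmA w m n' l).card : ℝ)) =
      1 / ((m.totient : ℝ) * ((p : ℝ) - 1)) *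
        ∑ d ∈ Icc 1 (N ^ 2), c d * ∏ l ∈ d.primeFactors, gA w m n' l := by
    rw [mul_sum]
    refine sum_congr rfl fun d _ => ?_
    by_cases hd : c d = 0
    · rw [hd, zero_mul, zero_mul, mul_zero]
    · obtain ⟨h3, h4, h5⟩ := hc1 d hd
      obtain ⟨h6, h7, h8⟩ := hpd d hd
      have h9 : (m * (p * d)).totient = (p - 1) * (m * d).totient := by
        rw [show m * (p * d) = p * (m * d) by ring]
        refine Nat.totient_mul_of_prime_of_not_dvd hp ?_
        intro h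
        rcases (Nat.Prime.dvd_mul hp).1 h with h10 | h10
        · exact hpm h10
        · exact (Nat.Prime.coprime_iff_not_dvd hp).1 h8 h10
      have h10 := SP_density w m n' d h3
      rw [h9, Nat.cast_mul, Nat.cast_sub hp.one_le, Nat.cast_one]
      have h11 : 1 / (((p : ℝ) - 1) * ((m * d).totient : ℝ)) *
          ∏ l ∈ d.primeFactors, ((OmA w m n' l).card : ℝ) = 1 / ((p : ℝ) - 1) *
          (1 / ((m * d).totient : ℝ) * ∏ l ∈ d.primeFactors, ((OmA w m n' l).card : ℝ)) := by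
        rw [← mul_assoc, one_div_mul_one_div]
      have h12 : 1 / ((m.totient : ℝ) * ((p : ℝ) - 1)) =
          1 / ((p : ℝ) - 1) * (1 / (m.totient : ℝ)) := by
        rw [one_div_mul_one_div, mul_comm]
      rw [h11, h10, h12]
      ring
  have hM := SP_psi0_nonneg hη (m * N)
  have hp1 : (0 : ℝ) < (p : ℝ) - 1 := by
    have : (2 : ℝ) ≤ p := by exact_mod_cast hp.two_le
    linarith
  have hcoef : 0 ≤ psi0 (etaR η) (m * N) / ((m.totient : ℝ) * ((p : ℝ) - 1)) :=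
    div_nonneg hM (mul_nonneg (Nat.cast_nonneg _) hp1.le)
  have h3 := (abs_le.1 hgen).2
  rw [hmain] at h3
  have h4 : psi0 (etaR η) (m * N) * (1 / ((m.totient : ℝ) * ((p : ℝ) - 1)) *
      ∑ d ∈ Icc 1 (N ^ 2), c d * ∏ l ∈ d.primeFactors, gA w m n' l) ≤
      psi0 (etaR η) (m * N) / ((m.totient : ℝ) * ((p : ℝ) - 1)) * V := by
    rw [← mul_assoc, mul_one_div]
    exact mul_le_mul_of_nonneg_left hc3 hcoef
  have h5 : ∑ d ∈ Icc 1 (N ^ 2), |c d| * (((3 : ℕ) : ℝ) ^ d.primeFactors.card * E (p * d)) =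
      ∑ d ∈ Icc 1 (N ^ 2), |c d| * ((3 : ℝ) ^ d.primeFactors.card * E (p * d)) := by
    norm_num
  rw [h5] at h3
  linarith

/-- the error terms of all the primes `p` -/
theorem SP_err {N z C : ℕ} {θ : ℝ} (hN : 1 ≤ N) (hθ : θ ≤ 1) (Q : Finset ℕ)
    (hQ : ∀ p ∈ Q, p.Prime ∧ z < p) (c : ℕ → ℕ → ℝ)
    (hc1 : ∀ p ∈ Q, ∀ d, c p d ≠ 0 → Squarefree d ∧ (∀ l ∈ d.primeFactors, l ≤ z) ∧
      ((p * d : ℕ) : ℝ) ≤ (N : ℝ) ^ θ)
    (hc2 : ∀ p ∈ Q, ∀ d, |c p d| ≤ C * (C : ℝ) ^ d.primeFactors.card)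
    (E : ℕ → ℝ) (hE0 : ∀ d, 0 ≤ E d) :
    ∑ p ∈ Q, ∑ d ∈ Icc 1 (N ^ 2), |c p d| * ((3 : ℝ) ^ d.primeFactors.card * E (p * d)) ≤
      C * ∑ q ∈ (Icc 1 N).filter (fun q : ℕ => (q : ℝ) ≤ (N : ℝ) ^ θ),
        ((6 * C + 6 : ℕ) : ℝ) ^ q.primeFactors.card * E q := by
  classical
  have hN1 : (1 : ℝ) ≤ N := by exact_mod_cast hN
  have hNθ : (N : ℝ) ^ θ ≤ N := by
    calc (N : ℝ) ^ θ ≤ (N : ℝ) ^ (1 : ℝ) := Real.rpow_le_rpow_of_exponent_le hN1 hθ
      _ = N := Real.rpow_one _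
  set R := (Icc 1 N).filter (fun q : ℕ => (q : ℝ) ≤ (N : ℝ) ^ θ) with hR
  set G : ℕ → ℝ := fun q => C * (((3 * C + 3 : ℕ) : ℝ) ^ q.primeFactors.card * E q) with hG
  have hG0 : ∀ q, 0 ≤ G q := fun q => by
    simp only [hG]
    have := hE0 q
    positivity
  have hone : ∀ p ∈ Q, ∑ d ∈ Icc 1 (N ^ 2),
      |c p d| * ((3 : ℝ) ^ d.primeFactors.card * E (p * d)) ≤
      ∑ q ∈ R, if p ∣ q then G q else 0 := by
    intro p hpQ
    obtain ⟨hp, hzp⟩ := hQ p hpQ
    have h1 : ∑ d ∈ Icc 1 (N ^ 2), |c p d| * ((3 : ℝ) ^ d.primeFactors.card * E (p * d)) =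
        ∑ d ∈ (Icc 1 (N ^ 2)).filter (fun d => c p d ≠ 0),
          |c p d| * ((3 : ℝ) ^ d.primeFactors.card * E (p * d)) := by
      symm
      refine sum_filter_of_ne fun d _ hd h0 => ?_
      rw [h0, abs_zero, zero_mul] at hd
      exact hd rfl
    have h2 : ∑ d ∈ (Icc 1 (N ^ 2)).filter (fun d => c p d ≠ 0),
          |c p d| * ((3 : ℝ) ^ d.primeFactors.card * E (p * d)) ≤
        ∑ d ∈ (Icc 1 (N ^ 2)).filter (fun d => c p d ≠ 0), G (p * d) := by
      refine sum_le_sum fun d hd => ?_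
      have hd0 := (mem_filter.1 hd).2
      obtain ⟨h3, h4, -⟩ := hc1 p hpQ d hd0
      have h5 : d.primeFactors.card ≤ (p * d).primeFactors.card :=
        card_le_card (Nat.primeFactors_mono (Dvd.intro_left p rfl)
          (Nat.mul_ne_zero hp.ne_zero h3.ne_zero))
      simp only [hG]
      have h6 : (C : ℝ) ^ d.primeFactors.card * (3 : ℝ) ^ d.primeFactors.card ≤
          ((3 * C + 3 : ℕ) : ℝ) ^ (p * d).primeFactors.card := by
        rw [← mul_pow]
        calc ((C : ℝ) * 3) ^ d.primeFactors.card ≤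
              ((3 * C + 3 : ℕ) : ℝ) ^ d.primeFactors.card := by
              refine pow_le_pow_left₀ (by positivity) ?_ _
              push_cast
              linarith
          _ ≤ _ := by
              refine pow_le_pow_right₀ ?_ h5
              push_cast
              have : (0 : ℝ) ≤ C := Nat.cast_nonneg C
              linarith
      calc |c p d| * ((3 : ℝ) ^ d.primeFactors.card * E (p * d)) ≤
            (C * (C : ℝ) ^ d.primeFactors.card) *
              ((3 : ℝ) ^ d.primeFactors.card * E (p * d)) :=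
            mul_le_mul_of_nonneg_right (hc2 p hpQ d)
              (mul_nonneg (by positivity) (hE0 _))
        _ = C * (((C : ℝ) ^ d.primeFactors.card * (3 : ℝ) ^ d.primeFactors.card) *
              E (p * d)) := by ring
        _ ≤ C * (((3 * C + 3 : ℕ) : ℝ) ^ (p * d).primeFactors.card * E (p * d)) := by
            refine mul_le_mul_of_nonneg_left ?_ (Nat.cast_nonneg _)
            exact mul_le_mul_of_nonneg_right h6 (hE0 _)
    have h3 : ∑ d ∈ (Icc 1 (N ^ 2)).filter (fun d => c p d ≠ 0), G (p * d) =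
        ∑ q ∈ ((Icc 1 (N ^ 2)).filter (fun d => c p d ≠ 0)).image (fun d => p * d), G q := by
      rw [sum_image]
      intro d _ d' _ h
      exact Nat.eq_of_mul_eq_mul_left hp.pos h
    rw [h1, ← sum_filter]
    refine h2.trans ?_
    rw [h3]
    refine sum_le_sum_of_subset_of_nonneg ?_ fun q _ _ => hG0 q
    intro q hq
    obtain ⟨d, hd, rfl⟩ := mem_image.1 hq
    obtain ⟨hd1, hd2⟩ := mem_filter.1 hd
    obtain ⟨h4, -, h5⟩ := hc1 p hpQ d hd2
    refine mem_filter.2 ⟨mem_filter.2 ⟨mem_Icc.2 ⟨Nat.mul_pos hp.pos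
      (Nat.pos_of_ne_zero h4.ne_zero), by exact_mod_cast h5.trans hNθ⟩, h5⟩,
      Dvd.intro d rfl⟩
  calc ∑ p ∈ Q, ∑ d ∈ Icc 1 (N ^ 2), |c p d| * ((3 : ℝ) ^ d.primeFactors.card * E (p * d)) ≤
        ∑ p ∈ Q, ∑ q ∈ R, (if p ∣ q then G q else 0) := sum_le_sum hone
    _ = ∑ q ∈ R, ∑ p ∈ Q, (if p ∣ q then G q else 0) := sum_comm
    _ ≤ ∑ q ∈ R, C * (((6 * C + 6 : ℕ) : ℝ) ^ q.primeFactors.card * E q) := by
        refine sum_le_sum fun q hq => ?_
        rw [← sum_filter, sum_const, nsmul_eq_mul]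
        have hq1 : 1 ≤ q := (mem_Icc.1 (mem_filter.1 hq).1).1
        have h1 : (Q.filter (fun p => p ∣ q)).card ≤ q.primeFactors.card := by
          refine card_le_card fun p hp => ?_
          obtain ⟨h2, h3⟩ := mem_filter.1 hp
          exact Nat.mem_primeFactors.2 ⟨(hQ p h2).1, h3, by omega⟩
        have h2 : ((Q.filter (fun p => p ∣ q)).card : ℝ) ≤ 2 ^ q.primeFactors.card := by
          have h3 : (Q.filter (fun p => p ∣ q)).card ≤ 2 ^ q.primeFactors.card :=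
            h1.trans Nat.lt_two_pow_self.le
          exact_mod_cast h3
        calc ((Q.filter (fun p => p ∣ q)).card : ℝ) * G q ≤ 2 ^ q.primeFactors.card * G q :=
              mul_le_mul_of_nonneg_right h2 (hG0 q)
          _ = C * (((2 : ℝ) ^ q.primeFactors.card *
                ((3 * C + 3 : ℕ) : ℝ) ^ q.primeFactors.card) * E q) := by
              simp only [hG]
              ring
          _ = C * (((6 * C + 6 : ℕ) : ℝ) ^ q.primeFactors.card * E q) := by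
              rw [← mul_pow]
              congr 3
              push_cast
              ring
    _ = _ := by rw [mul_sum]

theorem SP_etaR {η : ℝ → ℝ} (hη : IsWt η) : IsWt (etaR η) where
  smooth := hη.smooth.comp (contDiff_const.sub contDiff_id)
  nonneg := fun x => hη.nonneg _
  le_one := fun x => hη.le_one _
  supp := fun x hx => by
    have := hη.supp (1 - x) hx
    constructor <;> linarith [this.1, this.2]
  one := fun x h1 h2 => hη.one (1 - x) (by linarith) (by linarith)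

theorem SP_int_etaR (η : ℝ → ℝ) : ∫ t in (0 : ℝ)..1, etaR η t = ∫ t in (0 : ℝ)..1, η t := by
  have h := intervalIntegral.integral_comp_sub_left (a := (0 : ℝ)) (b := 1) η 1
  simp only [sub_self, sub_zero] at h
  exact h

theorem SP_int_ge {η : ℝ → ℝ} (hη : IsWt η) : 1 / 2 ≤ ∫ t in (0 : ℝ)..1, η t := by
  have hc : Continuous η := hη.smooth.continuous
  have h1 : ∫ t in (1 / 4 : ℝ)..(3 / 4), η t ≤ ∫ t in (0 : ℝ)..1, η t := by
    refine intervalIntegral.integral_mono_interval (by norm_num) (by norm_num) (by norm_num)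
      (Filter.Eventually.of_forall fun x => hη.nonneg x) (hc.intervalIntegrable _ _)
  have h2 : ∫ t in (1 / 4 : ℝ)..(3 / 4), η t = ∫ t in (1 / 4 : ℝ)..(3 / 4), (1 : ℝ) := by
    refine intervalIntegral.integral_congr fun x hx => ?_
    rw [Set.uIcc_of_le (by norm_num)] at hx
    exact hη.one x hx.1 hx.2
  rw [h2, intervalIntegral.integral_const] at h1
  norm_num at h1
  linarith

theorem SP_log (K : ℝ) (j : ℕ) {s : ℝ} (hs : 0 < s) :
    ∀ᶠ N : ℕ in atTop, K * Real.log N ^ j ≤ (N : ℝ) ^ s := by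
  have h1 := (isLittleO_log_rpow_rpow_atTop (j : ℝ) hs).comp_tendsto
    (tendsto_natCast_atTop_atTop (R := ℝ))
  have hK : 0 < 1 / (|K| + 1) := by positivity
  filter_upwards [h1.bound hK, eventually_ge_atTop 1] with N h2 hN
  have hl : 0 ≤ Real.log N := Real.log_nonneg (by exact_mod_cast hN)
  simp only [Function.comp] at h2
  rw [Real.rpow_natCast, Real.norm_of_nonneg (pow_nonneg hl j),
    Real.norm_of_nonneg (by positivity), div_mul_eq_mul_div, one_mul,
    le_div_iff₀ (by positivity)] at h2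
  have h3 : K * Real.log N ^ j ≤ (|K| + 1) * Real.log N ^ j :=
    mul_le_mul_of_nonneg_right (by linarith [le_abs_self K]) (pow_nonneg hl j)
  linarith

theorem SP_logdiv (K : ℝ) : ∀ᶠ N : ℕ in atTop, K ≤ Real.log N :=
  (Real.tendsto_log_atTop.comp (tendsto_natCast_atTop_atTop (R := ℝ))).eventually_ge_atTop K

/-- sizes of the parameters for large `N` -/
theorem SP_sizes {τ δ : ℝ} (hτ : 0 < τ) (hτ' : τ ≤ 1 / 100) (hδ : 0 < δ) (hδ' : δ ≤ 1 / 8)
    (A₀ : ℕ) : ∀ᶠ N : ℕ in atTop, 3 ≤ N ∧ (N : ℝ) ^ (1 / 10 : ℝ) ≤ zN N ∧ 2 ≤ zN N ∧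
      (zN N : ℝ) ≤ (N : ℝ) ^ (1 / 8 : ℝ) ∧
      (N : ℝ) ^ (1 / 8 : ℝ) * yN N ≤ (N : ℝ) ^ (1 / 2 - τ) ∧
      (N : ℝ) ^ (3 / 8 - τ) ≤ (zN N : ℝ) ^ 3 ∧ Real.log N ^ A₀ < wN δ N ∧ wN δ N ≤ zN N ∧
      Real.log N ^ A₀ * (N + 1) ≤ (N : ℝ) ^ 2 ∧ (yN N : ℝ) + 1 ≤ 3 * (N : ℝ) ^ (1 / 3 : ℝ) := by
  filter_upwards [eventually_ge_atTop 3, SP_log 2 0 (s := 1 / 40) (by norm_num),
    SP_log 2 0 (s := 1 / 24 - τ) (by linarith), SP_log 2 0 (s := τ / 3) (by linarith),
    SP_log 2 A₀ hδ, SP_log 2 A₀ (s := 1 / 2) (by norm_num), SP_log 3 0 (s := 1 / 8) (by norm_num),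
    SP_logdiv 1, SP_log 2 0 (s := 1 / 2) (by norm_num)]
    with N h3 a1 a2 a3 a4 a5 a6 a7 a8
  rw [pow_zero, mul_one] at a1 a2 a3 a6 a8
  have hN1 : (1 : ℝ) ≤ N := by exact_mod_cast (by omega : 1 ≤ N)
  have hN0 : (0 : ℝ) < N := by linarith
  have hpow : ∀ a b : ℝ, (N : ℝ) ^ a * (N : ℝ) ^ b = (N : ℝ) ^ (a + b) := fun a b =>
    (Real.rpow_add hN0 a b).symm
  have hge1 : ∀ a : ℝ, 0 ≤ a → 1 ≤ (N : ℝ) ^ a := fun a ha => Real.one_le_rpow hN1 ha
  have hz1 : (N : ℝ) ^ (1 / 8 : ℝ) - 1 ≤ zN N := (Nat.sub_one_lt_floor _).le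
  have hz2 : (zN N : ℝ) ≤ (N : ℝ) ^ (1 / 8 : ℝ) := Nat.floor_le (by positivity)
  have hy1 : (yN N : ℝ) ≤ (N : ℝ) ^ (1 / 3 : ℝ) + 1 := (Nat.ceil_lt_add_one (by positivity)).le
  have b1 : (N : ℝ) ^ (1 / 10 : ℝ) ≤ zN N := by
    have e1 := hpow (1 / 10) (1 / 40)
    rw [show (1 / 10 + 1 / 40 : ℝ) = 1 / 8 by norm_num] at e1
    have e2 := hge1 (1 / 10) (by norm_num)
    have e3 : (N : ℝ) ^ (1 / 10 : ℝ) * 2 ≤ (N : ℝ) ^ (1 / 10 : ℝ) * (N : ℝ) ^ (1 / 40 : ℝ) :=
      mul_le_mul_of_nonneg_left a1 (by linarith)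
    linarith
  have b3 : (N : ℝ) ^ (1 / 8 - τ / 3) ≤ zN N := by
    have e1 := hpow (1 / 8 - τ / 3) (τ / 3)
    rw [show (1 / 8 - τ / 3 + τ / 3 : ℝ) = 1 / 8 by ring] at e1
    have e2 := hge1 (1 / 8 - τ / 3) (by linarith)
    have e3 : (N : ℝ) ^ (1 / 8 - τ / 3) * 2 ≤ (N : ℝ) ^ (1 / 8 - τ / 3) * (N : ℝ) ^ (τ / 3) :=
      mul_le_mul_of_nonneg_left a3 (by linarith)
    linarith
  refine ⟨h3, b1, ?_, hz2, ?_, ?_, ?_, ?_, ?_, ?_⟩
  · have : (2 : ℝ) ≤ zN N := by linarith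
    exact_mod_cast this
  · have e2 := hge1 (1 / 3) (by norm_num)
    have e1 : (yN N : ℝ) ≤ 2 * (N : ℝ) ^ (1 / 3 : ℝ) := by linarith
    calc (N : ℝ) ^ (1 / 8 : ℝ) * yN N ≤ (N : ℝ) ^ (1 / 8 : ℝ) * (2 * (N : ℝ) ^ (1 / 3 : ℝ)) :=
          mul_le_mul_of_nonneg_left e1 (by positivity)
      _ = (N : ℝ) ^ (1 / 8 : ℝ) * (N : ℝ) ^ (1 / 3 : ℝ) * 2 := by ring
      _ ≤ (N : ℝ) ^ (1 / 8 : ℝ) * (N : ℝ) ^ (1 / 3 : ℝ) * (N : ℝ) ^ (1 / 24 - τ) :=
          mul_le_mul_of_nonneg_left a2 (by positivity)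
      _ = (N : ℝ) ^ (1 / 2 - τ) := by
          rw [hpow, hpow]
          congr 1
          ring
  · calc (N : ℝ) ^ (3 / 8 - τ) = ((N : ℝ) ^ (1 / 8 - τ / 3)) ^ 3 := by
          rw [← Real.rpow_natCast, ← Real.rpow_mul hN0.le]
          congr 1
          push_cast
          ring
      _ ≤ (zN N : ℝ) ^ 3 := pow_le_pow_left₀ (by positivity) b3 3
  · have e1 : (N : ℝ) ^ δ - 1 < wN δ N := Nat.sub_one_lt_floor _
    have e2 : 1 ≤ Real.log N ^ A₀ := one_le_pow₀ a7
    linarith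
  · exact Nat.floor_mono (Real.rpow_le_rpow_of_exponent_le hN1 hδ')
  · have e1 : (N : ℝ) + 1 ≤ 2 * N := by linarith
    have e2 : Real.log N ^ A₀ * (N + 1) ≤ Real.log N ^ A₀ * (2 * N) :=
      mul_le_mul_of_nonneg_left e1 (pow_nonneg (by linarith) _)
    have e3 : Real.log N ^ A₀ * (2 * N) ≤ (N : ℝ) ^ (1 / 2 : ℝ) * N := by
      calc Real.log N ^ A₀ * (2 * N) = 2 * Real.log N ^ A₀ * N := by ring
        _ ≤ _ := mul_le_mul_of_nonneg_right a5 hN0.le
    have e4 : (N : ℝ) ^ (1 / 2 : ℝ) ≤ N := by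
      calc (N : ℝ) ^ (1 / 2 : ℝ) ≤ (N : ℝ) ^ (1 : ℝ) :=
            Real.rpow_le_rpow_of_exponent_le hN1 (by norm_num)
        _ = N := Real.rpow_one _
    nlinarith
  · have e2 := hge1 (1 / 3) (by norm_num)
    linarith

theorem SP_num {A0 L t ε : ℝ} (hA : 0 < A0) (hL0 : 0 ≤ L) (hL : L ≤ 1 / 2) (ht : 0 ≤ t)
    (ht' : t ≤ 1 / 2) (hε : t * (6 * A0 + 12) ≤ ε) :
    (1 + 2 * t) * ((A0 + 3 * t) * (L + t)) ≤ A0 * L + ε / 2 := by
  have h1 : t * L ≤ t * (1 / 2) := mul_le_mul_of_nonneg_left hL ht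
  have h2 : t * t ≤ t * (1 / 2) := mul_le_mul_of_nonneg_left ht' ht
  have h3 : t * t * L ≤ t * (1 / 2) * (1 / 2) := by
    calc t * t * L ≤ t * (1 / 2) * L := mul_le_mul_of_nonneg_right h2 hL0
      _ ≤ t * (1 / 2) * (1 / 2) := mul_le_mul_of_nonneg_left hL (by linarith)
  have h4 : t * t * t ≤ t * (1 / 2) * (1 / 2) := by
    calc t * t * t ≤ t * (1 / 2) * t := mul_le_mul_of_nonneg_right h2 ht
      _ ≤ t * (1 / 2) * (1 / 2) := mul_le_mul_of_nonneg_left ht' (by linarith)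
  have h5 : A0 * (t * L) ≤ A0 * (t * (1 / 2)) := mul_le_mul_of_nonneg_left h1 hA.le
  have h6 : A0 * (t * t) ≤ A0 * (t * (1 / 2)) := mul_le_mul_of_nonneg_left h2 hA.le
  nlinarith

theorem SP_log6 : 0 ≤ Real.log 6 / 4 ∧ Real.log 6 / 4 ≤ 1 / 2 := by
  have h1 : 0 ≤ Real.log 6 := Real.log_nonneg (by norm_num)
  have h2 : Real.log 6 ≤ 2 := by
    rw [Real.log_le_iff_le_exp (by norm_num)]
    have h3 := Real.exp_one_gt_d9
    have h4 : Real.exp 2 = Real.exp 1 ^ 2 := by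
      rw [← Real.exp_nat_mul]
      norm_num
    rw [h4]
    nlinarith
  constructor <;> linarith

/-- the density is admissible for the sieve -/
theorem SP_Dns (h4 : St_Dens) {N m n' z : ℕ} {δ : ℝ} (hδ : 0 < δ) (hN : 2 ≤ N) (hm : 1 ≤ m)
    (hnm : n'.Coprime m) (hpar : (n' + m) % 2 = 1) (hmN : m * N ≤ n')
    (hmw : m ≤ wN δ N) (hn2 : (n' : ℝ) ≤ (N : ℝ) ^ 2) :
    Dns ⌊(N : ℝ) ^ δ⌋₊ z ⌈2 / δ⌉₊ (gA (wN δ N) m n') := by
  obtain ⟨d1, d2, -⟩ := h4 (wN δ N) m n' hm hnm hpar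
  have hnd : ∀ l : ℕ, wN δ N < l → ¬ l ∣ m := fun l hl h => by
    have := Nat.le_of_dvd hm h
    omega
  refine ⟨fun l hl => ?_, fun l hl hwl _ => ?_, ?_⟩
  · obtain ⟨-, -, e1, e2, e3, -⟩ := d1 l hl
    exact ⟨e1, e2, e3⟩
  · obtain ⟨-, e1, e2⟩ := d2 l hl hwl (hnd l hwl)
    by_cases h : l ∣ n'
    · exact Or.inl (e1 h)
    · exact Or.inr (e2 h)
  · set T := (pr z).filter (fun l => ⌊(N : ℝ) ^ δ⌋₊ < l ∧ gA (wN δ N) m n' l = 0) with hT
    have hN1 : (1 : ℝ) < N := by exact_mod_cast (by omega : 1 < N)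
    have hn0 : 0 < n' := lt_of_lt_of_le (Nat.mul_pos hm (by omega)) hmN
    have hTp : ∀ l ∈ T, l.Prime ∧ (N : ℝ) ^ δ < l ∧ l ∣ n' := by
      intro l hl
      obtain ⟨f1, f2, f3⟩ := mem_filter.1 hl
      have hlp : l.Prime := (mem_filter.1 f1).2
      have hlN : (N : ℝ) ^ δ < l := (Nat.floor_lt (by positivity)).1 f2
      refine ⟨hlp, hlN, ?_⟩
      by_contra h
      obtain ⟨-, -, e2⟩ := d2 l hlp f2 (hnd l f2)
      rw [e2 h] at f3
      have : (2 : ℝ) ≤ l := by exact_mod_cast hlp.two_le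
      have h5 : (0 : ℝ) < 1 / ((l : ℝ) - 1) := by
        apply div_pos one_pos
        linarith
      linarith
    have hprod : ∏ l ∈ T, l ≤ n' := by
      refine Nat.le_of_dvd hn0 ?_
      exact Finset.prod_primes_dvd _ (fun l hl => (hTp l hl).1.prime) fun l hl => (hTp l hl).2.2
    have hlow : ((N : ℝ) ^ δ) ^ T.card ≤ ((∏ l ∈ T, l : ℕ) : ℝ) := by
      rw [Nat.cast_prod, ← prod_const]
      exact prod_le_prod (fun _ _ => by positivity) fun l hl => (hTp l hl).2.1.le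
    have h5 : ((N : ℝ) ^ δ) ^ T.card ≤ (N : ℝ) ^ 2 :=
      hlow.trans (le_trans (by exact_mod_cast hprod) hn2)
    rw [← Real.rpow_natCast, ← Real.rpow_natCast, ← Real.rpow_mul (by positivity),
      Real.rpow_le_rpow_left_iff hN1] at h5
    have h6 : (T.card : ℝ) ≤ 2 / δ := by
      rw [le_div_iff₀ hδ, mul_comm]
      exact_mod_cast h5
    exact Nat.cast_le.1 (h6.trans (Nat.le_ceil _))

/-- keep this signature -/
theorem thm_SP (A0 : ℝ) (hA0 : 0 < A0) (h0 : St_LinU A0) (h1 : St_ABV) (h2 : St_Gen) (h3 : St_VLow) (h4 : St_Dens) (h5 : St_P1) (h6 : St_ASum) : St_SP A0 := by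
  classical
  intro η hη ε hε
  obtain ⟨L0, L1⟩ := SP_log6
  set L : ℝ := Real.log 6 / 4 with hL
  set t : ℝ := min (1 / 2) (ε / (6 * A0 + 12)) with ht
  have ht0 : 0 < t := lt_min (by norm_num) (by positivity)
  have ht2 : t ≤ 1 / 2 := min_le_left _ _
  have ht3 : t * (6 * A0 + 12) ≤ ε := by
    have : t ≤ ε / (6 * A0 + 12) := min_le_right _ _
    rwa [le_div_iff₀ (by positivity)] at this
  obtain ⟨τ₀, hτ₀, hτall⟩ := h6 t ht0
  set τ : ℝ := min τ₀ (1 / 100) with hτd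
  have hτ : 0 < τ := lt_min hτ₀ (by norm_num)
  have hτ1 : τ ≤ 1 / 100 := min_le_right _ _
  have hASum := hτall τ hτ.le (min_le_left _ _)
  set e1 : ℝ := min t (τ / 2) with he1
  have he0 : 0 < e1 := lt_min ht0 (by linarith)
  have het : e1 ≤ t := min_le_left _ _
  have heτ : e1 ≤ τ / 2 := min_le_right _ _
  obtain ⟨δ₀, C, hδ₀, hLin⟩ := h0 e1 he0
  obtain ⟨c0, k, hc0, hVL⟩ := h3
  refine ⟨min δ₀ (1 / 8), lt_min hδ₀ (by norm_num), fun δ hδ hδ1 A₀ => ?_⟩
  have hδa : δ ≤ δ₀ := hδ1.trans (min_le_left _ _)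
  have hδb : δ ≤ 1 / 8 := hδ1.trans (min_le_right _ _)
  set θ : ℝ := 1 / 2 - τ / 2 with hθ
  have hI := SP_int_ge hη
  have hP1 := h5 (etaR η) (SP_etaR hη) t ht0
  rw [SP_int_etaR] at hP1
  set I : ℝ := ∫ u in (0 : ℝ)..1, η u with hIdef
  obtain ⟨M₀, hM₀⟩ := eventually_atTop.1 hP1
  have hABV := h1 η hη θ (by linarith) (by linarith) (k + 1) A₀ (6 * C + 6)
  filter_upwards [SP_sizes hτ hτ1 hδ hδb A₀, hASum, hLin δ hδ hδa ⌈2 / δ⌉₊, hABV,
    eventually_ge_atTop M₀, SP_log (192 / (ε * c0)) (k + 2) (s := 2 / 3) (by norm_num),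
    SP_logdiv (8 * C / (ε * c0)), SP_logdiv 1]
    with N hsz hAS hLU hAB hNM hf1 hf2 hf3
  obtain ⟨s1, s2, s3, s4, s5, s6, s7, s8, s9, s10⟩ := hsz
  intro m n' hsit
  obtain ⟨g1, g2, g3, g4, g5, g6⟩ := hsit
  obtain ⟨E, hE0, hE1, hE2⟩ := hAB m n' g1 g2 g3 g5 g6
  have hN1 : (1 : ℝ) < N := by exact_mod_cast (by omega : 1 < N)
  have hN0 : (0 : ℝ) < N := by linarith
  have hlogN : 0 < Real.log N := by linarith
  have hmw : m ≤ wN δ N := by
    have : (m : ℝ) ≤ wN δ N := g2.trans s7.le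
    exact_mod_cast this
  have hn0 : 0 < n' := lt_of_lt_of_le (Nat.mul_pos g1 (by omega)) g5
  have hn2 : (n' : ℝ) ≤ (N : ℝ) ^ 2 := by
    have a1 : (n' : ℝ) ≤ m * (N + 1) := by exact_mod_cast g6.le
    have a2 : (m : ℝ) * (N + 1) ≤ Real.log N ^ A₀ * (N + 1) :=
      mul_le_mul_of_nonneg_right g2 (by linarith)
    linarith
  set z := zN N with hz
  set y := yN N with hy
  set w := wN δ N with hw
  obtain ⟨d1, d2, d3⟩ := h4 w m n' g1 g3 g4
  have hDns : Dns ⌊(N : ℝ) ^ δ⌋₊ z ⌈2 / δ⌉₊ (gA w m n') :=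
    SP_Dns h4 hδ (by omega) g1 g3 g4 g5 hmw hn2
  have hθ1 : θ ≤ 1 := by rw [hθ]; linarith
  set Q := (pr y).filter (fun p => z < p) with hQ
  have hQp : ∀ p ∈ Q, p.Prime ∧ z < p ∧ p ≤ y := by
    intro p hp
    obtain ⟨a1, a2⟩ := mem_filter.1 hp
    obtain ⟨a3, a4⟩ := mem_filter.1 a1
    exact ⟨a4, a2, Nat.lt_succ_iff.1 (mem_range.1 a3)⟩
  have hzpos : (0 : ℝ) < z := by
    have : (2 : ℝ) ≤ z := by exact_mod_cast s3
    linarith
  have hlogz0 : 0 < Real.log z := Real.log_pos (by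
    have : (2 : ℝ) ≤ z := by exact_mod_cast s3
    linarith)
  have hlogz : Real.log z ≤ Real.log N / 8 := by
    have a1 := Real.log_le_log hzpos s4
    rw [Real.log_rpow hN0] at a1
    linarith
  -- sizes for a prime of `Q`
  have hpsz : ∀ p ∈ Q, (0 : ℝ) < (p : ℝ) - 1 ∧ (N : ℝ) ^ (1 / 8 : ℝ) < p ∧
      (z : ℝ) ≤ (N : ℝ) ^ (1 / 2 - τ) / p ∧ (N : ℝ) ^ (1 / 2 - τ) / p ≤ (z : ℝ) ^ 3 ∧
      (N : ℝ) ^ (1 / 2 - τ) / p ≤ N := by
    intro p hp
    obtain ⟨a1, a2, a3⟩ := hQp p hp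
    have b0 : (0 : ℝ) < p := by exact_mod_cast a1.pos
    have b1 : (N : ℝ) ^ (1 / 8 : ℝ) < p := (Nat.floor_lt (by positivity)).1 a2
    have b2 : (p : ℝ) ≤ y := by exact_mod_cast a3
    have b3 : (N : ℝ) ^ (1 / 2 - τ) / p ≤ (N : ℝ) ^ (3 / 8 - τ) := by
      rw [div_le_iff₀ b0]
      calc (N : ℝ) ^ (1 / 2 - τ) = (N : ℝ) ^ (3 / 8 - τ) * (N : ℝ) ^ (1 / 8 : ℝ) := by
            rw [← Real.rpow_add hN0]
            congr 1
            ring
        _ ≤ (N : ℝ) ^ (3 / 8 - τ) * p := mul_le_mul_of_nonneg_left b1.le (by positivity)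
    refine ⟨?_, b1, ?_, b3.trans s6, b3.trans ?_⟩
    · have : (2 : ℝ) ≤ p := by exact_mod_cast a1.two_le
      linarith
    · rw [le_div_iff₀ b0]
      calc (z : ℝ) * p ≤ (N : ℝ) ^ (1 / 8 : ℝ) * y :=
            mul_le_mul s4 b2 b0.le (by positivity)
        _ ≤ _ := s5
    · calc (N : ℝ) ^ (3 / 8 - τ) ≤ (N : ℝ) ^ (1 : ℝ) :=
            Real.rpow_le_rpow_of_exponent_le hN1.le (by linarith)
        _ = N := Real.rpow_one _
  have hLc : ∀ p, ∃ c : ℕ → ℝ, p ∈ Q → 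
      (∀ d, c d ≠ 0 → Squarefree d ∧ (∀ l ∈ d.primeFactors, l ≤ z) ∧
        (d : ℝ) ≤ (N : ℝ) ^ (1 / 2 - τ) / p * (N : ℝ) ^ e1) ∧
      (∀ d, |c d| ≤ C * (C : ℝ) ^ d.primeFactors.card) ∧
      (∑ d ∈ Icc 1 (N ^ 2), c d * ∏ l ∈ d.primeFactors, gA w m n' l ≤
        VV (gA w m n') z * (A0 * Real.log z / Real.log ((N : ℝ) ^ (1 / 2 - τ) / p) + e1)) ∧
      ∀ S : Finset ℕ, S ⊆ pr z → (if S = ∅ then (1 : ℝ) else 0) ≤
        ∑ T ∈ S.powerset, c (∏ l ∈ T, l) := by
    intro p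
    by_cases hp : p ∈ Q
    · obtain ⟨-, -, a1, a2, a3⟩ := hpsz p hp
      obtain ⟨c, hc⟩ := hLU z ((N : ℝ) ^ (1 / 2 - τ) / p) s2 a1 a2 a3 (gA w m n') hDns
      exact ⟨c, fun _ => hc⟩
    · exact ⟨0, fun h => absurd h hp⟩
  choose c hc using hLc
  have hc1 : ∀ p ∈ Q, ∀ d, c p d ≠ 0 → Squarefree d ∧ (∀ l ∈ d.primeFactors, l ≤ z) ∧
      ((p * d : ℕ) : ℝ) ≤ (N : ℝ) ^ θ := by
    intro p hp d hd
    obtain ⟨a1, a2, a3⟩ := (hc p hp).1 d hd
    refine ⟨a1, a2, ?_⟩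
    have b0 : (0 : ℝ) < p := by exact_mod_cast (hQp p hp).1.pos
    push_cast
    calc (p : ℝ) * d ≤ p * ((N : ℝ) ^ (1 / 2 - τ) / p * (N : ℝ) ^ e1) :=
          mul_le_mul_of_nonneg_left a3 b0.le
      _ = (N : ℝ) ^ (1 / 2 - τ) * (N : ℝ) ^ e1 := by
          field_simp
      _ = (N : ℝ) ^ (1 / 2 - τ + e1) := (Real.rpow_add hN0 _ _).symm
      _ ≤ (N : ℝ) ^ θ := Real.rpow_le_rpow_of_exponent_le hN1.le (by rw [hθ]; linarith)
  have hVA0 : 0 ≤ VV (gA w m n') z := by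
    refine prod_nonneg fun l hl => ?_
    obtain ⟨-, -, -, a1, -⟩ := d1 l (mem_filter.1 hl).2
    linarith
  -- the primes not dividing n'
  have hgood : ∀ p ∈ Q.filter (fun p => ¬ p ∣ n'),
      ∑ q ∈ (range (N + 1)).filter (fun q => (∀ l ∈ pr z, q % l ∉ OmA w m n' l) ∧ p ∣ q),
        lam (n' - m * q) * η ((q : ℝ) / N) ≤
      psi0 (etaR η) (m * N) / (m.totient : ℝ) * VV (gA w m n') z *
        ((A0 + 3 * t) * (1 / (((p : ℝ) - 1) *
          (8 * (1 / 2 - τ - Real.log p / Real.log N))))) +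
        ∑ d ∈ Icc 1 (N ^ 2), |c p d| * ((3 : ℝ) ^ d.primeFactors.card * E (p * d)) := by
    intro p hp
    obtain ⟨hpQ, hpn⟩ := mem_filter.1 hp
    obtain ⟨a1, a2, a3⟩ := hQp p hpQ
    obtain ⟨b1, b2, b3, b4, b5⟩ := hpsz p hpQ
    obtain ⟨-, -, c3, c4⟩ := hc p hpQ
    have hpm : ¬ p ∣ m := fun h => by
      have := Nat.le_of_dvd g1 h
      omega
    have hone := SP_one h2 hη (w := w) (z := z) (N := N) (m := m) (n' := n') (θ := θ)
      (by omega) hθ1 a1 a2 hpm hpn g5 (fun l hl => (d1 l hl).1) E hE0 hE1 (c p) (hc1 p hpQ) c4 c3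
    refine hone.trans (add_le_add ?_ le_rfl)
    have hu : Real.log ((N : ℝ) ^ (1 / 2 - τ) / p) =
        Real.log N * (1 / 2 - τ - Real.log p / Real.log N) := by
      have b0 : (p : ℝ) ≠ 0 := by exact_mod_cast a1.ne_zero
      rw [Real.log_div (by positivity) b0, Real.log_rpow hN0]
      field_simp
    set u : ℝ := 1 / 2 - τ - Real.log p / Real.log N with hudef
    have hu0 : 0 < u := by
      have e2 : 0 < Real.log ((N : ℝ) ^ (1 / 2 - τ) / p) := by
        refine lt_of_lt_of_le hlogz0 (Real.log_le_log hzpos b3)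
      rw [hu] at e2
      exact (mul_pos_iff_of_pos_left hlogN).1 e2
    have hu1 : u ≤ 3 / 8 := by
      have e2 : 1 / 8 * Real.log N ≤ Real.log p := by
        have := Real.log_le_log (by positivity) b2.le
        rwa [Real.log_rpow hN0] at this
      have e3 : 1 / 8 ≤ Real.log p / Real.log N := by
        rw [le_div_iff₀ hlogN]
        exact e2
      rw [hudef]
      linarith
    rw [hu]
    have hkey : A0 * Real.log z / (Real.log N * u) + e1 ≤ (A0 + 3 * t) * (1 / (8 * u)) := by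
      have e2 : A0 * Real.log z / (Real.log N * u) ≤ A0 * (1 / (8 * u)) := by
        rw [mul_one_div, div_le_div_iff₀ (by positivity) (by positivity)]
        have : A0 * Real.log z ≤ A0 * (Real.log N / 8) := mul_le_mul_of_nonneg_left hlogz hA0.le
        nlinarith
      have e3 : e1 ≤ 3 * t * (1 / (8 * u)) := by
        rw [mul_one_div, le_div_iff₀ (by positivity)]
        nlinarith
      linarith [add_mul A0 (3 * t) (1 / (8 * u))]
    have hcoef : 0 ≤ psi0 (etaR η) (m * N) / ((m.totient : ℝ) * ((p : ℝ) - 1)) *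
        VV (gA w m n') z :=
      mul_nonneg (div_nonneg (SP_psi0_nonneg hη _)
        (mul_nonneg (Nat.cast_nonneg _) b1.le)) hVA0
    calc psi0 (etaR η) (m * N) / ((m.totient : ℝ) * ((p : ℝ) - 1)) *
          (VV (gA w m n') z * (A0 * Real.log z / (Real.log N * u) + e1)) =
          psi0 (etaR η) (m * N) / ((m.totient : ℝ) * ((p : ℝ) - 1)) * VV (gA w m n') z *
            (A0 * Real.log z / (Real.log N * u) + e1) := by ring
      _ ≤ psi0 (etaR η) (m * N) / ((m.totient : ℝ) * ((p : ℝ) - 1)) * VV (gA w m n') z *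
            ((A0 + 3 * t) * (1 / (8 * u))) := mul_le_mul_of_nonneg_left hkey hcoef
      _ = _ := by
          rw [← div_div, ← one_div_mul_one_div ((p : ℝ) - 1) (8 * u)]
          ring
  -- the primes dividing n'
  have hlogn : Real.log n' ≤ 2 * Real.log N := by
    have a1 := Real.log_le_log (by exact_mod_cast hn0) hn2
    rw [Real.log_pow] at a1
    exact_mod_cast a1
  have hlogn0 : 0 ≤ Real.log n' := Real.log_nonneg (by exact_mod_cast hn0)
  have hbad : ∑ p ∈ Q.filter (fun p => p ∣ n'),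
      ∑ q ∈ (range (N + 1)).filter (fun q => (∀ l ∈ pr z, q % l ∉ OmA w m n' l) ∧ p ∣ q),
        lam (n' - m * q) * η ((q : ℝ) / N) ≤ 24 * (N : ℝ) ^ (1 / 3 : ℝ) * Real.log N ^ 2 := by
    have a1 : ∀ p ∈ Q.filter (fun p => p ∣ n'),
        ∑ q ∈ (range (N + 1)).filter (fun q => (∀ l ∈ pr z, q % l ∉ OmA w m n' l) ∧ p ∣ q),
          lam (n' - m * q) * η ((q : ℝ) / N) ≤ 2 * Real.log n' ^ 2 := by
      intro p hp
      obtain ⟨hpQ, hpn⟩ := mem_filter.1 hp
      exact SP_bad hη g1 (hQp p hpQ).1 hpn g5 _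
    refine (sum_le_sum a1).trans ?_
    rw [sum_const, nsmul_eq_mul]
    have a2 : ((Q.filter (fun p => p ∣ n')).card : ℝ) ≤ y + 1 := by
      have : (Q.filter (fun p => p ∣ n')).card ≤ (range (y + 1)).card :=
        card_le_card ((filter_subset _ _).trans ((filter_subset _ _).trans (filter_subset _ _)))
      rw [card_range] at this
      exact_mod_cast this
    have a3 : 2 * Real.log n' ^ 2 ≤ 8 * Real.log N ^ 2 := by
      have : Real.log n' ^ 2 ≤ (2 * Real.log N) ^ 2 := pow_le_pow_left₀ hlogn0 hlogn 2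
      nlinarith
    calc ((Q.filter (fun p => p ∣ n')).card : ℝ) * (2 * Real.log n' ^ 2) ≤
          (3 * (N : ℝ) ^ (1 / 3 : ℝ)) * (8 * Real.log N ^ 2) :=
          mul_le_mul (a2.trans s10) a3 (by positivity) (by positivity)
      _ = _ := by ring
  have herr := SP_err (N := N) (z := z) (C := C) (θ := θ) (by omega) hθ1
    Q (fun p hp => ⟨(hQp p hp).1, (hQp p hp).2.1⟩) c hc1
    (fun p hp => (hc p hp).2.1) E hE0
  have hsplit : ∑ p ∈ Q,
      ∑ q ∈ (range (N + 1)).filter (fun q => (∀ l ∈ pr z, q % l ∉ OmA w m n' l) ∧ p ∣ q),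
        lam (n' - m * q) * η ((q : ℝ) / N) ≤
      24 * (N : ℝ) ^ (1 / 3 : ℝ) * Real.log N ^ 2 +
      (psi0 (etaR η) (m * N) / (m.totient : ℝ) * VV (gA w m n') z *
        ((A0 + 3 * t) * (L + t)) + C * (N / Real.log N ^ (k + 1))) := by
    rw [← sum_filter_add_sum_filter_not Q (fun p => p ∣ n')]
    refine add_le_add hbad ?_
    refine (sum_le_sum hgood).trans ?_
    rw [sum_add_distrib]
    have hcoef : 0 ≤ psi0 (etaR η) (m * N) / (m.totient : ℝ) * VV (gA w m n') z :=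
      mul_nonneg (div_nonneg (SP_psi0_nonneg hη _) (Nat.cast_nonneg _)) hVA0
    have hnn : ∀ p ∈ Q, 0 ≤ 1 / (((p : ℝ) - 1) *
        (8 * (1 / 2 - τ - Real.log p / Real.log N))) := by
      intro p hp
      obtain ⟨b1, b2, b3, b4, b5⟩ := hpsz p hp
      have hu : Real.log ((N : ℝ) ^ (1 / 2 - τ) / p) =
          Real.log N * (1 / 2 - τ - Real.log p / Real.log N) := by
        have b0 : (p : ℝ) ≠ 0 := by exact_mod_cast (hQp p hp).1.ne_zero
        rw [Real.log_div (by positivity) b0, Real.log_rpow hN0]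
        field_simp
      have e2 : 0 < Real.log ((N : ℝ) ^ (1 / 2 - τ) / p) :=
        lt_of_lt_of_le hlogz0 (Real.log_le_log hzpos b3)
      rw [hu] at e2
      have e3 := (mul_pos_iff_of_pos_left hlogN).1 e2
      positivity
    refine add_le_add ?_ ?_
    · rw [← mul_sum, ← mul_sum]
      refine mul_le_mul_of_nonneg_left ?_ hcoef
      refine mul_le_mul_of_nonneg_left ?_ (by positivity)
      refine le_trans ?_ hAS
      exact sum_le_sum_of_subset_of_nonneg (filter_subset _ _) fun p hp _ => hnn p hp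
    · have a1 : ∑ p ∈ Q.filter (fun p => ¬ p ∣ n'), ∑ d ∈ Icc 1 (N ^ 2),
          |c p d| * ((3 : ℝ) ^ d.primeFactors.card * E (p * d)) ≤
          ∑ p ∈ Q, ∑ d ∈ Icc 1 (N ^ 2),
          |c p d| * ((3 : ℝ) ^ d.primeFactors.card * E (p * d)) := by
        refine sum_le_sum_of_subset_of_nonneg (filter_subset _ _) fun p _ _ => ?_
        exact sum_nonneg fun d _ => mul_nonneg (abs_nonneg _)
          (mul_nonneg (by positivity) (hE0 _))
      refine a1.trans (herr.trans ?_)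
      exact mul_le_mul_of_nonneg_left hE2 (Nat.cast_nonneg _)
  refine hsplit.trans ?_
  -- the main term
  have hm0 : (0 : ℝ) < m := by exact_mod_cast g1
  have hφ0 : (0 : ℝ) < m.totient := by exact_mod_cast Nat.totient_pos.2 g1
  have hVB := d3 z hmw s8
  have hVB0 : c0 / Real.log N ^ k ≤ VV (gB w m n') z := by
    have a1 := hVL z (gB w m n') s3 fun l hl => by
      obtain ⟨-, -, -, -, -, e2, e3, e4⟩ := d1 l hl
      exact ⟨e2, e3, e4⟩
    refine le_trans ?_ a1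
    have a2 : Real.log z ≤ Real.log N := by linarith
    exact div_le_div_of_nonneg_left hc0.le (pow_pos hlogz0 k) (pow_le_pow_left₀ hlogz0.le a2 k)
  have hVBpos : 0 < VV (gB w m n') z := lt_of_lt_of_le (by positivity) hVB0
  have hpsi : psi0 (etaR η) (m * N) ≤ (1 + 2 * t) * (I * (m * N)) := by
    have a1 : M₀ ≤ m * N := hNM.trans (Nat.le_mul_of_pos_left N g1)
    have a2 := (abs_le.1 (hM₀ (m * N) a1)).2
    push_cast at a2
    have a3 : 0 < (m : ℝ) * N := mul_pos hm0 hN0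
    have a4 : t * ((m : ℝ) * N) ≤ 2 * t * (I * (m * N)) := by
      have : t * ((m : ℝ) * N) * (1 / 2) ≤ t * ((m : ℝ) * N) * I :=
        mul_le_mul_of_nonneg_left hI (by positivity)
      nlinarith
    nlinarith
  have hUU : UU η δ N m n' = I * N * VV (gB w m n') z := rfl
  have hUU0 : 0 < UU η δ N m n' := by
    rw [hUU]
    have : 0 < I := by linarith
    positivity
  have hmain : psi0 (etaR η) (m * N) / (m.totient : ℝ) * VV (gA w m n') z *
      ((A0 + 3 * t) * (L + t)) ≤ (A0 * L + ε / 2) * UU η δ N m n' := by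
    have a1 : psi0 (etaR η) (m * N) / (m.totient : ℝ) * VV (gA w m n') z =
        psi0 (etaR η) (m * N) / m * VV (gB w m n') z := by
      rw [hVB]
      field_simp
    have a2 : psi0 (etaR η) (m * N) / m ≤ (1 + 2 * t) * (I * N) := by
      rw [div_le_iff₀ hm0]
      calc psi0 (etaR η) (m * N) ≤ (1 + 2 * t) * (I * (m * N)) := hpsi
        _ = _ := by ring
    have a3 : psi0 (etaR η) (m * N) / (m.totient : ℝ) * VV (gA w m n') z ≤
        (1 + 2 * t) * UU η δ N m n' := by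
      rw [a1, hUU]
      calc psi0 (etaR η) (m * N) / m * VV (gB w m n') z ≤
            (1 + 2 * t) * (I * N) * VV (gB w m n') z :=
            mul_le_mul_of_nonneg_right a2 hVBpos.le
        _ = _ := by ring
    have a4 : 0 ≤ (A0 + 3 * t) * (L + t) := by positivity
    calc psi0 (etaR η) (m * N) / (m.totient : ℝ) * VV (gA w m n') z *
          ((A0 + 3 * t) * (L + t)) ≤ (1 + 2 * t) * UU η δ N m n' * ((A0 + 3 * t) * (L + t)) :=
          mul_le_mul_of_nonneg_right a3 a4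
      _ = (1 + 2 * t) * ((A0 + 3 * t) * (L + t)) * UU η δ N m n' := by ring
      _ ≤ _ := mul_le_mul_of_nonneg_right (SP_num hA0 L0 L1 ht0.le ht2 ht3) hUU0.le
  -- the error terms
  have hUlow : 1 / 2 * N * (c0 / Real.log N ^ k) ≤ UU η δ N m n' := by
    rw [hUU]
    exact mul_le_mul (mul_le_mul_of_nonneg_right hI hN0.le) hVB0 (by positivity)
      (mul_nonneg (by linarith) hN0.le)
  have hL0 : 0 < Real.log N ^ k := pow_pos hlogN k
  have hεc : 0 < ε * c0 := mul_pos hε hc0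
  have herr1 : 24 * (N : ℝ) ^ (1 / 3 : ℝ) * Real.log N ^ 2 ≤
      ε / 8 * (N * (c0 / Real.log N ^ k)) := by
    rw [div_mul_eq_mul_div, div_le_iff₀ hεc] at hf1
    have a1 : (N : ℝ) ^ (1 / 3 : ℝ) * (N : ℝ) ^ (2 / 3 : ℝ) = N := by
      rw [← Real.rpow_add hN0]
      norm_num
    have a2 : 24 * (N : ℝ) ^ (1 / 3 : ℝ) * Real.log N ^ 2 * (8 * Real.log N ^ k) ≤
        ε * c0 * N := by
      calc 24 * (N : ℝ) ^ (1 / 3 : ℝ) * Real.log N ^ 2 * (8 * Real.log N ^ k) =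
            (N : ℝ) ^ (1 / 3 : ℝ) * (192 * Real.log N ^ (k + 2)) := by ring
        _ ≤ (N : ℝ) ^ (1 / 3 : ℝ) * ((N : ℝ) ^ (2 / 3 : ℝ) * (ε * c0)) :=
            mul_le_mul_of_nonneg_left hf1 (by positivity)
        _ = (N : ℝ) ^ (1 / 3 : ℝ) * (N : ℝ) ^ (2 / 3 : ℝ) * (ε * c0) := by ring
        _ = ε * c0 * N := by rw [a1]; ring
    have a3 : ε / 8 * (N * (c0 / Real.log N ^ k)) = ε * c0 * N / (8 * Real.log N ^ k) := by
      field_simp
    rw [a3, le_div_iff₀ (by positivity)]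
    exact a2
  have herr2 : C * (N / Real.log N ^ (k + 1)) ≤ ε / 8 * (N * (c0 / Real.log N ^ k)) := by
    rw [div_le_iff₀ hεc] at hf2
    have a1 : ε / 8 * (N * (c0 / Real.log N ^ k)) = N / (8 * Real.log N ^ k) * (ε * c0) := by
      field_simp
    have a2 : C * (N / Real.log N ^ (k + 1)) = N / (8 * Real.log N ^ k) *
        (8 * C / Real.log N) := by
      rw [pow_succ]
      field_simp
    rw [a1, a2]
    refine mul_le_mul_of_nonneg_left ?_ (by positivity)
    rw [div_le_iff₀ hlogN]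
    linarith
  have herr3 : ε / 8 * (N * (c0 / Real.log N ^ k)) + ε / 8 * (N * (c0 / Real.log N ^ k)) ≤
      ε / 2 * UU η δ N m n' := by
    have := mul_le_mul_of_nonneg_left hUlow (by linarith : 0 ≤ ε / 2)
    nlinarith
  have hfin : (A0 * L + ε / 2) * UU η δ N m n' + ε / 2 * UU η δ N m n' =
      (A0 * L + ε) * UU η δ N m n' := by ring
  linarith

end Pool.Agent.CH
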