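import Mathlib
import Pool.Agent.CH.Stmts
import Pool.Agent.GBQ.RhoLow

set_option autoImplicit false

/-!
# CH / VLow

1 - g l >= (1 - 1/l)^8 for all primes l, and prod_{l<=z} (1-1/l) >= c/log z is GBQ.thm_RhoLow.
-/

namespace Pool.Agent.CH

open Finset Filter Pool.Agent.MT

private lemma vlow_pow (x : ℝ) (h0 : 0 ≤ x) (h1 : x ≤ 1 / 7) : (1 - x) ^ 8 ≤ 1 - 4 * x := by
  have a1 : (1 - x) ^ 2 ≤ 1 - 13 / 7 * x := by nlinarith
  have p1 : 0 ≤ (1 - x) ^ 2 := by positivity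
  have a2 : ((1 - x) ^ 2) ^ 2 ≤ 1 - 3 * x := by
    have : ((1 - x) ^ 2) ^ 2 ≤ (1 - 13 / 7 * x) ^ 2 := by
      apply pow_le_pow_left₀ p1 a1
    nlinarith
  have p2 : 0 ≤ ((1 - x) ^ 2) ^ 2 := by positivity
  have a3 : (((1 - x) ^ 2) ^ 2) ^ 2 ≤ 1 - 4 * x := by
    have : (((1 - x) ^ 2) ^ 2) ^ 2 ≤ (1 - 3 * x) ^ 2 := by
      apply pow_le_pow_left₀ p2 a2
    nlinarith
  calc (1 - x) ^ 8 = (((1 - x) ^ 2) ^ 2) ^ 2 := by ring
    _ ≤ _ := a3

private lemma vlow_factor (l : ℕ) (hl : l.Prime) (y : ℝ) (h1 : y ≤ 1 / 2) (h2 : y ≤ 4 / (l : ℝ)) :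
    (1 - 1 / (l : ℝ)) ^ 8 ≤ 1 - y := by
  have hl2 := hl.two_le
  rcases lt_or_ge l 7 with h | h
  · have hc : (1 - 1 / (l : ℝ)) ^ 8 ≤ 1 / 2 := by
      interval_cases l <;> norm_num
    linarith
  · have hl7 : (7 : ℝ) ≤ (l : ℝ) := by exact_mod_cast h
    have hx : 1 / (l : ℝ) ≤ 1 / 7 := by
      apply one_div_le_one_div_of_le (by norm_num) hl7
    have := vlow_pow (1 / (l : ℝ)) (by positivity) hx
    have h4 : 4 * (1 / (l : ℝ)) = 4 / (l : ℝ) := by ring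
    linarith

/-- keep this signature -/
theorem thm_VLow : St_VLow := by
  obtain ⟨c, hc, h⟩ := Pool.Agent.GBQ.thm_RhoLow
  refine ⟨c ^ 8, 8, by positivity, ?_⟩
  intro z g hz hg
  have hlog : 0 < Real.log z := Real.log_pos (by exact_mod_cast (by omega : 1 < z))
  have hr : c / Real.log z ≤ Pool.Agent.GBQ.rho z := h z hz
  have h1 : (c / Real.log z) ^ 8 ≤ (Pool.Agent.GBQ.rho z) ^ 8 :=
    pow_le_pow_left₀ (by positivity) hr 8
  have h2 : (Pool.Agent.GBQ.rho z) ^ 8 ≤ VV g z := by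
    unfold Pool.Agent.GBQ.rho VV
    rw [← Finset.prod_pow]
    apply Finset.prod_le_prod
    · intro l _
      positivity
    · intro l hl
      have hp : l.Prime := (Finset.mem_filter.mp hl).2
      obtain ⟨_, b, d⟩ := hg l hp
      exact vlow_factor l hp (g l) b d
  calc c ^ 8 / Real.log z ^ 8 = (c / Real.log z) ^ 8 := by rw [div_pow]
    _ ≤ _ := h1
    _ ≤ _ := h2

end Pool.Agent.CH
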