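import Mathlib
import Pool.Agent.CH.Stmts

set_option autoImplicit false

/-!
# CH / Wt

a = number of primes p <= y dividing q.  a >= 2: the weight is <= 0.  a = 0: all prime factors are > y, three of them give q > y^3.  a = 1: q = p1 r, p1^2 does not divide q, all prime factors of r are > y, so r has at most two (r <= q < y^3); if r = p2 p3 then Tri z y q and the weight is 1 - 1/2 - 1/2 = 0; so r = 1 or prime.
-/

namespace Pool.Agent.CH

open Finset Filter Pool.Agent.MT

open scoped ArithmeticFunction.Omega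

theorem wt_omega (y r : ℕ) (hr0 : r ≠ 0) (hr : r < y ^ 3)
    (hp : ∀ p : ℕ, p.Prime → p ∣ r → y < p) : Ω r ≤ 2 := by
  by_contra h
  push Not at h
  rw [ArithmeticFunction.cardFactors_apply] at h
  have h1 : y ^ r.primeFactorsList.length ≤ r.primeFactorsList.prod :=
    List.pow_card_le_prod _ _ fun p hp' => by
      rw [Nat.mem_primeFactorsList hr0] at hp'
      exact (hp p hp'.1 hp'.2).le
  rw [Nat.prod_primeFactorsList hr0] at h1
  have hy : 1 ≤ y := by
    rcases Nat.eq_zero_or_pos y with h0 | h0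
    · subst h0; simp at hr
    · exact h0
  have h2 : y ^ 3 ≤ y ^ r.primeFactorsList.length := Nat.pow_le_pow_right hy h
  omega

theorem wt_two (r : ℕ) (hr0 : r ≠ 0) (h : Ω r = 2) :
    ∃ p₂ p₃ : ℕ, p₂.Prime ∧ p₃.Prime ∧ p₂ ≤ p₃ ∧ r = p₂ * p₃ := by
  rw [ArithmeticFunction.cardFactors_apply] at h
  obtain ⟨a, b, hab⟩ := List.length_eq_two.1 h
  have hprod := Nat.prod_primeFactorsList hr0
  have ha : a.Prime := Nat.prime_of_mem_primeFactorsList (n := r) (by rw [hab]; simp)
  have hb : b.Prime := Nat.prime_of_mem_primeFactorsList (n := r) (by rw [hab]; simp)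
  rw [hab] at hprod
  simp at hprod
  rcases le_total a b with h1 | h1
  · exact ⟨a, b, ha, hb, h1, hprod.symm⟩
  · exact ⟨b, a, hb, ha, h1, by rw [mul_comm]; exact hprod.symm⟩

/-- keep this signature -/
theorem thm_Wt : St_Wt := by
  classical
  intro z y q hq1 hqy hz hsq hw
  have hbt0 : 0 ≤ bt z y q := by
    unfold bt
    split_ifs <;> norm_num
  set s := (pr y).filter (fun p => p ∣ q) with hs
  have hmem : ∀ p : ℕ, p ∈ s ↔ (p.Prime ∧ p ≤ y) ∧ p ∣ q := by
    intro p
    rw [hs, Finset.mem_filter, pr, Finset.mem_filter, Finset.mem_range]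
    constructor
    · rintro ⟨⟨h1, h2⟩, h3⟩
      exact ⟨⟨h2, by omega⟩, h3⟩
    · rintro ⟨⟨h1, h2⟩, h3⟩
      exact ⟨⟨by omega, h1⟩, h3⟩
  have hcard : s.card ≤ 1 := by
    by_contra h
    push Not at h
    have h1 : (2 : ℝ) ≤ (s.card : ℝ) := by exact_mod_cast h
    linarith
  refine ⟨by omega, ?_⟩
  rcases Nat.eq_zero_or_pos s.card with h0 | h0
  · refine wt_omega y q (by omega) hqy fun p hp hpq => ?_
    by_contra hpy
    have h1 : p ∈ s := (hmem p).2 ⟨⟨hp, by omega⟩, hpq⟩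
    rw [Finset.card_eq_zero.1 h0] at h1
    exact absurd h1 (Finset.notMem_empty p)
  · have hc1 : s.card = 1 := by omega
    obtain ⟨p₁, hp₁⟩ := Finset.card_eq_one.1 hc1
    have h1 : p₁ ∈ s := by rw [hp₁]; exact Finset.mem_singleton_self _
    obtain ⟨⟨hpp, hpy⟩, hpq⟩ := (hmem p₁).1 h1
    obtain ⟨r, hr⟩ := hpq
    have hr0 : r ≠ 0 := by
      rintro rfl
      omega
    have hpr : ¬ p₁ ∣ r := by
      rintro ⟨t, ht⟩
      refine hsq p₁ hpp hpy ⟨t, ?_⟩
      rw [hr, ht]
      ring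
    have hrq : r ≤ q := by
      rw [hr]
      exact Nat.le_mul_of_pos_left r hpp.pos
    have hrp : ∀ p : ℕ, p.Prime → p ∣ r → y < p := by
      intro p hp hpr'
      by_contra hpy'
      have h2 : p ∈ s := (hmem p).2 ⟨⟨hp, by omega⟩, hr ▸ Dvd.dvd.mul_left hpr' p₁⟩
      rw [hp₁, Finset.mem_singleton] at h2
      exact hpr (h2 ▸ hpr')
    have h2 : Ω r ≤ 2 := wt_omega y r hr0 (lt_of_le_of_lt hrq hqy) hrp
    have h3 : Ω r ≠ 2 := by
      intro h4
      obtain ⟨p₂, p₃, h5, h6, h7, h8⟩ := wt_two r hr0 h4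
      have hT : Tri z y q := by
        refine ⟨p₁, p₂, p₃, hpp, h5, h6, hz p₁ hpp ⟨r, hr⟩, hpy,
          hrp p₂ h5 ⟨p₃, h8⟩, h7, ?_⟩
        rw [hr, h8, mul_assoc]
      have hb : bt z y q = 1 := by
        unfold bt
        rw [if_pos hT]
      rw [hb, hc1] at hw
      norm_num at hw
    rw [hr, ArithmeticFunction.cardFactors_mul hpp.ne_zero hr0,
      ArithmeticFunction.cardFactors_eq_one_iff_prime.2 hpp]
    omega

end Pool.Agent.CH
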