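import Mathlib
import Pool.Agent.CH.Stmts

set_option autoImplicit false

/-!
# CH / cBnum

`log (1 + t) ≤ t - t ^ 2 / 2 + t ^ 3 / 3` with `t = 1 - 3 β`, partial fractions, and numerical
values of the logarithms of `2`, `3`, `7`.
-/

namespace Pool.Agent.CH

open Finset Filter Pool.Agent.MT

theorem cbn_log_le {t : ℝ} (ht : 0 ≤ t) : Real.log (1 + t) ≤ t - t ^ 2 / 2 + t ^ 3 / 3 := by
  have hmono : MonotoneOn (fun s : ℝ => s - s ^ 2 / 2 + s ^ 3 / 3 - Real.log (1 + s))
      (Set.Ici 0) := by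
    have hd : ∀ s : ℝ, 0 ≤ s → HasDerivAt
        (fun s : ℝ => s - s ^ 2 / 2 + s ^ 3 / 3 - Real.log (1 + s))
        (1 - s + s ^ 2 - 1 / (1 + s)) s := by
      intro s hs
      have h1 : HasDerivAt (fun s : ℝ => s - s ^ 2 / 2 + s ^ 3 / 3)
          (1 - (2 : ℕ) * s ^ (2 - 1) / 2 + (3 : ℕ) * s ^ (3 - 1) / 3) s :=
        (((hasDerivAt_id s).sub ((hasDerivAt_pow 2 s).div_const 2)).add
          ((hasDerivAt_pow 3 s).div_const 3))
      have h2 : HasDerivAt (fun s : ℝ => Real.log (1 + s)) (1 / (1 + s)) s :=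
        ((hasDerivAt_id s).const_add 1).log (by positivity)
      have h3 := h1.sub h2
      have e : (1 - (2 : ℕ) * s ^ (2 - 1) / 2 + (3 : ℕ) * s ^ (3 - 1) / 3 - 1 / (1 + s) : ℝ) =
          1 - s + s ^ 2 - 1 / (1 + s) := by
        push_cast
        ring
      rw [e] at h3
      exact h3
    refine monotoneOn_of_deriv_nonneg (convex_Ici 0) ?_ ?_ ?_
    · intro s hs
      exact (hd s hs).continuousAt.continuousWithinAt
    · intro s hs
      rw [interior_Ici] at hs
      exact (hd s (le_of_lt hs)).differentiableAt.differentiableWithinAt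
    · intro s hs
      rw [interior_Ici] at hs
      have hs' : (0 : ℝ) < s := hs
      rw [(hd s hs'.le).deriv]
      have e : 1 - s + s ^ 2 - 1 / (1 + s) = s ^ 3 / (1 + s) := by
        field_simp
        ring
      rw [e]
      positivity
  have h := hmono (Set.mem_Ici.2 le_rfl) (Set.mem_Ici.2 ht) ht
  simp only at h
  norm_num at h
  linarith

/-- the primitive -/
noncomputable def cbnF (β : ℝ) : ℝ :=
  9 / 2 * β + 9 / 2 * β ^ 2 + 5 / 6 * Real.log β + 20 / 3 * Real.log (1 - β)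

/-- the majorant -/
noncomputable def cbnG (β : ℝ) : ℝ := 9 / 2 + 9 * β + 5 / 6 * β⁻¹ - 20 / 3 * (1 - β)⁻¹

theorem cbn_deriv {β : ℝ} (h0 : 0 < β) (h1 : β < 1) : HasDerivAt cbnF (cbnG β) β := by
  have a1 : HasDerivAt (fun β : ℝ => 9 / 2 * β) (9 / 2 * 1) β := (hasDerivAt_id β).const_mul _
  have a2 : HasDerivAt (fun β : ℝ => 9 / 2 * β ^ 2) (9 / 2 * ((2 : ℕ) * β ^ (2 - 1))) β :=
    (hasDerivAt_pow 2 β).const_mul _
  have a3 : HasDerivAt (fun β : ℝ => 5 / 6 * Real.log β) (5 / 6 * β⁻¹) β :=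
    (Real.hasDerivAt_log h0.ne').const_mul _
  have a4 : HasDerivAt (fun β : ℝ => 20 / 3 * Real.log (1 - β)) (20 / 3 * (-1 / (1 - β))) β :=
    (((hasDerivAt_id β).const_sub 1).log (by simp only [id]; linarith)).const_mul _
  have a5 := ((a1.add a2).add a3).add a4
  have e : 9 / 2 * 1 + 9 / 2 * ((2 : ℕ) * β ^ (2 - 1)) + 5 / 6 * β⁻¹ + 20 / 3 * (-1 / (1 - β)) =
      cbnG β := by
    unfold cbnG
    push_cast
    ring
  rw [e] at a5
  exact a5

theorem cbn_bound {β : ℝ} (h0 : 1 / 8 ≤ β) (h1 : β ≤ 1 / 3) :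
    Real.log (2 - 3 * β) / (β * (1 - β)) ≤ cbnG β := by
  have hb : 0 < β := by linarith
  have hb1 : 0 < 1 - β := by linarith
  have hl := cbn_log_le (t := 1 - 3 * β) (by linarith)
  have e : (1 : ℝ) + (1 - 3 * β) = 2 - 3 * β := by ring
  rw [e] at hl
  rw [div_le_iff₀ (mul_pos hb hb1)]
  have e2 : cbnG β * (β * (1 - β)) =
      (1 - 3 * β) - (1 - 3 * β) ^ 2 / 2 + (1 - 3 * β) ^ 3 / 3 := by
    unfold cbnG
    field_simp
    ring
  rw [e2]
  exact hl

/-- keep this signature -/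
theorem thm_cB : St_cB := by
  unfold St_cB cB
  have hle : (1 / 8 : ℝ) ≤ 1 / 3 := by norm_num
  have hG : ContinuousOn cbnG (Set.uIcc (1 / 8 : ℝ) (1 / 3)) := by
    rw [Set.uIcc_of_le hle]
    unfold cbnG
    refine ContinuousOn.sub (ContinuousOn.add (by fun_prop) ?_) ?_
    · refine ContinuousOn.mul continuousOn_const (ContinuousOn.inv₀ continuousOn_id ?_)
      intro β hβ
      have := hβ.1
      intro h
      linarith
    · refine ContinuousOn.mul continuousOn_const (ContinuousOn.inv₀ (by fun_prop) ?_)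
      intro β hβ
      have := hβ.2
      intro h
      linarith
  have hf : ContinuousOn (fun β : ℝ => Real.log (2 - 3 * β) / (β * (1 - β)))
      (Set.uIcc (1 / 8 : ℝ) (1 / 3)) := by
    rw [Set.uIcc_of_le hle]
    refine ContinuousOn.div (ContinuousOn.log (by fun_prop) ?_) (by fun_prop) ?_
    · intro β hβ
      have := hβ.2
      intro h
      linarith
    · intro β hβ
      have h1 := hβ.1
      have h2 := hβ.2
      refine mul_ne_zero ?_ ?_
      · intro h
        linarith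
      · intro h
        linarith
  have h1 : ∫ β in (1 / 8 : ℝ)..(1 / 3 : ℝ), Real.log (2 - 3 * β) / (β * (1 - β)) ≤
      ∫ β in (1 / 8 : ℝ)..(1 / 3 : ℝ), cbnG β :=
    intervalIntegral.integral_mono_on hle hf.intervalIntegrable hG.intervalIntegrable
      (fun β hβ => cbn_bound hβ.1 hβ.2)
  have h2 : ∫ β in (1 / 8 : ℝ)..(1 / 3 : ℝ), cbnG β = cbnF (1 / 3) - cbnF (1 / 8) := by
    refine intervalIntegral.integral_eq_sub_of_hasDerivAt ?_ hG.intervalIntegrable
    intro β hβ
    rw [Set.uIcc_of_le hle] at hβ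
    have a := hβ.1
    have b := hβ.2
    exact cbn_deriv (by linarith) (by linarith)
  refine h1.trans ?_
  rw [h2]
  unfold cbnF
  have l1 : Real.log (1 / 3 : ℝ) = - Real.log 3 := by
    rw [one_div, Real.log_inv]
  have l2 : Real.log (1 - 1 / 3 : ℝ) = Real.log 2 - Real.log 3 := by
    rw [← Real.log_div (by norm_num) (by norm_num)]
    norm_num
  have l3 : Real.log (1 / 8 : ℝ) = - (3 * Real.log 2) := by
    rw [one_div, Real.log_inv, show (8 : ℝ) = 2 ^ 3 by norm_num, Real.log_pow]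
    push_cast
    ring
  have l4 : Real.log (1 - 1 / 8 : ℝ) = Real.log 7 - 3 * Real.log 2 := by
    have e1 : (1 - 1 / 8 : ℝ) = 7 / 2 ^ 3 := by norm_num
    rw [e1, Real.log_div (by norm_num) (by norm_num), Real.log_pow]
    push_cast
    ring
  rw [l1, l2, l3, l4]
  have k3 : 19 * Real.log 2 ≤ 12 * Real.log 3 := by
    have h := Real.log_le_log (by norm_num) (show (2 : ℝ) ^ 19 ≤ 3 ^ 12 by norm_num)
    rw [Real.log_pow, Real.log_pow] at h
    exact_mod_cast h
  have k7 : 87 * Real.log 2 ≤ 31 * Real.log 7 := by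
    have h := Real.log_le_log (by norm_num) (show (2 : ℝ) ^ 87 ≤ 7 ^ 31 by norm_num)
    rw [Real.log_pow, Real.log_pow] at h
    exact_mod_cast h
  have k2 := Real.log_two_gt_d9
  have k2' := Real.log_two_lt_d9
  linarith

end Pool.Agent.CH
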