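import Mathlib
import Pool.Agent.CH.PRed
import Pool.Agent.CH.PLC
import Pool.Agent.CH.PSW
import Pool.Agent.CH.PBV
import Pool.Agent.CH.PBVW
import Pool.Agent.CH.ABV
import Pool.Agent.CH.Gen
import Pool.Agent.CH.MR
import Pool.Agent.CH.P1
import Pool.Agent.CH.P2
import Pool.Agent.CH.BMass
import Pool.Agent.CH.cBnum
import Pool.Agent.CH.ASum
import Pool.Agent.CH.VR
import Pool.Agent.CH.VLow
import Pool.Agent.CH.Dens
import Pool.Agent.CH.Wt
import Pool.Agent.CH.SA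
import Pool.Agent.CH.SP
import Pool.Agent.CH.SB
import Pool.Agent.CH.Fin
import Pool.Agent.GBQ.Red

set_option autoImplicit false

namespace Pool.Agent.CH

theorem chen_of_lin (h : St_Lin) : St_Chen := by
  obtain ⟨A0, hA0, hU, hL⟩ := h
  have hPBVW := thm_PBVW (thm_PBV thm_PRed thm_PLC thm_PSW)
  exact thm_Fin ⟨A0, hA0, thm_SA A0 hA0 hL thm_ABV thm_Gen thm_VLow thm_Dens thm_P1,
    thm_SP A0 hA0 hU thm_ABV thm_Gen thm_VLow thm_Dens thm_P1 (thm_ASum thm_MR),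
    thm_SB A0 hA0 hU hPBVW thm_Gen thm_VLow thm_Dens (thm_BMass thm_MR thm_P2) thm_VR⟩
    thm_cB thm_Wt thm_VLow thm_Dens Pool.Agent.GBQ.thm_Red

end Pool.Agent.CH
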