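import Mathlib
import Pool.Agent.CH.Stmts
import Pool.Agent.MT.Wt

set_option autoImplicit false

/-!
# CH / SA

Lower bound for the number of `q` with `n' - m q` prime, `q` without prime factors up to `z` and
`q ^ 2 - 2` without prime factors up to `w`, from the linear sieve (`s = 4`).
-/

namespace Pool.Agent.CH

open Finset Filter Pool.Agent.MT

/-! ### arithmetic -/

theorem sa_phi (m : ℕ) (T : Finset ℕ) (hT : ∀ l ∈ T, l.Prime) :
    ((m * ∏ l ∈ T, l).totient : ℝ) =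
      (m.totient : ℝ) * ∏ l ∈ T, (if l ∣ m then (l : ℝ) else (l : ℝ) - 1) := by
  classical
  induction T using Finset.induction_on with
  | empty => simp
  | @insert a T ha ih =>
    have hT' : ∀ l ∈ T, l.Prime := fun l hl => hT l (Finset.mem_insert_of_mem hl)
    have hap : a.Prime := hT a (Finset.mem_insert_self _ _)
    have ih' := ih hT'
    rw [Finset.prod_insert ha, Finset.prod_insert ha]
    have e1 : m * (a * ∏ l ∈ T, l) = a * (m * ∏ l ∈ T, l) := by ring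
    rw [e1]
    have hnd : ¬ a ∣ ∏ l ∈ T, l := by
      intro h
      obtain ⟨l, hl, hal⟩ := (Prime.dvd_finsetProd_iff hap.prime _).1 h
      have := (Nat.prime_dvd_prime_iff_eq hap (hT' l hl)).1 hal
      exact ha (this ▸ hl)
    by_cases h : a ∣ m
    · rw [if_pos h, Nat.totient_mul_of_prime_of_dvd hap (Dvd.dvd.mul_right h _)]
      push_cast
      rw [ih']
      ring
    · have h2 : ¬ a ∣ m * ∏ l ∈ T, l := by
        intro h3
        rcases (Nat.Prime.dvd_mul hap).1 h3 with h4 | h4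
        · exact h h4
        · exact hnd h4
      rw [if_neg h, Nat.totient_mul_of_prime_of_not_dvd hap h2]
      push_cast
      rw [ih', Nat.cast_sub hap.one_le]
      push_cast
      ring

theorem sa_local (w m n' d : ℕ) (hm : 1 ≤ m) (hd : Squarefree d) :
    (1 / ((m * d).totient : ℝ)) * ∏ l ∈ d.primeFactors, ((OmA w m n' l).card : ℝ) =
      (1 / (m.totient : ℝ)) * ∏ l ∈ d.primeFactors, gA w m n' l := by
  classical
  have h1 := sa_phi m d.primeFactors (fun l hl => Nat.prime_of_mem_primeFactors hl)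
  rw [Nat.prod_primeFactors_of_squarefree hd] at h1
  rw [h1]
  have h2 : ∀ l ∈ d.primeFactors, gA w m n' l =
      ((OmA w m n' l).card : ℝ) / (if l ∣ m then (l : ℝ) else (l : ℝ) - 1) := by
    intro l _
    unfold gA
    split_ifs <;> rfl
  rw [Finset.prod_congr rfl h2, Finset.prod_div_distrib]
  field_simp

theorem sa_coprime (w m n' d a : ℕ) (h : ∀ l ∈ d.primeFactors, a % l ∈ OmA w m n' l)
    (hd : d ≠ 0) (hma : m * a ≤ n') : (n' - m * a).Coprime d := by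
  classical
  apply Nat.coprime_of_dvd
  intro l hl h1 h2
  have h3 := h l (Nat.mem_primeFactors.2 ⟨hl, h2, hd⟩)
  unfold OmA at h3
  rw [Finset.mem_filter] at h3
  apply h3.2.2
  have h4 : n' ≡ m * a [MOD l] := by
    rw [Nat.ModEq.comm]
    exact (Nat.modEq_iff_dvd' hma).2 h1
  have h5 : m * (a % l) ≡ m * a [MOD l] := (Nat.mod_modEq a l).mul_left m
  exact (h5.trans h4.symm)

theorem sa_count (N n' : ℕ) (δ : ℝ) (hδ : 0 < δ) (hN : 2 ≤ N) (hn1 : 1 ≤ n')
    (hn' : (n' : ℝ) ≤ (N : ℝ) ^ 2) (T : Finset ℕ) (hT : ∀ l ∈ T, l.Prime ∧ l ∣ n')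
    (hw : ∀ l ∈ T, (N : ℝ) ^ δ ≤ l) : T.card ≤ ⌈2 / δ⌉₊ := by
  classical
  have hN1 : (1 : ℝ) < N := by exact_mod_cast hN
  have hdvd : ∏ l ∈ T, l ∣ n' :=
    Finset.prod_primes_dvd n' (fun l hl => (hT l hl).1.prime) (fun l hl => (hT l hl).2)
  have hle : ((∏ l ∈ T, l : ℕ) : ℝ) ≤ n' := by exact_mod_cast Nat.le_of_dvd hn1 hdvd
  have h1 : ((N : ℝ) ^ δ) ^ T.card ≤ ((∏ l ∈ T, l : ℕ) : ℝ) := by
    push_cast
    rw [← Finset.prod_const]
    apply Finset.prod_le_prod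
    · intro l _
      positivity
    · intro l hl
      exact hw l hl
  have h2 : (N : ℝ) ^ (δ * T.card) ≤ (N : ℝ) ^ (2 : ℝ) := by
    rw [Real.rpow_mul (by linarith), Real.rpow_natCast]
    have : (N : ℝ) ^ (2 : ℝ) = (N : ℝ) ^ (2 : ℕ) := by
      rw [← Real.rpow_natCast]
      norm_num
    rw [this]
    exact h1.trans (hle.trans hn')
  have h3 : δ * T.card ≤ 2 := (Real.rpow_le_rpow_left_iff hN1).1 h2
  have h4 : (T.card : ℝ) ≤ 2 / δ := by
    rw [le_div_iff₀ hδ]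
    linarith
  exact_mod_cast h4.trans (Nat.le_ceil _)

/-! ### asymptotics -/

theorem sa_floor (α β : ℝ) (hα : 0 ≤ α) (hαβ : α < β) :
    ∀ᶠ N : ℕ in atTop, (N : ℝ) ^ α ≤ (⌊(N : ℝ) ^ β⌋₊ : ℝ) := by
  have h1 : Tendsto (fun N : ℕ => (N : ℝ) ^ (β - α)) atTop atTop :=
    (tendsto_rpow_atTop (by linarith)).comp tendsto_natCast_atTop_atTop
  filter_upwards [h1.eventually_ge_atTop 2, eventually_ge_atTop 1] with N hN hN1
  have hNR : (1 : ℝ) ≤ N := by exact_mod_cast hN1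
  have h2 : (N : ℝ) ^ β = (N : ℝ) ^ α * (N : ℝ) ^ (β - α) := by
    rw [← Real.rpow_add (by linarith)]
    congr 1
    ring
  have h3 : 1 ≤ (N : ℝ) ^ α := Real.one_le_rpow hNR hα
  have h4 := Nat.lt_floor_add_one ((N : ℝ) ^ β)
  nlinarith

theorem sa_log_pow (k : ℕ) (ε M : ℝ) (hε : 0 < ε) (hM : 0 < M) :
    ∀ᶠ N : ℕ in atTop, M * Real.log N ^ k ≤ (N : ℝ) ^ ε := by
  have h := isLittleO_log_rpow_rpow_atTop (k : ℝ) hε
  have h2 := h.def (c := M⁻¹) (by positivity)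
  have h3 := tendsto_natCast_atTop_atTop (R := ℝ) |>.eventually h2
  filter_upwards [h3, eventually_ge_atTop 3] with N hN hN3
  have hN3' : (3 : ℝ) ≤ N := by exact_mod_cast hN3
  have hlog : 0 ≤ Real.log N := Real.log_nonneg (by linarith)
  rw [Real.norm_of_nonneg (Real.rpow_nonneg hlog _), Real.norm_of_nonneg (by positivity),
    Real.rpow_natCast] at hN
  calc M * Real.log N ^ k ≤ M * (M⁻¹ * (N : ℝ) ^ ε) := by gcongr
    _ = (N : ℝ) ^ ε := by field_simp

theorem sa_log_large (M : ℝ) : ∀ᶠ N : ℕ in atTop, M ≤ Real.log N :=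
  (Real.tendsto_log_atTop.comp tendsto_natCast_atTop_atTop).eventually_ge_atTop M

/-- the integral of the weight -/
theorem sa_int (η : ℝ → ℝ) (hη : IsWt η) : 1 / 2 ≤ ∫ t in (0 : ℝ)..1, η t ∧
    ∫ t in (0 : ℝ)..1, η t ≤ 1 ∧ ∫ t in (0 : ℝ)..1, etaR η t = ∫ t in (0 : ℝ)..1, η t := by
  have hint : ∀ a b : ℝ, IntervalIntegrable η MeasureTheory.volume a b :=
    fun a b => hη.smooth.continuous.intervalIntegrable a b
  refine ⟨?_, ?_, ?_⟩
  · have h1 : ∫ t in (0 : ℝ)..1, η t =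
        (∫ t in (0 : ℝ)..(1 / 4), η t) + (∫ t in (1 / 4 : ℝ)..(3 / 4), η t) +
        ∫ t in (3 / 4 : ℝ)..1, η t := by
      rw [intervalIntegral.integral_add_adjacent_intervals (hint _ _) (hint _ _),
        intervalIntegral.integral_add_adjacent_intervals (hint _ _) (hint _ _)]
    have h2 : 0 ≤ ∫ t in (0 : ℝ)..(1 / 4), η t :=
      intervalIntegral.integral_nonneg (by norm_num) (fun x _ => hη.nonneg x)
    have h3 : 0 ≤ ∫ t in (3 / 4 : ℝ)..1, η t :=
      intervalIntegral.integral_nonneg (by norm_num) (fun x _ => hη.nonneg x)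
    have h4 : ∫ t in (1 / 4 : ℝ)..(3 / 4), η t = 1 / 2 := by
      have h5 : ∫ t in (1 / 4 : ℝ)..(3 / 4), η t = ∫ t in (1 / 4 : ℝ)..(3 / 4), (1 : ℝ) := by
        apply intervalIntegral.integral_congr
        intro x hx
        rw [Set.uIcc_of_le (by norm_num)] at hx
        exact hη.one x hx.1 hx.2
      rw [h5, intervalIntegral.integral_const, smul_eq_mul]
      norm_num
    linarith
  · have h1 : ∫ t in (0 : ℝ)..1, η t ≤ ∫ t in (0 : ℝ)..1, (1 : ℝ) := by
      apply intervalIntegral.integral_mono_on (by norm_num) (hint _ _)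
        (continuous_const.intervalIntegrable _ _)
      intro x _
      exact hη.le_one x
    rw [intervalIntegral.integral_const, smul_eq_mul] at h1
    linarith
  · unfold etaR
    rw [intervalIntegral.integral_comp_sub_left (fun x => η x) 1]
    norm_num

theorem sa_wt (η : ℝ → ℝ) (hη : IsWt η) : IsWt (etaR η) where
  smooth := by
    unfold etaR
    exact hη.smooth.comp (contDiff_const.sub contDiff_id)
  nonneg := fun x => hη.nonneg _
  le_one := fun x => hη.le_one _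
  supp := by
    intro x hx
    have h := hη.supp (1 - x) hx
    constructor <;> linarith [h.1, h.2]
  one := by
    intro x h1 h2
    exact hη.one (1 - x) (by linarith) (by linarith)

/-- the sieve function near `s = 4` -/
theorem sa_sieve (L lz τ : ℝ) (hL : 0 < L) (hτ : 0 ≤ τ) (hτ1 : τ ≤ 1 / 16) (h1 : lz ≤ L / 8)
    (h2 : (1 / 2 - τ) * L ≤ 4 * lz) :
    Real.log 3 / 4 - 4 * τ ≤ Real.log ((1 / 2 - τ) * L / lz - 1) * lz / ((1 / 2 - τ) * L) ∧
    Real.log ((1 / 2 - τ) * L / lz - 1) * lz / ((1 / 2 - τ) * L) ≤ 1 ∧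
    0 ≤ Real.log ((1 / 2 - τ) * L / lz - 1) * lz / ((1 / 2 - τ) * L) := by
  have hD : 0 < (1 / 2 - τ) * L := mul_pos (by linarith) hL
  have hlz : 0 < lz := by linarith
  set s := (1 / 2 - τ) * L / lz with hs
  have hs1 : 4 - 8 * τ ≤ s := by
    rw [hs, le_div_iff₀ hlz]
    nlinarith
  have hs2 : s ≤ 4 := by
    rw [hs, div_le_iff₀ hlz]
    exact h2
  have hs0 : 0 < s := by linarith
  have e : Real.log (s - 1) * lz / ((1 / 2 - τ) * L) = Real.log (s - 1) / s := by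
    rw [hs]
    field_simp
  rw [e]
  have hlog1 : Real.log (3 - 8 * τ) ≤ Real.log (s - 1) :=
    Real.log_le_log (by linarith) (by linarith)
  have hlog2 : Real.log (s - 1) ≤ s - 1 := by
    have := Real.log_le_sub_one_of_pos (x := s - 1) (by linarith)
    linarith
  have hlog3 : 0 ≤ Real.log (s - 1) := Real.log_nonneg (by linarith)
  have hlog4 : Real.log 3 - 16 * τ ≤ Real.log (3 - 8 * τ) := by
    have h3 : Real.log (3 - 8 * τ) = Real.log 3 + Real.log (1 - 8 * τ / 3) := by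
      rw [← Real.log_mul (by norm_num) (by linarith)]
      congr 1
      ring
    have h4 := Real.one_sub_inv_le_log_of_pos (x := 1 - 8 * τ / 3) (by linarith)
    have h5 : (1 - 8 * τ / 3)⁻¹ ≤ 1 + 16 * τ := by
      rw [inv_le_comm₀ (by linarith) (by linarith)]
      rw [inv_le_iff_one_le_mul₀ (by linarith)]
      nlinarith
    linarith
  refine ⟨?_, ?_, ?_⟩
  · rw [le_div_iff₀ hs0]
    have h5 : 0 ≤ Real.log 3 := Real.log_nonneg (by norm_num)
    by_cases h6 : 0 ≤ Real.log 3 / 4 - 4 * τ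
    · calc (Real.log 3 / 4 - 4 * τ) * s ≤ (Real.log 3 / 4 - 4 * τ) * 4 := by gcongr
        _ = Real.log 3 - 16 * τ := by ring
        _ ≤ Real.log (s - 1) := hlog4.trans hlog1
    · push Not at h6
      have := mul_neg_of_neg_of_pos h6 hs0
      linarith
  · rw [div_le_one hs0]
    linarith
  · exact div_nonneg hlog3 hs0.le

/-- the density satisfies the hypotheses of the sieve -/
theorem sa_dns (h4 : St_Dens) (N m n' : ℕ) (δ : ℝ) (hδ : 0 < δ) (hN : 2 ≤ N) (hm : 1 ≤ m)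
    (hmw : (m : ℝ) ≤ (N : ℝ) ^ δ) (hcop : n'.Coprime m) (hpar : (n' + m) % 2 = 1)
    (hn1 : 1 ≤ n') (hn' : (n' : ℝ) ≤ (N : ℝ) ^ 2) :
    Dns ⌊(N : ℝ) ^ δ⌋₊ (zN N) ⌈2 / δ⌉₊ (gA (wN δ N) m n') := by
  classical
  obtain ⟨hD1, hD2, hD3⟩ := h4 (wN δ N) m n' hm hcop hpar
  have hmw' : m ≤ wN δ N := Nat.le_floor hmw
  have hnm : ∀ l : ℕ, wN δ N < l → ¬ l ∣ m := by
    intro l hl h
    have := Nat.le_of_dvd (by omega) h
    omega
  refine ⟨fun l hl => ⟨(hD1 l hl).2.2.1, (hD1 l hl).2.2.2.1, (hD1 l hl).2.2.2.2.1⟩, ?_, ?_⟩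
  · intro l hl hwl _
    have h5 := (hD2 l hl hwl (hnm l hwl)).2
    by_cases h6 : l ∣ n'
    · exact Or.inl (h5.1 h6)
    · exact Or.inr (h5.2 h6)
  · apply sa_count N n' δ hδ hN hn1 hn'
    · intro l hl
      rw [Finset.mem_filter] at hl
      have hlp : l.Prime := by
        have := hl.1
        unfold pr at this
        exact (Finset.mem_filter.1 this).2
      refine ⟨hlp, ?_⟩
      by_contra hcon
      have h5 := (hD2 l hlp hl.2.1 (hnm l hl.2.1)).2.2 hcon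
      rw [hl.2.2] at h5
      have h6 : (0 : ℝ) < 1 / ((l : ℝ) - 1) := by
        have h7 : (2 : ℝ) ≤ l := by exact_mod_cast hlp.two_le
        apply one_div_pos.2
        linarith
      linarith
    · intro l hl
      rw [Finset.mem_filter] at hl
      have h5 := Nat.lt_floor_add_one ((N : ℝ) ^ δ)
      have h6 : ((wN δ N : ℕ) : ℝ) + 1 ≤ l := by exact_mod_cast hl.2.1
      unfold wN at h6
      linarith

/-- the sum as a sum over all `q` -/
theorem sa_sift (ϖ c : ℕ → ℝ) (hϖ : ∀ q, 0 ≤ ϖ q) (Om : ℕ → Finset ℕ) (z N : ℕ)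
    (hc : ∀ S : Finset ℕ, S ⊆ pr z → ∑ T ∈ S.powerset, c (∏ l ∈ T, l) ≤
      (if S = ∅ then (1 : ℝ) else 0)) :
    ∑ q ∈ range (N + 1), ϖ q *
      ∑ T ∈ ((pr z).filter (fun l => q % l ∈ Om l)).powerset, c (∏ l ∈ T, l) ≤
    ∑ q ∈ (range (N + 1)).filter (fun q => ∀ l ∈ pr z, q % l ∉ Om l), ϖ q := by
  classical
  rw [Finset.sum_filter]
  apply Finset.sum_le_sum
  intro q _
  have h1 := hc ((pr z).filter (fun l => q % l ∈ Om l)) (Finset.filter_subset _ _)
  have h2 := mul_le_mul_of_nonneg_left h1 (hϖ q)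
  refine h2.trans (le_of_eq ?_)
  by_cases h : ∀ l ∈ pr z, q % l ∉ Om l
  · rw [if_pos h, if_pos (Finset.filter_eq_empty_iff.2 (fun l hl => h l hl)), mul_one]
  · rw [if_neg h, if_neg (fun h' => h (fun l hl => Finset.filter_eq_empty_iff.1 h' hl)), mul_zero]

/-- the error term -/
theorem sa_err (N C : ℕ) (θ R : ℝ) (hθ : θ ≤ 1) (hN : 1 ≤ N) (c E : ℕ → ℝ)
    (hc1 : ∀ d, c d ≠ 0 → (d : ℝ) ≤ (N : ℝ) ^ θ)
    (hc2 : ∀ d, |c d| ≤ C * (C : ℝ) ^ d.primeFactors.card) (hE : ∀ d, 0 ≤ E d)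
    (hsum : ∑ d ∈ (Icc 1 N).filter (fun d : ℕ => (d : ℝ) ≤ (N : ℝ) ^ θ),
      ((3 * C : ℕ) : ℝ) ^ d.primeFactors.card * E d ≤ R) :
    ∑ d ∈ Icc 1 (N ^ 2), |c d| * (((3 : ℕ) : ℝ) ^ d.primeFactors.card * E d) ≤ C * R := by
  classical
  have hNR : (1 : ℝ) ≤ N := by exact_mod_cast hN
  have h1 : ∑ d ∈ (Icc 1 N).filter (fun d : ℕ => (d : ℝ) ≤ (N : ℝ) ^ θ),
      |c d| * (((3 : ℕ) : ℝ) ^ d.primeFactors.card * E d) =
      ∑ d ∈ Icc 1 (N ^ 2), |c d| * (((3 : ℕ) : ℝ) ^ d.primeFactors.card * E d) := by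
    apply Finset.sum_subset
    · intro d hd
      rw [Finset.mem_filter, Finset.mem_Icc] at hd
      rw [Finset.mem_Icc]
      refine ⟨hd.1.1, hd.1.2.trans ?_⟩
      exact Nat.le_self_pow (by norm_num) N
    · intro d hd hd'
      rw [Finset.mem_Icc] at hd
      have hc0 : c d = 0 := by
        by_contra hcon
        apply hd'
        have h2 := hc1 d hcon
        rw [Finset.mem_filter, Finset.mem_Icc]
        refine ⟨⟨hd.1, ?_⟩, h2⟩
        have h3 : (N : ℝ) ^ θ ≤ (N : ℝ) ^ (1 : ℝ) := Real.rpow_le_rpow_of_exponent_le hNR hθ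
        rw [Real.rpow_one] at h3
        exact_mod_cast h2.trans h3
      rw [hc0, abs_zero, zero_mul]
  rw [← h1]
  calc ∑ d ∈ (Icc 1 N).filter (fun d : ℕ => (d : ℝ) ≤ (N : ℝ) ^ θ),
      |c d| * (((3 : ℕ) : ℝ) ^ d.primeFactors.card * E d) ≤
      ∑ d ∈ (Icc 1 N).filter (fun d : ℕ => (d : ℝ) ≤ (N : ℝ) ^ θ),
        C * (((3 * C : ℕ) : ℝ) ^ d.primeFactors.card * E d) := by
        apply Finset.sum_le_sum
        intro d _
        have h2 := hE d
        have h3 := hc2 d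
        push_cast
        rw [mul_pow]
        calc |c d| * ((3 : ℝ) ^ d.primeFactors.card * E d) ≤
              (C * (C : ℝ) ^ d.primeFactors.card) * ((3 : ℝ) ^ d.primeFactors.card * E d) := by
              gcongr
          _ = C * ((3 : ℝ) ^ d.primeFactors.card * (C : ℝ) ^ d.primeFactors.card * E d) := by
              ring
    _ = C * ∑ d ∈ (Icc 1 N).filter (fun d : ℕ => (d : ℝ) ≤ (N : ℝ) ^ θ),
        ((3 * C : ℕ) : ℝ) ^ d.primeFactors.card * E d := by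
        rw [Finset.mul_sum]
    _ ≤ C * R := by gcongr

/-- the final computation -/
theorem sa_final (A0 ε τ ε' ε₁ ε₂ I N V P m B f Err S : ℝ) (hA0 : 0 < A0)
    (hI1 : 1 / 2 ≤ I) (hN : 0 < N) (hV : 0 ≤ V) (hm : 0 < m)
    (hP : |P - m * N * I| ≤ ε₁ * (m * N)) (hB : B = A0 * f - ε')
    (hf1 : Real.log 3 / 4 - 4 * τ ≤ f) (hf2 : f ≤ 1) (hf3 : 0 ≤ f) (hε' : 0 ≤ ε') (hε'1 : ε' ≤ 1)
    (hε₁ : 0 ≤ ε₁)
    (hsum : 4 * A0 * τ + ε' + 2 * ε₁ * (A0 + 1) + ε₂ ≤ ε) (hErr : Err ≤ ε₂ * (I * N * V))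
    (hS : P / m * V * B - Err ≤ S) :
    (A0 * (Real.log 3 / 4) - ε) * (I * N * V) ≤ S := by
  have hBabs : |B| ≤ A0 + 1 := by
    rw [abs_le, hB]
    constructor <;> nlinarith
  have h1 : N * V * (I * B) - ε₁ * N * V * (A0 + 1) ≤ P / m * V * B := by
    have h2 : P / m * V * B = N * V * (I * B) + (P - m * N * I) / m * V * B := by
      field_simp
      ring
    have h3 : |(P - m * N * I) / m * V * B| ≤ ε₁ * N * V * (A0 + 1) := by
      rw [abs_mul, abs_mul, abs_div, abs_of_pos hm, abs_of_nonneg hV]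
      have h4 : |P - m * N * I| / m ≤ ε₁ * N := by
        rw [div_le_iff₀ hm]
        linarith
      gcongr
    have h5 := neg_abs_le ((P - m * N * I) / m * V * B)
    rw [h2]
    linarith
  have h6 : A0 * (Real.log 3 / 4) - 4 * A0 * τ - ε' ≤ B := by
    rw [hB]
    nlinarith
  have hINV : 0 ≤ I * N * V := by
    have : 0 ≤ I := by linarith
    positivity
  have h7 : (A0 * (Real.log 3 / 4) - 4 * A0 * τ - ε') * (I * N * V) ≤ N * V * (I * B) := by
    calc (A0 * (Real.log 3 / 4) - 4 * A0 * τ - ε') * (I * N * V) ≤ B * (I * N * V) := by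
          exact mul_le_mul_of_nonneg_right h6 hINV
      _ = N * V * (I * B) := by ring
  have h8 : ε₁ * N * V * (A0 + 1) ≤ 2 * ε₁ * (A0 + 1) * (I * N * V) := by
    have h9 : ε₁ * N * V * (A0 + 1) * 1 ≤ ε₁ * N * V * (A0 + 1) * (2 * I) := by
      apply mul_le_mul_of_nonneg_left (by linarith)
      positivity
    calc ε₁ * N * V * (A0 + 1) = ε₁ * N * V * (A0 + 1) * 1 := by ring
      _ ≤ ε₁ * N * V * (A0 + 1) * (2 * I) := h9
      _ = 2 * ε₁ * (A0 + 1) * (I * N * V) := by ring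
  have h10 : (4 * A0 * τ + ε' + 2 * ε₁ * (A0 + 1) + ε₂) * (I * N * V) ≤ ε * (I * N * V) :=
    mul_le_mul_of_nonneg_right hsum hINV
  nlinarith

/-- `n' ≤ N ^ 2` -/
theorem sa_nn (N m n' : ℕ) (hN : 16 ≤ N) (hm : (m : ℝ) ≤ (N : ℝ) ^ (1 / 4 : ℝ))
    (h2 : n' < m * (N + 1)) : (n' : ℝ) ≤ (N : ℝ) ^ 2 := by
  have hNR : (16 : ℝ) ≤ N := by exact_mod_cast hN
  have h4 : (n' : ℝ) ≤ m * (N + 1) := by exact_mod_cast h2.le
  have h6 : ((N : ℝ) ^ (1 / 4 : ℝ)) ^ (4 : ℕ) = N := by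
    rw [← Real.rpow_natCast, ← Real.rpow_mul (by linarith)]
    norm_num
  set r := (N : ℝ) ^ (1 / 4 : ℝ) with hr
  have hr0 : 0 ≤ r := Real.rpow_nonneg (by linarith) _
  have hr2 : 2 ≤ r := by
    by_contra hcon
    push Not at hcon
    have h7 : r ^ 4 < 2 ^ 4 := pow_lt_pow_left₀ hcon hr0 (by norm_num)
    linarith
  have h8 : 8 * r ≤ N := by
    have h9 : r ^ 4 = r * r ^ 3 := by ring
    have h10 : (2 : ℝ) ^ 3 ≤ r ^ 3 := pow_le_pow_left₀ (by norm_num) hr2 3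
    nlinarith
  have h9 : r * (N + 1) ≤ (N : ℝ) ^ 2 := by nlinarith
  calc (n' : ℝ) ≤ m * (N + 1) := h4
    _ ≤ r * (N + 1) := by gcongr
    _ ≤ (N : ℝ) ^ 2 := h9

/-- keep this signature -/
theorem thm_SA (A0 : ℝ) (hA0 : 0 < A0) (h0 : St_LinL A0) (h1 : St_ABV) (h2 : St_Gen) (h3 : St_VLow) (h4 : St_Dens) (h5 : St_P1) : St_SA A0 := by
  classical
  intro η hη ε hε
  set τ : ℝ := min (1 / 16) (ε / (16 * (A0 + 1))) with hτdef
  have hA1 : 0 < A0 + 1 := by linarith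
  have hτ0 : 0 < τ := lt_min (by norm_num) (by positivity)
  have hτ1 : τ ≤ 1 / 16 := min_le_left _ _
  have hτ2 : τ ≤ ε / (16 * (A0 + 1)) := min_le_right _ _
  set ε' : ℝ := min (τ / 2) (ε / 4) with hε'def
  have hε'0 : 0 < ε' := lt_min (by positivity) (by positivity)
  have hε'1 : ε' ≤ τ / 2 := min_le_left _ _
  have hε'2 : ε' ≤ ε / 4 := min_le_right _ _
  set ε₁ : ℝ := ε / (16 * (A0 + 1)) with hε₁def
  have hε₁0 : 0 < ε₁ := by positivity
  set ε₂ : ℝ := ε / 8 with hε₂def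
  have hε₂0 : 0 < ε₂ := by positivity
  obtain ⟨hI1, hI2, hI3⟩ := sa_int η hη
  set I := ∫ t in (0 : ℝ)..1, η t with hIdef
  obtain ⟨δ₀, C, hδ₀, hL⟩ := h0 ε' hε'0
  obtain ⟨cV, kV, hcV, hV⟩ := h3
  refine ⟨min δ₀ (1 / 8), lt_min hδ₀ (by norm_num), ?_⟩
  intro δ hδ hδ1 A₀
  have hδ2 : δ ≤ δ₀ := hδ1.trans (min_le_left _ _)
  have hδ3 : δ ≤ 1 / 8 := hδ1.trans (min_le_right _ _)
  have hLδ := hL δ hδ hδ2 ⌈2 / δ⌉₊
  have hAB := h1 η hη (1 / 2 - τ / 2) (by linarith) (by linarith) (kV + 1) A₀ (3 * C)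
  have hP := h5 (etaR η) (sa_wt η hη) ε₁ hε₁0
  rw [hI3] at hP
  rw [eventually_atTop] at hP
  obtain ⟨N1, hN1⟩ := hP
  filter_upwards [hLδ, hAB, eventually_ge_atTop (max N1 256),
    sa_floor (1 / 10) (1 / 8) (by norm_num) (by norm_num),
    sa_floor ((1 / 2 - τ) / 4) (1 / 8) (by linarith) (by linarith),
    sa_log_pow A₀ δ 1 hδ one_pos, sa_log_pow A₀ (1 / 4) 1 (by norm_num) one_pos,
    sa_log_large (2 * C / (ε₂ * cV) + 1)] with N hLN hABN hN hz1 hz2 hmd hm4 hlarge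
  have hNN1 : N1 ≤ N := (le_max_left _ _).trans hN
  have hN256 : 256 ≤ N := (le_max_right _ _).trans hN
  have hNR : (256 : ℝ) ≤ N := by exact_mod_cast hN256
  have hNpos : (0 : ℝ) < N := by linarith
  intro m n' hSit
  obtain ⟨hm, hmL, hcop, hpar, hmn1, hmn2⟩ := hSit
  have hmR : (0 : ℝ) < m := by exact_mod_cast hm
  rw [one_mul] at hmd hm4
  have hmδ : (m : ℝ) ≤ (N : ℝ) ^ δ := hmL.trans hmd
  have hm4' : (m : ℝ) ≤ (N : ℝ) ^ (1 / 4 : ℝ) := hmL.trans hm4
  have hmN : N ≤ m * N := Nat.le_mul_of_pos_left N hm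
  have hn1 : 1 ≤ n' := by omega
  have hnn := sa_nn N m n' (by omega) hm4' hmn2
  have hdns := sa_dns h4 N m n' δ hδ (by omega) hm hmδ hcop hpar hn1 hnn
  obtain ⟨hD1, hD2, hD3⟩ := h4 (wN δ N) m n' hm hcop hpar
  have hmw : m ≤ wN δ N := Nat.le_floor hmδ
  have hwz : wN δ N ≤ zN N := by
    apply Nat.floor_le_floor
    apply Real.rpow_le_rpow_of_exponent_le (by linarith) hδ3
  -- the parameters of the sieve
  set z := zN N with hzdef
  have hz1' : (N : ℝ) ^ (1 / 10 : ℝ) ≤ z := hz1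
  have hz2' : (N : ℝ) ^ ((1 / 2 - τ) / 4) ≤ z := hz2
  have hzup : (z : ℝ) ≤ (N : ℝ) ^ (1 / 8 : ℝ) := Nat.floor_le (by positivity)
  have hzone : (1 : ℝ) ≤ z := by
    have h6 : 1 ≤ (N : ℝ) ^ (1 / 10 : ℝ) := Real.one_le_rpow (by linarith) (by norm_num)
    linarith
  set D := (N : ℝ) ^ (1 / 2 - τ) with hDdef
  have hDz2 : (z : ℝ) ^ 2 ≤ D := by
    calc (z : ℝ) ^ 2 ≤ ((N : ℝ) ^ (1 / 8 : ℝ)) ^ 2 := by gcongr
      _ = (N : ℝ) ^ (1 / 4 : ℝ) := by
          rw [← Real.rpow_natCast, ← Real.rpow_mul hNpos.le]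
          norm_num
      _ ≤ D := Real.rpow_le_rpow_of_exponent_le (by linarith) (by linarith)
  have hDz4 : D ≤ (z : ℝ) ^ 4 := by
    calc D = ((N : ℝ) ^ ((1 / 2 - τ) / 4)) ^ 4 := by
          rw [← Real.rpow_natCast, ← Real.rpow_mul hNpos.le, hDdef]
          congr 1
          push_cast
          ring
      _ ≤ (z : ℝ) ^ 4 := by gcongr
  have hDN : D ≤ N := by
    calc D ≤ (N : ℝ) ^ (1 : ℝ) := Real.rpow_le_rpow_of_exponent_le (by linarith) (by linarith)
      _ = N := Real.rpow_one _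
  obtain ⟨c, hc1, hc2, hc3, hc4⟩ := hLN z D hz1' hDz2 hDz4 hDN (gA (wN δ N) m n') hdns
  -- logarithms
  set L := Real.log N with hLdef
  have hL0 : 0 < L := Real.log_pos (by linarith)
  have hlogD : Real.log D = (1 / 2 - τ) * L := by
    rw [hDdef, Real.log_rpow hNpos]
  have hlz1 : Real.log z ≤ L / 8 := by
    calc Real.log z ≤ Real.log ((N : ℝ) ^ (1 / 8 : ℝ)) := Real.log_le_log (by linarith) hzup
      _ = L / 8 := by rw [Real.log_rpow hNpos]; ring
  have hlz2 : (1 / 2 - τ) * L ≤ 4 * Real.log z := by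
    rw [← hlogD]
    calc Real.log D ≤ Real.log ((z : ℝ) ^ 4) := Real.log_le_log (by positivity) hDz4
      _ = 4 * Real.log z := by rw [Real.log_pow]; push_cast; ring
  obtain ⟨hf1, hf2, hf3⟩ := sa_sieve L (Real.log z) τ hL0 hτ0.le hτ1 hlz1 hlz2
  rw [hlogD] at hc3
  -- Bombieri-Vinogradov
  obtain ⟨E, hE0, hE1, hE2⟩ := hABN m n' hm hmL hcop hmn1 hmn2
  have hcsupp : ∀ d, c d ≠ 0 → (d : ℝ) ≤ (N : ℝ) ^ (1 / 2 - τ / 2) := by
    intro d hd
    refine (hc1 d hd).2.2.trans ?_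
    rw [hDdef, ← Real.rpow_add hNpos]
    exact Real.rpow_le_rpow_of_exponent_le (by linarith) (by linarith)
  have hcN : ∀ d, c d ≠ 0 → d < N := by
    intro d hd
    have h6 := hcsupp d hd
    have h7 : (N : ℝ) ^ (1 / 2 - τ / 2) < (N : ℝ) ^ (1 : ℝ) :=
      Real.rpow_lt_rpow_of_exponent_lt (by linarith) (by linarith)
    rw [Real.rpow_one] at h7
    exact_mod_cast h6.trans_lt h7
  set ϖ : ℕ → ℝ := fun q => lam (n' - m * q) * η ((q : ℝ) / N) with hϖdef
  have hϖ0 : ∀ q, 0 ≤ ϖ q := fun q =>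
    mul_nonneg ArithmeticFunction.vonMangoldt_nonneg (hη.nonneg _)
  have hgen := h2 ϖ c (fun d => 1 / ((m * d).totient : ℝ)) E (fun l => OmA (wN δ N) m n' l)
    (pr z) N (N ^ 2) 3 (psi0 (etaR η) (m * N))
    (fun l hl => by unfold pr at hl; exact (Finset.mem_filter.1 hl).2)
    (fun l hl => by
      have hlp : l.Prime := by unfold pr at hl; exact (Finset.mem_filter.1 hl).2
      exact ⟨Finset.filter_subset _ _, (hD1 l hlp).1⟩)
    (fun d hd => by
      refine ⟨(hc1 d hd).1, ?_, ?_⟩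
      · intro p hp
        unfold pr
        rw [Finset.mem_filter, Finset.mem_range]
        refine ⟨?_, Nat.prime_of_mem_primeFactors hp⟩
        have h6 := (hc1 d hd).2.1 p hp
        omega
      · have h6 := hcN d hd
        have h7 : N ≤ N ^ 2 := Nat.le_self_pow (by norm_num) N
        omega)
    hE0
    (fun d hd a ha hal => by
      have hd0 : d ≠ 0 := (hc1 d hd).1.ne_zero
      have hdN := hcN d hd
      have hma : m * a ≤ n' := by
        calc m * a ≤ m * N := Nat.mul_le_mul_left m (by omega)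
          _ ≤ n' := hmn1
      have h6 := hE1 d a (by omega) (hcsupp d hd) ha
        (sa_coprime (wN δ N) m n' d a hal hd0 hma)
      unfold AAP at h6
      rw [Nat.mod_eq_of_lt ha] at h6
      rw [mul_one_div]
      exact h6)
  -- the main term
  have hmain : psi0 (etaR η) (m * N) * ∑ d ∈ Icc 1 (N ^ 2), c d *
      (1 / ((m * d).totient : ℝ) * ∏ l ∈ d.primeFactors, ((OmA (wN δ N) m n' l).card : ℝ)) =
      psi0 (etaR η) (m * N) / (m.totient : ℝ) *
        ∑ d ∈ Icc 1 (N ^ 2), c d * ∏ p ∈ d.primeFactors, gA (wN δ N) m n' p := by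
    rw [div_mul_eq_mul_div, mul_div_assoc, Finset.sum_div]
    congr 1
    apply Finset.sum_congr rfl
    intro d _
    by_cases hd : c d = 0
    · rw [hd]
      ring
    · rw [sa_local (wN δ N) m n' d hm (hc1 d hd).1]
      ring
  have herr := sa_err N C (1 / 2 - τ / 2) (N / L ^ (kV + 1)) (by linarith) (by omega) c E hcsupp
    hc2 hE0 hE2
  have hsift := sa_sift ϖ c hϖ0 (fun l => OmA (wN δ N) m n' l) z N hc4
  have hVA := hD3 z hmw hwz
  have hVpos : 0 ≤ VV (gB (wN δ N) m n') z := by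
    unfold VV
    apply Finset.prod_nonneg
    intro l hl
    have hlp : l.Prime := by unfold pr at hl; exact (Finset.mem_filter.1 hl).2
    have := (hD1 l hlp).2.2.2.2.2.2.1
    linarith
  have hpsi0 : 0 ≤ psi0 (etaR η) (m * N) := by
    unfold psi0
    apply Finset.sum_nonneg
    intro q _
    exact mul_nonneg ArithmeticFunction.vonMangoldt_nonneg (hη.nonneg _)
  have htot : (0 : ℝ) < (m.totient : ℝ) := by exact_mod_cast Nat.totient_pos.2 hm
  -- assemble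
  have hlow : psi0 (etaR η) (m * N) / m * VV (gB (wN δ N) m n') z *
      (A0 * (Real.log ((1 / 2 - τ) * L / Real.log z - 1) * Real.log z / ((1 / 2 - τ) * L)) - ε') ≤
      psi0 (etaR η) (m * N) / (m.totient : ℝ) *
        ∑ d ∈ Icc 1 (N ^ 2), c d * ∏ p ∈ d.primeFactors, gA (wN δ N) m n' p := by
    have h6 := mul_le_mul_of_nonneg_left hc3 (div_nonneg hpsi0 htot.le)
    refine le_trans (le_of_eq ?_) h6
    rw [hVA]
    field_simp
  have hgen2 := (abs_sub_le_iff.1 hgen).2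
  rw [hmain] at hgen2
  have hErrUU : C * (N / L ^ (kV + 1)) ≤ ε₂ * (I * N * VV (gB (wN δ N) m n') z) := by
    have hz2n : 2 ≤ z := by
      have h6 : (256 : ℝ) ^ (1 / 8 : ℝ) = 2 := by
        have h7 : (256 : ℝ) = 2 ^ (8 : ℝ) := by norm_num
        rw [h7, ← Real.rpow_mul (by norm_num)]
        norm_num
      have h7 : (2 : ℝ) ≤ (N : ℝ) ^ (1 / 8 : ℝ) := by
        rw [← h6]
        exact Real.rpow_le_rpow (by norm_num) hNR (by norm_num)
      exact Nat.le_floor h7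
    have h6 := hV z (gB (wN δ N) m n') hz2n
      (fun l hl => ⟨(hD1 l hl).2.2.2.2.2.1, (hD1 l hl).2.2.2.2.2.2.1, (hD1 l hl).2.2.2.2.2.2.2⟩)
    have hlz0 : 0 < Real.log z := Real.log_pos (by exact_mod_cast hz2n)
    have h7 : cV / L ^ kV ≤ VV (gB (wN δ N) m n') z := by
      refine le_trans ?_ h6
      apply div_le_div_of_nonneg_left hcV.le (by positivity)
      apply pow_le_pow_left₀ hlz0.le
      linarith
    have h8 : (C : ℝ) * (N / L ^ (kV + 1)) ≤ ε₂ * (1 / 2 * N * (cV / L ^ kV)) := by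
      have h9 : 2 * C / (ε₂ * cV) ≤ L := by linarith
      rw [div_le_iff₀ (by positivity)] at h9
      have h10 : (C : ℝ) * (N / L ^ (kV + 1)) = (2 * C) * (N / (2 * L ^ kV * L)) := by
        rw [pow_succ]
        field_simp
      rw [h10]
      calc (2 * C) * (N / (2 * L ^ kV * L)) ≤ (L * (ε₂ * cV)) * (N / (2 * L ^ kV * L)) := by
            gcongr
        _ = ε₂ * (1 / 2 * N * (cV / L ^ kV)) := by
            field_simp
    refine h8.trans ?_
    have h11 : 0 ≤ cV / L ^ kV := by positivity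
    gcongr
  have hUU : UU η δ N m n' = I * N * VV (gB (wN δ N) m n') z := rfl
  rw [hUU]
  have hPm := hN1 (m * N) (hNN1.trans hmN)
  have hPm' : |psi0 (etaR η) (m * N) - m * N * I| ≤ ε₁ * (m * N) := by
    have h6 := hPm
    push_cast at h6
    exact h6
  refine sa_final A0 ε τ ε' ε₁ ε₂ I N (VV (gB (wN δ N) m n') z) (psi0 (etaR η) (m * N)) m
    (A0 * (Real.log ((1 / 2 - τ) * L / Real.log z - 1) * Real.log z / ((1 / 2 - τ) * L)) - ε')
    (Real.log ((1 / 2 - τ) * L / Real.log z - 1) * Real.log z / ((1 / 2 - τ) * L))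
    (C * (N / L ^ (kV + 1))) _ hA0 hI1 hNpos hVpos hmR hPm' rfl hf1 hf2 hf3 hε'0.le
    (by linarith) hε₁0.le ?_ hErrUU ?_
  · have h6 : 4 * A0 * τ ≤ ε / 4 := by
      have h7 : τ * (16 * (A0 + 1)) ≤ ε := by
        rw [le_div_iff₀ (by positivity)] at hτ2
        exact hτ2
      nlinarith
    have h8 : 2 * ε₁ * (A0 + 1) = ε / 8 := by
      rw [hε₁def]
      field_simp
      norm_num
    rw [h8, hε₂def]
    linarith
  · have h6 : ∑ d ∈ Icc 1 (N ^ 2), |c d| * (((3 : ℕ) : ℝ) ^ d.primeFactors.card * E d) ≤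
        C * (N / L ^ (kV + 1)) := herr
    have h7 : ∑ q ∈ range (N + 1), ϖ q *
      ∑ T ∈ ((pr z).filter (fun l => q % l ∈ OmA (wN δ N) m n' l)).powerset, c (∏ l ∈ T, l) ≤
      ∑ q ∈ (range (N + 1)).filter (fun q => ∀ l ∈ pr z, q % l ∉ OmA (wN δ N) m n' l), ϖ q :=
      hsift
    linarith

end Pool.Agent.CH
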